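import Pool.Agent.Lib.MP_d3d358_ag.Th.Eta

/-! Homological definitions: complexes of theta bundles, towers of cocones, and the interface to the
geometry. -/

set_option autoImplicit false

namespace Pool.Agent.Lib.MP_d3d358_ag.Th

open CategoryTheory Limits Pretriangulated Abelian

universe w v u v' u'

section Gen

variable {P : Type u} [Category.{v} P] [Preadditive P] [HasZeroObject P] [HasBinaryBiproducts P]

/-- The homotopy category of cochain complexes. -/
abbrev HK (P : Type u) [Category.{v} P] [Preadditive P] : Type (max u v) :=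
  HomotopyCategory P (ComplexShape.up ℤ)

/-- The complex concentrated in degree zero. -/
noncomputable abbrev sing (X : P) : HK P := (HomotopyCategory.singleFunctor P 0).obj X

/-- The thick subcategory generated by the objects with property `S`, put in degree zero. -/
def env (S : ObjectProperty P) : ObjectProperty (HK P) :=
  ObjectProperty.triangEnvelope fun Z => ∃ X, S X ∧ Z = sing X

/-- An additive functor on homotopy categories. -/
noncomputable abbrev KF {Q : Type u'} [Category.{v'} Q] [Preadditive Q] (F : P ⥤ Q) [F.Additive] :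
    HK P ⥤ HK Q := F.mapHomotopyCategory (ComplexShape.up ℤ)

/-- An additive functor to an abelian category, with values in the derived category. -/
noncomputable abbrev DF {A : Type u'} [Category.{v'} A] [Abelian A] [HasDerivedCategory.{w} A]
    (F : P ⥤ A) [F.Additive] : HK P ⥤ DerivedCategory A := KF F ⋙ DerivedCategory.Qh

end Gen

section Cat

variable {K : Type u} [Category.{v} K] {D : Type u'} [Category.{v'} D]

/-- The functor `A` is bijective on the morphisms from `X` to `Y`. -/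
def Bij (A : K ⥤ D) (X Y : K) : Prop :=
  Function.Bijective (A.map : (X ⟶ Y) → (A.obj X ⟶ A.obj Y))

/-- Powers of an endofunctor. -/
def pw (T : K ⥤ K) : ℕ → K ⥤ K
  | 0 => 𝟭 K
  | s + 1 => pw T s ⋙ T

/-- Powers of a natural transformation from the identity, on an object. -/
def npow {T : K ⥤ K} (μ : 𝟭 K ⟶ T) (M : K) : ∀ s : ℕ, M ⟶ (pw T s).obj M
  | 0 => 𝟙 M
  | s + 1 => npow μ M s ≫ μ.app ((pw T s).obj M)

/-- Composition along a sequence. -/
def ypow {Z : ℕ → K} (y : ∀ j, Z j ⟶ Z (j + 1)) (j : ℕ) : ∀ s : ℕ, Z j ⟶ Z (j + s)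
  | 0 => 𝟙 _
  | s + 1 => ypow y j s ≫ y (j + s)

/-- The functor `A` is bijective on morphisms from `X` to the sequence `Z` in the limit. -/
def Loc [HasZeroMorphisms K] [HasZeroMorphisms D] (A : K ⥤ D) (X : K) {Z : ℕ → K}
    (y : ∀ j, Z j ⟶ Z (j + 1)) : Prop :=
  ∀ j, (∀ e : A.obj X ⟶ A.obj (Z j), ∃ s x, A.map x = e ≫ A.map (ypow y j s)) ∧
    ∀ x : X ⟶ Z j, A.map x = 0 → ∃ s, x ≫ ypow y j s = 0

/-- Iterated cocones of the natural maps `y i`. -/
structure Tower [HasZeroObject K] [HasShift K ℤ] [Preadditive K]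
    [∀ m : ℤ, (shiftFunctor K m).Additive] [Pretriangulated K] {T : K ⥤ K} {r : ℕ}
    (y : Fin r → (𝟭 K ⟶ T)) (X : K) where
  Z : ℕ → K
  e : Z 0 ≅ X
  a : ∀ i : Fin r, Z (i + 1) ⟶ Z i
  d : ∀ i : Fin r, T.obj (Z i) ⟶ (Z (i + 1))⟦(1 : ℤ)⟧
  dist : ∀ i : Fin r,
    Triangle.mk (a i) (show Z i ⟶ T.obj (Z i) from (y i).app (Z i)) (d i) ∈ distTriang K

end Cat

/-- A natural transformation from the identity, on homotopy categories. -/
noncomputable def natK {P : Type u} [Category.{v} P] [Preadditive P] {T : P ⥤ P} [T.Additive]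
    (y : 𝟭 P ⟶ T) : 𝟭 (HK P) ⟶ KF T where
  app X := (NatTrans.mapHomotopyCategory y (ComplexShape.up ℤ)).app X
  naturality X Y f := by
    obtain ⟨f, rfl⟩ := (HomotopyCategory.quotient P (ComplexShape.up ℤ)).map_surjective f
    exact (NatTrans.mapHomotopyCategory y (ComplexShape.up ℤ)).naturality
      ((HomotopyCategory.quotient P (ComplexShape.up ℤ)).map f)

variable {n : ℕ}

noncomputable instance hasDerMod : HasDerivedCategory.{1} (ModuleCat.{0} ℂ) :=
  HasDerivedCategory.standard _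

/-- Complexes that are exact at every point. -/
def PAc {C : Cr n} (X : HK (Obj C)) : Prop := ∀ z, IsZero ((DF (ev C z)).obj X)

/-- The objects all of whose types are greater than `a`. -/
abbrev PC (C : Cr n) (a : ℝ) : Type 1 := (Gt a : ObjectProperty (Obj C)).FullSubcategory

instance (C : Cr n) (a : ℝ) : HasZeroObject (PC C a) :=
  ⟨⟨zeroObj C, fun i => Empty.elim i⟩, (IsZero.iff_id_eq_zero _).2
    (ObjectProperty.hom_ext _ (hom_ext fun _ => Matrix.ext fun i _ => Empty.elim i))⟩

/-- The direct sum in the subcategory. -/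
noncomputable def biconePC {C : Cr n} {a : ℝ} (E F : PC C a) : BinaryBicone E F where
  pt := ⟨sum E.obj F.obj, fun i => by rcases i with i | i; exacts [E.property i, F.property i]⟩
  fst := ObjectProperty.homMk (bicone E.obj F.obj).fst
  snd := ObjectProperty.homMk (bicone E.obj F.obj).snd
  inl := ObjectProperty.homMk (bicone E.obj F.obj).inl
  inr := ObjectProperty.homMk (bicone E.obj F.obj).inr
  inl_fst := ObjectProperty.hom_ext _ (bicone E.obj F.obj).inl_fst
  inl_snd := ObjectProperty.hom_ext _ (bicone E.obj F.obj).inl_snd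
  inr_fst := ObjectProperty.hom_ext _ (bicone E.obj F.obj).inr_fst
  inr_snd := ObjectProperty.hom_ext _ (bicone E.obj F.obj).inr_snd

instance (C : Cr n) (a : ℝ) : HasBinaryBiproducts (PC C a) :=
  ⟨fun E F => hasBinaryBiproduct_of_total (biconePC E F)
    (ObjectProperty.hom_ext _ (bicone_total E.obj F.obj))⟩

/-- The inclusion of the subcategory. -/
noncomputable abbrev inc (C : Cr n) (a : ℝ) : PC C a ⥤ Obj C := ObjectProperty.ι _

/-- The twist on the subcategory. -/
noncomputable def twP (C : Cr n) (a : ℝ) : PC C a ⥤ PC C a :=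
  ObjectProperty.lift _ (inc C a ⋙ tw C 1) fun E i =>
    lt_of_lt_of_le (E.property i) (le_add_of_nonneg_right (by positivity))

instance (C : Cr n) (a : ℝ) : (twP C a).Additive where
  map_add := rfl

/-- Multiplication by an invariant theta function on the subcategory. -/
noncomputable def natP {C : Cr n} (a : ℝ) (y : (Fin n → ℂ) → ℂ) (hy : y ∈ Inv C 1) :
    𝟭 (PC C a) ⟶ twP C a where
  app E := ObjectProperty.homMk ((nat y hy).app E.obj)
  naturality _ _ u := ObjectProperty.hom_ext _ ((nat y hy).naturality u.hom)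

/-- What the geometry has to give: an additive functor from theta bundles to an abelian category
(coherent sheaves on the resolution of the quotient) with four local properties. -/
structure BKR (C : Cr n) (A : Type 1) [Category.{0} A] [Abelian A] [Linear ℂ A] [HasExt.{1} A]
    [HasDerivedCategory.{1} A] where
  α : Obj C ⥤ A
  [add : α.Additive]
  [lin : α.Linear ℂ]
  [faith : α.Faithful]
  r : ℕ
  y : Fin r → (Fin n → ℂ) → ℂ
  y_mem : ∀ i, y i ∈ Inv C 1
  bpf : ∀ z, ∃ i, y i z ≠ 0
  Tw : A ⥤ A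
  [Tw_add : Tw.Additive]
  [Tw_lim : PreservesFiniteLimits Tw]
  [Tw_colim : PreservesFiniteColimits Tw]
  e : tw C 1 ⋙ α ≅ α ⋙ Tw
  μ : Fin r → (𝟭 A ⟶ Tw)
  μ_α : ∀ i E, α.map ((nat (y i) (y_mem i)).app E) ≫ e.hom.app E = (μ i).app (α.obj E)
  B1 : ∀ a b : ℤ, Function.Surjective
    (α.map : (twObj a (F0 C) ⟶ twObj b (F0 C)) → (α.obj (twObj a (F0 C)) ⟶ α.obj (twObj b (F0 C))))
  B2 : ∀ (a b : ℤ) (i : Fin r) (j : ℕ)
    (x : Ext (α.obj (twObj a (F0 C))) (α.obj (twObj b (F0 C))) (j + 1)), ∃ s : ℕ,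
      x.comp (Ext.mk₀ (α.map (mul (F0 C) b (b + s) (y i ^ s) (Inv.pow_mem (y_mem i) s) rfl)))
        (add_zero _) = 0
  B3 : ∀ M : A, (∀ i, ∃ s, npow (μ i) M s = 0) → IsZero M
  B4 : ∀ Z : DerivedCategory A, DerivedCategory.TStructure.t.bounded Z →
    ObjectProperty.triangEnvelope (fun W => ∃ a : ℤ,
      W = (DerivedCategory.singleFunctor A 0).obj (α.obj (twObj a (F0 C)))) Z

attribute [instance] BKR.add BKR.lin BKR.faith BKR.Tw_add BKR.Tw_lim BKR.Tw_colim

/-- The dual kernel of the Fourier-Mukai functor: an object for the product of the two lattices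
with the form `-(p, b; b, q)`. -/
structure Ker (C C' : Cr n) where
  e : C'.G ≃* C.G
  act_e : ∀ g z, C.act (e g) z = C'.act g z
  p : ℚ
  b : ℚ
  q : ℚ
  b_ne : b ≠ 0
  K : Obj C
  K_t : ∀ i, K.t i = -p
  ρ1 : C'.L → Matrix K.ι K.ι ℂ
  ρ1_unit : ∀ m, (ρ1 m).conjTranspose * ρ1 m = 1
  ρ1_mul : ∀ m m', ρ1 m * ρ1 m' =
    Complex.exp (Real.pi * Complex.I * (-q * alt (m : Fin n → ℂ) m' : ℝ)) • ρ1 (m + m')
  comm : ∀ (m : C'.L) (l : C.L), ρ1 m * K.ρ l =
    Complex.exp (2 * Real.pi * Complex.I * (b * alt (l : Fin n → ℂ) m : ℝ)) • (K.ρ l * ρ1 m)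
  σ_ρ1 : ∀ g m, K.σ (e g) * ρ1 m = ρ1 (C'.actL g m) * K.σ (e g)
  num : (Fintype.card K.ι : ℝ) ^ 2 * C.vol * C'.vol * (b : ℝ) ^ (2 * n) = 1

end Pool.Agent.Lib.MP_d3d358_ag.Th
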