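import Pool.Agent.Lib.MP_d3d358_ag.Th.Poin

/-! Theta functions of large type with prescribed values and derivatives at finitely many points. -/

set_option autoImplicit false

namespace Pool.Agent.Lib.MP_d3d358_ag.Th

open Matrix Complex MeasureTheory Filter

variable {n : ℕ} {Λ : Lat n}

theorem jet_top {ι : Type} [Fintype ι] [DecidableEq ι] (W : Submodule ℂ (ι → ℂ)) {ε : ℝ}
    (hε : Fintype.card ι * ε < 1)
    (h : ∀ i, ∃ x ∈ W, ∀ j, ‖x j - if j = i then 1 else 0‖ ≤ ε) : W = ⊤ := by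
  by_contra hW
  obtain ⟨φ, h0, hφ⟩ := W.exists_le_ker_of_lt_top (lt_top_iff_ne_top.2 hW)
  obtain ⟨c, hc⟩ : ∃ c : ι → ℂ, ∀ x, φ x = ∑ j, x j * c j :=
    ⟨_, fun x => φ.pi_apply_eq_sum_univ x⟩
  obtain ⟨k, hk⟩ : ∃ k, c k ≠ 0 := by
    by_contra! hz
    exact h0 (LinearMap.ext fun x => by simp [hc, hz])
  obtain ⟨i, -, hi⟩ := Finset.exists_max_image Finset.univ (fun j => ‖c j‖) ⟨k, Finset.mem_univ _⟩
  have hp : 0 < ‖c i‖ := (norm_pos_iff.2 hk).trans_le (hi k (Finset.mem_univ _))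
  obtain ⟨x, hx, hn⟩ := h i
  have e : ∑ j, (x j - if j = i then 1 else 0) * c j = -c i := by
    have : φ x = 0 := hφ hx
    simp [sub_mul, Finset.sum_sub_distrib, ← hc, this]
  have b : ‖-c i‖ ≤ ∑ _j : ι, ε * ‖c i‖ := by
    rw [← e]
    refine norm_sum_le_of_le _ fun j _ => ?_
    rw [norm_mul]
    exact mul_le_mul (hn j) (hi j (Finset.mem_univ _)) (norm_nonneg _)
      ((norm_nonneg _).trans (hn j))
  rw [norm_neg, Finset.sum_const, Finset.card_univ, nsmul_eq_mul] at b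
  nlinarith

/-- The value and the partial derivatives at a point. -/
noncomputable def jetJ (g : (Fin n → ℂ) → ℂ) (b : Fin n → ℂ) : Option (Fin n) → ℂ
  | none => g b
  | some j => fderiv ℂ g b (Pi.single j 1)

/-- The monomials of degree at most one centered at a point. -/
def jetM (a : Fin n → ℂ) : Option (Fin n) → (Fin n → ℂ) → ℂ
  | none, _ => 1
  | some j, z => z j - a j

/-- The normalised reproducing kernel. -/
noncomputable def jetK (t : ℝ) (a z : Fin n → ℂ) : ℂ := exp (Real.pi * t * (eta z a - nsq a / 2))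

theorem jetK_ne (t : ℝ) (a z : Fin n → ℂ) : jetK t a z ≠ 0 := Complex.exp_ne_zero _

theorem jetK_diff (t : ℝ) (a : Fin n → ℂ) : Differentiable ℂ (jetK t a) :=
  (((differentiable_eta a).sub_const _).const_mul _).cexp

theorem jetK_inv_diff (t : ℝ) (a : Fin n → ℂ) : Differentiable ℂ fun z => (jetK t a z)⁻¹ :=
  (jetK_diff t a).inv (jetK_ne t a)

theorem jetK_norm (t : ℝ) (a z : Fin n → ℂ) :
    ‖jetK t a z‖ = Real.exp (Real.pi * t * nsq z / 2 - Real.pi * t / 2 * nsq (z - a)) := by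
  rw [jetK, Complex.norm_exp, nsq_sub]
  congr 1
  simp; ring

theorem jetM_diff (a : Fin n → ℂ) (o : Option (Fin n)) : Differentiable ℂ (jetM a o) := by
  cases o with
  | none => exact differentiable_const _
  | some j => exact (differentiable_apply j).sub_const _

theorem jetM_norm (a : Fin n → ℂ) (o : Option (Fin n)) (z : Fin n → ℂ) :
    ‖jetM a o z‖ ≤ Real.exp (nsq (z - a)) := by
  cases o with
  | none => simpa [jetM] using nsq_nonneg (z - a)
  | some j =>
    have h1 : ‖z j - a j‖ ≤ ‖z - a‖ := norm_le_pi_norm (z - a) j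
    have h2 := norm_sq_le_nsq (z - a)
    have h3 := Real.add_one_le_exp (nsq (z - a))
    show ‖z j - a j‖ ≤ _
    nlinarith [sq_nonneg (‖z - a‖ - 1), sq_nonneg ‖z - a‖]

theorem jetJ_M (a : Fin n → ℂ) (o p : Option (Fin n)) :
    jetJ (jetM a o) a p = if p = o then 1 else 0 := by
  cases o with
  | none =>
    cases p with
    | none => simp [jetJ, jetM]
    | some i =>
      have : jetM a none = fun _ => 1 := rfl
      simp [jetJ, this]
  | some j =>
    cases p with
    | none => simp [jetJ, jetM]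
    | some i =>
      have : HasFDerivAt (jetM a (some j)) (ContinuousLinearMap.proj j : (Fin n → ℂ) →L[ℂ] ℂ) a :=
        (hasFDerivAt_apply j a).sub_const _
      simp [jetJ, this.fderiv, Pi.single_apply, eq_comm]

theorem jetJ_add {g h : (Fin n → ℂ) → ℂ} (hg : Differentiable ℂ g) (hh : Differentiable ℂ h)
    (b : Fin n → ℂ) (o : Option (Fin n)) :
    jetJ (fun z => g z + h z) b o = jetJ g b o + jetJ h b o := by
  cases o with
  | none => rfl
  | some j => simp [jetJ, fderiv_fun_add (hg b) (hh b)]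

theorem jetJ_sub {g h : (Fin n → ℂ) → ℂ} (hg : Differentiable ℂ g) (hh : Differentiable ℂ h)
    (b : Fin n → ℂ) (o : Option (Fin n)) :
    jetJ (fun z => g z - h z) b o = jetJ g b o - jetJ h b o := by
  cases o with
  | none => rfl
  | some j => simp [jetJ, fderiv_fun_sub (hg b) (hh b)]

theorem jetJ_mul {g : (Fin n → ℂ) → ℂ} (hg : Differentiable ℂ g) (c : ℂ)
    (b : Fin n → ℂ) (o : Option (Fin n)) : jetJ (fun z => c * g z) b o = c * jetJ g b o := by
  cases o with
  | none => rfl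
  | some j => simp [jetJ, fderiv_const_mul (hg b)]

theorem jetJ_zero (b : Fin n → ℂ) (o : Option (Fin n)) : jetJ (fun _ => 0) b o = 0 := by
  cases o <;> simp [jetJ]

theorem jetJ_ext {g h : (Fin n → ℂ) → ℂ} {b : Fin n → ℂ} (e : ∀ o, jetJ g b o = jetJ h b o) :
    g b = h b ∧ fderiv ℂ g b = fderiv ℂ h b := by
  refine ⟨e none, ContinuousLinearMap.coe_injective (LinearMap.pi_ext fun j x => ?_)⟩
  have : (Pi.single j x : Fin n → ℂ) = x • (Pi.single j 1 : Fin n → ℂ) := by
    rw [← Pi.single_smul, smul_eq_mul, mul_one]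
  rw [this, map_smul, map_smul]
  exact congrArg (x • ·) (e (some j))

theorem jetJ_le {g : (Fin n → ℂ) → ℂ} (hg : Differentiable ℂ g) {b : Fin n → ℂ} {ρ ε : ℝ}
    (h0 : 0 < ρ) (h1 : ρ ≤ 1) (h : ∀ z, nsq (z - b) ≤ ρ ^ 2 → ‖g z‖ ≤ ε) (o : Option (Fin n)) :
    ‖jetJ g b o‖ ≤ ε / ρ := by
  have hb : ‖g b‖ ≤ ε := h b (by rw [sub_self, nsq_zero]; positivity)
  cases o with
  | none => exact hb.trans (le_div_self ((norm_nonneg _).trans hb) h0 h1)
  | some j =>
    have hl : ∀ s : ℂ, HasDerivAt (fun s : ℂ => b + s • (Pi.single j 1 : Fin n → ℂ))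
        (Pi.single j 1) s := fun s => by
      simpa using ((hasDerivAt_id s).smul_const (Pi.single j 1 : Fin n → ℂ)).const_add b
    have hd : HasDerivAt (fun s : ℂ => g (b + s • (Pi.single j 1 : Fin n → ℂ)))
        (fderiv ℂ g b (Pi.single j 1)) 0 :=
      HasFDerivAt.comp_hasDerivAt_of_eq 0 (hg b).hasFDerivAt (hl 0) (by simp)
    rw [jetJ, ← hd.deriv]
    refine norm_deriv_le_of_forall_mem_sphere_norm_le h0
      (hg.comp fun s => (hl s).differentiableAt).diffContOnCl fun s hs => h _ (le_of_eq ?_)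
    rw [mem_sphere_zero_iff_norm] at hs
    rw [add_sub_cancel_left, nsq, Finset.sum_eq_single j (fun i _ hi => by simp [hi]) (by simp)]
    simp [hs]

theorem jet_gap (Λ : Lat n) (w : Fin n → ℂ) :
    ∃ r, 0 < r ∧ r ≤ 1 ∧ ∀ l : Λ.L, w + l.1 ≠ 0 → r ≤ nsq (w + l.1) := by
  have h : ∀ᶠ r in nhdsWithin (0 : ℝ) (Set.Ioi 0), ∀ l ∈ {l : Λ.L | nsq (l : Fin n → ℂ) ≤
      2 + 2 * nsq w}, w + l.1 ≠ 0 → r ≤ nsq (w + l.1) := by
    refine (Λ.finite_ball _).eventually_all.2 fun l _ => ?_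
    by_cases e : w + l.1 = 0
    · simp [e]
    · exact (eventually_le_nhds (nsq_pos e)).filter_mono nhdsWithin_le_nhds |>.mono fun _ h _ => h
  obtain ⟨r, ⟨h1, h2⟩, h3⟩ := ((h.and ((eventually_le_nhds one_pos).filter_mono
    nhdsWithin_le_nhds)).and self_mem_nhdsWithin).exists
  refine ⟨r, h3, h2, fun l hl => ?_⟩
  by_cases e : nsq (l : Fin n → ℂ) ≤ 2 + 2 * nsq w
  · exact h1 l e hl
  · have := nsq_add_le (w + l.1) (-w)
    rw [nsq_neg, add_neg_cancel_comm] at this
    linarith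

theorem jet_summable (Λ : Lat n) (w : Fin n → ℂ) :
    Summable fun l : Λ.L => Real.exp (-nsq (w + l.1)) := by
  refine ((Λ.summable_gauss one_half_pos).mul_left (Real.exp (nsq w))).of_nonneg_of_le
    (fun _ => (Real.exp_pos _).le) fun l => ?_
  have := nsq_add_le (w + l.1) (-w)
  rw [nsq_neg, add_neg_cancel_comm] at this
  rw [← Real.exp_add]
  exact Real.exp_le_exp.2 (by linarith)

section

variable {t : ℝ} (ht : ∀ l l' : Λ.L, exp (Real.pi * I * (t * alt (l : Fin n → ℂ) l' : ℝ)) = 1)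

/-- The Poincare series of a monomial times the kernel. -/
noncomputable def jetF (a : Fin n → ℂ) (o : Option (Fin n)) (z : Fin n → ℂ) : ℂ :=
  Poin (lineL Λ t ht) (fun z _ => jetM a o z * jetK t a z) z ()

theorem jet_dec (a : Fin n → ℂ) (o : Option (Fin n)) :
    Dec (lineL Λ t ht) 1 (Real.pi * t / 2 - 1) a fun z _ => jetM a o z * jetK t a z := by
  intro z _
  rw [norm_mul, jetK_norm, one_mul, ← Real.exp_add]
  refine (mul_le_mul_of_nonneg_right (jetM_norm a o z) (Real.exp_pos _).le).trans (le_of_eq ?_)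
  rw [← Real.exp_add]
  congr 1
  ring

theorem jetF_mem (h : 1 < Real.pi * t / 2) (a : Fin n → ℂ) (o : Option (Fin n)) :
    jetF ht a o ∈ Theta Λ t := by
  have := Poin_mem (sub_pos.2 h) (jet_dec ht a o) fun _ => (jetM_diff a o).mul (jetK_diff t a)
  refine ⟨this.1 (), fun l hl z => ?_⟩
  have e := congrFun (this.2 ⟨l, hl⟩ z) ()
  simpa [jetF, ObjL.fac, mulVec_diagonal] using e

theorem jetF_err {a b : Fin n → ℂ} (hab : a - b ∈ Λ.L → a = b) {r : ℝ}
    (hr : ∀ l : Λ.L, b - a + l.1 ≠ 0 → r ≤ nsq (b - a + l.1)) (h : 4 ≤ Real.pi * t / 2)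
    (o : Option (Fin n)) (z : Fin n → ℂ) (hz : nsq (z - b) ≤ r / 16) :
    ‖jetF ht a o z * (jetK t b z)⁻¹ - if b = a then jetM a o z else 0‖ ≤
      Real.exp (-((3 * Real.pi * t - 23) * (r / 16))) *
        ∑' l : Λ.L, Real.exp (-nsq (b - a + l.1)) := by
  classical
  have hs := (Pi.hasSum.1 (Poin_summable (by linarith) (jet_dec ht a o) z).hasSum ()).mul_right
    (jetK t b z)⁻¹
  refine (hs.sub (hasSum_ite_eq (0 : Λ.L) (if b = a then jetM a o z else 0))).norm_le_of_bounded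
    ((jet_summable Λ (b - a)).hasSum.mul_left _) fun l => ?_
  by_cases e : l = 0 ∧ b = a
  · obtain ⟨rfl, rfl⟩ := e
    have : (((lineL Λ t ht).inv 0 z *ᵥ fun _ => jetM b o z * jetK t b z) ()) =
        jetM b o z * jetK t b z := by
      simp [ObjL.inv, aut]
    simp only [ZeroMemClass.coe_zero, add_zero, this, if_true, mul_inv_cancel_right₀ (jetK_ne _ _ _),
      sub_self, norm_zero]
    positivity
  · have e1 : (if l = 0 then if b = a then jetM a o z else 0 else 0) = 0 := by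
      split_ifs with h1 h2
      · exact absurd ⟨h1, h2⟩ e
      all_goals rfl
    have e2 : b - a + l.1 ≠ 0 := fun h0 => by
      have h1 : a - b = l.1 := by rw [← neg_sub, neg_eq_iff_add_eq_zero, h0]
      have h2 := hab (h1 ▸ l.2)
      exact e ⟨Subtype.ext (by rw [← h1, h2, sub_self]; rfl), h2.symm⟩
    have h1 := norm_inv_mulVec (jet_dec ht a o) l z ()
    rw [e1, sub_zero, norm_mul, norm_inv, jetK_norm, ← Real.exp_neg, ← Real.exp_add]
    refine (mul_le_mul_of_nonneg_right h1 (Real.exp_pos _).le).trans ?_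
    rw [Fintype.card_unit, Nat.cast_one, one_mul, one_mul, ← Real.exp_add, ← Real.exp_add]
    refine Real.exp_le_exp.2 ?_
    have h2 := nsq_add_le (z + l.1 - a) (b - z)
    rw [show z + l.1 - a + (b - z) = b - a + l.1 by abel, nsq_sub_comm b z] at h2
    have h3 := hr l e2
    obtain ⟨u, hu⟩ : ∃ u, u = Real.pi * t / 2 := ⟨_, rfl⟩
    have h4 : Real.pi * t = 2 * u := by rw [hu]; ring
    rw [mul_assoc 3, h4] at *
    nlinarith [mul_le_mul_of_nonneg_left h2 (show 0 ≤ u - 1 by linarith),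
      mul_le_mul_of_nonneg_left hz (show 0 ≤ 2 * u - 1 by linarith),
      mul_le_mul_of_nonneg_left h3 (show 0 ≤ u - 3 by linarith)]

end

theorem jet_near (Λ : Lat n) {a b : Fin n → ℂ} (hab : a - b ∈ Λ.L → a = b) {ε : ℝ} (hε : 0 < ε) :
    ∀ᶠ t : ℝ in atTop,
      ∀ (ht : ∀ l l' : Λ.L, exp (Real.pi * I * (t * alt (l : Fin n → ℂ) l' : ℝ)) = 1)
        (o p : Option (Fin n)), ‖jetJ (fun z => jetF ht a o z * (jetK t b z)⁻¹) b p -
          if b = a ∧ p = o then 1 else 0‖ ≤ ε := by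
  obtain ⟨r, r0, r1, hr⟩ := jet_gap Λ (b - a)
  have T : Tendsto (fun t : ℝ => Real.exp (-((3 * Real.pi * t - 23) * (r / 16))) *
      (∑' l : Λ.L, Real.exp (-nsq (b - a + l.1))) / (√r / 4)) atTop (nhds 0) := by
    have := ((Real.tendsto_exp_neg_atTop_nhds_zero.comp ((tendsto_atTop_add_const_right _ (-23)
      (tendsto_id.const_mul_atTop (show 0 < 3 * Real.pi by positivity))).atTop_mul_const
      (show 0 < r / 16 by positivity))).mul_const
      (∑' l : Λ.L, Real.exp (-nsq (b - a + l.1)))).div_const (√r / 4)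
    simpa [Function.comp_def, sub_eq_add_neg] using this
  have U : Tendsto (fun t : ℝ => Real.pi * t / 2) atTop atTop :=
    (tendsto_id.const_mul_atTop Real.pi_pos).atTop_div_const two_pos
  filter_upwards [T.eventually_le_const hε, U.eventually_ge_atTop 4] with t h1 h2 ht o p
  have d1 := ((jetF_mem ht (by linarith) a o).1.mul (jetK_inv_diff t b))
  have d2 : Differentiable ℂ fun z => if b = a then jetM a o z else 0 := by
    split_ifs
    · exact jetM_diff a o
    · exact differentiable_const _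
  have := jetJ_le (d1.sub d2) (b := b) (ρ := √r / 4) (by positivity)
    (by have := Real.sqrt_le_one.2 r1; linarith) (fun z hz => jetF_err ht hab hr h2 o z (by
      rwa [div_pow, Real.sq_sqrt r0.le, show (4 : ℝ) ^ 2 = 16 by norm_num] at hz)) p
  refine le_trans (le_of_eq ?_) (this.trans h1)
  congr 1
  refine Eq.trans ?_ (jetJ_sub d1 d2 b p).symm
  congr 1
  by_cases e : b = a
  · subst e
    simp only [true_and, if_true]
    exact (jetJ_M b o p).symm
  · simp only [e, false_and, if_false, jetJ_zero]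

theorem exists_jets (Λ : Lat n) (S : Finset (Fin n → ℂ))
    (hS : ∀ a ∈ S, ∀ b ∈ S, a - b ∈ Λ.L → a = b) : ∃ d₀ : ℝ, ∀ t, d₀ ≤ t →
    (∀ l l' : Λ.L, exp (Real.pi * I * (t * alt (l : Fin n → ℂ) l' : ℝ)) = 1) →
    ∀ (v : (Fin n → ℂ) → ℂ) (D : (Fin n → ℂ) → ((Fin n → ℂ) →L[ℂ] ℂ)),
      ∃ f ∈ Theta Λ t, ∀ a ∈ S, f a = v a ∧ fderiv ℂ f a = D a := by
  classical
  obtain ⟨N, hN⟩ : ∃ N : ℝ, N = Fintype.card (S × Option (Fin n)) := ⟨_, rfl⟩
  have N0 : 0 < N + 1 := by rw [hN]; positivity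
  have U : Tendsto (fun t : ℝ => Real.pi * t / 2) atTop atTop :=
    (tendsto_id.const_mul_atTop Real.pi_pos).atTop_div_const two_pos
  obtain ⟨d, hd⟩ := eventually_atTop.1 ((U.eventually_gt_atTop 1).and
    (eventually_all.2 fun a : S => eventually_all.2 fun b : S =>
      jet_near Λ (hS a a.2 b b.2) (inv_pos.2 N0)))
  refine ⟨d, fun t h ht v D => ?_⟩
  obtain ⟨h1, h2⟩ := hd t h
  let J : Theta Λ t →ₗ[ℂ] (S × Option (Fin n) → ℂ) :=
    { toFun := fun f q => jetJ (fun z => f.1 z * (jetK t q.1 z)⁻¹) q.1 q.2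
      map_add' := fun f g => funext fun q => by
        simp only [Submodule.coe_add, Pi.add_apply, add_mul]
        exact jetJ_add (f.2.1.mul (jetK_inv_diff t _)) (g.2.1.mul (jetK_inv_diff t _)) _ _
      map_smul' := fun c f => funext fun q => by
        simp only [Submodule.coe_smul, Pi.smul_apply, smul_eq_mul, mul_assoc, RingHom.id_apply]
        exact jetJ_mul (f.2.1.mul (jetK_inv_diff t _)) _ _ _ }
  have hJ : LinearMap.range J = ⊤ := by
    refine jet_top _ (ε := (N + 1)⁻¹) (by rw [← hN, mul_inv_lt_iff₀ N0]; linarith) fun q =>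
      ⟨_, ⟨⟨_, jetF_mem ht h1 q.1 q.2⟩, rfl⟩, fun p => ?_⟩
    have := h2 q.1 p.1 ht q.2 p.2
    simp only [Prod.ext_iff, Subtype.ext_iff]
    exact this
  obtain ⟨f, hf⟩ := LinearMap.range_eq_top.1 hJ fun q =>
    jetJ (fun z => (v q.1 + D q.1 (z - q.1.1)) * (jetK t q.1 z)⁻¹) q.1 q.2
  refine ⟨f, f.2, fun a ha => ?_⟩
  obtain ⟨e1, e2⟩ := jetJ_ext (g := fun z => f.1 z * (jetK t a z)⁻¹) (b := a)
    (h := fun z => (v a + D a (z - a)) * (jetK t a z)⁻¹) fun o => congrFun hf (⟨a, ha⟩, o)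
  have hp : HasFDerivAt (fun z => v a + D a (z - a)) (D a) a := by
    simpa using ((D a).hasFDerivAt.sub_const (D a a)).const_add (v a)
  have k : ∀ g : (Fin n → ℂ) → ℂ, DifferentiableAt ℂ g a → fderiv ℂ g a =
      (g a * (jetK t a a)⁻¹) • fderiv ℂ (jetK t a) a +
        jetK t a a • fderiv ℂ (fun z => g z * (jetK t a z)⁻¹) a := fun g hg => by
    rw [← fderiv_fun_mul (hg.fun_mul (jetK_inv_diff t a a)) (jetK_diff t a a)]
    simp only [inv_mul_cancel_right₀ (jetK_ne _ _ _)]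
  refine ⟨by simpa [jetK_ne] using e1, ?_⟩
  rw [k _ (f.2.1 a), ← hp.fderiv, k _ hp.differentiableAt]
  exact congrArg₂ (fun x y => x • _ + _ • y) e1 e2

end Pool.Agent.Lib.MP_d3d358_ag.Th
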