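import Pool.Agent.Lib.MP_d3d358_ag.Th.Eta

/-! Averaging of morphisms over the finite group. -/

set_option autoImplicit false

namespace Pool.Agent.Lib.MP_d3d358_ag.Th

open Matrix Complex

variable {n : ℕ} {C : Cr n}

theorem Obj.σ_fac (E : Obj C) (g : C.G) (l : C.L) (z : Fin n → ℂ) :
    E.σ g * E.fac l z = E.fac (C.actL g l) (C.act g z) * E.σ g := by
  have e : (fun i => aut (E.t i) (C.actL g l : C.L) (C.act g z)) = fun i => aut (E.t i) l z :=
    funext fun i => aut_act C _ g l z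
  rw [ObjL.fac, ObjL.fac, e, ← Matrix.mul_assoc,
    ← diag_comm (E.σ_blk g) (fun t => aut t l z), Matrix.mul_assoc, E.σ_ρ, Matrix.mul_assoc]

theorem Obj.σH_fac (E : Obj C) (g : C.G) (l : C.L) (z : Fin n → ℂ) :
    (E.σ g)ᴴ * E.fac (C.actL g l) (C.act g z) = E.fac l z * (E.σ g)ᴴ := by
  rw [← Matrix.mul_one (_ * E.fac _ _), ← E.σ_unit' g, ← Matrix.mul_assoc,
    Matrix.mul_assoc _ (E.fac _ _), ← E.σ_fac, ← Matrix.mul_assoc, E.σ_unit, Matrix.one_mul]

theorem Cr.differentiable_act (C : Cr n) (g : C.G) : Differentiable ℂ (C.act g) :=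
  (C.act g).toContinuousLinearEquiv.differentiable

/-- The action of the finite group on the morphisms for the lattice. -/
theorem conj_mem {E F : Obj C} {f : (Fin n → ℂ) → Matrix F.ι E.ι ℂ}
    (hf : f ∈ HomL E.toObjL F.toObjL) (g : C.G) :
    (fun z => (F.σ g)ᴴ * f (C.act g z) * E.σ g) ∈ HomL E.toObjL F.toObjL :=
  ⟨fun i j => by
    simp only [Matrix.mul_apply]
    exact Differentiable.fun_sum fun a _ => (Differentiable.fun_sum fun b _ =>
      ((hf.1 b a).comp (C.differentiable_act g)).const_mul _).mul_const _, fun l z => by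
    have e := hf.2 (C.actL g l) (C.act g z)
    have e' : C.act g (z + l) = C.act g z + (C.actL g l : C.L) := map_add _ _ _
    beta_reduce
    rw [e', Matrix.mul_assoc, E.σ_fac, ← Matrix.mul_assoc, Matrix.mul_assoc _ (f _), e,
      ← Matrix.mul_assoc, F.σH_fac]
    simp only [Matrix.mul_assoc]⟩

/-- The average over the finite group. -/
noncomputable def avg (E F : Obj C) (f : (Fin n → ℂ) → Matrix F.ι E.ι ℂ) (z : Fin n → ℂ) :
    Matrix F.ι E.ι ℂ :=
  (Fintype.card C.G : ℂ)⁻¹ • ∑ g, (F.σ g)ᴴ * f (C.act g z) * E.σ g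

theorem avg_mem {E F : Obj C} {f : (Fin n → ℂ) → Matrix F.ι E.ι ℂ}
    (hf : f ∈ HomL E.toObjL F.toObjL) : avg E F f ∈ Hom E F := by
  refine ⟨?_, fun g z => ?_⟩
  · have e : avg E F f = (Fintype.card C.G : ℂ)⁻¹ •
        ∑ g, fun z => (F.σ g)ᴴ * f (C.act g z) * E.σ g := by
      funext z; simp [avg, Finset.sum_apply]
    rw [e]
    exact Submodule.smul_mem _ _ (Submodule.sum_mem _ fun g _ => conj_mem hf g)
  · rw [avg, avg, Matrix.smul_mul, Matrix.mul_smul, Matrix.sum_mul, Matrix.mul_sum,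
      ← Equiv.sum_comp (Equiv.mulRight g) fun a => F.σ g * ((F.σ a)ᴴ * f (C.act a z) * E.σ a)]
    congr 1
    refine Finset.sum_congr rfl fun a _ => ?_
    simp only [Equiv.coe_mulRight, F.σ_mul, E.σ_mul, map_mul, LinearEquiv.mul_apply,
      conjTranspose_mul, ← Matrix.mul_assoc, F.σ_unit', Matrix.one_mul]

theorem mul_avg {R D E : Obj C} {u : (Fin n → ℂ) → Matrix E.ι D.ι ℂ}
    (hu : ∀ g z, u (C.act g z) * D.σ g = E.σ g * u z) (f : (Fin n → ℂ) → Matrix D.ι R.ι ℂ)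
    (z : Fin n → ℂ) : u z * avg R D f z = avg R E (fun w => u w * f w) z := by
  rw [avg, avg, Matrix.mul_smul, Matrix.mul_sum]
  congr 1
  refine Finset.sum_congr rfl fun a _ => ?_
  have e : u z * (D.σ a)ᴴ = (E.σ a)ᴴ * u (C.act a z) := by
    rw [← Matrix.mul_one (_ * u (C.act a z)), ← D.σ_unit' a, ← Matrix.mul_assoc,
      Matrix.mul_assoc _ (u _), hu, ← Matrix.mul_assoc, E.σ_unit, Matrix.one_mul]
  simp only [← Matrix.mul_assoc, e]

theorem avg_self {E F : Obj C} {f : (Fin n → ℂ) → Matrix F.ι E.ι ℂ}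
    (hf : ∀ g z, f (C.act g z) * E.σ g = F.σ g * f z) : avg E F f = f := by
  funext z
  have e : ∀ a, (F.σ a)ᴴ * f (C.act a z) * E.σ a = f z := fun a => by
    rw [Matrix.mul_assoc, hf, ← Matrix.mul_assoc, F.σ_unit, Matrix.one_mul]
  have h0 : (Fintype.card C.G : ℂ) ≠ 0 := Nat.cast_ne_zero.2 Fintype.card_ne_zero
  simp only [avg, e, Finset.sum_const, Finset.card_univ]
  rw [← Nat.cast_smul_eq_nsmul ℂ, smul_smul, inv_mul_cancel₀ h0, one_smul]

end Pool.Agent.Lib.MP_d3d358_ag.Th
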