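import Pool.Agent.Lib.MP_d3d358_ag.Th.Defs

/-! Twists, multiplication by invariant theta functions, direct sums, the regular object. -/

set_option autoImplicit false

namespace Pool.Agent.Lib.MP_d3d358_ag.Th

open Matrix Complex CategoryTheory Limits

variable {n : ℕ}

theorem aut_add (s t : ℝ) (l z : Fin n → ℂ) : aut (s + t) l z = aut s l z * aut t l z := by
  rw [aut, aut, aut, ← Complex.exp_add]; congr 1; push_cast; ring

theorem aut_zero (l z : Fin n → ℂ) : aut 0 l z = 1 := by simp [aut]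

theorem aut_ne (s : ℝ) (l z : Fin n → ℂ) : aut s l z ≠ 0 := Complex.exp_ne_zero _

/-- Scalar theta functions of type `t`. -/
def Theta (Λ : Lat n) (t : ℝ) : Submodule ℂ ((Fin n → ℂ) → ℂ) where
  carrier := {f | Differentiable ℂ f ∧ ∀ l ∈ Λ.L, ∀ z, f (z + l) = aut t l z * f z}
  zero_mem' := ⟨differentiable_const _, fun _ _ _ => by simp⟩
  add_mem' := fun {f g} hf hg => ⟨hf.1.add hg.1, fun l hl z => by
    simp only [Pi.add_apply, hf.2 l hl, hg.2 l hl, mul_add]⟩
  smul_mem' := fun c f hf => ⟨hf.1.const_smul c, fun l hl z => by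
    simp only [Pi.smul_apply, hf.2 l hl, smul_eq_mul]; ring⟩

/-- Invariant theta functions of degree `a`. -/
def Inv (C : Cr n) (a : ℤ) : Submodule ℂ ((Fin n → ℂ) → ℂ) where
  carrier := {f | f ∈ Theta C.toLat (a * C.k) ∧ ∀ g z, f (C.act g z) = f z}
  zero_mem' := ⟨zero_mem _, fun _ _ => rfl⟩
  add_mem' := fun {f h} hf hh => ⟨add_mem hf.1 hh.1, fun g z => by
    simp only [Pi.add_apply, hf.2, hh.2]⟩
  smul_mem' := fun c f hf => ⟨Submodule.smul_mem _ c hf.1, fun g z => by
    simp only [Pi.smul_apply, hf.2]⟩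

theorem Theta.mul_mem {Λ : Lat n} {s t : ℝ} {f g : (Fin n → ℂ) → ℂ} (hf : f ∈ Theta Λ s)
    (hg : g ∈ Theta Λ t) : f * g ∈ Theta Λ (s + t) :=
  ⟨hf.1.mul hg.1, fun l hl z => by
    simp only [Pi.mul_apply, hf.2 l hl, hg.2 l hl, aut_add]; ring⟩

variable {C : Cr n}

theorem Inv.one_mem : (1 : (Fin n → ℂ) → ℂ) ∈ Inv C 0 :=
  ⟨⟨differentiable_const _, fun _ _ _ => by simp [aut_zero]⟩, fun _ _ => rfl⟩

theorem Inv.mul_mem {a b c : ℤ} {f g : (Fin n → ℂ) → ℂ} (hf : f ∈ Inv C a) (hg : g ∈ Inv C b)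
    (h : a + b = c) : f * g ∈ Inv C c :=
  ⟨by have := Theta.mul_mem hf.1 hg.1; rwa [← add_mul, ← Int.cast_add, h] at this,
    fun s z => by simp only [Pi.mul_apply, hf.2, hg.2]⟩

theorem Inv.pow_mem {f : (Fin n → ℂ) → ℂ} (hf : f ∈ Inv C 1) (s : ℕ) : f ^ s ∈ Inv C s := by
  induction s with
  | zero => simpa using Inv.one_mem
  | succ s ih => rw [pow_succ]; exact Inv.mul_mem ih hf (by simp)

theorem exp_even (C : Cr n) (a : ℤ) (l l' : C.L) :
    exp (Real.pi * I * (a * C.k * alt (l : Fin n → ℂ) l' : ℝ)) = 1 := by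
  obtain ⟨m, hm⟩ := C.k_even l l.2 l' l'.2
  rw [mul_assoc (a : ℝ), hm, ← Complex.exp_int_mul_two_pi_mul_I (a * m)]
  congr 1; push_cast; ring

/-- The twist `E(a)`: the types go up by `a * k`. -/
@[reducible] noncomputable def twObj (a : ℤ) (E : Obj C) : Obj C where
  ι := E.ι
  t i := E.t i + a * C.k
  ρ := E.ρ
  ρ_unit := E.ρ_unit
  ρ_blk l i j h := by rw [E.ρ_blk l i j h]
  ρ_mul l l' := by
    rw [E.ρ_mul]; congr 2; funext i
    rw [add_mul, Complex.ofReal_add, mul_add, Complex.exp_add, exp_even, mul_one]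
  σ := E.σ
  σ_unit := E.σ_unit
  σ_blk g i j h := by rw [E.σ_blk g i j h]
  σ_mul := E.σ_mul
  σ_ρ := E.σ_ρ

theorem fac_tw (a : ℤ) (E : Obj C) (l : C.L) (z : Fin n → ℂ) :
    (twObj a E).fac l z = aut (a * C.k) l z • E.fac l z := by
  ext i j
  simp only [ObjL.fac, diagonal_mul, Matrix.smul_apply, aut_add, smul_eq_mul]; ring

/-- A morphism times an invariant theta function of degree `d`, from `E(a)` to `F(b)`. -/
noncomputable def smulHom {E F : Obj C} (u : E ⟶ F) (a b : ℤ) {d : ℤ} (y : (Fin n → ℂ) → ℂ)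
    (hy : y ∈ Inv C d) (h : a + d = b) : twObj a E ⟶ twObj b F :=
  ⟨fun z => y z • val u z, ⟨fun i j => hy.1.1.mul (val_diff u i j), fun l z => by
    have e := val_lat u l z
    rw [fac_tw, fac_tw, ← h]
    simp only [hy.1.2 l l.2, Matrix.smul_mul, Matrix.mul_smul, e, smul_smul, Int.cast_add, add_mul, aut_add]
    congr 1; ring⟩, fun g z => by
    have e := val_act u g z
    simp only [Matrix.smul_mul, Matrix.mul_smul, hy.2]
    exact congrArg _ e⟩

@[simp] theorem val_smulHom {E F : Obj C} (u : E ⟶ F) (a b : ℤ) {d : ℤ} (y : (Fin n → ℂ) → ℂ)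
    (hy : y ∈ Inv C d) (h : a + d = b) (z : Fin n → ℂ) :
    val (smulHom u a b y hy h) z = y z • val u z := rfl

/-- Multiplication `E(a) ⟶ E(b)` by an invariant theta function of degree `d`. -/
noncomputable def mul (E : Obj C) (a b : ℤ) {d : ℤ} (y : (Fin n → ℂ) → ℂ) (hy : y ∈ Inv C d)
    (h : a + d = b) : twObj a E ⟶ twObj b E := smulHom (𝟙 E) a b y hy h

@[simp] theorem val_mul (E : Obj C) (a b : ℤ) {d : ℤ} (y : (Fin n → ℂ) → ℂ) (hy : y ∈ Inv C d)
    (h : a + d = b) (z : Fin n → ℂ) : val (mul E a b y hy h) z = y z • (1 : Matrix E.ι E.ι ℂ) := rfl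

/-- The twist functor. -/
@[reducible] noncomputable def tw (C : Cr n) (a : ℤ) : Obj C ⥤ Obj C where
  obj := twObj a
  map u := ⟨u.1, ⟨u.2.1.1, fun l z => by
    rw [fac_tw, fac_tw, Matrix.mul_smul, Matrix.smul_mul, u.2.1.2]⟩, u.2.2⟩
  map_id _ := rfl
  map_comp _ _ := rfl

@[simp] theorem val_tw (a : ℤ) {E F : Obj C} (u : E ⟶ F) (z : Fin n → ℂ) :
    val ((tw C a).map u) z = val u z := rfl

instance (a : ℤ) : (tw C a).Additive where
  map_add := rfl

instance (a : ℤ) : (tw C a).Linear ℂ where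
  map_smul _ _ := rfl

/-- A matrix function is a morphism `E ⟶ F(0)` or `E(0) ⟶ F` as soon as it is one `E ⟶ F`. -/
noncomputable def tw0 (E : Obj C) : E ≅ twObj 0 E where
  hom := ⟨fun _ => 1, ⟨fun _ _ => differentiable_const _, fun l z => by
    rw [fac_tw]; simp [aut_zero]⟩, fun _ _ => by simp⟩
  inv := ⟨fun _ => 1, ⟨fun _ _ => differentiable_const _, fun l z => by
    rw [fac_tw]; simp [aut_zero]⟩, fun _ _ => by simp⟩
  hom_inv_id := hom_ext fun _ => Matrix.mul_one _
  inv_hom_id := hom_ext fun _ => Matrix.mul_one _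

/-- Iterated twists. -/
noncomputable def twtw (E : Obj C) (a b c : ℤ) (h : a + b = c) :
    twObj b (twObj a E) ≅ twObj c E where
  hom := ⟨fun _ => 1, ⟨fun _ _ => differentiable_const _, fun l z => by
    rw [fac_tw, fac_tw, fac_tw, ← h, Int.cast_add, add_mul, aut_add, smul_smul, mul_comm]; simp⟩, fun _ _ => by simp⟩
  inv := ⟨fun _ => 1, ⟨fun _ _ => differentiable_const _, fun l z => by
    rw [fac_tw, fac_tw, fac_tw, ← h, Int.cast_add, add_mul, aut_add, smul_smul, mul_comm]; simp⟩, fun _ _ => by simp⟩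
  hom_inv_id := hom_ext fun _ => Matrix.mul_one _
  inv_hom_id := hom_ext fun _ => Matrix.mul_one _

/-- Multiplication `E ⟶ E(1)` by an invariant theta function of degree one. -/
noncomputable def natApp (y : (Fin n → ℂ) → ℂ) (hy : y ∈ Inv C 1) (E : Obj C) : E ⟶ twObj 1 E :=
  ⟨fun z => y z • 1, ⟨val_diff (mul E 0 1 y hy (zero_add 1)), fun l z => by
    rw [fac_tw]; simp [hy.1.2 l l.2, smul_smul, mul_comm]⟩, fun g z => by simp [hy.2]⟩

/-- Multiplication by an invariant theta function of degree one, as a natural transformation. -/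
noncomputable def nat (y : (Fin n → ℂ) → ℂ) (hy : y ∈ Inv C 1) : 𝟭 (Obj C) ⟶ tw C 1 where
  app E := natApp y hy E
  naturality E F u := hom_ext fun z => by
    change y z • (1 : Matrix F.ι F.ι ℂ) * val u z = val u z * y z • (1 : Matrix E.ι E.ι ℂ)
    simp

@[simp] theorem val_nat (y : (Fin n → ℂ) → ℂ) (hy : y ∈ Inv C 1) (E : Obj C) (z : Fin n → ℂ) :
    val ((nat y hy).app E) z = y z • (1 : Matrix E.ι E.ι ℂ) := rfl

/-- A unitary representation of the finite group, as an object of type zero. -/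
@[reducible] noncomputable def cst (C : Cr n) (ι : Type) [Fintype ι] [DecidableEq ι]
    (σ : C.G → Matrix ι ι ℂ) (h1 : ∀ g, (σ g)ᴴ * σ g = 1) (h2 : ∀ g h, σ (g * h) = σ g * σ h) :
    Obj C where
  ι := ι
  t _ := 0
  ρ _ := 1
  ρ_unit _ := by simp
  ρ_blk _ _ _ _ := rfl
  ρ_mul _ _ := by simp
  σ := σ
  σ_unit := h1
  σ_blk _ _ _ _ := rfl
  σ_mul := h2
  σ_ρ _ _ := by simp

/-- The trivial object. -/
@[reducible] noncomputable def one (C : Cr n) : Obj C :=
  cst C Unit (fun _ => 1) (fun _ => by simp) (fun _ _ => by simp)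

/-- The matrix of left multiplication by `g`. -/
def regM {G : Type} [Group G] [DecidableEq G] (g : G) : Matrix G G ℂ :=
  of fun a b => if a = g * b then 1 else 0

theorem regM_mul {G : Type} [Group G] [Fintype G] [DecidableEq G] (g h : G) :
    regM (g * h) = regM g * regM h := by
  ext a b
  simp [regM, Matrix.mul_apply, mul_assoc]

theorem regM_unit {G : Type} [Group G] [Fintype G] [DecidableEq G] (g : G) :
    (regM g)ᴴ * regM g = 1 := by
  ext a b
  simp [regM, Matrix.mul_apply, Matrix.one_apply, eq_comm]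

/-- The regular representation. -/
@[reducible] noncomputable def F0 (C : Cr n) : Obj C := cst C C.G regM regM_unit regM_mul

/-- The zero object. -/
noncomputable def zeroObj (C : Cr n) : Obj C :=
  cst C Empty (fun _ => 1) (fun _ => by simp) (fun _ _ => by simp)

theorem isZero_of_isEmpty (E : Obj C) [IsEmpty E.ι] : IsZero E :=
  (IsZero.iff_id_eq_zero E).2 (hom_ext fun _ => Matrix.ext fun i _ => isEmptyElim i)

instance : HasZeroObject (Obj C) :=
  ⟨zeroObj C, @isZero_of_isEmpty _ _ _ (inferInstanceAs (IsEmpty Empty))⟩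

/-- The direct sum. -/
@[reducible] noncomputable def sum (E F : Obj C) : Obj C where
  ι := E.ι ⊕ F.ι
  t := Sum.elim E.t F.t
  ρ l := fromBlocks (E.ρ l) 0 0 (F.ρ l)
  ρ_unit l := by simp [fromBlocks_conjTranspose, fromBlocks_multiply, E.ρ_unit, F.ρ_unit]
  ρ_blk l := by
    rintro (i | i) (j | j) h
    exacts [E.ρ_blk l i j h, (h rfl).elim, (h rfl).elim, F.ρ_blk l i j h]
  ρ_mul l l' := by
    rw [fromBlocks_multiply, E.ρ_mul, F.ρ_mul]
    ext (i | i) (j | j) <;> simp [diagonal_mul]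
  σ g := fromBlocks (E.σ g) 0 0 (F.σ g)
  σ_unit l := by simp [fromBlocks_conjTranspose, fromBlocks_multiply, E.σ_unit, F.σ_unit]
  σ_blk l := by
    rintro (i | i) (j | j) h
    exacts [E.σ_blk l i j h, (h rfl).elim, (h rfl).elim, F.σ_blk l i j h]
  σ_mul g h := by simp [fromBlocks_multiply, E.σ_mul, F.σ_mul]
  σ_ρ g l := by simp [fromBlocks_multiply, E.σ_ρ, F.σ_ρ]

theorem fac_sum (E F : Obj C) (l : C.L) (z : Fin n → ℂ) :
    (sum E F).fac l z = fromBlocks (E.fac l z) 0 0 (F.fac l z) := by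
  ext (i | i) (j | j) <;> simp [ObjL.fac, diagonal_mul]

/-- The direct sum as a bicone. -/
noncomputable def bicone (E F : Obj C) : BinaryBicone E F where
  pt := sum E F
  fst := ⟨fun _ => fromCols 1 0, ⟨fun _ _ => differentiable_const _, fun l z => by
    rw [fac_sum]; simp [fromCols_mul_fromBlocks, mul_fromCols]⟩, fun g z => by
    simp [fromCols_mul_fromBlocks, mul_fromCols]⟩
  snd := ⟨fun _ => fromCols 0 1, ⟨fun _ _ => differentiable_const _, fun l z => by
    rw [fac_sum]; simp [fromCols_mul_fromBlocks, mul_fromCols]⟩, fun g z => by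
    simp [fromCols_mul_fromBlocks, mul_fromCols]⟩
  inl := ⟨fun _ => fromRows 1 0, ⟨fun _ _ => differentiable_const _, fun l z => by
    rw [fac_sum]; simp [fromBlocks_mul_fromRows, fromRows_mul]⟩, fun g z => by
    simp [fromBlocks_mul_fromRows, fromRows_mul]⟩
  inr := ⟨fun _ => fromRows 0 1, ⟨fun _ _ => differentiable_const _, fun l z => by
    rw [fac_sum]; simp [fromBlocks_mul_fromRows, fromRows_mul]⟩, fun g z => by
    simp [fromBlocks_mul_fromRows, fromRows_mul]⟩
  inl_fst := hom_ext fun _ => (fromCols_mul_fromRows _ _ _ _).trans (by simp)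
  inl_snd := hom_ext fun _ => (fromCols_mul_fromRows _ _ _ _).trans (by simp)
  inr_fst := hom_ext fun _ => (fromCols_mul_fromRows _ _ _ _).trans (by simp)
  inr_snd := hom_ext fun _ => (fromCols_mul_fromRows _ _ _ _).trans (by simp)

theorem bicone_total (E F : Obj C) : (bicone E F).fst ≫ (bicone E F).inl +
    (bicone E F).snd ≫ (bicone E F).inr = 𝟙 (bicone E F).pt := hom_ext fun _ => by
  change fromRows (1 : Matrix E.ι E.ι ℂ) (0 : Matrix F.ι E.ι ℂ) *
      fromCols (1 : Matrix E.ι E.ι ℂ) (0 : Matrix E.ι F.ι ℂ) +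
    fromRows (0 : Matrix E.ι F.ι ℂ) (1 : Matrix F.ι F.ι ℂ) *
      fromCols (0 : Matrix F.ι E.ι ℂ) (1 : Matrix F.ι F.ι ℂ) = 1
  rw [fromRows_mul_fromCols, fromRows_mul_fromCols]
  simp [fromBlocks_add]

instance : HasBinaryBiproducts (Obj C) :=
  ⟨fun E F => hasBinaryBiproduct_of_total (bicone E F) (bicone_total E F)⟩

/-- The fibre at a point. -/
noncomputable def ev (C : Cr n) (z : Fin n → ℂ) : Obj C ⥤ ModuleCat.{0} ℂ where
  obj E := ModuleCat.of ℂ (E.ι → ℂ)
  map u := ModuleCat.ofHom (val u z).mulVecLin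
  map_id _ := by ext1; simp
  map_comp u v := by ext1; simp [Matrix.mulVecLin_mul]

instance (z : Fin n → ℂ) : (ev C z).Additive where
  map_add := by intros; ext1; exact Matrix.mulVecLin_add _ _

/-- Exactness of a pair of matrix functions at every point. -/
def PEx {α β γ : Type} [Fintype α] [Fintype β] (u : (Fin n → ℂ) → Matrix β α ℂ)
    (v : (Fin n → ℂ) → Matrix γ β ℂ) : Prop :=
  ∀ z, Function.Exact (u z).mulVec (v z).mulVec

/-- All types are at most `a`. -/
def Le (a : ℝ) : ObjectProperty (Obj C) := fun E => ∀ i, E.t i ≤ a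

/-- All types are at least `a`. -/
def Ge (a : ℝ) : ObjectProperty (Obj C) := fun E => ∀ i, a ≤ E.t i

/-- All types are greater than `a`. -/
def Gt (a : ℝ) : ObjectProperty (Obj C) := fun E => ∀ i, a < E.t i

end Pool.Agent.Lib.MP_d3d358_ag.Th
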