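import Pool.Agent.Lib.MP_d3d358_ag.Th.LatSum
import Pool.Agent.Lib.MP_d3d358_ag.Th.Ops

/-! Finite dimensionality of spaces of entire functions with automorphy. -/

set_option autoImplicit false

namespace Pool.Agent.Lib.MP_d3d358_ag.Th

open Matrix Complex MeasureTheory Filter

variable {n : ℕ} {Λ : Lat n}

theorem norm_mulVec_le_sum {ι κ : Type} [Fintype ι] [Fintype κ] (A : Matrix κ ι ℂ) (x : ι → ℂ) :
    ‖A *ᵥ x‖ ≤ (∑ i, ∑ j, ‖A i j‖) * ‖x‖ := by
  refine (pi_norm_le_iff_of_nonneg (by positivity)).2 fun i => ?_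
  calc ‖(A *ᵥ x) i‖ ≤ ∑ j, ‖A i j * x j‖ := norm_sum_le _ _
    _ ≤ ∑ j, ‖A i j‖ * ‖x‖ := Finset.sum_le_sum fun j _ => by
        rw [norm_mul]; exact mul_le_mul_of_nonneg_left (norm_le_pi_norm x j) (norm_nonneg _)
    _ ≤ _ := by
        rw [← Finset.sum_mul]
        exact mul_le_mul_of_nonneg_right (Finset.single_le_sum (f := fun i => ∑ j, ‖A i j‖)
          (fun _ _ => by positivity) (Finset.mem_univ i)) (norm_nonneg _)

/-- A bound on a fundamental ball gives a bound on every ball, uniformly. -/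
theorem exists_aut_bound {ι : Type} [Fintype ι] (A : Λ.L → (Fin n → ℂ) → Matrix ι ι ℂ)
    (hA : ∀ l i j, Continuous fun z => A l z i j) {R : ℝ}
    (hR : ∀ z : Fin n → ℂ, ∃ l : Λ.L, ‖z - (l : Fin n → ℂ)‖ ≤ R) (S : ℝ) :
    ∃ C, 0 ≤ C ∧ ∀ (f : (Fin n → ℂ) → ι → ℂ) (M : ℝ), (∀ (l : Λ.L) z, f (z + l) = A l z *ᵥ f z) →
      (∀ z, ‖z‖ ≤ R → ‖f z‖ ≤ M) → ∀ w, ‖w‖ ≤ S → ‖f w‖ ≤ C * M := by
  have hc : ∀ l : Λ.L, ∃ c, 0 ≤ c ∧ ∀ z, ‖z‖ ≤ R → ∑ i, ∑ j, ‖A l z i j‖ ≤ c := fun l => by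
    obtain ⟨c, hc⟩ := (isCompact_closedBall (0 : Fin n → ℂ) R).bddAbove_image
      (f := fun z => ∑ i, ∑ j, ‖A l z i j‖) (continuous_finsetSum _ fun i _ =>
        continuous_finsetSum _ fun j _ => (hA l i j).norm).continuousOn
    exact ⟨max c 0, le_max_right _ _, fun z hz =>
      (hc ⟨z, mem_closedBall_zero_iff.2 hz, rfl⟩).trans (le_max_left _ _)⟩
  choose c c0 hc using hc
  refine ⟨∑ l ∈ (Λ.finite_ball (n * (S + R) ^ 2)).toFinset, c l,
    Finset.sum_nonneg fun l _ => c0 l, fun f M hf hM w hw => ?_⟩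
  obtain ⟨l, hl⟩ := hR w
  have a : ‖(l : Fin n → ℂ)‖ ≤ S + R := by
    have := norm_sub_le w (w - l)
    rw [sub_sub_cancel] at this
    linarith
  have b : l ∈ (Λ.finite_ball (n * (S + R) ^ 2)).toFinset := by
    rw [Set.Finite.mem_toFinset]
    refine (nsq_le_norm_sq _).trans ?_
    gcongr
  have e := hf l (w - l)
  rw [sub_add_cancel] at e
  rw [e]
  exact (norm_mulVec_le_sum _ _).trans (mul_le_mul ((hc l _ hl).trans
    (Finset.single_le_sum (fun l _ => c0 l) b)) (hM _ hl) (norm_nonneg _)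
    (Finset.sum_nonneg fun l _ => c0 l))

/-- An entire function with automorphy is determined by its values on a fixed finite set. -/
theorem exists_finite_det {ι : Type} [Fintype ι] (A : Λ.L → (Fin n → ℂ) → Matrix ι ι ℂ)
    (hA : ∀ l i j, Continuous fun z => A l z i j) :
    ∃ t : Set (Fin n → ℂ), t.Finite ∧ ∀ f : (Fin n → ℂ) → ι → ℂ,
      (∀ i, Differentiable ℂ fun z => f z i) → (∀ (l : Λ.L) z, f (z + l) = A l z *ᵥ f z) →
      (∀ x ∈ t, f x = 0) → f = 0 := by
  obtain ⟨R, R0, hR⟩ := Λ.exists_near_norm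
  obtain ⟨C, C0, hC⟩ := exists_aut_bound A hA hR (R + 1)
  obtain ⟨t, ts, tf, ht⟩ := finite_cover_balls_of_compact (isCompact_closedBall (0 : Fin n → ℂ) R)
    (e := 1 / (C + 2)) (by positivity)
  refine ⟨t, tf, fun f hd hf h0 => ?_⟩
  have hd' : Differentiable ℂ f := differentiable_pi.2 hd
  obtain ⟨z, hz, hm⟩ := (isCompact_closedBall (0 : Fin n → ℂ) R).exists_isMaxOn
    ⟨0, Metric.mem_closedBall_self R0⟩ hd'.continuous.norm.continuousOn
  have hM : ∀ w, ‖w‖ ≤ R → ‖f w‖ ≤ ‖f z‖ := fun w hw => hm (mem_closedBall_zero_iff.2 hw)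
  obtain ⟨x, hx, hzx⟩ := Set.mem_iUnion₂.1 (ht hz)
  have e1 : 1 / (C + 2) ≤ 1 := by rw [div_le_one (by positivity)]; linarith
  have s := dist_le_div_mul_dist_of_mapsTo_ball (c := x) (R₁ := 1) (R₂ := C * ‖f z‖)
    hd'.differentiableOn (fun w hw => by
      rw [h0 x hx, mem_closedBall_zero_iff]
      refine hC f _ hf hM w ?_
      have a := mem_closedBall_zero_iff.1 (ts hx)
      have b := mem_ball_iff_norm.1 hw
      have c := norm_add_le (w - x) x
      rw [sub_add_cancel] at c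
      linarith) (Metric.ball_subset_ball e1 hzx)
  rw [h0 x hx, dist_zero_right, div_one] at s
  have z0 : ‖f z‖ ≤ 0 := by
    have a := mul_le_mul_of_nonneg_left (Metric.mem_ball.1 hzx).le
      (mul_nonneg C0 (norm_nonneg (f z)))
    have b := s.trans a
    rw [mul_one_div, le_div_iff₀ (by positivity)] at b
    nlinarith [norm_nonneg (f z)]
  funext w
  obtain ⟨l, hl⟩ := hR w
  have e := hf l (w - l)
  rw [sub_add_cancel, norm_le_zero_iff.1 ((hM _ hl).trans z0), mulVec_zero] at e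
  exact e

theorem fd_of_aut {ι W : Type} [Fintype ι] [AddCommGroup W] [Module ℂ W]
    (e : W →ₗ[ℂ] ((Fin n → ℂ) → ι → ℂ)) (hi : Function.Injective e)
    (hd : ∀ f i, Differentiable ℂ fun z => e f z i) (A : Λ.L → (Fin n → ℂ) → Matrix ι ι ℂ)
    (hA : ∀ l i j, Continuous fun z => A l z i j)
    (h : ∀ f (l : Λ.L) z, e f (z + l) = A l z *ᵥ e f z) : FiniteDimensional ℂ W := by
  obtain ⟨t, tf, ht⟩ := exists_finite_det A hA
  have := tf.to_subtype
  refine FiniteDimensional.of_injective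
    ((LinearMap.funLeft ℂ (ι → ℂ) (Subtype.val : t → Fin n → ℂ)).comp e) ?_
  rw [injective_iff_map_eq_zero] at hi ⊢
  exact fun f hf => hi f (ht _ (hd f) (h f) fun x hx => congrFun hf ⟨x, hx⟩)

theorem ObjL.continuous_fac (E : ObjL Λ) (l : Λ.L) (i j : E.ι) :
    Continuous fun z => E.fac l z i j := by
  simp only [ObjL.fac, diagonal_mul]
  exact (differentiable_aut _ _).continuous.mul continuous_const

theorem ObjL.continuous_inv (E : ObjL Λ) (l : Λ.L) (i j : E.ι) :
    Continuous fun z => E.inv l z i j := by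
  simp only [ObjL.inv, mul_diagonal]
  exact continuous_const.mul ((differentiable_aut _ _).continuous.inv₀ fun _ => aut_ne _ _ _)

instance finiteDimensional_HomL (E F : ObjL Λ) : FiniteDimensional ℂ (HomL E F) := by
  refine fd_of_aut (ι := F.ι × E.ι)
    { toFun := fun u z p => u.1 z p.1 p.2, map_add' := fun _ _ => rfl, map_smul' := fun _ _ => rfl }
    (fun u v h => Subtype.ext (funext fun z => Matrix.ext fun i j =>
      congrFun (congrFun h z) (i, j))) (fun u p => u.2.1 p.1 p.2)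
    (fun l z => of fun p q => F.fac l z p.1 q.1 * E.inv l z q.2 p.2)
    (fun l p q => (F.continuous_fac l _ _).mul (E.continuous_inv l _ _)) fun u l z => ?_
  have e : u.1 (z + l) = F.fac l z * u.1 z * E.inv l z := by
    rw [← u.2.2, Matrix.mul_assoc, E.fac_inv, Matrix.mul_one]
  funext p
  change u.1 (z + l) p.1 p.2 = ∑ q : F.ι × E.ι, F.fac l z p.1 q.1 * E.inv l z q.2 p.2 * u.1 z q.1 q.2
  rw [e, Fintype.sum_prod_type, Finset.sum_comm]
  simp only [Matrix.mul_apply, Finset.sum_mul]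
  exact Finset.sum_congr rfl fun _ _ => Finset.sum_congr rfl fun _ _ => mul_right_comm _ _ _

instance finiteDimensional_Sec (R : ObjL Λ) : FiniteDimensional ℂ (Sec R) :=
  fd_of_aut (Sec R).subtype Subtype.val_injective (fun u => u.2.1) R.fac R.continuous_fac
    fun u => u.2.2

instance finiteDimensional_Theta (t : ℝ) : FiniteDimensional ℂ (Theta Λ t) := by
  refine fd_of_aut (Λ := Λ) (ι := Unit)
    { toFun := fun u z _ => u.1 z, map_add' := fun _ _ => rfl, map_smul' := fun _ _ => rfl }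
    (fun u v h => Subtype.ext (funext fun z => congrFun (congrFun h z) ())) (fun u _ => u.2.1)
    (fun l z => of fun _ _ => aut t l z)
    (fun l _ _ => ?_) fun u l z => ?_
  · exact (differentiable_aut t (l : Fin n → ℂ)).continuous
  · funext p
    change u.1 (z + l) = ∑ _q : Unit, aut t l z * u.1 z
    rw [u.2.2 l l.2, Fintype.sum_unique]

/-- coordinates in a finite dimensional space of functions are combinations of evaluations -/
theorem exists_eval_comb {X : Type} (W : Submodule ℂ (X → ℂ)) [FiniteDimensional ℂ W]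
    (φ : W →ₗ[ℂ] ℂ) : ∃ (s : Finset X) (c : X → ℂ), ∀ f : W, φ f = ∑ x ∈ s, c x * f.1 x := by
  have h : Submodule.span ℂ (Set.range fun x : X =>
      ((LinearMap.proj x : (X → ℂ) →ₗ[ℂ] ℂ).comp W.subtype : W →ₗ[ℂ] ℂ)) = ⊤ := by
    refine Submodule.span_eq_top_of_ne_zero fun f hf => ?_
    by_contra! hn
    exact hf (Subtype.ext (funext fun x => hn _ ⟨x, rfl⟩))
  obtain ⟨c, hc⟩ := Finsupp.mem_span_range_iff_exists_finsupp.1 (h.ge (Submodule.mem_top (x := φ)))
  refine ⟨c.support, c, fun f => ?_⟩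
  rw [← hc, Finsupp.sum, LinearMap.sum_apply]
  rfl

end Pool.Agent.Lib.MP_d3d358_ag.Th
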