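import Pool.Agent.Lib.MP_d3d358_ag.Th.Eta

/-! A continuous equivariant right inverse of `u` on the kernel of `v` for a pointwise exact pair. -/

set_option autoImplicit false

namespace Pool.Agent.Lib.MP_d3d358_ag.Th

open Matrix Complex

variable {n : ℕ} {Λ : Lat n}

/-- If `M a M^* y = 0` with positive weights `a`, then `M^* y = 0`. -/
theorem ctr_mulVec_eq_zero {α β : Type} [Fintype α] [Fintype β] [DecidableEq α]
    (M : Matrix β α ℂ) (a : α → ℝ) (ha : ∀ i, 0 < a i) (y : β → ℂ)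
    (h : M *ᵥ (diagonal (fun i => (a i : ℂ)) *ᵥ (Mᴴ *ᵥ y)) = 0) : Mᴴ *ᵥ y = 0 := by
  have h1 : star y ⬝ᵥ (M *ᵥ (diagonal (fun i => (a i : ℂ)) *ᵥ (Mᴴ *ᵥ y))) = 0 := by
    rw [h, dotProduct_zero]
  have h2 : star y ᵥ* M = star (Mᴴ *ᵥ y) := by
    rw [star_mulVec, conjTranspose_conjTranspose]
  rw [dotProduct_mulVec, h2] at h1
  set x := Mᴴ *ᵥ y
  have h3 : ((∑ i, a i * ‖x i‖ ^ 2 : ℝ) : ℂ) = 0 := by
    rw [← h1, dotProduct]
    push_cast
    refine Finset.sum_congr rfl fun i _ => ?_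
    rw [mulVec_diagonal, Pi.star_apply, RCLike.star_def, mul_left_comm, Complex.conj_mul']
  rw [Complex.ofReal_eq_zero,
    Finset.sum_eq_zero_iff_of_nonneg fun i _ => mul_nonneg (ha i).le (sq_nonneg _)] at h3
  funext i
  have := (mul_eq_zero.1 (h3 i (Finset.mem_univ i))).resolve_left (ha i).ne'
  simpa using this

/-- The diagonal matrix of the weights `exp (s * pi * t * |z|^2)`. -/
noncomputable def ObjL.wt (E : ObjL Λ) (s : ℝ) (z : Fin n → ℂ) : Matrix E.ι E.ι ℂ :=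
  diagonal fun i => (Real.exp (s * (Real.pi * E.t i * nsq z)) : ℂ)

theorem ObjL.wt_mul (E : ObjL Λ) (z : Fin n → ℂ) : E.wt 1 z * E.wt (-1) z = 1 := by
  rw [ObjL.wt, ObjL.wt, diagonal_mul_diagonal, ← diagonal_one]
  congr 1; funext i
  rw [← Complex.ofReal_mul, ← Real.exp_add]; simp

theorem aut_mul_conj (t : ℝ) (l z : Fin n → ℂ) :
    aut t l z * (starRingEnd ℂ) (aut t l z) =
      (Real.exp (Real.pi * t * (nsq (z + l) - nsq z)) : ℂ) := by
  rw [Complex.mul_conj', norm_aut, ← Complex.ofReal_pow, sq, ← Real.exp_add]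
  congr 2; ring

theorem ObjL.ρ_wt (E : ObjL Λ) (s : ℝ) (l : Λ.L) (z : Fin n → ℂ) :
    E.wt s z * E.ρ l = E.ρ l * E.wt s z :=
  diag_comm (E.ρ_blk l) fun t => (Real.exp (s * (Real.pi * t * nsq z)) : ℂ)

theorem ObjL.fac_wt (E : ObjL Λ) (l : Λ.L) (z : Fin n → ℂ) :
    E.fac l z * E.wt 1 z * (E.fac l z)ᴴ = E.wt 1 (z + l) := by
  rw [ObjL.fac, conjTranspose_mul, Matrix.mul_assoc _ (E.ρ l), ← E.ρ_wt, Matrix.mul_assoc,
    Matrix.mul_assoc, ← Matrix.mul_assoc (E.ρ l), E.ρ_unit', Matrix.one_mul, diagonal_conjTranspose,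
    ObjL.wt, ObjL.wt, diagonal_mul_diagonal, diagonal_mul_diagonal]
  congr 1; funext i
  rw [Pi.star_apply, RCLike.star_def, mul_left_comm, aut_mul_conj, ← Complex.ofReal_mul,
    ← Real.exp_add]
  congr 2; ring

theorem ObjL.wt_fac (E : ObjL Λ) (l : Λ.L) (z : Fin n → ℂ) :
    (E.fac l z)ᴴ * E.wt (-1) (z + l) * E.fac l z = E.wt (-1) z := by
  have h1 : E.wt (-1) (z + l) * (E.fac l z * E.wt 1 z * (E.fac l z)ᴴ) = 1 := by
    rw [E.fac_wt]; exact mul_eq_one_comm.1 (E.wt_mul _)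
  have h2 : ((E.fac l z)ᴴ * E.wt (-1) (z + l) * E.fac l z) * E.wt 1 z = 1 := by
    rw [← Matrix.mul_assoc, mul_eq_one_comm] at h1
    simpa only [Matrix.mul_assoc] using h1
  calc _ = ((E.fac l z)ᴴ * E.wt (-1) (z + l) * E.fac l z) * (E.wt 1 z * E.wt (-1) z) := by
        rw [E.wt_mul, Matrix.mul_one]
    _ = _ := by rw [← Matrix.mul_assoc, h2, Matrix.one_mul]

theorem ObjL.continuous_wt (E : ObjL Λ) (s : ℝ) : Continuous fun z => E.wt s z := by
  unfold ObjL.wt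
  refine Continuous.matrix_diagonal (continuous_pi fun i => ?_)
  fun_prop

theorem HomC.continuous {E F : ObjL Λ} {u : (Fin n → ℂ) → Matrix F.ι E.ι ℂ} (hu : u ∈ HomC E F) :
    Continuous u := continuous_pi fun i => continuous_pi fun j => hu.1 i j

theorem HomC.mk' {E F : ObjL Λ} {u : (Fin n → ℂ) → Matrix F.ι E.ι ℂ} (h1 : Continuous u)
    (h2 : ∀ (l : Λ.L) z, u (z + l) * E.fac l z = F.fac l z * u z) : u ∈ HomC E F :=
  ⟨fun i j => (continuous_apply j).comp ((continuous_apply i).comp h1), h2⟩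

/-- The adjoint for the natural hermitian metrics. -/
noncomputable def adjM (D E : ObjL Λ) (u : (Fin n → ℂ) → Matrix E.ι D.ι ℂ) (z : Fin n → ℂ) :
    Matrix D.ι E.ι ℂ := D.wt 1 z * (u z)ᴴ * E.wt (-1) z

theorem adjM_mem {D E : ObjL Λ} {u : (Fin n → ℂ) → Matrix E.ι D.ι ℂ} (hu : u ∈ HomC D E) :
    adjM D E u ∈ HomC E D := by
  refine HomC.mk' (((D.continuous_wt 1).matrix_mul
    (HomC.continuous hu).matrix_conjTranspose).matrix_mul (E.continuous_wt (-1))) fun l z => ?_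
  have e := congrArg conjTranspose (hu.2 l z)
  rw [conjTranspose_mul, conjTranspose_mul] at e
  rw [adjM, adjM, ← D.fac_wt, ← E.wt_fac l z]
  simp only [Matrix.mul_assoc]
  rw [← Matrix.mul_assoc (D.fac l z)ᴴ, e, Matrix.mul_assoc]

theorem HomC.inv_mem {E : ObjL Λ} {u : (Fin n → ℂ) → Matrix E.ι E.ι ℂ} (hu : u ∈ HomC E E)
    (h : ∀ z, IsUnit (u z).det) : (fun z => (u z)⁻¹) ∈ HomC E E := by
  refine HomC.mk' ?_ fun l z => ?_
  · have hc := HomC.continuous hu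
    simp only [Matrix.inv_def, Ring.inverse_eq_inv']
    exact (hc.matrix_det.inv₀ fun z => (h z).ne_zero).smul hc.matrix_adjugate
  · calc (u (z + l))⁻¹ * E.fac l z = (u (z + l))⁻¹ * (E.fac l z * u z) * (u z)⁻¹ := by
          rw [Matrix.mul_assoc, Matrix.mul_assoc, mul_nonsing_inv _ (h z), Matrix.mul_one]
      _ = _ := by rw [← hu.2 l z, ← Matrix.mul_assoc, nonsing_inv_mul _ (h _), Matrix.one_mul]

theorem exists_right {D E F : ObjL Λ} {u : (Fin n → ℂ) → Matrix E.ι D.ι ℂ}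
    {v : (Fin n → ℂ) → Matrix F.ι E.ι ℂ} (hu : u ∈ HomL D E) (hv : v ∈ HomL E F) (h : PEx u v) :
    ∃ φ ∈ HomC E D, ∀ z x, v z *ᵥ x = 0 → u z *ᵥ (φ z *ᵥ x) = x := by
  have hu' := HomL_le_HomC _ _ hu
  have hv' := HomL_le_HomC _ _ hv
  set Δ : (Fin n → ℂ) → Matrix E.ι E.ι ℂ :=
    (fun z => u z * adjM D E u z) + fun z => adjM E F v z * v z with hΔ
  have hΔm : Δ ∈ HomC E E :=
    add_mem (HomC.mul_mem (adjM_mem hu') hu') (HomC.mul_mem hv' (adjM_mem hv'))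
  have hap : ∀ z y, Δ z *ᵥ y = u z *ᵥ (adjM D E u z *ᵥ y) +
      E.wt 1 z *ᵥ ((v z)ᴴ *ᵥ (F.wt (-1) z *ᵥ (v z *ᵥ y))) := fun z y => by
    simp only [hΔ, Pi.add_apply, add_mulVec, mulVec_mulVec, adjM, Matrix.mul_assoc]
  have key : ∀ z y, v z *ᵥ (Δ z *ᵥ y) = 0 → (v z)ᴴ *ᵥ (F.wt (-1) z *ᵥ (v z *ᵥ y)) = 0 := by
    intro z y hy
    rw [hap, mulVec_add, (h z).apply_apply_eq_zero, zero_add] at hy
    exact ctr_mulVec_eq_zero (v z) _ (fun i => Real.exp_pos _) _ hy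
  have hdet : ∀ z, IsUnit (Δ z).det := by
    intro z
    rw [← isUnit_iff_isUnit_det, ← mulVec_injective_iff_isUnit]
    refine (injective_iff_map_eq_zero (Δ z).mulVecLin).2 fun y hy => ?_
    rw [mulVecLin_apply] at hy
    have h1 := key z y (by rw [hy, mulVec_zero])
    have h2 : v z *ᵥ y = 0 := by
      have := ctr_mulVec_eq_zero (v z)ᴴ _ (fun i => Real.exp_pos ((-1) * (Real.pi * F.t i * nsq z))) y
        (by rw [conjTranspose_conjTranspose]; exact h1)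
      rwa [conjTranspose_conjTranspose] at this
    rw [hap, h1, mulVec_zero, add_zero, adjM, ← mulVec_mulVec, ← mulVec_mulVec] at hy
    have h3 := ctr_mulVec_eq_zero (u z) _ (fun i => Real.exp_pos _) _ hy
    obtain ⟨x, rfl⟩ := (h z y).1 h2
    have := ctr_mulVec_eq_zero (u z)ᴴ _ (fun i => Real.exp_pos ((-1) * (Real.pi * E.t i * nsq z))) x
      (by rw [conjTranspose_conjTranspose]; exact h3)
    rwa [conjTranspose_conjTranspose] at this
  refine ⟨fun z => adjM D E u z * (Δ z)⁻¹, HomC.mul_mem (HomC.inv_mem hΔm hdet) (adjM_mem hu'),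
    fun z x hx => ?_⟩
  have e : Δ z *ᵥ ((Δ z)⁻¹ *ᵥ x) = x := by
    rw [mulVec_mulVec, mul_nonsing_inv _ (hdet z), one_mulVec]
  have h1 := key z ((Δ z)⁻¹ *ᵥ x) (by rw [e, hx])
  rw [hap, h1, mulVec_zero, add_zero] at e
  rw [← mulVec_mulVec]
  exact e

end Pool.Agent.Lib.MP_d3d358_ag.Th
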