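import Pool.Agent.Lib.MP_d3d358_ag.Th.Eta

/-! Lattice facts: covering radius, gap, Gaussian sums. -/

set_option autoImplicit false

namespace Pool.Agent.Lib.MP_d3d358_ag.Th

open Matrix Complex MeasureTheory Filter

variable {n : ℕ} {Λ : Lat n}

instance Lat.discrete (Λ : Lat n) : DiscreteTopology Λ.L :=
  inferInstanceAs (DiscreteTopology (Submodule.span ℤ (Set.range Λ.bas)))

instance Lat.isZLattice (Λ : Lat n) : IsZLattice ℝ Λ.L := ⟨ZSpan.span_top Λ.bas⟩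

instance Lat.countable (Λ : Lat n) : Countable Λ.L := instCountable_of_discrete_submodule Λ.L

theorem Lat.exists_near_norm (Λ : Lat n) :
    ∃ R, 0 ≤ R ∧ ∀ z : Fin n → ℂ, ∃ l : Λ.L, ‖z - (l : Fin n → ℂ)‖ ≤ R :=
  ⟨_, Finset.sum_nonneg fun _ _ => norm_nonneg _, fun z =>
    ⟨ZSpan.floor Λ.bas z, ZSpan.norm_fract_le Λ.bas z⟩⟩

theorem Lat.exists_near (Λ : Lat n) :
    ∃ R, ∀ z : Fin n → ℂ, ∃ l : Λ.L, nsq (z - (l : Fin n → ℂ)) ≤ R := by
  obtain ⟨R, -, h⟩ := Λ.exists_near_norm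
  refine ⟨n * R ^ 2, fun z => (h z).imp fun l hl => (nsq_le_norm_sq _).trans ?_⟩
  gcongr

theorem Lat.finite_ball (Λ : Lat n) (R : ℝ) : {l : Λ.L | nsq (l : Fin n → ℂ) ≤ R}.Finite := by
  refine ((ZSpan.setFinite_inter Λ.bas (Metric.isBounded_closedBall (x := 0) (r := √R))).preimage
    (f := (Subtype.val : Λ.L → Fin n → ℂ)) Subtype.val_injective.injOn).subset fun l hl => ⟨?_, l.2⟩
  exact mem_closedBall_zero_iff.2 (Real.le_sqrt_of_sq_le ((norm_sq_le_nsq _).trans hl))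

theorem nsq_pos {z : Fin n → ℂ} (h : z ≠ 0) : 0 < nsq z :=
  (pow_pos (norm_pos_iff.2 h) 2).trans_le (norm_sq_le_nsq z)

theorem Lat.exists_gap (Λ : Lat n) : ∃ r > 0, ∀ l : Λ.L, l ≠ 0 → r ≤ nsq (l : Fin n → ℂ) := by
  obtain ⟨r, r0, hr⟩ := Metric.isOpen_singleton_iff.1 (isOpen_discrete ({0} : Set Λ.L))
  refine ⟨r ^ 2, pow_pos r0 2, fun l hl => le_trans ?_ (norm_sq_le_nsq _)⟩
  refine pow_le_pow_left₀ r0.le (not_lt.1 fun h => hl (hr l ?_)) 2
  rwa [dist_zero_right]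

theorem Lat.summable_gauss (Λ : Lat n) {δ : ℝ} (hδ : 0 < δ) :
    Summable fun l : Λ.L => Real.exp (-(δ * nsq (l : Fin n → ℂ))) := by
  obtain ⟨k, hk⟩ : ∃ k, k = Module.finrank ℤ Λ.L + 1 := ⟨_, rfl⟩
  refine Summable.of_norm_bounded_eventually ((ZLattice.summable_norm_pow_inv (L := Λ.L) (2 * k)
    (by omega)).mul_left (k.factorial / δ ^ k)) ?_
  filter_upwards [eventually_cofinite_ne 0] with l hl
  have a : (0 : ℝ) < ‖l‖ := norm_pos_iff.2 hl
  have b := Real.pow_div_factorial_le_exp _ (show 0 ≤ δ * ‖l‖ ^ 2 by positivity) k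
  have c : δ * ‖l‖ ^ 2 ≤ δ * nsq (l : Fin n → ℂ) :=
    mul_le_mul_of_nonneg_left (norm_sq_le_nsq (l : Fin n → ℂ)) hδ.le
  rw [Real.norm_of_nonneg (Real.exp_pos _).le, Real.exp_neg]
  refine (inv_anti₀ (by positivity) (b.trans (Real.exp_le_exp.2 c))).trans (le_of_eq ?_)
  rw [mul_pow, ← pow_mul, inv_pow]
  field_simp

theorem Lat.tendsto_tail (Λ : Lat n) : Tendsto (fun δ : ℝ =>
    ∑' l : {l : Λ.L // l ≠ 0}, Real.exp (-(δ * nsq (l.1 : Fin n → ℂ)))) atTop (nhds 0) := by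
  have := tendsto_tsum_of_dominated_convergence (𝓕 := atTop)
    (f := fun (δ : ℝ) (l : {l : Λ.L // l ≠ 0}) => Real.exp (-(δ * nsq (l.1 : Fin n → ℂ))))
    (g := fun _ => 0) ((Λ.summable_gauss one_pos).subtype {l | l ≠ 0}) (fun l => ?_) ?_
  · simpa using this
  · exact Real.tendsto_exp_neg_atTop_nhds_zero.comp
      (tendsto_id.atTop_mul_const (nsq_pos fun e => l.2 (Subtype.ext e)))
  · filter_upwards [eventually_ge_atTop 1] with δ hδ l
    rw [Real.norm_of_nonneg (Real.exp_pos _).le]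
    exact Real.exp_le_exp.2 (neg_le_neg (mul_le_mul_of_nonneg_right hδ (nsq_nonneg _)))

theorem Lat.dom_bounded (Λ : Lat n) : Bornology.IsBounded Λ.dom :=
  ZSpan.fundamentalDomain_isBounded Λ.bas

theorem Lat.vol_pos (Λ : Lat n) : 0 < Λ.vol :=
  ENNReal.toReal_pos (ZSpan.measure_fundamentalDomain_ne_zero Λ.bas) Λ.dom_bounded.measure_lt_top.ne

end Pool.Agent.Lib.MP_d3d358_ag.Th
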