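import Pool.Agent.Lib.MP_d3d358_ag.Th.Mean
import Pool.Agent.Lib.MP_d3d358_ag.Th.LatSum

/-! The Toeplitz estimate: for large types the projection of a product is close to the product. -/

set_option autoImplicit false

namespace Pool.Agent.Lib.MP_d3d358_ag.Th

open Matrix Complex MeasureTheory Filter Topology

variable {n : ℕ} {Λ : Lat n}

theorem Tp.bd_nonneg {d M : ℝ} {a : (Fin n → ℂ) → ℂ} (h : Bd d M a) : 0 ≤ M :=
  nonneg_of_mul_nonneg_left ((norm_nonneg _).trans (h 0)) (Real.exp_pos _)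

theorem Tp.bd_mul {d d' M M' : ℝ} {a b : (Fin n → ℂ) → ℂ} (ha : Bd d M a) (hb : Bd d' M' b) :
    Bd (d + d') (M * M') fun z => a z * b z := fun z => by
  rw [norm_mul]
  refine (mul_le_mul (ha z) (hb z) (norm_nonneg _) ((norm_nonneg _).trans (ha z))).trans
    (le_of_eq ?_)
  rw [mul_mul_mul_comm, ← Real.exp_add]
  congr 2; ring

theorem Tp.norm_twist (c : ℝ) (z w : Fin n → ℂ) :
    ‖exp (Real.pi * c * eta (z - w) z)‖ =
      Real.exp (Real.pi * c * (nsq z - nsq w + nsq (w - z)) / 2) := by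
  rw [Complex.norm_exp, nsq_sub, eta_sub_left, eta_self]
  congr 1
  simp; ring

/-- The twisted difference, far from the diagonal. -/
theorem Tp.norm_twist_sub_le {c B : ℝ} {φ : (Fin n → ℂ) → ℂ} (hB : Bd (-c) B φ) (z w : Fin n → ℂ) :
    ‖φ w - φ z * exp (Real.pi * c * eta (z - w) z)‖ ≤
      2 * B * Real.exp (Real.pi * |c| * nsq (w - z) / 2) *
        Real.exp (Real.pi * (-c) * nsq w / 2) := by
  have h0 := Tp.bd_nonneg hB
  have hq := nsq_nonneg (w - z)
  have h1 : 1 ≤ Real.exp (Real.pi * |c| * nsq (w - z) / 2) := Real.one_le_exp (by positivity)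
  have h2 : ‖φ z * exp (Real.pi * c * eta (z - w) z)‖ ≤
      B * Real.exp (Real.pi * |c| * nsq (w - z) / 2) * Real.exp (Real.pi * (-c) * nsq w / 2) := by
    rw [norm_mul, Tp.norm_twist]
    refine (mul_le_mul_of_nonneg_right (hB z) (Real.exp_pos _).le).trans ?_
    rw [mul_assoc, mul_assoc B, ← Real.exp_add, ← Real.exp_add]
    refine mul_le_mul_of_nonneg_left (Real.exp_le_exp.2 ?_) h0
    have := mul_le_mul_of_nonneg_left (le_abs_self c) (mul_nonneg Real.pi_pos.le hq)
    nlinarith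
  have h3 : ‖φ w‖ ≤
      B * Real.exp (Real.pi * |c| * nsq (w - z) / 2) * Real.exp (Real.pi * (-c) * nsq w / 2) :=
    (hB w).trans (mul_le_mul_of_nonneg_right (le_mul_of_one_le_right h0 h1) (Real.exp_pos _).le)
  refine (norm_sub_le _ _).trans ?_
  linarith

/-- The twisted difference, everywhere. -/
theorem Tp.norm_twist_sub_le' {c B d δ r : ℝ} {φ : (Fin n → ℂ) → ℂ} (hB : Bd (-c) B φ) (hδ : 0 ≤ δ)
    (hd : 4 * |c| ≤ d) (z w : Fin n → ℂ)
    (h : nsq (w - z) ≤ r → ‖φ w - φ z * exp (Real.pi * c * eta (z - w) z)‖ ≤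
      δ * Real.exp (Real.pi * (-c) * nsq w / 2)) :
    ‖φ w - φ z * exp (Real.pi * c * eta (z - w) z)‖ ≤
      (δ + 2 * B * Real.exp (-(Real.pi * d * r / 8))) *
        Real.exp (Real.pi * (d / 4) * nsq (w - z)) * Real.exp (Real.pi * (-c) * nsq w / 2) := by
  have h0 := Tp.bd_nonneg hB
  have hq := nsq_nonneg (w - z)
  have hd0 : 0 ≤ d := le_trans (by positivity) hd
  have h1 : 1 ≤ Real.exp (Real.pi * (d / 4) * nsq (w - z)) := Real.one_le_exp (by positivity)
  by_cases hr : nsq (w - z) ≤ r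
  · refine (h hr).trans (mul_le_mul_of_nonneg_right ?_ (Real.exp_pos _).le)
    refine le_trans ?_ (le_mul_of_one_le_right (by positivity) h1)
    have : 0 ≤ 2 * B * Real.exp (-(Real.pi * d * r / 8)) := by positivity
    linarith
  · refine (Tp.norm_twist_sub_le hB z w).trans (mul_le_mul_of_nonneg_right ?_ (Real.exp_pos _).le)
    have h2 : Real.exp (Real.pi * |c| * nsq (w - z) / 2) ≤
        Real.exp (-(Real.pi * d * r / 8)) * Real.exp (Real.pi * (d / 4) * nsq (w - z)) := by
      rw [← Real.exp_add, Real.exp_le_exp]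
      have a1 := mul_le_mul_of_nonneg_left hd (mul_nonneg Real.pi_pos.le hq)
      have a2 := mul_le_mul_of_nonneg_left (not_le.1 hr).le (mul_nonneg Real.pi_pos.le hd0)
      nlinarith
    have h3 := mul_le_mul_of_nonneg_left h2 (by positivity : 0 ≤ 2 * B)
    have h4 : 0 ≤ δ * Real.exp (Real.pi * (d / 4) * nsq (w - z)) := by positivity
    nlinarith

theorem Tp.norm_Pr_le {d K : ℝ} (hd : 0 < d) {a : (Fin n → ℂ) → ℂ} (z : Fin n → ℂ)
    (h : ∀ w, ‖exp (Real.pi * d * (eta z w - nsq w)) * a w‖ ≤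
      K * Real.exp (-(Real.pi * (d / 4) * nsq (w - z)))) : ‖Pr d a z‖ ≤ 4 ^ n * K := by
  have hd4 : 0 < d / 4 := by positivity
  have h1 := norm_integral_le_of_norm_le
    (((integrable_gauss hd4).comp_sub_right z).const_mul _) (Eventually.of_forall h)
  rw [integral_const_mul, integral_sub_right_eq_self
    (fun w : Fin n → ℂ => Real.exp (-(Real.pi * (d / 4) * nsq w))) z, integral_gauss hd4] at h1
  rw [Pr, norm_mul, norm_pow, Complex.norm_real, Real.norm_of_nonneg hd.le]
  refine (mul_le_mul_of_nonneg_left h1 (by positivity)).trans (le_of_eq ?_)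
  rw [div_pow]; field_simp

theorem toeplitz {c B : ℝ} {φ : (Fin n → ℂ) → ℂ} (hφ : Continuous φ) (hB : Bd (-c) B φ)
    (hU : UC c φ) {ε : ℝ} (hε : 0 < ε) : ∃ d₀ > 0, ∀ d, d₀ ≤ d → ∀ (g : (Fin n → ℂ) → ℂ) (M : ℝ),
      Differentiable ℂ g → Bd (d + c) M g →
      Bd d (ε * M) fun z => Pr d (fun w => φ w * g w) z - φ z * g z := by
  set δ : ℝ := ε / (2 * 4 ^ n) with hδ
  have hδ0 : 0 < δ := by positivity
  obtain ⟨r, hr, hU⟩ := hU δ hδ0
  have ht : Tendsto (fun d : ℝ => 2 * B * Real.exp (-(Real.pi * d * r / 8))) atTop (𝓝 0) := by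
    have h1 : Tendsto (fun d : ℝ => Real.pi * d * r / 8) atTop atTop :=
      ((tendsto_id.const_mul_atTop Real.pi_pos).atTop_mul_const hr).atTop_div_const (by norm_num)
    simpa using (Real.tendsto_exp_neg_atTop_nhds_zero.comp h1).const_mul (2 * B)
  obtain ⟨d₁, hd₁⟩ := eventually_atTop.1 (ht.eventually (ge_mem_nhds hδ0))
  refine ⟨max (max d₁ (4 * |c|)) 1, lt_max_of_lt_right one_pos, fun d hd g M hg hM z => ?_⟩
  have hd0 : 0 < d := one_pos.trans_le ((le_max_right _ _).trans hd)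
  have hdc : 4 * |c| ≤ d := (le_max_right _ _).trans ((le_max_left _ _).trans hd)
  have hdδ := hd₁ d ((le_max_left _ _).trans ((le_max_left _ _).trans hd))
  have hM0 := Tp.bd_nonneg hM
  have he : Differentiable ℂ fun w => exp (Real.pi * c * eta (z - w) z) :=
    (((differentiable_eta z).comp (differentiable_id.const_sub z)).const_mul _).cexp
  have hb : ∀ w, ‖exp (Real.pi * d * (eta z w - nsq w)) *
      ((φ w - φ z * exp (Real.pi * c * eta (z - w) z)) * g w)‖ ≤
      (2 * δ * M * Real.exp (Real.pi * d * nsq z / 2)) *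
        Real.exp (-(Real.pi * (d / 4) * nsq (w - z))) := fun w => by
    have h1 : ‖φ w - φ z * exp (Real.pi * c * eta (z - w) z)‖ ≤ 2 * δ *
        Real.exp (Real.pi * (d / 4) * nsq (w - z)) * Real.exp (Real.pi * (-c) * nsq w / 2) := by
      refine (Tp.norm_twist_sub_le' hB hδ0.le hdc z w (hU z w)).trans ?_
      gcongr
      linarith
    have h2 := mul_le_mul h1 (hM w) (norm_nonneg _) (by positivity)
    rw [norm_mul, norm_mul]
    refine (mul_le_mul_of_nonneg_left h2 (norm_nonneg _)).trans (le_of_eq ?_)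
    have e1 : Real.exp (Real.pi * (-c) * nsq w / 2) * Real.exp (Real.pi * (d + c) * nsq w / 2) =
        Real.exp (Real.pi * d * nsq w / 2) := by
      rw [← Real.exp_add]; congr 1; ring
    have e2 : Real.exp (-(Real.pi * (d / 2) * nsq (w - z))) *
        Real.exp (Real.pi * (d / 4) * nsq (w - z)) =
        Real.exp (-(Real.pi * (d / 4) * nsq (w - z))) := by
      rw [← Real.exp_add]; congr 1; ring
    have e3 := norm_ker d z w
    rw [← e2]
    rw [← e1] at e3
    linear_combination 2 * δ * M * Real.exp (Real.pi * (d / 4) * nsq (w - z)) * e3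
  have i1 : Integrable fun w => exp (Real.pi * d * (eta z w - nsq w)) * (φ w * g w) := by
    refine Pr_integrable (M := B * M) hd0 (hφ.mul hg.continuous) ?_ z
    have := Tp.bd_mul hB hM
    rwa [show -c + (d + c) = d by ring] at this
  have i2 : Integrable fun w => exp (Real.pi * d * (eta z w - nsq w)) *
      ((φ w - φ z * exp (Real.pi * c * eta (z - w) z)) * g w) :=
    (((integrable_gauss (by positivity : 0 < d / 4)).comp_sub_right z).const_mul _).mono'
      ((continuous_ker d z).mul ((hφ.sub (he.continuous.const_mul _)).mul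
        hg.continuous)).aestronglyMeasurable (Eventually.of_forall hb)
  have i3 : Integrable fun w => exp (Real.pi * d * (eta z w - nsq w)) *
      (φ z * exp (Real.pi * c * eta (z - w) z) * g w) :=
    (i1.sub i2).congr (Eventually.of_forall fun w => by simp only [Pi.sub_apply]; ring)
  have h3 := Pr_self' hd0 ((he.const_mul (φ z)).mul hg) z i3
  have h4 : Pr d (fun w => φ w * g w) z - φ z * g z =
      Pr d (fun w => (φ w - φ z * exp (Real.pi * c * eta (z - w) z)) * g w) z := by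
    have h5 : φ z * g z = Pr d (fun w => φ z * exp (Real.pi * c * eta (z - w) z) * g w) z := by
      refine Eq.trans ?_ h3.symm
      simp
    rw [h5, Pr, Pr, Pr, ← mul_sub, ← integral_sub i1 i3]
    congr 2; funext w; ring
  change ‖Pr d (fun w => φ w * g w) z - φ z * g z‖ ≤ _
  rw [h4]
  refine (Tp.norm_Pr_le hd0 z hb).trans (le_of_eq ?_)
  rw [hδ]; field_simp

theorem Tp.HomC_shift {E F : ObjL Λ} {a : (Fin n → ℂ) → Matrix F.ι E.ι ℂ} (ha : a ∈ HomC E F)
    (l : Λ.L) (z : Fin n → ℂ) (i : F.ι) (j : E.ι) :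
    a (z + l) i j = aut (F.t i - E.t j) l z * (F.ρ l * a z * (E.ρ l)ᴴ) i j := by
  have h : a (z + l) = F.fac l z * a z * E.inv l z := by
    rw [← ha.2, Matrix.mul_assoc, E.fac_inv, Matrix.mul_one]
  rw [h, ObjL.fac, ObjL.inv, ← Matrix.mul_assoc, mul_diagonal, Matrix.mul_assoc (diagonal _),
    Matrix.mul_assoc (diagonal _), diagonal_mul, aut, aut, aut, ← Complex.exp_neg, mul_right_comm,
    ← Complex.exp_add]
  congr 2; push_cast; ring

theorem Tp.norm_conj_le {E F : ObjL Λ} (l : Λ.L) (D : Matrix F.ι E.ι ℂ) (i : F.ι) (j : E.ι) :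
    ‖(F.ρ l * D * (E.ρ l)ᴴ) i j‖ ≤ ∑ j', ∑ i', ‖D i' j'‖ := by
  have hF : ∀ i', ‖F.ρ l i i'‖ ≤ 1 := fun i' =>
    entry_norm_bound_of_unitary (Matrix.mem_unitaryGroup_iff'.2 (F.ρ_unit l)) i i'
  have hE : ∀ j', ‖(E.ρ l)ᴴ j' j‖ ≤ 1 := fun j' => by
    rw [conjTranspose_apply, norm_star]
    exact entry_norm_bound_of_unitary (Matrix.mem_unitaryGroup_iff'.2 (E.ρ_unit l)) j j'
  rw [Matrix.mul_apply]
  refine (norm_sum_le _ _).trans (Finset.sum_le_sum fun j' _ => ?_)
  rw [norm_mul]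
  refine (mul_le_of_le_one_right (norm_nonneg _) (hE j')).trans ?_
  rw [Matrix.mul_apply]
  refine (norm_sum_le _ _).trans (Finset.sum_le_sum fun i' _ => ?_)
  rw [norm_mul]
  exact mul_le_of_le_one_left (norm_nonneg _) (hF i')

theorem HomC_uc {E F : ObjL Λ} {a : (Fin n → ℂ) → Matrix F.ι E.ι ℂ} (ha : a ∈ HomC E F)
    (i : F.ι) (j : E.ι) : UC (E.t j - F.t i) fun z => a z i j := by
  intro ε hε
  set c : ℝ := E.t j - F.t i with hc
  obtain ⟨R, -, hR⟩ := Λ.exists_near_norm
  set Φ : (Fin n → ℂ) × (Fin n → ℂ) → ℝ := fun p =>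
    (∑ j', ∑ i', ‖a (p.2 + p.1) i' j' - exp (Real.pi * c * eta (-p.1) p.2) * a p.2 i' j'‖) *
      Real.exp (Real.pi * c * nsq (p.2 + p.1) / 2) with hΦ
  have hΦc : Continuous Φ := by
    have h1 : Continuous fun p : (Fin n → ℂ) × (Fin n → ℂ) => eta (-p.1) p.2 :=
      continuous_eta.comp (continuous_fst.neg.prodMk continuous_snd)
    refine Continuous.mul (continuous_finsetSum _ fun j' _ => continuous_finsetSum _ fun i' _ =>
      Continuous.norm (((ha.1 i' j').comp (continuous_snd.add continuous_fst)).sub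
        ((h1.const_mul _).cexp.mul ((ha.1 i' j').comp continuous_snd)))) ?_
    fun_prop
  have hev : ∀ᶠ x in 𝓝 (0 : Fin n → ℂ), ∀ y ∈ Metric.closedBall (0 : Fin n → ℂ) R,
      Φ (x, y) < ε := by
    refine (isCompact_closedBall 0 R).eventually_forall_of_forall_eventually fun y _ => ?_
    refine hΦc.continuousAt.eventually_lt continuousAt_const ?_
    simpa [hΦ] using hε
  obtain ⟨δ, hδ, hev⟩ := Metric.eventually_nhds_iff.1 hev
  refine ⟨(δ / 2) ^ 2, by positivity, fun z w hzw => ?_⟩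
  obtain ⟨l, hl⟩ := hR z
  have hx : dist (w - z) 0 < δ := by
    rw [dist_zero_right]
    have h2 := abs_le_of_sq_le_sq' ((norm_sq_le_nsq (w - z)).trans hzw) (by positivity)
    linarith [h2.2]
  have h1 := (hev hx (z - l) (by simpa using hl)).le
  obtain ⟨y, rfl⟩ : ∃ y, z = y + l := ⟨z - l, by simp⟩
  obtain ⟨v, rfl⟩ : ∃ v, w = v + l := ⟨w - l, by simp⟩
  simp only [hΦ, add_sub_add_right_eq_sub, add_sub_cancel_right, add_sub_cancel, neg_sub] at h1
  have e : a (v + l) i j - a (y + l) i j *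
      exp (Real.pi * c * eta (y + (l : Fin n → ℂ) - (v + (l : Fin n → ℂ))) (y + l)) =
      aut (-c) l v * (F.ρ l * (a v - exp (Real.pi * c * eta (y - v) y) • a y) * (E.ρ l)ᴴ) i j := by
    have e1 : aut (-c) l y * exp (Real.pi * c * eta (y - v) (y + l)) =
        aut (-c) l v * exp (Real.pi * c * eta (y - v) y) := by
      rw [aut, aut, ← Complex.exp_add, ← Complex.exp_add, eta_add_right, eta_sub_left y v l]
      congr 1; push_cast; ring
    rw [Tp.HomC_shift ha, Tp.HomC_shift ha, show F.t i - E.t j = -c by rw [hc]; ring,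
      add_sub_add_right_eq_sub, Matrix.mul_sub, Matrix.sub_mul, Matrix.mul_smul, Matrix.smul_mul,
      Matrix.sub_apply, Matrix.smul_apply, smul_eq_mul]
    linear_combination (-(F.ρ l * a y * (E.ρ l)ᴴ) i j) * e1
  change ‖a (v + l) i j - a (y + l) i j * _‖ ≤ _
  rw [e, norm_mul, norm_aut]
  have h2 := Tp.norm_conj_le l (a v - exp (Real.pi * c * eta (y - v) y) • a y) i j
  simp only [Matrix.sub_apply, Matrix.smul_apply, smul_eq_mul] at h2
  have e2 : Real.exp (Real.pi * (-c) * (nsq (v + (l : Fin n → ℂ)) - nsq v) / 2) =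
      Real.exp (Real.pi * c * nsq v / 2) *
        Real.exp (Real.pi * (-c) * nsq (v + (l : Fin n → ℂ)) / 2) := by
    rw [← Real.exp_add]; congr 1; ring
  rw [e2, mul_right_comm, mul_comm (Real.exp (Real.pi * c * nsq v / 2))]
  exact mul_le_mul_of_nonneg_right
    ((mul_le_mul_of_nonneg_right h2 (Real.exp_pos _).le).trans h1) (Real.exp_pos _).le

end Pool.Agent.Lib.MP_d3d358_ag.Th
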