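import Pool.Agent.Lib.MP_d3d358_ag.Th.PrM
import Pool.Agent.Lib.MP_d3d358_ag.Th.Fin
import Pool.Agent.Lib.MP_d3d358_ag.Th.Right
import Pool.Agent.Lib.MP_d3d358_ag.Th.Toep
import Pool.Agent.Lib.MP_d3d358_ag.Th.Avg

/-! Exactness of the spaces of morphisms from objects of small type. -/

set_option autoImplicit false

namespace Pool.Agent.Lib.MP_d3d358_ag.Th

open Matrix Complex MeasureTheory Filter

variable {n : ℕ} {Λ : Lat n}

theorem Bd.mul {d e M N : ℝ} {a b : (Fin n → ℂ) → ℂ} (hM : 0 ≤ M) (ha : Bd d M a) (hb : Bd e N b)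
    {f : ℝ} (h : d + e = f) : Bd f (M * N) fun z => a z * b z := fun z => by
  rw [norm_mul]
  refine (mul_le_mul (ha z) (hb z) (norm_nonneg _) (by positivity)).trans (le_of_eq ?_)
  rw [mul_mul_mul_comm, ← Real.exp_add, ← h]; congr 2; ring

theorem Bd.sum {ι : Type} [Fintype ι] {d M : ℝ} {a : ι → (Fin n → ℂ) → ℂ} (ha : ∀ i, Bd d M (a i)) :
    Bd d (Fintype.card ι * M) fun z => ∑ i, a i z := fun z => by
  refine (norm_sum_le _ _).trans ((Finset.sum_le_sum fun i _ => ha i z).trans (le_of_eq ?_))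
  simp [mul_assoc]

theorem Bd.mono {d M N : ℝ} {a : (Fin n → ℂ) → ℂ} (ha : Bd d M a) (h : M ≤ N) : Bd d N a :=
  fun z => (ha z).trans (mul_le_mul_of_nonneg_right h (Real.exp_pos _).le)

theorem Pr_sum_bd {ι : Type} [Fintype ι] {d M : ℝ} (hd : 0 < d) {a : ι → (Fin n → ℂ) → ℂ}
    (hc : ∀ i, Continuous (a i)) (ha : ∀ i, Bd d M (a i)) (z : Fin n → ℂ) :
    Pr d (fun w => ∑ i, a i w) z = ∑ i, Pr d (a i) z := by
  simp only [Pr, Finset.mul_sum]
  rw [integral_finsetSum _ fun i _ => Pr_integrable hd (hc i) (ha i) z, Finset.mul_sum]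

theorem PEx.mul_eq_zero {α β γ : Type} [Fintype α] [Fintype β] [DecidableEq α]
    {u : (Fin n → ℂ) → Matrix β α ℂ} {v : (Fin n → ℂ) → Matrix γ β ℂ} (h : PEx u v)
    (z : Fin n → ℂ) : v z * u z = 0 := by
  ext i j
  have := congrFun ((h z).apply_apply_eq_zero (Pi.single j 1)) i
  rw [mulVec_mulVec, mulVec_single_one] at this
  exact this

/-- The Toeplitz estimate for matrices. -/
theorem toeplitz_mat {D E : ObjL Λ} {u : (Fin n → ℂ) → Matrix E.ι D.ι ℂ}
    {φ : (Fin n → ℂ) → Matrix D.ι E.ι ℂ} (hu : u ∈ HomC D E) (hφ : φ ∈ HomC E D) :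
    ∃ b : ℝ, (∀ j, b < D.t j) ∧ ∀ R : ObjL Λ, (∀ i, R.t i ≤ b) → ∀ g ∈ HomL R E, ∀ M, 0 ≤ M →
      (∀ k r, Bd (E.t k - R.t r) M fun z => g z k r) → ∀ i r, Bd (E.t i - R.t r) (M / 2) fun z =>
        (u z * PrM R D (fun w => φ w * g w) z - u z * (φ z * g z)) i r := by
  obtain ⟨U, hU0, hU⟩ := HomC_bd hu
  obtain ⟨B, hB0, hB⟩ := HomC_bd hφ
  set ε : ℝ := 1 / (2 * (Fintype.card D.ι * (U * Fintype.card E.ι) + 1)) with hε
  have hε0 : 0 < ε := by positivity
  have key := fun j k => toeplitz (c := E.t k - D.t j) (B := B) (hφ.1 j k)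
    (by rw [neg_sub]; exact hB j k) (HomC_uc hφ j k) hε0
  choose d₀ hd₀ hT using key
  obtain ⟨b₁, hb₁⟩ := (Set.finite_range fun p : D.ι × E.ι => D.t p.1 - d₀ p.1 p.2).bddBelow
  obtain ⟨b₂, hb₂⟩ := (Set.finite_range fun j : D.ι => D.t j - 1).bddBelow
  have hb : ∀ j, min b₁ b₂ < D.t j := fun j => by
    have := hb₂ ⟨j, rfl⟩
    have := min_le_right b₁ b₂
    simp only at *
    linarith
  refine ⟨min b₁ b₂, hb, fun R hR g hg M hM hgM i r => ?_⟩
  have h1 : ∀ j k, Bd (D.t j - R.t r) (ε * M) fun z =>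
      Pr (D.t j - R.t r) (fun w => φ w j k * g w k r) z - φ z j k * g z k r := fun j k => by
    have e : D.t j - R.t r + (E.t k - D.t j) = E.t k - R.t r := by ring
    refine hT j k _ ?_ _ M (hg.1 k r) (by rw [e]; exact hgM k r)
    have := hb₁ ⟨(j, k), rfl⟩
    have := min_le_left b₁ b₂
    have := hR r
    simp only at *
    linarith
  have h2 : ∀ j, Bd (D.t j - R.t r) (Fintype.card E.ι * (ε * M)) fun z =>
      (PrM R D (fun w => φ w * g w) z - φ z * g z) j r := fun j => by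
    have hd : 0 < D.t j - R.t r := sub_pos.2 ((hR r).trans_lt (hb j))
    have e : (fun z => (PrM R D (fun w => φ w * g w) z - φ z * g z) j r) = fun z => ∑ k,
        (Pr (D.t j - R.t r) (fun w => φ w j k * g w k r) z - φ z j k * g z k r) := by
      funext z
      rw [Finset.sum_sub_distrib, ← Pr_sum_bd (M := B * M) (a := fun k w => φ w j k * g w k r) hd
        (fun k => (hφ.1 j k).mul (hg.1 k r).continuous)
        (fun k => Bd.mul hB0 (hB j k) (hgM k r) (by ring))]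
      simp only [Matrix.sub_apply, PrM, of_apply, Matrix.mul_apply]
    rw [e]; exact Bd.sum (h1 j)
  have h3 := Bd.sum fun j => Bd.mul hU0 (hU i j) (h2 j) (f := E.t i - R.t r) (by ring)
  simp only [← Matrix.mul_sub]
  simp only [Matrix.mul_apply (M := u _)]
  refine h3.mono ?_
  have hp : 0 < Fintype.card D.ι * (U * Fintype.card E.ι) + 1 := by positivity
  have : Fintype.card D.ι * (U * Fintype.card E.ι) * ε ≤ 1 / 2 := by
    rw [hε, mul_one_div, div_le_div_iff₀ (by positivity) two_pos]; linarith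
  nlinarith [mul_le_mul_of_nonneg_right this hM]

theorem eq_zero_of_half {ι : Type} {t : ι → ℝ} {a : ι → (Fin n → ℂ) → ℂ} {M : ℝ}
    (hM : 0 ≤ M) (h0 : ∀ i, Bd (t i) M (a i))
    (h : ∀ N, 0 ≤ N → (∀ i, Bd (t i) N (a i)) → ∀ i, Bd (t i) (N / 2) (a i)) (i : ι)
    (z : Fin n → ℂ) : a i z = 0 := by
  have h1 : ∀ m : ℕ, ∀ i, Bd (t i) (M / 2 ^ m) (a i) := fun m => by
    induction m with
    | zero => simpa using h0
    | succ m ih => rw [pow_succ, ← div_div]; exact h _ (by positivity) ih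
  have h2 : Tendsto (fun m : ℕ => M / 2 ^ m * Real.exp (Real.pi * t i * nsq z / 2)) atTop
      (nhds (0 * Real.exp (Real.pi * t i * nsq z / 2))) :=
    (tendsto_const_nhds.div_atTop (tendsto_pow_atTop_atTop_of_one_lt one_lt_two)).mul_const _
  rw [zero_mul] at h2
  exact norm_le_zero_iff.1 (ge_of_tendsto' h2 fun m => h1 m i z)

/-- Composition with a fixed morphism. -/
noncomputable def postL (R : ObjL Λ) {E F : ObjL Λ} {v : (Fin n → ℂ) → Matrix F.ι E.ι ℂ}
    (hv : v ∈ HomL E F) : HomL R E →ₗ[ℂ] HomL R F where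
  toFun g := ⟨fun z => v z * g.1 z, HomL.mul_mem g.2 hv⟩
  map_add' a b := Subtype.ext (funext fun z => Matrix.mul_add (v z) (a.1 z) (b.1 z))
  map_smul' c a := Subtype.ext (funext fun z => Matrix.mul_smul (v z) c (a.1 z))

theorem postL_apply (R : ObjL Λ) {E F : ObjL Λ} {v : (Fin n → ℂ) → Matrix F.ι E.ι ℂ}
    (hv : v ∈ HomL E F) (g : HomL R E) (z : Fin n → ℂ) : (postL R hv g).1 z = v z * g.1 z := rfl

/-- The Toeplitz operator of a continuous morphism. -/
noncomputable def toepL {R D E : ObjL Λ} (h : ∀ i j, R.t j < D.t i)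
    {φ : (Fin n → ℂ) → Matrix D.ι E.ι ℂ} (hφ : φ ∈ HomC E D) : HomL R E →ₗ[ℂ] HomL R D where
  toFun g := ⟨PrM R D fun w => φ w * g.1 w,
    PrM_mem h (HomC.mul_mem (HomL_le_HomC _ _ g.2) hφ)⟩
  map_add' a b := Subtype.ext (by
    have e : (fun w => φ w * (a + b).1 w) = (fun w => φ w * a.1 w) + fun w => φ w * b.1 w :=
      funext fun w => Matrix.mul_add (φ w) (a.1 w) (b.1 w)
    exact (congrArg (PrM R D) e).trans (PrM_add h (HomC.mul_mem (HomL_le_HomC _ _ a.2) hφ)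
      (HomC.mul_mem (HomL_le_HomC _ _ b.2) hφ)))
  map_smul' c a := Subtype.ext (by
    have e : (fun w => φ w * (c • a).1 w) = c • fun w => φ w * a.1 w :=
      funext fun w => Matrix.mul_smul (φ w) c (a.1 w)
    exact (congrArg (PrM R D) e).trans (PrM_smul R D c _))

theorem toepL_apply {R D E : ObjL Λ} (h : ∀ i j, R.t j < D.t i)
    {φ : (Fin n → ℂ) → Matrix D.ι E.ι ℂ} (hφ : φ ∈ HomC E D) (g : HomL R E) :
    (toepL h hφ g).1 = PrM R D fun w => φ w * g.1 w := rfl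

theorem surj_of_inj_on_ker {A B : Type} [AddCommGroup A] [Module ℂ A] [FiniteDimensional ℂ A]
    [AddCommGroup B] [Module ℂ B] (T : A →ₗ[ℂ] A) (V : A →ₗ[ℂ] B) (h1 : ∀ a, V (T a) = 0)
    (h2 : ∀ a, V a = 0 → T a = 0 → a = 0) (g : A) (hg : V g = 0) : ∃ a, T a = g := by
  have hmap : ∀ g ∈ LinearMap.ker V, T g ∈ LinearMap.ker V := fun g _ => h1 g
  have hinj : Function.Injective (T.restrict hmap) := by
    rw [injective_iff_map_eq_zero]
    exact fun a ha => Subtype.ext (h2 a.1 a.2 (congrArg Subtype.val ha))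
  obtain ⟨a, ha⟩ := LinearMap.injective_iff_surjective.1 hinj ⟨g, hg⟩
  exact ⟨a.1, congrArg Subtype.val ha⟩

theorem TL_lat {D E F : ObjL Λ} {u : (Fin n → ℂ) → Matrix E.ι D.ι ℂ}
    {v : (Fin n → ℂ) → Matrix F.ι E.ι ℂ} (hu : u ∈ HomL D E) (hv : v ∈ HomL E F) (h : PEx u v) :
    ∃ b : ℝ, ∀ R : ObjL Λ, (∀ i, R.t i ≤ b) → ∀ g ∈ HomL R E, (∀ z, v z * g z = 0) →
      ∃ f ∈ HomL R D, ∀ z, u z * f z = g z := by
  obtain ⟨φ, hφ, hr⟩ := exists_right hu hv h
  obtain ⟨b, hb, hT⟩ := toeplitz_mat (HomL_le_HomC _ _ hu) hφ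
  refine ⟨b, fun R hR g hg hvg => ?_⟩
  have hlt : ∀ i j, R.t j < D.t i := fun i j => (hR j).trans_lt (hb i)
  obtain ⟨a, ha⟩ := surj_of_inj_on_ker (postL R hu ∘ₗ toepL hlt hφ) (postL R hv)
    (fun a => Subtype.ext (funext fun z => by
      rw [postL_apply, LinearMap.comp_apply, postL_apply, ← Matrix.mul_assoc, h.mul_eq_zero,
        Matrix.zero_mul]; rfl))
    (fun a hva ha => by
      have ha0 : ∀ z, u z * PrM R D (fun w => φ w * a.1 w) z = 0 := fun z =>
        congrFun (congrArg Subtype.val ha) z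
      have hva : ∀ z, v z * a.1 z = 0 := fun z => congrFun (congrArg Subtype.val hva) z
      have hua : ∀ z, u z * (φ z * a.1 z) = a.1 z := fun z => by
        ext i r
        exact congrFun (hr z (fun k => a.1 z k r)
          (funext fun k => congrFun (congrFun (hva z) k) r)) i
      obtain ⟨M, hM, hB⟩ := HomC_bd (HomL_le_HomC _ _ a.2)
      refine Subtype.ext (funext fun z => Matrix.ext fun i r => ?_)
      refine eq_zero_of_half (t := fun p : E.ι × R.ι => E.t p.1 - R.t p.2)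
        (a := fun p z => a.1 z p.1 p.2) hM (fun p => hB p.1 p.2) (fun N hN hB' p w => ?_) (i, r) z
      have := hT R hR a.1 a.2 N hN (fun k r => hB' (k, r)) p.1 p.2 w
      simpa only [ha0, hua, zero_sub, Matrix.neg_apply, norm_neg] using this)
    ⟨g, hg⟩ (Subtype.ext (funext hvg))
  exact ⟨_, (toepL hlt hφ a).2, fun z => congrFun (congrArg Subtype.val ha) z⟩

open CategoryTheory in
theorem TL {C : Cr n} {D E F : Obj C} (u : D ⟶ E) (v : E ⟶ F) (h : PEx (val u) (val v)) :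
    ∃ b : ℝ, ∀ R : Obj C, Le b R → ∀ g : R ⟶ E, g ≫ v = 0 → ∃ f : R ⟶ D, f ≫ u = g := by
  obtain ⟨b, hb⟩ := TL_lat u.2.1 v.2.1 h
  refine ⟨b, fun R hR g hg => ?_⟩
  obtain ⟨f, hf, e⟩ := hb R.toObjL hR g.1 g.2.1 fun z => congrArg (val · z) hg
  refine ⟨⟨avg R D f, avg_mem hf⟩, hom_ext fun z => ?_⟩
  exact (mul_avg u.2.2 f z).trans
    ((congrArg (avg R E · z) (funext e)).trans (congrFun (avg_self g.2.2) z))

open CategoryTheory in
/-- surjective case (F = 0) -/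
theorem TL_surj {C : Cr n} {D E : Obj C} (u : D ⟶ E) (h : ∀ z, Function.Surjective (val u z).mulVec) :
    ∃ b : ℝ, ∀ R : Obj C, Le b R → ∀ g : R ⟶ E, ∃ f : R ⟶ D, f ≫ u = g := by
  obtain ⟨b, hb⟩ := TL u (0 : E ⟶ zeroObj C) fun z y =>
    ⟨fun _ => h z y, fun _ => funext fun i : Empty => i.elim⟩
  exact ⟨b, fun R hR g => hb R hR g Limits.comp_zero⟩

/-- scalar form for S2a: a base point free family of type `s` generates all large types -/
theorem TL_theta {ι : Type} [Fintype ι] {s : ℝ} (y : ι → (Fin n → ℂ) → ℂ)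
    (hy : ∀ i, y i ∈ Theta Λ s) (h0 : ∀ z, ∃ i, y i z ≠ 0)
    (hs : ∀ l l' : Λ.L, exp (Real.pi * I * (s * alt (l : Fin n → ℂ) l' : ℝ)) = 1) :
    ∃ b : ℝ, ∀ t, b ≤ t →
      (∀ l l' : Λ.L, exp (Real.pi * I * (t * alt (l : Fin n → ℂ) l' : ℝ)) = 1) →
      ∀ g ∈ Theta Λ (t + s), ∃ f : ι → (Fin n → ℂ) → ℂ,
      (∀ i, f i ∈ Theta Λ t) ∧ ∀ z, ∑ i, y i z * f i z = g z := by
  classical
  let T : (κ : Type) → [Fintype κ] → ObjL Λ := fun κ _ =>
    { ι := κ, t := fun _ => 0, ρ := fun _ => 1, ρ_unit := fun _ => by simp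
      ρ_blk := fun _ _ _ _ => rfl, ρ_mul := fun _ _ => by simp }
  have hT : ∀ (κ : Type) [Fintype κ] l z, (T κ).fac l z = 1 := fun κ _ l z => by
    simp [T, ObjL.fac, aut_zero]
  have hL : ∀ t ht l z, (lineL Λ t ht).fac l z = aut t l z • 1 := fun t ht l z => by
    ext i j; simp [ObjL.fac]
  have hu : (fun z => (of fun _ j => y j z : Matrix Unit ι ℂ)) ∈ HomL (T ι) (lineL Λ s hs) :=
    ⟨fun _ j => (hy j).1, fun l z => by
      rw [hT, hL, Matrix.mul_one, Matrix.smul_mul, Matrix.one_mul]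
      ext i j; exact (hy j).2 l l.2 z⟩
  obtain ⟨b, hb⟩ := TL_lat hu (zero_mem (HomL (lineL Λ s hs) (T Empty))) fun z x =>
    ⟨fun _ => by
      obtain ⟨i, hi⟩ := h0 z
      refine ⟨Pi.single i (x () / y i z), funext fun _ => ?_⟩
      rw [mulVec_single]
      exact mul_div_cancel₀ _ hi,
    fun _ => funext fun i : Empty => i.elim⟩
  refine ⟨-b, fun t ht h g hg => ?_⟩
  have h' : ∀ l l' : Λ.L, exp (Real.pi * I * (-t * alt (l : Fin n → ℂ) l' : ℝ)) = 1 :=
    fun l l' => by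
      rw [neg_mul, Complex.ofReal_neg, mul_neg, Complex.exp_neg, h, inv_one]
  have ha : ∀ l z : Fin n → ℂ, aut t l z * aut (-t) l z = 1 := fun l z => by
    rw [← aut_add, add_neg_cancel, aut_zero]
  obtain ⟨f, hf, e⟩ := hb (lineL Λ (-t) h') (fun _ => neg_le.1 ht)
    (fun z => (of fun _ _ => g z : Matrix Unit Unit ℂ)) ⟨fun _ _ => hg.1, fun l z => by
      rw [hL, hL, Matrix.mul_smul, Matrix.smul_mul, Matrix.mul_one, Matrix.one_mul]
      ext i j
      change aut (-t) l z * g (z + l) = aut s l z * g z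
      rw [hg.2 l l.2, aut_add]
      linear_combination (aut s l z * g z) * ha l z⟩
    (fun z => Matrix.ext fun i : Empty => i.elim)
  refine ⟨fun i z => f z i (), fun i => ⟨hf.1 i (), fun l hl z => ?_⟩,
    fun z => congrFun (congrFun (e z) ()) ()⟩
  have e1 := hf.2 ⟨l, hl⟩ z
  rw [hT, hL, Matrix.mul_smul, Matrix.mul_one, Matrix.one_mul] at e1
  have e2 : aut (-t) l z * f (z + l) i () = f z i () := congrFun (congrFun e1 i) ()
  linear_combination (aut t l z) * e2 - f (z + l) i () * ha l z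

end Pool.Agent.Lib.MP_d3d358_ag.Th
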