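import Pool.Agent.Lib.MP_d3d358_ag.Th.Poin
import Pool.Agent.Lib.MP_d3d358_ag.Th.TL

/-! Covers by twists of the regular object, and the splitting of the multiplication maps. -/

set_option autoImplicit false

namespace Pool.Agent.Lib.MP_d3d358_ag.Th

open Matrix Complex CategoryTheory Limits

variable {n : ℕ} {C : Cr n}

theorem Split.inv_act (C : Cr n) (g : C.G) (z : Fin n → ℂ) : C.act g⁻¹ (C.act g z) = z := by
  rw [← LinearEquiv.mul_apply, ← map_mul, inv_mul_cancel, map_one]; rfl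

theorem Split.act_inv (C : Cr n) (g : C.G) (z : Fin n → ℂ) : C.act g (C.act g⁻¹ z) = z := by
  rw [← LinearEquiv.mul_apply, ← map_mul, mul_inv_cancel, map_one]; rfl

theorem fac_F0 (a : ℤ) (l : C.L) (z : Fin n → ℂ) :
    (twObj a (F0 C)).fac l z = aut (a * C.k) l z • (1 : Matrix C.G C.G ℂ) := by
  rw [fac_tw]; congr 1; simp [ObjL.fac, aut_zero]

/-- Frobenius reciprocity: a section of `E(-a)` gives a morphism `F0(a) ⟶ E`. -/
noncomputable def ofSec (E : Obj C) (a : ℤ) (s : (Fin n → ℂ) → E.ι → ℂ)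
    (hs : s ∈ Sec (twObj (-a) E).toObjL) : twObj a (F0 C) ⟶ E :=
  ⟨fun z => of fun i g => (E.σ g *ᵥ s (C.act g⁻¹ z)) i, ⟨fun i g => by
    simp only [of_apply, mulVec, dotProduct]
    exact Differentiable.fun_sum fun j _ =>
      ((hs.1 j).comp (C.differentiable_act g⁻¹)).const_mul _, fun l z => by
    rw [fac_F0, Matrix.mul_smul, Matrix.mul_one]
    ext i g
    have h1 := hs.2 (C.actL g⁻¹ l) (C.act g⁻¹ z)
    have h2 := E.σ_fac g (C.actL g⁻¹ l) (C.act g⁻¹ z)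
    have h3 : C.actL g (C.actL g⁻¹ l) = l := Subtype.ext (Split.act_inv C g l)
    have h4 : aut (a * C.k) l z * aut ((-a : ℤ) * C.k) (C.actL g⁻¹ l : C.L) (C.act g⁻¹ z) = 1 := by
      rw [show ((C.actL g⁻¹ l : C.L) : Fin n → ℂ) = C.act g⁻¹ l from rfl, aut_act, ← aut_add]
      push_cast
      rw [neg_mul, add_neg_cancel, aut_zero]
    rw [h3, Split.act_inv C] at h2
    rw [fac_tw] at h1
    change aut (a * C.k) l z * (E.σ g *ᵥ s (C.act g⁻¹ (z + l))) i =
      (E.fac l z *ᵥ (E.σ g *ᵥ s (C.act g⁻¹ z))) i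
    rw [map_add, show C.act g⁻¹ l = ((C.actL g⁻¹ l : C.L) : Fin n → ℂ) from rfl, h1, smul_mulVec,
      mulVec_smul, mulVec_mulVec, h2, mulVec_mulVec, Pi.smul_apply, smul_eq_mul, ← mul_assoc, h4,
      one_mul]⟩, fun g z => by
    ext i b
    change ∑ c, (E.σ c *ᵥ s (C.act c⁻¹ (C.act g z))) i * regM g c b =
      (E.σ g *ᵥ (E.σ b *ᵥ s (C.act b⁻¹ z))) i
    rw [Finset.sum_eq_single (g * b) (fun c _ hc => by simp [regM, hc]) (by simp), mulVec_mulVec,
      ← E.σ_mul, _root_.mul_inv_rev, map_mul, LinearEquiv.mul_apply, Split.inv_act C]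
    simp [regM]⟩

theorem val_ofSec (E : Obj C) (a : ℤ) (s : (Fin n → ℂ) → E.ι → ℂ)
    (hs : s ∈ Sec (twObj (-a) E).toObjL) (z : Fin n → ℂ) (i : E.ι) (g : C.G) :
    val (ofSec E a s hs) z i g = (E.σ g *ᵥ s (C.act g⁻¹ z)) i := rfl

theorem val_ofSec_one (E : Obj C) (a : ℤ) (s : (Fin n → ℂ) → E.ι → ℂ)
    (hs : s ∈ Sec (twObj (-a) E).toObjL) (z : Fin n → ℂ) (i : E.ι) :
    val (ofSec E a s hs) z i (1 : C.G) = s z i := by
  rw [val_ofSec, E.σ_one, one_mulVec, inv_one, map_one]; rfl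

theorem val_sum {ι : Type*} (S : Finset ι) {E F : Obj C} (u : ι → (E ⟶ F)) (z : Fin n → ℂ) :
    val (∑ k ∈ S, u k) z = ∑ k ∈ S, val (u k) z := by
  classical
  induction S using Finset.induction_on with
  | empty => simp
  | insert k S hk ih => rw [Finset.sum_insert hk, Finset.sum_insert hk, val_add, ih]

/-- A finite family of morphisms is jointly onto at every point. -/
def JSurj {ι : Type} [Fintype ι] {D : ι → Obj C} {E : Obj C} (p : ∀ k, D k ⟶ E) : Prop :=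
  ∀ z x, ∃ v : ∀ k, (D k).ι → ℂ, ∑ k, val (p k) z *ᵥ v k = x

theorem exists_int_le (E : Obj C) (d : ℝ) : ∃ c : ℤ, ∀ a ≤ c, Le d (twObj a E) := by
  obtain ⟨M, hM⟩ := Finite.exists_le fun i => E.t i - d
  refine ⟨-⌈max M 0⌉, fun a ha i => ?_⟩
  have h1 : (a : ℝ) ≤ -max M 0 := by
    have : (a : ℝ) ≤ -(⌈max M 0⌉ : ℤ) := by exact_mod_cast ha
    linarith [Int.le_ceil (max M 0)]
  have h2 : (1 : ℝ) ≤ C.k := by exact_mod_cast C.k_pos
  change E.t i + a * C.k ≤ d
  nlinarith [hM i, le_max_left M 0, le_max_right M 0]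

theorem exists_int_ge (E : Obj C) (d : ℝ) : ∃ c : ℤ, ∀ a, c ≤ a → Ge d (twObj a E) := by
  obtain ⟨M, hM⟩ := Finite.exists_le fun i => d - E.t i
  refine ⟨⌈max M 0⌉, fun a ha i => ?_⟩
  have h1 : max M 0 ≤ (a : ℝ) := (Int.le_ceil _).trans (by exact_mod_cast ha)
  have h2 : (1 : ℝ) ≤ C.k := by exact_mod_cast C.k_pos
  change d ≤ E.t i + a * C.k
  nlinarith [hM i, le_max_left M 0, le_max_right M 0]

/-- Every object is covered by low twists of the regular object. -/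
theorem exists_cover (E : Obj C) : ∃ c : ℤ, ∀ a ≤ c, ∃ (N : ℕ) (p : Fin N → (twObj a (F0 C) ⟶ E)),
    JSurj p := by
  obtain ⟨d, hd⟩ := ev_surj C.toLat (Fintype.card E.ι)
  obtain ⟨c, hc⟩ := exists_int_ge E d
  refine ⟨-c, fun a ha => ?_⟩
  let B := Module.finBasis ℂ (Sec (twObj (-a) E).toObjL)
  refine ⟨_, fun k => ofSec E a (B k).1 (B k).2, fun z x => ?_⟩
  obtain ⟨s, hs, rfl⟩ := hd (twObj (-a) E).toObjL le_rfl (hc (-a) (by omega)) z x
  refine ⟨fun k => Pi.single (1 : C.G) (B.repr ⟨s, hs⟩ k), funext fun i => ?_⟩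
  have h := congrArg (fun f : Sec (twObj (-a) E).toObjL => f.1 z i) (B.sum_repr ⟨s, hs⟩)
  simp only [Submodule.coe_sum, Submodule.coe_smul, Finset.sum_apply, Pi.smul_apply,
    smul_eq_mul] at h
  rw [← h, Finset.sum_apply]
  refine Finset.sum_congr rfl fun k _ => ?_
  rw [mulVec_single, mul_comm]
  exact congrArg (· * _) (val_ofSec_one E a _ (B k).2 z i)

instance : HasFiniteBiproducts (Obj C) :=
  haveI := hasFiniteProducts_of_has_binary_and_terminal (C := Obj C)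
  HasFiniteBiproducts.of_hasFiniteProducts

theorem JSurj.desc {ι : Type} [Fintype ι] {D : ι → Obj C} {E : Obj C} {p : ∀ k, D k ⟶ E}
    (h : JSurj p) (z : Fin n → ℂ) : Function.Surjective (val (biproduct.desc p) z).mulVec := by
  intro x
  obtain ⟨v, rfl⟩ := h z x
  refine ⟨∑ k, val (biproduct.ι D k) z *ᵥ v k, ?_⟩
  rw [mulVec_sum]
  refine Finset.sum_congr rfl fun k _ => ?_
  rw [mulVec_mulVec, ← val_comp, biproduct.ι_desc]

/-- Lifting through a jointly surjective family. -/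
theorem JSurj.lift {ι : Type} [Fintype ι] {D : ι → Obj C} {E : Obj C} {p : ∀ k, D k ⟶ E}
    (h : JSurj p) : ∃ b : ℝ, ∀ R : Obj C, Le b R → ∀ g : R ⟶ E,
      ∃ q : ∀ k, R ⟶ D k, ∑ k, q k ≫ p k = g := by
  obtain ⟨b, hb⟩ := TL_surj (biproduct.desc p) h.desc
  refine ⟨b, fun R hR g => ?_⟩
  obtain ⟨f, rfl⟩ := hb R hR g
  refine ⟨fun k => f ≫ biproduct.π D k, ?_⟩
  rw [biproduct.desc_eq, Preadditive.comp_sum]
  simp only [Category.assoc]

/-- The same matrix function between other twists with the same difference. -/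
noncomputable def retw {E F : Obj C} {a b : ℤ} (u : twObj a E ⟶ twObj b F) (a' b' : ℤ)
    (h : a + b' = a' + b) : twObj a' E ⟶ twObj b' F :=
  (twtw E a (a' - a) a' (by omega)).inv ≫ (tw C (a' - a)).map u ≫
    (twtw F b (a' - a) b' (by omega)).hom

@[simp] theorem val_retw {E F : Obj C} {a b : ℤ} (u : twObj a E ⟶ twObj b F) (a' b' : ℤ)
    (h : a + b' = a' + b) (z : Fin n → ℂ) : val (retw u a' b' h) z = val u z :=
  show (1 : Matrix F.ι F.ι ℂ) * val u z * (1 : Matrix E.ι E.ι ℂ) = _ by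
    rw [Matrix.one_mul, Matrix.mul_one]

/-- SPLIT: morphisms `R(u) ⟶ E(v)` with `v - u` large factor through a finite sum of twists of the
regular object. -/
theorem exists_split (R E : Obj C) : ∃ c : ℤ, ∀ a ≤ c, ∃ (N : ℕ) (s : ℤ), ∀ u v w : ℤ, a + v = w →
    ∃ p : Fin N → (twObj w (F0 C) ⟶ twObj v E), JSurj p ∧ (u + s ≤ v →
      ∀ g : twObj u R ⟶ twObj v E, ∃ q : Fin N → (twObj u R ⟶ twObj w (F0 C)),
        ∑ k, q k ≫ p k = g) := by
  obtain ⟨c, hc⟩ := exists_cover (twObj 0 E)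
  refine ⟨c, fun a ha => ?_⟩
  obtain ⟨N, p, hp⟩ := hc a ha
  obtain ⟨b, hb⟩ := hp.lift
  obtain ⟨s, hs⟩ := exists_int_le R b
  refine ⟨N, -s, fun u v w hw => ⟨fun k => retw (p k) w v (by omega), fun z x => ?_, fun huv g => ?_⟩⟩
  · simpa only [val_retw] using hp z x
  · obtain ⟨q, hq⟩ := hb _ (hs (u - v) (by omega)) (retw g (u - v) 0 (by omega))
    refine ⟨fun k => retw (q k) u w (by omega), hom_ext fun z => ?_⟩
    have := congrArg (fun f => val f z) hq
    simpa only [val_sum, val_comp, val_retw] using this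

end Pool.Agent.Lib.MP_d3d358_ag.Th
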