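import Pool.Agent.Lib.MP_d3d358_ag.Th.DimA

/-! The dimension formula for the space of sections of a theta bundle of positive types. -/

set_option autoImplicit false

namespace Pool.Agent.Lib.MP_d3d358_ag.Th

open Matrix Complex MeasureTheory Filter

variable {n : ℕ} {Λ : Lat n}

namespace Dim

/-- Multiplication of a section by a function of the type. -/
noncomputable def mulT (R : ObjL Λ) (g : ℝ → ℂ) : Sec R →ₗ[ℂ] Sec R where
  toFun s := ⟨fun z i => g (R.t i) * s.1 z i, fun i => (s.2.1 i).const_mul _, fun l z => by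
    have e : ∀ x : R.ι → ℂ, (fun i => g (R.t i) * x i) = diagonal (fun i => g (R.t i)) *ᵥ x :=
      fun x => funext fun i => by rw [mulVec_diagonal]
    beta_reduce
    rw [e, e, s.2.2, mulVec_mulVec, mulVec_mulVec, ObjL.fac, Matrix.mul_assoc,
      ← diag_comm (R.ρ_blk l) g, ← Matrix.mul_assoc, ← Matrix.mul_assoc, diagonal_mul_diagonal,
      diagonal_mul_diagonal]
    simp only [mul_comm]⟩
  map_add' s s' := Subtype.ext (funext fun z => funext fun i => mul_add _ _ _)
  map_smul' c s := Subtype.ext (funext fun z => funext fun i => mul_left_comm _ _ _)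

theorem mulT_apply (R : ObjL Λ) (g : ℝ → ℂ) (s : Sec R) (z : Fin n → ℂ) (i : R.ι) :
    (mulT R g s).1 z i = g (R.t i) * s.1 z i := rfl

/-- The trace is the integral of the diagonal of the reproducing kernel. -/
theorem trace_eq_integral (R : ObjL Λ) (h : ∀ i, 0 < R.t i) (g : ℝ → ℂ) :
    LinearMap.trace ℂ _ (mulT R g) =
      ∫ w in Λ.dom, ∑ j, g (R.t j) * (Poin R (coh R w j) w j * wt (R.t j) w) := by
  obtain ⟨b, hb⟩ := exists_onb (core R)
  have key : ∀ w j, Poin R (coh R w j) w j = ∑ a, (starRingEnd ℂ) ((b a).1 w j) * (b a).1 w j :=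
    fun w j => by
    have hm : Poin R (coh R w j) ∈ Sec R :=
      Poin_mem (by have := Real.pi_pos; have := h j; positivity) (coh_dec R w j (h j))
        (coh_diff R w j)
    have e := congrFun (congrFun (congrArg Subtype.val (b.sum_repr ⟨_, hm⟩)) w) j
    simp only [Submodule.coe_sum, Submodule.coe_smul, Finset.sum_apply, Pi.smul_apply,
      smul_eq_mul, hb] at e
    rw [← e]
    refine Finset.sum_congr rfl fun a _ => ?_
    rw [← reproduce R w j (h j) (b a).2]
    congr 1
    exact ((core R).conj_inner_symm (b a) ⟨_, hm⟩).symm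
  have e : ∀ w, ∑ j, g (R.t j) * (Poin R (coh R w j) w j * wt (R.t j) w) =
      ∑ a, pr R w ((b a).1 w) ((mulT R g (b a)).1 w) := fun w => by
    simp only [key, pr, Finset.sum_mul, Finset.mul_sum, mulT_apply]
    rw [Finset.sum_comm]
    refine Finset.sum_congr rfl fun a _ => Finset.sum_congr rfl fun j _ => ?_
    ring
  simp only [e]
  rw [integral_finsetSum _ fun a _ => Λ.integrableOn (continuous_pr (b a).2 (mulT R g (b a)).2),
    LinearMap.trace_eq_matrix_trace ℂ b]
  simp only [← core_inner, ← hb, trace, diag_apply, LinearMap.toMatrix_apply]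

/-- Conjugation by `ρ l'` multiplies the blocks of `ρ l` by the commutator. -/
theorem trace_twist (R : ObjL Λ) (l l' : Λ.L) (f : ℝ → ℂ) :
    ∑ j, f (R.t j) * exp (2 * Real.pi * I * (R.t j * alt (l' : Fin n → ℂ) l : ℝ)) * R.ρ l j j =
      ∑ j, f (R.t j) * R.ρ l j j := by
  have h1 : R.ρ l' * R.ρ l = diagonal (fun j =>
      exp (2 * Real.pi * I * (R.t j * alt (l' : Fin n → ℂ) l : ℝ))) * (R.ρ l * R.ρ l') := by
    rw [R.ρ_mul, R.ρ_mul, ← Matrix.mul_assoc, diagonal_mul_diagonal, add_comm l' l]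
    congr 2; funext j
    rw [← Complex.exp_add, alt_swap (l : Fin n → ℂ)]
    congr 1; push_cast; ring
  have h2 : R.ρ l' * R.ρ l * (R.ρ l')ᴴ = diagonal (fun j =>
      exp (2 * Real.pi * I * (R.t j * alt (l' : Fin n → ℂ) l : ℝ))) * R.ρ l := by
    rw [h1, Matrix.mul_assoc, Matrix.mul_assoc, R.ρ_unit', Matrix.mul_one]
  have h3 : trace (diagonal (fun j => f (R.t j)) * (R.ρ l' * R.ρ l * (R.ρ l')ᴴ)) =
      trace (diagonal (fun j => f (R.t j)) * R.ρ l) := by
    rw [← Matrix.mul_assoc, ← Matrix.mul_assoc, diag_comm (R.ρ_blk l') f, trace_mul_comm,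
      ← Matrix.mul_assoc, ← Matrix.mul_assoc, R.ρ_unit, Matrix.one_mul]
  rw [h2] at h3
  simpa only [trace, diag_apply, diagonal_mul, mul_assoc] using h3

/-- The integral of a block of the term `l ≠ 0` vanishes. -/
theorem integral_block (R : ObjL Λ) (l : Λ.L) (hl : l ≠ 0) {τ : ℝ} (hτ : 0 < τ) :
    ∫ w in Λ.dom, (∑ j, (if R.t j = τ then 1 else 0) * (starRingEnd ℂ) (R.ρ l j j)) *
      exp (2 * Real.pi * I * (τ * alt (l : Fin n → ℂ) w : ℝ)) = 0 := by
  set c := ∑ j, (if R.t j = τ then 1 else 0) * (starRingEnd ℂ) (R.ρ l j j) with hc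
  have hper : ∀ l' ∈ Λ.L, c * exp (2 * Real.pi * I * (τ * alt (l : Fin n → ℂ) l' : ℝ)) = c :=
    fun l' hl' => by
    have h := congrArg (starRingEnd ℂ) (trace_twist R l ⟨l', hl'⟩ fun t => if t = τ then 1 else 0)
    simp only [map_sum, map_mul, apply_ite (starRingEnd ℂ), map_one, map_zero] at h
    refine Eq.trans ?_ h
    rw [hc, Finset.sum_mul]
    refine Finset.sum_congr rfl fun j _ => ?_
    split_ifs with e
    · rw [e, ← Complex.exp_conj, alt_swap l', mul_comm, one_mul, one_mul]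
      congr 2
      simp only [map_mul, Complex.conj_ofReal, Complex.conj_I, map_ofNat]
      push_cast; ring
    · simp
  have hadd : ∀ w v : Fin n → ℂ, exp (2 * Real.pi * I * (τ * alt (l : Fin n → ℂ) (w + v) : ℝ)) =
      exp (2 * Real.pi * I * (τ * alt (l : Fin n → ℂ) w : ℝ)) *
        exp (2 * Real.pi * I * (τ * alt (l : Fin n → ℂ) v : ℝ)) := fun w v => by
    rw [alt_add_right, ← Complex.exp_add]; congr 1; push_cast; ring
  have hq : 0 < nsq (l : Fin n → ℂ) := by
    obtain ⟨r, hr, h⟩ := Λ.exists_gap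
    exact hr.trans_le (h l hl)
  have hv : exp (2 * Real.pi * I * (τ * alt (l : Fin n → ℂ)
      ((2 * τ * nsq (l : Fin n → ℂ))⁻¹ • ((-I) • (l : Fin n → ℂ))) : ℝ)) = -1 := by
    have : alt (l : Fin n → ℂ) ((-I) • (l : Fin n → ℂ)) = nsq (l : Fin n → ℂ) := by
      rw [alt, eta_smul_right, eta_self]; simp
    rw [alt_rsmul_right, this, ← Complex.exp_pi_mul_I]
    congr 1
    have : τ * ((2 * τ * nsq (l : Fin n → ℂ))⁻¹ * nsq (l : Fin n → ℂ)) = 1 / 2 := by field_simp
    rw [this]; push_cast; ring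
  have h := Λ.integral_shift
    (ψ := fun w => c * exp (2 * Real.pi * I * (τ * alt (l : Fin n → ℂ) w : ℝ)))
    (fun l' hl' z => by rw [hadd, mul_comm (exp _), ← mul_assoc, hper l' hl'])
    ((2 * τ * nsq (l : Fin n → ℂ))⁻¹ • ((-I) • (l : Fin n → ℂ)))
  simp only [hadd, hv, mul_neg, mul_one, integral_neg] at h
  exact neg_eq_self.1 h

/-- The term `l` of the diagonal of the kernel. -/
noncomputable def term (R : ObjL Λ) (l : Λ.L) (w : Fin n → ℂ) (j : R.ι) : ℂ :=
  (starRingEnd ℂ) (R.ρ l j j) *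
    ((R.t j ^ n * Real.exp (-(Real.pi * R.t j / 2 * nsq (l : Fin n → ℂ))) : ℝ) *
      exp (2 * Real.pi * I * (R.t j * alt (l : Fin n → ℂ) w : ℝ)))

theorem term_eq (R : ObjL Λ) (l : Λ.L) (w : Fin n → ℂ) (j : R.ι) :
    (R.inv l w *ᵥ coh R w j (w + l)) j * wt (R.t j) w = term R l w j := by
  have e := eta_sub_eta (l : Fin n → ℂ) w
  rw [coh, mulVec_single, ObjL.inv, term, wt]
  simp only [aut, Pi.smul_apply, Matrix.col_apply, mul_diagonal, conjTranspose_apply, RCLike.star_def,
    MulOpposite.smul_eq_mul_unop, MulOpposite.unop_op, eta_add_left, eta_self]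
  push_cast
  rw [← Complex.exp_neg]
  have : exp (-(Real.pi * R.t j * (eta w l + nsq (l : Fin n → ℂ) / 2))) *
      exp (Real.pi * R.t j * (nsq w + eta l w)) * exp (-(Real.pi * R.t j * nsq w)) =
      exp (-(Real.pi * R.t j / 2 * nsq (l : Fin n → ℂ))) *
        exp (2 * Real.pi * I * (R.t j * alt (l : Fin n → ℂ) w)) := by
    simp only [← Complex.exp_add]
    congr 1
    linear_combination (Real.pi * R.t j) * e
  linear_combination ((starRingEnd ℂ) (R.ρ l j j) * (R.t j : ℂ) ^ n) * this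

theorem continuous_term (R : ObjL Λ) (l : Λ.L) (j : R.ι) : Continuous fun w => term R l w j := by
  unfold term alt eta; fun_prop

theorem norm_term (R : ObjL Λ) (l : Λ.L) (w : Fin n → ℂ) (j : R.ι) (h : 0 < R.t j) :
    ‖term R l w j‖ ≤ R.t j ^ n * Real.exp (-(Real.pi * R.t j / 2 * nsq (l : Fin n → ℂ))) := by
  have h1 : ‖R.ρ l j j‖ ≤ 1 :=
    entry_norm_bound_of_unitary (Matrix.mem_unitaryGroup_iff'.2 (R.ρ_unit l)) j j
  have h2 : ‖exp (2 * Real.pi * I * (R.t j * alt (l : Fin n → ℂ) w : ℝ))‖ = 1 := by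
    rw [Complex.norm_exp]; simp
  rw [term, norm_mul, norm_mul, h2, mul_one, Complex.norm_real, Real.norm_of_nonneg (by positivity),
    Complex.norm_conj]
  exact mul_le_of_le_one_left (by positivity) h1

theorem integral_term (R : ObjL Λ) (h : ∀ i, 0 < R.t i) (g : ℝ → ℂ) (l : Λ.L) (hl : l ≠ 0) :
    ∫ w in Λ.dom, ∑ j, g (R.t j) * term R l w j = 0 := by
  have e : ∀ w, ∑ j, g (R.t j) * term R l w j = ∑ τ ∈ Finset.univ.image R.t,
      (g τ * (τ ^ n * Real.exp (-(Real.pi * τ / 2 * nsq (l : Fin n → ℂ))) : ℝ)) *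
      ((∑ j, (if R.t j = τ then 1 else 0) * (starRingEnd ℂ) (R.ρ l j j)) *
        exp (2 * Real.pi * I * (τ * alt (l : Fin n → ℂ) w : ℝ))) := fun w => by
    simp only [Finset.sum_mul, Finset.mul_sum]
    rw [Finset.sum_comm]
    refine Finset.sum_congr rfl fun j _ => ?_
    rw [Finset.sum_eq_single (R.t j) (fun τ _ e => by simp [e.symm]) (by simp), term, if_pos rfl]
    ring
  simp only [e]
  rw [integral_finsetSum _ fun τ _ => Λ.integrableOn (by unfold alt eta; fun_prop)]
  refine Finset.sum_eq_zero fun τ hτ => ?_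
  obtain ⟨j, -, rfl⟩ := Finset.mem_image.1 hτ
  rw [integral_const_mul, integral_block R l hl (h j), mul_zero]

/-- The trace of a function of the type on the sections. -/
theorem trace_mulT (R : ObjL Λ) (h : ∀ i, 0 < R.t i) (g : ℝ → ℂ) :
    LinearMap.trace ℂ _ (mulT R g) = Λ.vol * ∑ i, g (R.t i) * (R.t i : ℂ) ^ n := by
  have hπ := Real.pi_pos
  have hfin : volume Λ.dom < ⊤ := lt_top_iff_ne_top.2 (ENNReal.toReal_ne_zero.1 Λ.vol_pos.ne').2
  have e : ∀ w, ∑ j, g (R.t j) * (Poin R (coh R w j) w j * wt (R.t j) w) =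
      ∑' l : Λ.L, ∑ j, g (R.t j) * term R l w j := fun w => by
    refine (HasSum.tsum_eq (hasSum_sum fun j _ => HasSum.mul_left _ ?_)).symm
    have h1 := Poin_summable (by have := h j; positivity) (coh_dec R w j (h j)) w
    have h2 := (Pi.hasSum.1 h1.hasSum j).mul_right (wt (R.t j) w : ℂ)
    simp only [term_eq] at h2
    exact h2
  have hc : ∀ l, Continuous fun w => ∑ j, g (R.t j) * term R l w j := fun l =>
    continuous_finsetSum _ fun j _ => (continuous_term R l j).const_mul _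
  have hs : Summable fun l : Λ.L => ∫ w in Λ.dom, ‖∑ j, g (R.t j) * term R l w j‖ := by
    have h1 : Summable fun l : Λ.L => (∑ j, ‖g (R.t j)‖ * (R.t j ^ n *
        Real.exp (-(Real.pi * R.t j / 2 * nsq (l : Fin n → ℂ))))) * volume.real Λ.dom :=
      (summable_sum fun j _ =>
        ((Λ.summable_gauss (by have := h j; positivity)).mul_left _).mul_left _).mul_right _
    refine h1.of_norm_bounded fun l => norm_setIntegral_le_of_norm_le_const hfin fun w _ => ?_
    rw [norm_norm]
    refine norm_sum_le_of_le _ fun j _ => ?_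
    rw [norm_mul]
    exact mul_le_mul_of_nonneg_left (norm_term R l w j (h j)) (norm_nonneg _)
  have h0 := trace_eq_integral R h g
  simp only [e] at h0
  rw [← integral_tsum_of_summable_integral_norm (fun l => Λ.integrableOn (hc l)) hs,
    tsum_eq_single 0 (integral_term R h g)] at h0
  have e0 : ∀ w j, term R 0 w j = (R.t j : ℂ) ^ n := fun w j => by
    simp [term, R.ρ_zero, alt]
  simp only [e0, setIntegral_const, Complex.real_smul] at h0
  exact h0

end Dim

open Dim

theorem finrank_Sec (R : ObjL Λ) (h : ∀ i, 0 < R.t i) :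
    (Module.finrank ℂ (Sec R) : ℝ) = Λ.vol * ∑ i, R.t i ^ n := by
  have h0 := trace_mulT R h fun _ => 1
  have e : mulT R (fun _ => 1) = LinearMap.id :=
    LinearMap.ext fun s => Subtype.ext (funext fun z => funext fun i => one_mul _)
  simp only [e, LinearMap.trace_id, one_mul] at h0
  exact_mod_cast h0

/-- The dimension formula type by type, for a basis of sections of pure types. -/
theorem sum_basis_Sec (R : ObjL Λ) (h : ∀ i, 0 < R.t i) {κ : Type} [Fintype κ]
    (b : Module.Basis κ ℂ (Sec R)) (τ : κ → ℝ) (hb : ∀ c z i, (b c).1 z i ≠ 0 → R.t i = τ c)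
    (g : ℝ → ℝ) : ∑ c, g (τ c) = Λ.vol * ∑ i, g (R.t i) * R.t i ^ n := by
  classical
  have h0 := trace_mulT R h fun t => g t
  have e : ∀ c, mulT R (fun t => g t) (b c) = (g (τ c) : ℂ) • b c := fun c =>
    Subtype.ext (funext fun z => funext fun i => by
      change _ * (b c).1 z i = _ * (b c).1 z i
      by_cases e : (b c).1 z i = 0
      · rw [e, mul_zero, mul_zero]
      · rw [hb c z i e])
  rw [LinearMap.trace_eq_matrix_trace ℂ b] at h0
  simp only [trace, diag_apply, LinearMap.toMatrix_apply, e, map_smul, b.repr_self,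
    Finsupp.smul_apply, Finsupp.single_eq_same, smul_eq_mul, mul_one] at h0
  exact_mod_cast h0

theorem finrank_Theta {t : ℝ} (ht : 0 < t)
    (h : ∀ l l' : Λ.L, exp (Real.pi * I * (t * alt (l : Fin n → ℂ) l' : ℝ)) = 1) :
    (Module.finrank ℂ (Theta Λ t) : ℝ) = Λ.vol * t ^ n := by
  have e : Theta Λ t ≃ₗ[ℂ] Sec (lineL Λ t h) :=
    { toFun := fun f => ⟨fun z _ => f.1 z, fun _ => f.2.1, fun l z => by
        funext i; simp [ObjL.fac, mulVec, dotProduct, f.2.2 l l.2 z]⟩
      invFun := fun s => ⟨fun z => s.1 z (), s.2.1 (), fun l hl z => by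
        simpa [ObjL.fac, mulVec, dotProduct] using congrFun (s.2.2 ⟨l, hl⟩ z) ()⟩
      map_add' := fun _ _ => rfl
      map_smul' := fun _ _ => rfl
      left_inv := fun _ => rfl
      right_inv := fun _ => rfl }
  rw [e.finrank_eq, finrank_Sec (lineL Λ t h) fun _ => ht]
  simp

end Pool.Agent.Lib.MP_d3d358_ag.Th
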