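import Pool.Agent.Lib.MP_d3d358_ag.Th.Proj
import Pool.Agent.Lib.MP_d3d358_ag.Th.Toep

/-! Integrals over the fundamental domain, covolumes, and the scalar product. -/

set_option autoImplicit false

namespace Pool.Agent.Lib.MP_d3d358_ag.Th

open Matrix Complex MeasureTheory Filter
open scoped Pointwise

variable {n : ℕ} {Λ : Lat n}

theorem Lat.isAddFundamentalDomain (Λ : Lat n) :
    IsAddFundamentalDomain Λ.L.toAddSubgroup Λ.dom volume :=
  ZSpan.isAddFundamentalDomain' Λ.bas volume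

instance Lat.countable' (Λ : Lat n) : Countable Λ.L.toAddSubgroup := Λ.countable

theorem Lat.measurableSet_dom (Λ : Lat n) : MeasurableSet Λ.dom :=
  ZSpan.fundamentalDomain_measurableSet Λ.bas

theorem Lat.integrableOn' (Λ : Lat n) {W : Type} [NormedAddCommGroup W] {ψ : (Fin n → ℂ) → W}
    (h : Continuous ψ) : IntegrableOn ψ Λ.dom :=
  (h.continuousOn.integrableOn_compact Λ.dom_bounded.isCompact_closure).mono_set subset_closure

theorem Lat.integrableOn (Λ : Lat n) {ψ : (Fin n → ℂ) → ℂ} (h : Continuous ψ) :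
    IntegrableOn ψ Λ.dom := Λ.integrableOn' h

theorem Lat.integral_comp (Λ : Lat n) {ψ : (Fin n → ℂ) → ℂ}
    (h : ∀ l ∈ Λ.L, ∀ z, ψ (z + l) = ψ z) {f : (Fin n → ℂ) → Fin n → ℂ}
    (hf : MeasurePreserving f) (hf' : MeasurableEmbedding f)
    {e : Λ.L.toAddSubgroup → Λ.L.toAddSubgroup} (he : Function.Bijective e)
    (hef : ∀ l z, f ((e l : Fin n → ℂ) + z) = l + f z) :
    ∫ z in Λ.dom, ψ (f z) = ∫ z in Λ.dom, ψ z := by
  have h1 := Λ.isAddFundamentalDomain.preimage_of_equiv hf.quasiMeasurePreserving he hef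
  rw [Λ.isAddFundamentalDomain.setIntegral_eq h1 (f := fun z => ψ (f z)) fun l z => ?_,
    hf.setIntegral_preimage_emb hf']
  obtain ⟨l, rfl⟩ := he.2 l
  change ψ (f ((e l : Fin n → ℂ) + z)) = _
  rw [hef, add_comm, h _ l.2]

theorem Lat.integral_shift (Λ : Lat n) {ψ : (Fin n → ℂ) → ℂ}
    (h : ∀ l ∈ Λ.L, ∀ z, ψ (z + l) = ψ z) (v : Fin n → ℂ) :
    ∫ z in Λ.dom, ψ (z + v) = ∫ z in Λ.dom, ψ z :=
  Λ.integral_comp h (measurePreserving_add_right volume v) (measurableEmbedding_addRight v)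
    Function.bijective_id fun _ _ => add_assoc _ _ _

theorem Cr.measurePreserving (C : Cr n) (g : C.G) : MeasurePreserving (C.act g) :=
  Co.mp_iso (C.act g) (C.eta_act g)

theorem Cr.act_inv_act (C : Cr n) (g : C.G) (z : Fin n → ℂ) : C.act g⁻¹ (C.act g z) = z := by
  rw [← LinearEquiv.mul_apply, ← map_mul, inv_mul_cancel, map_one]; rfl

theorem Cr.integral_act (C : Cr n) {ψ : (Fin n → ℂ) → ℂ}
    (h : ∀ l ∈ C.L, ∀ z, ψ (z + l) = ψ z) (g : C.G) :
    ∫ z in C.dom, ψ (C.act g z) = ∫ z in C.dom, ψ z := by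
  have h2 (z : Fin n → ℂ) : C.act g (C.act g⁻¹ z) = z := by simp
  refine C.toLat.integral_comp h (C.measurePreserving g)
    (C.act g).toContinuousLinearEquiv.toHomeomorph.measurableEmbedding
    (e := fun l => ⟨C.act g⁻¹ l, C.act_mem _ _ l.2⟩) ?_ fun l z => ?_
  · exact Function.bijective_iff_has_inverse.2 ⟨fun l => ⟨C.act g l, C.act_mem _ _ l.2⟩,
      fun l => Subtype.ext (h2 l), fun l => Subtype.ext (C.act_inv_act g l)⟩
  · rw [map_add, h2]

theorem Lat.eq_zero_of_integral (Λ : Lat n) {ψ : (Fin n → ℂ) → ℝ} (hc : Continuous ψ)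
    (h0 : ∀ z, 0 ≤ ψ z) (h : ∀ l ∈ Λ.L, ∀ z, ψ (z + l) = ψ z) (hi : ∫ z in Λ.dom, ψ z = 0) :
    ∀ z, ψ z = 0 := by
  have h1 := (setIntegral_eq_zero_iff_of_nonneg_ae (Eventually.of_forall h0)
    (Λ.integrableOn' hc)).1 hi
  have h2 : volume {z | ψ z ≠ 0} = 0 := by
    refine Λ.isAddFundamentalDomain.measure_zero_of_invariant _ (fun l => ?_) ?_
    · ext z
      rw [Set.mem_vadd_set_iff_neg_vadd_mem]
      change ψ (((-l : Λ.L.toAddSubgroup) : Fin n → ℂ) + z) ≠ 0 ↔ ψ z ≠ 0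
      rw [add_comm, h _ (-l).2]
    · rw [← Measure.restrict_apply' Λ.measurableSet_dom]
      exact h1
  exact congrFun ((hc.ae_eq_iff_eq volume continuous_zero).1 h2)

/-- The standard real basis. -/
noncomputable def Per.std (n : ℕ) : Module.Basis (Σ _ : Fin n, Fin 2) ℝ (Fin n → ℂ) :=
  Pi.basis fun _ => Complex.basisOneI

theorem Per.vol_std : volume (ZSpan.fundamentalDomain (Per.std n)) = 1 := by
  have e : ZSpan.fundamentalDomain (Per.std n) =
      Set.pi Set.univ fun _ => ZSpan.fundamentalDomain Complex.basisOneI := by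
    ext z
    simp only [ZSpan.mem_fundamentalDomain, Per.std, Pi.basis_repr, Sigma.forall, Set.mem_pi,
      Set.mem_univ, forall_const]
  have h1 : volume (ZSpan.fundamentalDomain Complex.basisOneI) = 1 := by
    rw [measure_congr (ZSpan.fundamentalDomain_ae_parallelepiped _ volume),
      ← Complex.orthonormalBasisOneI.volume_parallelepiped]
    rfl
  rw [e, volume_pi_pi]
  simp [h1]

theorem Per.re_eta (z w : Fin n → ℂ) :
    (eta z w).re = ∑ k, (Per.std n).repr z k * (Per.std n).repr w k := by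
  simp [eta, Per.std, Fintype.sum_sigma]

/-- Multiplication by `I`. -/
noncomputable def Per.rotI (n : ℕ) : (Fin n → ℂ) ≃ₗ[ℂ] (Fin n → ℂ) :=
  LinearEquiv.smulOfNeZero ℂ _ I I_ne_zero

theorem Per.eta_rotI (z w : Fin n → ℂ) : eta (Per.rotI n z) (Per.rotI n w) = eta z w := by
  change eta (I • z) (I • w) = _
  rw [eta_smul_left, eta_smul_right, ← mul_assoc]
  simp

theorem Per.alt_eq (z w : Fin n → ℂ) : alt z w = (eta z (Per.rotI n w)).re := by
  change _ = (eta z (I • w)).re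
  rw [eta_smul_right, alt]
  simp

theorem vol_mul_vol (Λ Λ' : Lat n) :
    Λ.vol * Λ'.vol = |(of fun i j => alt (Λ.bas i) (Λ'.bas j)).det| := by
  let ε : (Σ _ : Fin n, Fin 2) ≃ Fin (2 * n) := Fintype.equivFinOfCardEq (by simp [mul_comm])
  let b₀ := (Per.std n).reindex ε
  have hv (b : Module.Basis (Fin (2 * n)) ℝ (Fin n → ℂ)) :
      volume.real (ZSpan.fundamentalDomain b) = |(b₀.toMatrix b).det| := by
    rw [ZSpan.measureReal_fundamentalDomain b volume b₀, ZSpan.fundamentalDomain_reindex,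
      measureReal_def, Per.vol_std, ENNReal.toReal_one, mul_one, Module.Basis.det_apply]
  let c := Λ'.bas.map ((Per.rotI n).restrictScalars ℝ)
  have hc : volume.real (ZSpan.fundamentalDomain c) = Λ'.vol := by
    have := (Co.mp_iso _ Per.eta_rotI).measure_preimage
      (ZSpan.fundamentalDomain_measurableSet c).nullMeasurableSet
    rw [measureReal_def, ← this, ← ZSpan.map_fundamentalDomain]
    exact congrArg (fun s => (volume s).toReal) (Set.preimage_image_eq _ (Per.rotI n).injective)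
  have hm : (of fun i j => alt (Λ.bas i) (Λ'.bas j)) = (b₀.toMatrix Λ.bas)ᵀ * b₀.toMatrix c := by
    ext i j
    rw [of_apply, Per.alt_eq, Per.re_eta, Matrix.mul_apply, ← ε.sum_comp]
    simp [b₀, c, Module.Basis.toMatrix_apply]
  rw [hm, det_mul, det_transpose, abs_mul, ← hv, ← hv, hc]
  rfl

theorem Per.sum_eq_trace {α β : Type} [Fintype α] [Fintype β] [DecidableEq α] [DecidableEq β]
    (X Y : Matrix α β ℂ) (a : α → ℂ) (b : β → ℂ) :
    ∑ i, ∑ j, (starRingEnd ℂ) (X i j) * Y i j * (a i * b j) =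
      (Xᴴ * diagonal a * Y * diagonal b).trace := by
  rw [Finset.sum_comm]
  refine Finset.sum_congr rfl fun j _ => ?_
  rw [diag_apply, mul_diagonal, Matrix.mul_apply, Finset.sum_mul]
  refine Finset.sum_congr rfl fun i _ => ?_
  rw [mul_diagonal, conjTranspose_apply, star_def]
  ring

theorem Per.trace_conj {α β : Type} [Fintype α] [Fintype β] [DecidableEq α] [DecidableEq β]
    (X Y : Matrix α β ℂ) {U A : Matrix α α ℂ} {W B : Matrix β β ℂ} (hU : Uᴴ * U = 1)
    (hW : Wᴴ * W = 1) (hA : A * U = U * A) (hB : B * W = W * B) :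
    ((U * X * Wᴴ)ᴴ * A * (U * Y * Wᴴ) * B).trace = (Xᴴ * A * Y * B).trace := by
  have e : (U * X * Wᴴ)ᴴ * A * (U * Y * Wᴴ) * B = W * (Xᴴ * (Uᴴ * (A * U)) * Y * Wᴴ * B) := by
    simp only [conjTranspose_mul, conjTranspose_conjTranspose, Matrix.mul_assoc]
  rw [e, trace_mul_comm, hA, ← Matrix.mul_assoc Uᴴ, hU, Matrix.one_mul, Matrix.mul_assoc _ B, hB,
    Matrix.mul_assoc _ Wᴴ, ← Matrix.mul_assoc Wᴴ, hW, Matrix.one_mul]

theorem Per.weight_eq (s t x : ℝ) : (Real.exp (-(Real.pi * (s - t) * x)) : ℂ) =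
    (Real.exp (-(Real.pi * s * x)) : ℝ) * (Real.exp (Real.pi * t * x) : ℝ) := by
  rw [← Complex.ofReal_mul, ← Real.exp_add]
  congr 2
  ring

/-- invariance of the integrand of `ip` under unitary matrices that respect the types -/
theorem Per.sum_conj {E F : ObjL Λ} (X Y : Matrix F.ι E.ι ℂ) {U : Matrix F.ι F.ι ℂ}
    {W : Matrix E.ι E.ι ℂ} (hU : Uᴴ * U = 1) (hW : Wᴴ * W = 1)
    (hU' : ∀ i j, U i j ≠ 0 → F.t i = F.t j) (hW' : ∀ i j, W i j ≠ 0 → E.t i = E.t j) (x : ℝ) :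
    ∑ i, ∑ j, (starRingEnd ℂ) ((U * X * Wᴴ) i j) * (U * Y * Wᴴ) i j *
      Real.exp (-(Real.pi * (F.t i - E.t j) * x)) =
    ∑ i, ∑ j, (starRingEnd ℂ) (X i j) * Y i j * Real.exp (-(Real.pi * (F.t i - E.t j) * x)) := by
  simp only [Per.weight_eq, Per.sum_eq_trace]
  exact Per.trace_conj X Y hU hW (diag_comm hU' fun s => (Real.exp (-(Real.pi * s * x)) : ℝ))
    (diag_comm hW' fun s => (Real.exp (Real.pi * s * x) : ℝ))

theorem Per.aut_weight (d : ℝ) (l z : Fin n → ℂ) :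
    (starRingEnd ℂ) (aut d l z) * aut d l z * Real.exp (-(Real.pi * d * nsq (z + l))) =
      Real.exp (-(Real.pi * d * nsq z)) := by
  rw [Complex.conj_mul', norm_aut, ← Complex.ofReal_pow, ← Complex.ofReal_mul, sq, ← Real.exp_add,
    ← Real.exp_add]
  congr 2
  ring

/-- the integrand of `ip` is periodic -/
theorem ip_periodic {E F : ObjL Λ} {f g : (Fin n → ℂ) → Matrix F.ι E.ι ℂ} (hf : f ∈ HomC E F)
    (hg : g ∈ HomC E F) (l : Fin n → ℂ) (hl : l ∈ Λ.L) (z : Fin n → ℂ) :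
    ∑ i, ∑ j, (starRingEnd ℂ) (f (z + l) i j) * g (z + l) i j *
      Real.exp (-(Real.pi * (F.t i - E.t j) * nsq (z + l))) =
    ∑ i, ∑ j, (starRingEnd ℂ) (f z i j) * g z i j *
      Real.exp (-(Real.pi * (F.t i - E.t j) * nsq z)) := by
  rw [← Per.sum_conj (f z) (g z) (F.ρ_unit ⟨l, hl⟩) (E.ρ_unit ⟨l, hl⟩) (F.ρ_blk _) (E.ρ_blk _)]
  refine Finset.sum_congr rfl fun i _ => Finset.sum_congr rfl fun j _ => ?_
  rw [Tp.HomC_shift hf ⟨l, hl⟩, Tp.HomC_shift hg ⟨l, hl⟩, ← Per.aut_weight _ l z, map_mul]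
  ring

theorem Per.continuous_ip {E F : ObjL Λ} {f g : (Fin n → ℂ) → Matrix F.ι E.ι ℂ}
    (hf : f ∈ HomC E F) (hg : g ∈ HomC E F) : Continuous fun z => ∑ i, ∑ j,
      (starRingEnd ℂ) (f z i j) * g z i j * Real.exp (-(Real.pi * (F.t i - E.t j) * nsq z)) :=
  continuous_finsetSum _ fun i _ => continuous_finsetSum _ fun j _ =>
    ((Complex.continuous_conj.comp (hf.1 i j)).mul (hg.1 i j)).mul (by fun_prop)

theorem Per.self_eq {E F : ObjL Λ} (f : (Fin n → ℂ) → Matrix F.ι E.ι ℂ) (z : Fin n → ℂ) :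
    ∑ i, ∑ j, (starRingEnd ℂ) (f z i j) * f z i j *
      Real.exp (-(Real.pi * (F.t i - E.t j) * nsq z)) =
    ((∑ i, ∑ j, ‖f z i j‖ ^ 2 * Real.exp (-(Real.pi * (F.t i - E.t j) * nsq z)) : ℝ) : ℂ) := by
  simp only [Complex.conj_mul', Complex.ofReal_sum, Complex.ofReal_mul, Complex.ofReal_pow]

theorem ip_self {E F : ObjL Λ} (f : (Fin n → ℂ) → Matrix F.ι E.ι ℂ) : ip E F f f =
    ((∫ z in Λ.dom, ∑ i, ∑ j, ‖f z i j‖ ^ 2 *
      Real.exp (-(Real.pi * (F.t i - E.t j) * nsq z)) : ℝ) : ℂ) := by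
  simp only [ip, Per.self_eq]
  exact integral_ofReal

theorem ip_conj {E F : ObjL Λ} (f g : (Fin n → ℂ) → Matrix F.ι E.ι ℂ) :
    (starRingEnd ℂ) (ip E F g f) = ip E F f g := by
  rw [ip, ip, ← integral_conj]
  congr 1
  funext z
  simp only [map_sum, map_mul, Complex.conj_conj, Complex.conj_ofReal]
  exact Finset.sum_congr rfl fun i _ => Finset.sum_congr rfl fun j _ => by ring

theorem ip_add_left {E F : ObjL Λ} {f f' g : (Fin n → ℂ) → Matrix F.ι E.ι ℂ} (hf : f ∈ HomC E F)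
    (hf' : f' ∈ HomC E F) (hg : g ∈ HomC E F) :
    ip E F (f + f') g = ip E F f g + ip E F f' g := by
  rw [ip, ip, ip, ← integral_add (Λ.integrableOn (Per.continuous_ip hf hg))
    (Λ.integrableOn (Per.continuous_ip hf' hg))]
  simp only [Pi.add_apply, Matrix.add_apply, map_add, add_mul, Finset.sum_add_distrib]

theorem ip_smul_left {E F : ObjL Λ} (c : ℂ) (f g : (Fin n → ℂ) → Matrix F.ι E.ι ℂ) :
    ip E F (c • f) g = (starRingEnd ℂ) c * ip E F f g := by
  rw [ip, ip, ← integral_const_mul]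
  simp only [Pi.smul_apply, Matrix.smul_apply, smul_eq_mul, map_mul, Finset.mul_sum, mul_assoc]

theorem eq_zero_of_ip {E F : ObjL Λ} {f : (Fin n → ℂ) → Matrix F.ι E.ι ℂ} (hf : f ∈ HomC E F)
    (h : ip E F f f = 0) : f = 0 := by
  rw [ip_self, Complex.ofReal_eq_zero] at h
  have h0 := Λ.eq_zero_of_integral (ψ := fun z => ∑ i, ∑ j, ‖f z i j‖ ^ 2 *
      Real.exp (-(Real.pi * (F.t i - E.t j) * nsq z)))
    (continuous_finsetSum _ fun i _ => continuous_finsetSum _ fun j _ =>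
      ((hf.1 i j).norm.pow 2).mul (by fun_prop))
    (fun z => by positivity)
    (fun l hl z => Complex.ofReal_injective (by
      rw [← Per.self_eq, ← Per.self_eq, ip_periodic hf hf l hl])) h
  funext z
  ext i j
  have h1 := (Finset.sum_eq_zero_iff_of_nonneg fun i _ => by positivity).1 (h0 z) i
    (Finset.mem_univ i)
  have h2 := (Finset.sum_eq_zero_iff_of_nonneg fun j _ => by positivity).1 h1 j (Finset.mem_univ j)
  simpa using h2

/-- the scalar product as an inner product core (inner f g := ip E F f g) -/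
theorem exists_core (E F : ObjL Λ) : ∃ c : InnerProductSpace.Core ℂ (HomL E F),
    ∀ f g : HomL E F, c.inner f g = ip E F f g :=
  ⟨{ inner := fun f g => ip E F f g
     conj_inner_symm := fun f g => ip_conj _ _
     re_inner_nonneg := fun f => by
       rw [ip_self]
       exact integral_nonneg fun z => by positivity
     add_left := fun f f' g =>
       ip_add_left (HomL_le_HomC E F f.2) (HomL_le_HomC E F f'.2) (HomL_le_HomC E F g.2)
     smul_left := fun f g c => ip_smul_left c _ _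
     definite := fun f h => Subtype.ext (eq_zero_of_ip (HomL_le_HomC E F f.2) h) },
    fun _ _ => rfl⟩

end Pool.Agent.Lib.MP_d3d358_ag.Th
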