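import Pool.Agent.Lib.MP_d3d358_ag.Th.PhiB
import Pool.Agent.Lib.MP_d3d358_ag.Th.Fin
import Pool.Agent.Lib.MP_d3d358_ag.Th.Per

/-! The Fourier-Mukai functor: orthonormal bases, the transformed objects, the functor. -/

set_option autoImplicit false

namespace Pool.Agent.Lib.MP_d3d358_ag.Th

open Matrix Complex CategoryTheory MeasureTheory

variable {n : ℕ} {C C' : Cr n} {κ : Ker C C'}

theorem sum_eq_trace {ι β : Type} [Fintype ι] [DecidableEq ι] [Fintype β] (X Y : Matrix ι β ℂ)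
    (w : ι → ℂ) : ∑ i, ∑ j, (starRingEnd ℂ) (X i j) * Y i j * w i =
      trace (Xᴴ * (diagonal w * Y)) := by
  rw [Finset.sum_comm]
  simp only [trace, diag, Matrix.mul_apply (M := Xᴴ), diagonal_mul, conjTranspose_apply]
  exact Finset.sum_congr rfl fun j _ => Finset.sum_congr rfl fun i _ => by
    rw [starRingEnd_apply]; ring

theorem sum_mul_unit {β : Type} [Fintype β] [DecidableEq β] {R : Matrix β β ℂ} (h : R * Rᴴ = 1)
    {ι : Type} (X Y : Matrix ι β ℂ) (i : ι) :
    ∑ j, (starRingEnd ℂ) ((X * R) i j) * (Y * R) i j = ∑ j, (starRingEnd ℂ) (X i j) * Y i j := by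
  have e : ∀ X Y : Matrix ι β ℂ, ∑ j, (starRingEnd ℂ) (X i j) * Y i j = (Y * Xᴴ) i i :=
    fun X Y => by
      rw [Matrix.mul_apply]
      exact Finset.sum_congr rfl fun j _ => by rw [conjTranspose_apply, starRingEnd_apply, mul_comm]
  rw [e, e, conjTranspose_mul, Matrix.mul_assoc, ← Matrix.mul_assoc R, h, Matrix.one_mul]

namespace Ker

variable (κ) in
/-- The integrand of the scalar product. -/
noncomputable def ipI (E : ObjL C.toLat) (f g : (Fin n → ℂ) → Matrix E.ι κ.K.ι ℂ) (z : Fin n → ℂ) :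
    ℂ := ∑ i, ∑ j, (starRingEnd ℂ) (f z i j) * g z i j *
      Real.exp (-(Real.pi * (E.t i - κ.K.t j) * nsq z))

theorem ip_eq (E : ObjL C.toLat) (f g : (Fin n → ℂ) → Matrix E.ι κ.K.ι ℂ) :
    ip κ.K.toObjL E f g = ∫ z in C.dom, κ.ipI E f g z := rfl

theorem ipI_eq (E : ObjL C.toLat) (f g : (Fin n → ℂ) → Matrix E.ι κ.K.ι ℂ) (z : Fin n → ℂ) :
    κ.ipI E f g z = ∑ i, ∑ j, (starRingEnd ℂ) (f z i j) * g z i j *
      Real.exp (-(Real.pi * (κ.p + E.t i) * nsq z)) := by
  simp only [ipI, κ.K_t, sub_neg_eq_add, add_comm]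

theorem ipI_per {E : ObjL C.toLat} (f g : κ.W E) : ∀ l ∈ C.L, ∀ z,
    κ.ipI E f g (z + l) = κ.ipI E f g z := fun l hl z =>
  ip_periodic (HomL_le_HomC _ _ f.2) (HomL_le_HomC _ _ g.2) l hl z

theorem ip_Tm_pure {E : ObjL C.toLat} (hE : κ.Pos E) {τ : ℝ} {f : κ.W E} (hf : Pure E τ f)
    (g : κ.W E) (m : C'.L) :
    ip κ.K.toObjL E (Tm hE m f).1 (Tm hE m g).1 = ip κ.K.toObjL E f.1 g.1 := by
  rw [ip_eq, ip_eq, ← C.toLat.integral_shift (ipI_per f g) (-(κ.s τ • (m : Fin n → ℂ)))]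
  congr 1
  funext z
  rw [ipI_eq, ipI_eq, ← sub_eq_add_neg]
  refine Finset.sum_congr rfl fun i _ => ?_
  by_cases h : E.t i = τ
  · subst h
    rw [← Finset.sum_mul, ← Finset.sum_mul, ← sum_mul_unit (R := (κ.ρ1 m)ᴴ)
      (by rw [conjTranspose_conjTranspose, κ.ρ1_unit]) (f.1 (z - _)), Finset.sum_mul,
      Finset.sum_mul]
    refine Finset.sum_congr rfl fun j _ => ?_
    have e : (starRingEnd ℂ) (κ.chi (E.t i) m z) * κ.chi (E.t i) m z *
        Real.exp (-(Real.pi * (κ.p + E.t i) * nsq z)) =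
        Real.exp (-(Real.pi * (κ.p + E.t i) * nsq (z - κ.s (E.t i) • (m : Fin n → ℂ)))) := by
      rw [chi, ← Complex.exp_conj, ofReal_exp, ofReal_exp, ← Complex.exp_add, ← Complex.exp_add]
      congr 1
      have h1 := κ.mul_s' (hE i)
      have h2 := nsq_add_complex z (-(κ.s (E.t i) • (m : Fin n → ℂ)))
      rw [nsq_neg, nsq_rsmul, eta_neg_left, eta_neg_right, eta_rsmul_left, eta_rsmul_right,
        ← sub_eq_add_neg] at h2
      simp only [map_mul, map_sub, map_div₀, conj_ofReal, conj_eta, map_ratCast, map_ofNat]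
      push_cast at h1 h2 ⊢
      rw [h2]
      linear_combination (Real.pi * (κ.s (E.t i) * nsq (m : Fin n → ℂ) - eta z m -
        eta (m : Fin n → ℂ) z)) * h1
    rw [← e]
    simp only [Tm_coe, TmF, rows_apply, Matrix.smul_apply, smul_eq_mul, map_mul]
    ring
  · simp only [hf.Tm hE m z i _ h, hf _ i _ h, map_zero, zero_mul]

theorem ip_Sg (E : Obj C) (g : C.G) (f f' : κ.W E.toObjL) :
    ip κ.K.toObjL E.toObjL (κ.Sg E g f).1 (κ.Sg E g f').1 = ip κ.K.toObjL E.toObjL f.1 f'.1 := by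
  have hp := ipI_per (κ.Sg E g f) (κ.Sg E g f')
  rw [ip_eq, ip_eq, ← C.integral_act hp g]
  congr 1
  funext z
  rw [ipI_eq, ipI_eq, sum_eq_trace, sum_eq_trace, Sg_coe, Sg_coe, SgF, SgF, nsq_act,
    LinearEquiv.symm_apply_apply, ← Matrix.mul_assoc (diagonal _),
    diag_comm (E.σ_blk g) fun τ => (Real.exp (-(Real.pi * (κ.p + τ) * nsq z)) : ℂ),
    conjTranspose_mul, conjTranspose_mul, conjTranspose_conjTranspose]
  simp only [Matrix.mul_assoc]
  rw [← Matrix.mul_assoc (E.σ g)ᴴ, E.σ_unit, Matrix.one_mul, trace_mul_comm]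
  simp only [Matrix.mul_assoc]
  rw [κ.K.σ_unit, Matrix.mul_one]

theorem ip_pure {E : ObjL C.toLat} {τ τ' : ℝ} {f g : κ.W E} (hf : Pure E τ f) (hg : Pure E τ' g)
    (h : τ ≠ τ') : ip κ.K.toObjL E f.1 g.1 = 0 := by
  rw [ip_eq]
  have : κ.ipI E f g = fun _ => 0 := funext fun z =>
    Finset.sum_eq_zero fun i _ => Finset.sum_eq_zero fun j _ => by
      by_cases e : E.t i = τ
      · rw [hg z i j (e ▸ h), mul_zero, zero_mul]
      · rw [hf z i j e, map_zero, zero_mul, zero_mul]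
  rw [this, integral_zero]

variable (κ) in
/-- The index set of the transform. -/
abbrev Ix (E : ObjL C.toLat) : Type := Fin (Module.finrank ℂ (κ.W E))

variable (κ) in
theorem exists_bas (E : ObjL C.toLat) :
    ∃ (b : Module.Basis (κ.Ix E) ℂ (κ.W E)) (τ : κ.Ix E → ℝ), (∀ c, Pure E (τ c) (b c)) ∧
      ∀ f g : κ.W E, ip κ.K.toObjL E f.1 g.1 =
        ∑ c, (starRingEnd ℂ) (b.repr f c) * b.repr g c := by
  obtain ⟨core, hc⟩ := exists_core κ.K.toObjL E
  let : NormedAddCommGroup (κ.W E) := core.toNormedAddCommGroup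
  let : InnerProductSpace ℂ (κ.W E) := InnerProductSpace.ofCore core.toCore
  have hi : ∀ f g : κ.W E, inner ℂ f g = ip κ.K.toObjL E f.1 g.1 := hc
  have hN : (κ.Dg E fun τ => (τ : ℂ)).IsSymmetric := fun f g => by
    rw [hi, hi, ip_eq, ip_eq]
    congr 1
    funext z
    refine Finset.sum_congr rfl fun i _ => Finset.sum_congr rfl fun j _ => ?_
    rw [Dg_apply, Dg_apply, map_mul, conj_ofReal]; ring
  refine ⟨(hN.eigenvectorBasis rfl).toBasis, hN.eigenvalues rfl, fun c z i j h => ?_,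
    fun f g => ?_⟩
  · have h1 := congrArg (fun f : κ.W E => f.1 z i j) (hN.apply_eigenvectorBasis rfl c)
    simp only [Dg_apply, Submodule.coe_smul, Pi.smul_apply, Matrix.smul_apply, smul_eq_mul] at h1
    exact (mul_eq_mul_right_iff.1 h1).resolve_left fun e => h (ofReal_injective e)
  · rw [← hi, ← (hN.eigenvectorBasis rfl).repr.inner_map_map f g, PiLp.inner_apply]
    exact Finset.sum_congr rfl fun c _ => by
      rw [RCLike.inner_apply, mul_comm]; rfl

variable (κ) in
/-- An orthonormal basis of sections of pure type. -/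
noncomputable def bas (E : ObjL C.toLat) : Module.Basis (κ.Ix E) ℂ (κ.W E) :=
  (κ.exists_bas E).choose

variable (κ) in
/-- The type of a basis vector. -/
noncomputable def tau (E : ObjL C.toLat) : κ.Ix E → ℝ := (κ.exists_bas E).choose_spec.choose

theorem bas_pure (E : ObjL C.toLat) (c : κ.Ix E) : Pure E (κ.tau E c) (κ.bas E c) :=
  (κ.exists_bas E).choose_spec.choose_spec.1 c

/-- Parseval. -/
theorem ip_repr (E : ObjL C.toLat) (f g : κ.W E) : ip κ.K.toObjL E f.1 g.1 =
    ∑ c, (starRingEnd ℂ) ((κ.bas E).repr f c) * (κ.bas E).repr g c :=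
  (κ.exists_bas E).choose_spec.choose_spec.2 f g

theorem exists_tau (E : ObjL C.toLat) (c : κ.Ix E) : ∃ i, E.t i = κ.tau E c := by
  by_contra h
  refine (κ.bas E).ne_zero c (Subtype.ext ?_)
  funext z; ext i j
  exact bas_pure E c z i j fun e => h ⟨i, e⟩

theorem ip_bas (E : ObjL C.toLat) (c : κ.Ix E) (g : κ.W E) :
    ip κ.K.toObjL E (κ.bas E c).1 g.1 = (κ.bas E).repr g c := by
  rw [ip_repr, Module.Basis.repr_self, Finset.sum_eq_single c]
  · simp
  · intro d _ h; simp [h]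
  · simp

theorem Pure.repr {E : ObjL C.toLat} {τ : ℝ} {f : κ.W E} (hf : Pure E τ f) {c : κ.Ix E}
    (h : (κ.bas E).repr f c ≠ 0) : κ.tau E c = τ := by
  by_contra e
  exact h (by rw [← ip_bas, ip_pure (bas_pure E c) hf e])

variable (κ) in
/-- The matrix of a linear map in the chosen bases. -/
noncomputable abbrev mat (E F : ObjL C.toLat) :
    (κ.W E →ₗ[ℂ] κ.W F) ≃ₗ[ℂ] Matrix (κ.Ix F) (κ.Ix E) ℂ := LinearMap.toMatrix (κ.bas E) (κ.bas F)

theorem mat_apply {E F : ObjL C.toLat} (T : κ.W E →ₗ[ℂ] κ.W F) (c : κ.Ix F) (d : κ.Ix E) :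
    κ.mat E F T c d = (κ.bas F).repr (T (κ.bas E d)) c := LinearMap.toMatrix_apply _ _ _ _ _

theorem mat_comp {D E F : ObjL C.toLat} (T : κ.W E →ₗ[ℂ] κ.W F) (S : κ.W D →ₗ[ℂ] κ.W E) :
    κ.mat D F (T ∘ₗ S) = κ.mat E F T * κ.mat D E S :=
  LinearMap.toMatrix_comp _ _ _ T S

theorem mat_unit {E : ObjL C.toLat} {T : κ.W E →ₗ[ℂ] κ.W E}
    (h : ∀ c d, ip κ.K.toObjL E (T (κ.bas E c)).1 (T (κ.bas E d)).1 =
      ip κ.K.toObjL E (κ.bas E c).1 (κ.bas E d).1) : (κ.mat E E T)ᴴ * κ.mat E E T = 1 := by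
  ext c d
  have := h c d
  rw [ip_repr, ip_bas, Module.Basis.repr_self, Finsupp.single_apply] at this
  simp only [Matrix.mul_apply, conjTranspose_apply, LinearMap.toMatrix_apply, one_apply,
    eq_comm (a := c)]
  exact this

theorem mat_Dg (E : ObjL C.toLat) (φ : ℝ → ℂ) :
    κ.mat E E (κ.Dg E φ) = diagonal fun c => φ (κ.tau E c) := by
  ext c d
  rw [LinearMap.toMatrix_apply, (bas_pure E d).Dg, map_smul, Module.Basis.repr_self,
    Finsupp.smul_apply, Finsupp.single_apply, diagonal_apply]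
  by_cases h : d = c
  · simp [h]
  · simp [h, Ne.symm h]

/-- The transform of an object for the lattice. -/
noncomputable def objL {E : ObjL C.toLat} (hE : κ.Pos E) : ObjL C'.toLat where
  ι := κ.Ix E
  t c := κ.hat (κ.tau E c)
  ρ m := κ.mat E E (Tm hE m)
  ρ_unit m := mat_unit fun c d => ip_Tm_pure hE (bas_pure E c) _ m
  ρ_blk m c d h := by
    rw [LinearMap.toMatrix_apply] at h
    rw [((bas_pure E d).Tm hE m).repr h]
  ρ_mul m m' := by rw [← mat_comp, Tm_Tm, mat_comp, mat_Dg]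

theorem fac_objL {E : ObjL C.toLat} (hE : κ.Pos E) (m : C'.L) (y : Fin n → ℂ) :
    (objL hE).fac m y = κ.mat E E (κ.Dg E (fun τ => aut (κ.hat τ) m y) ∘ₗ Tm hE m) := by
  rw [mat_comp, mat_Dg]; rfl

/-- A family of sections whose values are holomorphic in the parameter has holomorphic
coordinates. -/
theorem diff_repr {F : ObjL C.toLat} {G : (Fin n → ℂ) → κ.W F}
    (h : ∀ x j a, Differentiable ℂ fun y => (G y).1 x j a) (φ : κ.W F →ₗ[ℂ] ℂ) :
    Differentiable ℂ fun y => φ (G y) := by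
  let L : ((Fin n → ℂ) → Matrix F.ι κ.K.ι ℂ) →ₗ[ℂ] ((Fin n → ℂ) × F.ι × κ.K.ι → ℂ) :=
    { toFun := fun f x => f x.1 x.2.1 x.2.2
      map_add' := fun _ _ => rfl
      map_smul' := fun _ _ => rfl }
  have hL : Function.Injective L := fun f g e => by
    funext x; ext j a; exact congrFun e (x, j, a)
  let e := Submodule.equivMapOfInjective L hL (κ.W F)
  have : FiniteDimensional ℂ ((κ.W F).map L) := e.finiteDimensional
  obtain ⟨s, c, hs⟩ := exists_eval_comb ((κ.W F).map L) (φ ∘ₗ e.symm.toLinearMap)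
  have : (fun y => φ (G y)) = fun y => ∑ x ∈ s, c x * (G y).1 x.1 x.2.1 x.2.2 := funext fun y => by
    have := hs (e (G y))
    rw [LinearMap.comp_apply, LinearEquiv.coe_coe, LinearEquiv.symm_apply_apply] at this
    exact this
  rw [this]
  exact Differentiable.fun_sum fun x _ => (h _ _ _).const_mul _

theorem homL_mem {E F : ObjL C.toLat} (hE : κ.Pos E) (hF : κ.Pos F) (u : HomL E F) :
    (fun y => κ.mat E F (PhiL hE hF u y)) ∈ HomL (objL hE) (objL hF) := by
  refine ⟨fun c d => ?_, fun m y => ?_⟩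
  · refine (congrArg (Differentiable ℂ) (funext fun y => mat_apply (PhiL hE hF u y) c d)).mpr
      (diff_repr (G := fun y => PhiL hE hF u y (κ.bas E d)) (fun x j a => ?_) ((κ.bas F).coord c))
    simp only [PhiL_coe, PhiF_apply]
    have h1 : ∀ c : ℝ, Differentiable ℂ fun y : Fin n → ℂ => c • y := fun c =>
      differentiable_id.const_smul (c : ℂ)
    exact Differentiable.fun_sum fun i _ => ((u.2.1 j i).comp ((h1 _).const_sub x)).mul
      (((κ.bas E d).2.1 i a).comp (((h1 _).const_sub x).add (h1 _)))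
  · rw [fac_objL, fac_objL]
    exact (mat_comp _ _).symm.trans ((congrArg _ (PhiL_Tm hE hF u m y)).trans (mat_comp _ _))

/-- The transform on morphisms for the lattice. -/
noncomputable def homL {E F : ObjL C.toLat} (hE : κ.Pos E) (hF : κ.Pos F) :
    HomL E F →ₗ[ℂ] HomL (objL hE) (objL hF) where
  toFun u := ⟨fun y => κ.mat E F (PhiL hE hF u y), homL_mem hE hF u⟩
  map_add' u v := Subtype.ext (funext fun y =>
    (congrArg _ (PhiL_add hE hF u v y)).trans (map_add (κ.mat E F) _ _))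
  map_smul' c u := Subtype.ext (funext fun y =>
    (congrArg _ (PhiL_smul hE hF c u y)).trans (map_smul (κ.mat E F) _ _))

theorem homL_coe {E F : ObjL C.toLat} (hE : κ.Pos E) (hF : κ.Pos F) (u : HomL E F)
    (y : Fin n → ℂ) : (homL hE hF u).1 y = κ.mat E F (PhiL hE hF u y) := rfl

/-- The transform of an equivariant object. -/
noncomputable def obj {E : Obj C} (hE : κ.Pos E.toObjL) : Obj C' where
  toObjL := objL hE
  σ g := κ.mat E.toObjL E.toObjL (κ.Sg E (κ.e g))
  σ_unit g := mat_unit fun c d => ip_Sg E _ _ _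
  σ_blk g c d h :=
    congrArg κ.hat (((bas_pure _ d).Sg _).repr fun e => h ((mat_apply _ c d).trans e))
  σ_mul g h := by rw [map_mul, Sg_mul]; exact mat_comp _ _
  σ_ρ g m := (mat_comp _ _).symm.trans ((congrArg _ (Sg_Tm hE g m)).trans (mat_comp _ _))

/-- The underlying morphism for the lattice. -/
abbrev _root_.Pool.Agent.Lib.MP_d3d358_ag.Th.toL {E F : Obj C} (u : E ⟶ F) :
    HomL E.toObjL F.toObjL := ⟨u.1, u.2.1⟩

/-- The transform of an equivariant morphism. -/
noncomputable def hom {E F : Obj C} (hE : κ.Pos E.toObjL) (hF : κ.Pos F.toObjL) (u : E ⟶ F) :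
    obj hE ⟶ obj hF :=
  ⟨(homL hE hF (toL u)).1, (homL hE hF (toL u)).2, fun g y => by
    rw [← κ.act_e]
    exact (mat_comp _ _).symm.trans
      ((congrArg _ (PhiL_Sg hE hF (toL u) (κ.e g) (val_act u _) y)).trans (mat_comp _ _))⟩

theorem val_hom {E F : Obj C} (hE : κ.Pos E.toObjL) (hF : κ.Pos F.toObjL) (u : E ⟶ F)
    (y : Fin n → ℂ) : val (hom hE hF u) y = κ.mat E.toObjL F.toObjL (PhiL hE hF (toL u) y) := rfl

variable (κ) in
/-- The Fourier-Mukai functor. -/
noncomputable def Phi : PC C (-(κ.p : ℝ)) ⥤ Obj C' where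
  obj E := obj (κ := κ) E.property
  map {E F} u := hom E.property F.property u.hom
  map_id E := hom_ext fun y => by
    have : PhiL (κ := κ) E.property E.property (toL (𝟙 E.obj)) y = LinearMap.id :=
      LinearMap.ext fun f => Subtype.ext (PhiF_one _ y f.1)
    exact (congrArg _ this).trans (LinearMap.toMatrix_id _)
  map_comp {D E F} u v := hom_ext fun y => by
    have : PhiL (κ := κ) D.property F.property (toL (u.hom ≫ v.hom)) y =
        PhiL E.property F.property (toL v.hom) y ∘ₗ PhiL D.property E.property (toL u.hom) y :=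
      LinearMap.ext fun f => Subtype.ext (PhiF_mul _ _ _ _ _ y f.1)
    exact (congrArg _ this).trans (mat_comp _ _)

theorem val_Phi {E F : PC C (-(κ.p : ℝ))} (u : E ⟶ F) (y : Fin n → ℂ) : val (κ.Phi.map u) y =
    κ.mat E.obj.toObjL F.obj.toObjL (PhiL E.property F.property (toL u.hom) y) := rfl

theorem Phi_t (E : PC C (-(κ.p : ℝ))) (c : κ.Ix E.obj.toObjL) :
    (κ.Phi.obj E).t c = κ.hat (κ.tau E.obj.toObjL c) := rfl

instance : κ.Phi.Additive where
  map_add {E F u v} := hom_ext fun y =>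
    congrFun (congrArg Subtype.val ((homL (κ := κ) E.property F.property).map_add
      (toL u.hom) (toL v.hom))) y

instance : κ.Phi.Linear ℂ where
  map_smul {E F} u c := hom_ext fun y =>
    congrFun (congrArg Subtype.val ((homL (κ := κ) E.property F.property).map_smul c
      (toL u.hom))) y

end Ker

end Pool.Agent.Lib.MP_d3d358_ag.Th
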