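import Pool.Agent.Lib.MP_d3d358_ag.Hom.Defs
import Pool.Agent.Lib.MP_d3d358_ag.Mor.Sing
import Pool.Agent.Lib.MP_d3d358_ag.Th.TL

/-! Complexes of theta bundles that are exact at every point: no morphisms from low objects, and
acyclic image. -/

set_option autoImplicit false
set_option linter.unusedSectionVars false

namespace Pool.Agent.Lib.MP_d3d358_ag.Th

open CategoryTheory Limits Pretriangulated Abelian

universe w v u v' u'

namespace V2

section Gen

variable {P : Type u} [Category.{v} P] [Preadditive P] [HasZeroObject P] [HasBinaryBiproducts P]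

open CochainComplex.HomComplex in
/-- Vanishing of the morphisms from a single complex in one degree. -/
theorem va_deg (F : P) (X : CochainComplex P ℤ) {i j k : ℤ} (hij : i + 1 = j) (hjk : j + 1 = k) :
    (∀ φ : sing F ⟶ (qk X)⟦j⟧, φ = 0) ↔
      ∀ g : F ⟶ X.X j, g ≫ X.d j k = 0 → ∃ f : F ⟶ X.X i, f ≫ X.d i j = g := by
  have e : qk (X⟦j⟧) ≅ (qk X)⟦j⟧ :=
    ((HomotopyCategory.quotient P (ComplexShape.up ℤ)).commShiftIso j).app X
  constructor
  · intro h g hg
    rw [← Cocycle.fromSingleMk_mem_coboundaries_iff g (zero_add j) k hjk hg i hij,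
      ← CohomologyClass.toHom_mk_eq_zero_iff]
    have : ∀ ψ : sing F ⟶ qk (X⟦j⟧), ψ = 0 := fun ψ => by
      rw [← cancel_mono e.hom, zero_comp]
      exact h _
    exact this _
  · intro h φ
    have : ∀ ψ : sing F ⟶ qk (X⟦j⟧), ψ = 0 := fun ψ => by
      obtain ⟨x, rfl⟩ := (CohomologyClass.toHom_bijective
        ((CochainComplex.singleFunctor P 0).obj F) X j).2 ψ
      obtain ⟨x, rfl⟩ := x.mk_surjective
      obtain ⟨g, hg, rfl⟩ := Cocycle.fromSingleMk_surjective x j (zero_add j) k hjk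
      exact (CohomologyClass.toHom_mk_eq_zero_iff _).2
        ((Cocycle.fromSingleMk_mem_coboundaries_iff g (zero_add j) k hjk hg i hij).2 (h g hg))
    rw [← cancel_mono e.inv, zero_comp]
    exact this _

/-- The objects of the envelope have finite amplitude. -/
theorem amplitude {X : HK P} (hX : En ⊤ X) :
    ∃ N : ℤ, ∀ m : ℤ, N < |m| → ∀ (F : P) (φ : sing F ⟶ X⟦m⟧), φ = 0 := by
  refine Mor.Env.induction
    (Q := fun X => ∃ N : ℤ, ∀ m : ℤ, N < |m| → ∀ (F : P) (φ : sing F ⟶ X⟦m⟧), φ = 0)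
    ?_ (fun _ h => ⟨0, fun m _ _ _ => ((shiftFunctor _ m).map_isZero h).eq_of_tgt _ _⟩) ?_ ?_ hX
  · rintro _ ⟨Y, -, rfl⟩
    exact ⟨0, fun m hm _ φ => Mor.sing_hom_zero (abs_pos.1 hm) φ⟩
  · rintro Y a - ⟨N, h⟩
    refine ⟨N + |a|, fun m hm F φ => ?_⟩
    rw [← cancel_mono ((shiftFunctorAdd _ a m).inv.app Y), zero_comp]
    refine h _ ?_ _ _
    have := abs_sub (a + m) a
    rw [add_sub_cancel_left] at this
    lia
  · rintro T hT - - ⟨N, h₁⟩ ⟨N', h₃⟩
    refine ⟨max N N', fun m hm F φ => ?_⟩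
    obtain ⟨g, rfl⟩ := Triangle.coyoneda_exact₂ _ (Triangle.shift_distinguished T hT m) φ
      (h₃ m ((le_max_right _ _).trans_lt hm) F _)
    exact (congrArg (· ≫ _) (h₁ m ((le_max_left _ _).trans_lt hm) F g)).trans zero_comp

/-- No morphisms from the envelope as soon as there are none from the generators. -/
theorem hom_zero {S : ObjectProperty P} {Y : HK P} (h : ∀ F, S F → Va F Y) {X : HK P}
    (hX : En S X) (φ : X ⟶ Y) : φ = 0 := by
  have : ∀ (m : ℤ) (f : X ⟶ Y⟦m⟧), f = 0 := by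
    by_cases hS : ∃ F, S F
    · obtain ⟨F, hF⟩ := hS
      exact Mor.hom_zero_left (by rintro _ ⟨F, hF, rfl⟩; exact h F hF) (En.le_env hF _ hX)
    · have z : IsZero X := Mor.Env.induction (Q := IsZero)
        (by rintro _ ⟨F, hF, -⟩; exact (hS ⟨F, hF⟩).elim) (fun _ z => z)
        (fun _ m _ z => (shiftFunctor _ m).map_isZero z)
        (fun T hT _ _ => Triangle.isZero₂_of_isZero₁₃ T hT) hX
      exact fun _ _ => z.eq_of_src _ _
  rw [← cancel_mono ((shiftFunctorZero _ ℤ).inv.app Y), zero_comp]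
  exact this 0 _

theorem isZero_DF_iff {A : Type u'} [Category.{v'} A] [Abelian A] [HasDerivedCategory.{w} A]
    (F : P ⥤ A) [F.Additive] (X : CochainComplex P ℤ) : IsZero ((DF F).obj (qk X)) ↔
      ∀ j, ((F.mapHomologicalComplex (ComplexShape.up ℤ)).obj X).ExactAt j := by
  let L : CochainComplex A ℤ := (F.mapHomologicalComplex (ComplexShape.up ℤ)).obj X
  have e : (DF F).obj (qk X) ≅ DerivedCategory.Q.obj L :=
    (DerivedCategory.quotientCompQhIso A).app L
  rw [e.isZero_iff]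
  constructor
  · intro h j
    rw [HomologicalComplex.exactAt_iff_isZero_homology]
    exact ((DerivedCategory.homologyFunctor A j).map_isZero h).of_iso
      ((DerivedCategory.homologyFunctorFactors A j).app L).symm
  · intro h
    have h₁ : (DerivedCategory.Q.obj L).IsLE 0 :=
      (DerivedCategory.isLE_Q_obj_iff L 0).2 ((L.isLE_iff 0).2 fun i _ => h i)
    have h₂ : (DerivedCategory.Q.obj L).IsGE 1 :=
      (DerivedCategory.isGE_Q_obj_iff L 1).2 ((L.isGE_iff 1).2 fun i _ => h i)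
    exact DerivedCategory.TStructure.t.isZero _ 0 1

end Gen

section Pow

variable {K : Type u} [Category.{v} K] {T : K ⥤ K}

/-- The powers of a natural transformation, as a natural transformation. -/
def npowNat (μ : 𝟭 K ⟶ T) (s : ℕ) : 𝟭 K ⟶ pw T s where
  app M := npow μ M s
  naturality M N f := by
    induction s with
    | zero => exact (Category.comp_id _).trans (Category.id_comp _).symm
    | succ s ih =>
      have h := μ.naturality ((pw T s).map f)
      change f ≫ npow μ N s ≫ μ.app ((pw T s).obj N) =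
        (npow μ M s ≫ μ.app ((pw T s).obj M)) ≫ T.map ((pw T s).map f)
      rw [Category.assoc, ← h, ← Category.assoc, ← Category.assoc]
      exact congrArg (· ≫ _) ih

theorem pw_additive [Preadditive K] [T.Additive] : ∀ s : ℕ, (pw T s).Additive
  | 0 => inferInstanceAs (𝟭 K).Additive
  | s + 1 => have := pw_additive s; inferInstanceAs (pw T s ⋙ T).Additive

theorem pw_lim [PreservesFiniteLimits T] : ∀ s : ℕ, PreservesFiniteLimits (pw T s)
  | 0 => inferInstanceAs (PreservesFiniteLimits (𝟭 K))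
  | s + 1 => have := pw_lim s; comp_preservesFiniteLimits (pw T s) T

theorem pw_colim [PreservesFiniteColimits T] : ∀ s : ℕ, PreservesFiniteColimits (pw T s)
  | 0 => inferInstanceAs (PreservesFiniteColimits (𝟭 K))
  | s + 1 => have := pw_colim s; comp_preservesFiniteColimits (pw T s) T

set_option backward.isDefEq.respectTransparency false in
/-- A natural map which is null homotopic on a short complex kills its homology. -/
theorem app_homology_zero [Abelian K] [T.Additive] [PreservesFiniteLimits T]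
    [PreservesFiniteColimits T] (τ : 𝟭 K ⟶ T) (S : ShortComplex K) (a : S.X₃ ⟶ T.obj S.X₂)
    (b : S.X₂ ⟶ T.obj S.X₁) (h : τ.app S.X₂ = S.g ≫ a + b ≫ T.map S.f) :
    τ.app S.homology = 0 := by
  have e : ShortComplex.cyclesMap (S.mapNatTrans τ) =
      (S.map (𝟭 K)).iCycles ≫ b ≫ (S.map T).toCycles := by
    rw [← cancel_mono (S.map T).iCycles, ShortComplex.cyclesMap_i, Category.assoc, Category.assoc,
      ShortComplex.toCycles_i]
    have z : (S.map (𝟭 K)).iCycles ≫ S.g = 0 := (S.map (𝟭 K)).iCycles_g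
    change (S.map (𝟭 K)).iCycles ≫ τ.app S.X₂ = (S.map (𝟭 K)).iCycles ≫ b ≫ T.map S.f
    rw [h, Preadditive.comp_add, ← Category.assoc, z, zero_comp, zero_add]
  have z : ShortComplex.homologyMap (S.mapNatTrans τ) = 0 := by
    rw [← cancel_epi (S.map (𝟭 K)).homologyπ, ShortComplex.homologyπ_naturality, e,
      Category.assoc, Category.assoc, ShortComplex.toCycles_comp_homologyπ, comp_zero, comp_zero,
      comp_zero]
  rw [NatTrans.app_homology τ S, z, zero_comp, comp_zero]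

end Pow

variable {n : ℕ} {C : Cr n}

/-- Undoing a twist. -/
noncomputable def untw (a : ℤ) (E : Obj C) : twObj (-a) (twObj a E) ≅ E :=
  twtw E a (-a) 0 (add_neg_cancel a) ≪≫ (tw0 E).symm

theorem val_untw_hom (a : ℤ) (E : Obj C) (z : Fin n → ℂ) : val (untw a E).hom z = 1 :=
  Matrix.mul_one (1 : Matrix E.ι E.ι ℂ)

/-- Undoing a twist, in the other order. -/
noncomputable def untw' (a : ℤ) (E : Obj C) : E ≅ twObj a (twObj (-a) E) :=
  tw0 E ≪≫ (twtw E (-a) a 0 (neg_add_cancel a)).symm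

theorem val_untw'_hom (a : ℤ) (E : Obj C) (z : Fin n → ℂ) : val (untw' a E).hom z = 1 :=
  Matrix.mul_one (1 : Matrix E.ι E.ι ℂ)

theorem exact_tw (a : ℤ) {R D E F : Obj C} {u : D ⟶ E} {v : E ⟶ F}
    (h : ∀ g : twObj (-a) R ⟶ E, g ≫ v = 0 → ∃ f : twObj (-a) R ⟶ D, f ≫ u = g)
    (g : R ⟶ twObj a E) (hg : g ≫ (tw C a).map v = 0) :
    ∃ f : R ⟶ twObj a D, f ≫ (tw C a).map u = g := by
  have e : ∀ z, val ((tw C (-a)).map g ≫ (untw a E).hom) z = val g z := fun z => by
    rw [val_comp, val_untw_hom]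
    exact Matrix.one_mul _
  obtain ⟨f, hf⟩ := h ((tw C (-a)).map g ≫ (untw a E).hom) (hom_ext fun z => by
    rw [val_comp, e]
    exact congrArg (val · z) hg)
  refine ⟨(untw' a R).hom ≫ (tw C a).map f, hom_ext fun z => ?_⟩
  rw [← e, ← hf, val_comp, val_comp, val_untw'_hom]
  exact congrArg (val u z * ·) (Matrix.mul_one (val f z))

theorem exists_le (E : Obj C) : ∃ c : ℝ, Le c E :=
  (Finite.bddAbove_range E.t).imp fun _ h i => h ⟨i, rfl⟩

theorem exists_en_le {X : HK (Obj C)} (hX : En ⊤ X) : ∃ c : ℝ, En (Le c) X :=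
  Mor.Env.exists_level (Lo := fun c : ℝ => sg (Le c : ObjectProperty (Obj C)))
    (fun _ _ h _ ⟨E, hE, e⟩ => ⟨E, fun i => (hE i).trans h, e⟩)
    (fun _ ⟨E, _, e⟩ => (exists_le E).imp fun _ h => Mor.Env.of ⟨E, h, e⟩) hX

end V2

variable {n : ℕ} {C : Cr n}

theorem PAc_iff (X : CochainComplex (Obj C) ℤ) :
    PAc (qk X) ↔ ∀ i j k : ℤ, i + 1 = j → j + 1 = k → PEx (val (X.d i j)) (val (X.d j k)) := by
  have e : ∀ (z : Fin n → ℂ) (i j k : ℤ), i + 1 = j → j + 1 = k →
      ((((ev C z).mapHomologicalComplex (ComplexShape.up ℤ)).obj X).ExactAt j ↔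
        Function.Exact (val (X.d i j) z).mulVec (val (X.d j k) z).mulVec) := fun z i j k h h' => by
    rw [HomologicalComplex.exactAt_iff' _ i j k (by simp; lia) (by simp; lia),
      ShortComplex.ShortExact.moduleCat_exact_iff_function_exact]
    rfl
  constructor
  · intro h i j k hi hk z
    exact (e z i j k hi hk).1 ((V2.isZero_DF_iff _ X).1 (h z) j)
  · intro h z
    exact (V2.isZero_DF_iff _ X).2 fun j =>
      (e z (j - 1) j (j + 1) (by lia) rfl).2 (h _ _ _ (by lia) rfl z)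

theorem PIso_iff (T : Triangle (HK (Obj C))) (hT : T ∈ distTriang _) :
    PIso T.mor₁ ↔ PAc T.obj₃ :=
  forall_congr' fun z =>
    (Triangle.isZero₃_iff_isIso₁ _ ((DF (ev C z)).map_distinguished T hT)).symm

theorem va_big {X : HK (Obj C)} (hX : En ⊤ X) (h : PAc X) :
    ∃ b : ℝ, ∀ F : Obj C, Le b F → Va F X := by
  obtain ⟨N, hN⟩ := V2.amplitude hX
  obtain ⟨X, rfl⟩ := X.quotient_obj_surjective
  choose b hb using fun m : ℤ => TL (X.d (m - 1) m) (X.d m (m + 1))
    ((PAc_iff X).1 h _ _ _ (by lia) rfl)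
  obtain ⟨c, hc⟩ := ((Set.finite_Icc (-N) N).image b).bddBelow
  refine ⟨c, fun F hF m => ?_⟩
  by_cases hm : N < |m|
  · exact hN m hm F
  · exact (V2.va_deg F X (sub_add_cancel m 1) rfl).2 (hb m F fun i =>
      (hF i).trans (hc ⟨m, abs_le.1 (not_lt.1 hm), rfl⟩))

/-- Vanishing for a twisted complex. -/
theorem Va.tw (a : ℤ) {F : Obj C} {X : HK (Obj C)} (h : Va (twObj (-a) F) X) :
    Va F ((KF (tw C a)).obj X) := by
  obtain ⟨X, rfl⟩ := X.quotient_obj_surjective
  intro m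
  exact (V2.va_deg F (((Th.tw C a).mapHomologicalComplex _).obj X) (sub_add_cancel m 1) rfl).2
    (V2.exact_tw a ((V2.va_deg _ X (sub_add_cancel m 1) rfl).1 (h m)))

/-- The bound of `va_big` moves with the twist. -/
theorem va_big_tw {X : HK (Obj C)} (hX : En ⊤ X) (h : PAc X) :
    ∃ b : ℝ, ∀ (a : ℤ) (F : Obj C), Le (b + a * C.k) F → Va F ((KF (tw C a)).obj X) := by
  obtain ⟨b, hb⟩ := va_big hX h
  refine ⟨b, fun a F hF => Va.tw a (hb _ fun i => ?_)⟩
  have := hF i
  change F.t i + ((-a : ℤ) : ℝ) * C.k ≤ b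
  push_cast
  linarith

/-- A complex which is exact at every point has no morphism to its high twists. -/
theorem hom_tw_zero {X : HK (Obj C)} (hX : En ⊤ X) (h : PAc X) :
    ∃ s₀ : ℕ, ∀ s : ℕ, s₀ ≤ s → ∀ φ : X ⟶ (KF (tw C s)).obj X, φ = 0 := by
  obtain ⟨b, hb⟩ := va_big_tw hX h
  obtain ⟨c, hc⟩ := V2.exists_en_le hX
  obtain ⟨s₀, hs⟩ := exists_nat_ge (c - b)
  refine ⟨s₀, fun s hs' φ => V2.hom_zero (fun F hF => hb s F fun i => (hF i).trans ?_) hc φ⟩
  have h1 : (1 : ℝ) ≤ C.k := by exact_mod_cast C.k_pos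
  have h2 : (s₀ : ℝ) ≤ s := by exact_mod_cast hs'
  have h3 : (0 : ℝ) ≤ s := Nat.cast_nonneg s
  push_cast
  nlinarith

/-- Multiplication by a power, as a natural transformation. -/
noncomputable def ypwNat (y : (Fin n → ℂ) → ℂ) (hy : y ∈ Inv C 1) (s : ℕ) :
    𝟭 (Obj C) ⟶ tw C s where
  app E := ypw y hy s E
  naturality E F u := hom_ext fun z => by
    change val (ypw y hy s F) z * val u z = val u z * val (ypw y hy s E) z
    simp

section B

variable {A : Type 1} [Category.{0} A] [Abelian A] [Linear ℂ A] [HasExt.{1} A]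
  [HasDerivedCategory.{1} A] (B : BKR C A)

/-- The twist by `s` maps to the `s`-th power of the twist on the geometric side. -/
theorem BKR.exists_pw (i : Fin B.r) (s : ℕ) :
    ∃ ε : ∀ E : Obj C, B.α.obj (twObj s E) ⟶ (pw B.Tw s).obj (B.α.obj E),
      (∀ (E F : Obj C) (u : E ⟶ F),
        B.α.map ((tw C s).map u) ≫ ε F = ε E ≫ (pw B.Tw s).map (B.α.map u)) ∧
      ∀ E, B.α.map (ypw (B.y i) (B.y_mem i) s E) ≫ ε E = npow (B.μ i) (B.α.obj E) s := by
  induction s with
  | zero =>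
    refine ⟨fun E => B.α.map (tw0 E).inv, fun E F u => ?_, fun E => ?_⟩
    · change B.α.map _ ≫ B.α.map _ = B.α.map _ ≫ B.α.map u
      rw [← B.α.map_comp, ← B.α.map_comp]
      exact congrArg _ (hom_ext fun z => (Matrix.one_mul _).trans (Matrix.mul_one _).symm)
    · change B.α.map _ ≫ B.α.map _ = 𝟙 (B.α.obj E)
      rw [← B.α.map_comp, ← B.α.map_id]
      refine congrArg _ (hom_ext fun z => ?_)
      change (1 : Matrix E.ι E.ι ℂ) * val (ypw (B.y i) (B.y_mem i) 0 E) z = 1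
      simp
  | succ s ih =>
    obtain ⟨ε, hn, hε⟩ := ih
    obtain ⟨e, he, he'⟩ : ∃ e : ∀ E : Obj C, B.α.obj (twObj 1 E) ⟶ B.Tw.obj (B.α.obj E),
        (∀ (E F : Obj C) (u : E ⟶ F),
          B.α.map ((tw C 1).map u) ≫ e F = e E ≫ B.Tw.map (B.α.map u)) ∧
        ∀ E, B.α.map (natApp (B.y i) (B.y_mem i) E) ≫ e E = (B.μ i).app (B.α.obj E) :=
      ⟨fun E => B.e.hom.app E, fun _ _ u => B.e.hom.naturality u, B.μ_α i⟩
    refine ⟨fun E => (B.α.map (twtw E s 1 (s + 1 : ℕ) (by simp)).inv ≫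
      e (twObj s E) ≫ B.Tw.map (ε E) : _ ⟶ B.Tw.obj ((pw B.Tw s).obj (B.α.obj E))),
        fun E F u => ?_, fun E => ?_⟩
    · have h₃ : (tw C (s + 1 : ℕ)).map u ≫ (twtw F s 1 (s + 1 : ℕ) (by simp)).inv =
          (twtw E s 1 (s + 1 : ℕ) (by simp)).inv ≫ (tw C 1).map ((tw C s).map u) :=
        hom_ext fun z => (Matrix.one_mul _).trans (Matrix.mul_one _).symm
      change B.α.map ((tw C (s + 1 : ℕ)).map u) ≫ B.α.map _ ≫ e (twObj s F) ≫ B.Tw.map (ε F) =
        (B.α.map _ ≫ e (twObj s E) ≫ B.Tw.map (ε E)) ≫ B.Tw.map ((pw B.Tw s).map (B.α.map u))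
      rw [← Category.assoc, ← B.α.map_comp, h₃, B.α.map_comp, Category.assoc, Category.assoc,
        Category.assoc, ← Category.assoc (B.α.map ((tw C 1).map _)), he, Category.assoc,
        ← B.Tw.map_comp, ← B.Tw.map_comp, hn]
    · have h₃ : ypw (B.y i) (B.y_mem i) (s + 1) E ≫ (twtw E s 1 (s + 1 : ℕ) (by simp)).inv =
          ypw (B.y i) (B.y_mem i) s E ≫ natApp (B.y i) (B.y_mem i) (twObj s E) :=
        hom_ext fun z => by
          change (1 : Matrix E.ι E.ι ℂ) * val (ypw (B.y i) (B.y_mem i) (s + 1) E) z =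
            (B.y i z • (1 : Matrix E.ι E.ι ℂ)) * val (ypw (B.y i) (B.y_mem i) s E) z
          simp [smul_smul, pow_succ]
      have h₄ : ε E ≫ (B.μ i).app ((pw B.Tw s).obj (B.α.obj E)) =
          (B.μ i).app (B.α.obj (twObj s E)) ≫ B.Tw.map (ε E) := (B.μ i).naturality (ε E)
      change B.α.map _ ≫ B.α.map _ ≫ e (twObj s E) ≫ B.Tw.map (ε E) =
        npow (B.μ i) (B.α.obj E) s ≫ (B.μ i).app ((pw B.Tw s).obj (B.α.obj E))
      rw [← Category.assoc, ← B.α.map_comp, h₃, B.α.map_comp, ← hε, Category.assoc, Category.assoc,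
        h₄, ← he', Category.assoc]

theorem BKR.acyc {X : HK (Obj C)} (hX : En ⊤ X) (h : PAc X) : IsZero ((DF B.α).obj X) := by
  obtain ⟨s, hs⟩ := hom_tw_zero hX h
  obtain ⟨X, rfl⟩ := X.quotient_obj_surjective
  refine (V2.isZero_DF_iff _ X).2 fun j => ?_
  rw [HomologicalComplex.exactAt_iff' _ (j - 1) j (j + 1) (by simp) (by simp),
    ShortComplex.exact_iff_isZero_homology]
  refine B.B3 _ fun i => ⟨s, ?_⟩
  obtain ⟨ε, hn, hε⟩ := B.exists_pw i s
  have := V2.pw_additive (T := B.Tw) s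
  have := V2.pw_lim (T := B.Tw) s
  have := V2.pw_colim (T := B.Tw) s
  let f : X ⟶ ((tw C s).mapHomologicalComplex (ComplexShape.up ℤ)).obj X :=
    (NatTrans.mapHomologicalComplex (ypwNat (B.y i) (B.y_mem i) s) (ComplexShape.up ℤ)).app X
  have H : Homotopy f 0 := HomotopyCategory.homotopyOfEq _ _
    ((hs s le_rfl ((HomotopyCategory.quotient _ _).map f)).trans (Functor.map_zero _ _ _).symm)
  have e := H.comm j
  rw [dNext_eq H.hom (show (ComplexShape.up ℤ).Rel j (j + 1) by simp),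
    prevD_eq H.hom (show (ComplexShape.up ℤ).Rel (j - 1) j by simp),
    HomologicalComplex.zero_f, add_zero] at e
  obtain ⟨a, b, e'⟩ : ∃ (a : X.X (j + 1) ⟶ twObj s (X.X j)) (b : X.X j ⟶ twObj s (X.X (j - 1))),
      ypw (B.y i) (B.y_mem i) s (X.X j) = X.d j (j + 1) ≫ a + b ≫ (tw C s).map (X.d (j - 1) j) :=
    ⟨_, _, e⟩
  have key : npow (B.μ i) (B.α.obj (X.X j)) s = B.α.map (X.d j (j + 1)) ≫ (B.α.map a ≫ ε (X.X j)) +
      (B.α.map b ≫ ε (X.X (j - 1))) ≫ (pw B.Tw s).map (B.α.map (X.d (j - 1) j)) := by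
    rw [← hε, e', B.α.map_add, B.α.map_comp, B.α.map_comp, Preadditive.add_comp, Category.assoc,
      Category.assoc, Category.assoc, hn]
  exact V2.app_homology_zero (V2.npowNat (B.μ i) s) _ _ _ key

theorem BKR.isIso {X Y : HK (Obj C)} (hX : En ⊤ X) (hY : En ⊤ Y) {s : X ⟶ Y} (h : PIso s) :
    IsIso ((DF B.α).map s) := by
  obtain ⟨Z, f, g, hT⟩ := distinguished_cocone_triangle s
  exact (Triangle.isZero₃_iff_isIso₁ _ ((DF B.α).map_distinguished _ hT)).1
    (B.acyc (Mor.Env.ext₃ _ hT hX hY) ((PIso_iff _ hT).1 h))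

end B

end Pool.Agent.Lib.MP_d3d358_ag.Th
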