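import Pool.Agent.Lib.MP_d3d358_ag.Th.Avg

/-! Induction from the lattice to the crystallographic group, and Frobenius reciprocity. -/

set_option autoImplicit false

namespace Pool.Agent.Lib.MP_d3d358_ag.Th

open Matrix Complex CategoryTheory

variable {n : ℕ} {C : Cr n}

namespace Ind

theorem actL_mul (C : Cr n) (g h : C.G) (l : C.L) :
    C.actL (g * h) l = C.actL g (C.actL h l) := Subtype.ext (by simp [Cr.actL])

theorem actL_one (C : Cr n) (l : C.L) : C.actL 1 l = l := Subtype.ext (by simp [Cr.actL])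

theorem actL_add (C : Cr n) (g : C.G) (l l' : C.L) :
    C.actL g (l + l') = C.actL g l + C.actL g l' := Subtype.ext (by simp [Cr.actL])

theorem coe_actL (C : Cr n) (g : C.G) (l : C.L) : (C.actL g l : Fin n → ℂ) = C.act g l := rfl

theorem act_mul (C : Cr n) (g h : C.G) (z : Fin n → ℂ) :
    C.act (g * h) z = C.act g (C.act h z) := by rw [map_mul]; rfl

theorem act_one (C : Cr n) (z : Fin n → ℂ) : C.act 1 z = z := by rw [map_one]; rfl

variable {ι G β : Type} [Fintype ι] [Fintype G] [DecidableEq G]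

theorem mul_blk (M : Matrix β (G × ι) ℂ) (N : G → Matrix ι ι ℂ) (x : β) (b : G) (j : ι) :
    (M * (of fun p q => if p.1 = q.1 then N p.1 p.2 q.2 else 0 : Matrix (G × ι) (G × ι) ℂ))
      x (b, j) = ((of fun x i => M x (b, i) : Matrix β ι ℂ) * N b) x j := by
  simp [Matrix.mul_apply, Fintype.sum_prod_type]

theorem blk_mul (M : Matrix (G × ι) β ℂ) (N : G → Matrix ι ι ℂ) (x : β) (a : G) (i : ι) :
    ((of fun p q => if p.1 = q.1 then N p.1 p.2 q.2 else 0 : Matrix (G × ι) (G × ι) ℂ) * M)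
      (a, i) x = (N a * (of fun j x => M (a, j) x : Matrix ι β ℂ)) i x := by
  simp [Matrix.mul_apply, Fintype.sum_prod_type]

variable [DecidableEq ι] [Group G]

theorem mul_sig (M : Matrix β (G × ι) ℂ) (s : G) (x : β) (y : G × ι) :
    (M * (of fun p q => if p.1 = s * q.1 ∧ p.2 = q.2 then 1 else 0 : Matrix (G × ι) (G × ι) ℂ))
      x y = M x (s * y.1, y.2) := by
  have e : ∀ p : G × ι, (p.1 = s * y.1 ∧ p.2 = y.2) ↔ p = (s * y.1, y.2) := fun p => by
    rw [Prod.ext_iff]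
  simp [Matrix.mul_apply, e]

theorem sig_mul (M : Matrix (G × ι) β ℂ) (s : G) (x : G × ι) (y : β) :
    ((of fun p q => if p.1 = s * q.1 ∧ p.2 = q.2 then 1 else 0 : Matrix (G × ι) (G × ι) ℂ) * M)
      x y = M (s⁻¹ * x.1, x.2) y := by
  have e : ∀ p : G × ι, (x.1 = s * p.1 ∧ x.2 = p.2) ↔ p = (s⁻¹ * x.1, x.2) := fun p => by
    rw [Prod.ext_iff, eq_inv_mul_iff_mul_eq, eq_comm, eq_comm (a := x.2)]
  simp [Matrix.mul_apply, e]

end Ind

open Ind

/-- The induced object. -/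
@[reducible] noncomputable def ind (K : ObjL C.toLat) : Obj C where
  ι := C.G × K.ι
  t p := K.t p.2
  ρ l := of fun p q => if p.1 = q.1 then K.ρ (C.actL p.1⁻¹ l) p.2 q.2 else 0
  ρ_unit l := by
    ext ⟨a, i⟩ ⟨b, j⟩
    rw [mul_blk _ fun g => K.ρ (C.actL g⁻¹ l)]
    by_cases h : a = b
    · subst h
      have := congrFun (congrFun (K.ρ_unit (C.actL a⁻¹ l)) i) j
      simpa [Matrix.mul_apply, Matrix.one_apply] using this
    · simp [Matrix.mul_apply, h, Ne.symm h]
  ρ_blk l x y h := K.ρ_blk (C.actL x.1⁻¹ l) _ _ fun e => h (by rw [of_apply, e, ite_self])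
  ρ_mul l l' := by
    ext ⟨a, i⟩ ⟨b, j⟩
    rw [blk_mul _ fun g => K.ρ (C.actL g⁻¹ l), diagonal_mul]
    by_cases h : a = b
    · subst h
      have := congrFun (congrFun (K.ρ_mul (C.actL a⁻¹ l) (C.actL a⁻¹ l')) i) j
      rw [diagonal_mul, coe_actL, coe_actL, alt_act, ← actL_add] at this
      simpa [Matrix.mul_apply] using this
    · simp [Matrix.mul_apply, h]
  σ h := of fun p q => if p.1 = h * q.1 ∧ p.2 = q.2 then 1 else 0
  σ_unit s := by
    ext x y
    rw [mul_sig, conjTranspose_apply, Matrix.one_apply]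
    simp [Prod.ext_iff, eq_comm]
  σ_blk s x y h := by
    by_cases e : x.2 = y.2
    · rw [e]
    · simp [e] at h
  σ_mul s s' := by
    ext x y
    rw [mul_sig]
    simp [mul_assoc]
  σ_ρ s l := by
    ext ⟨a, i⟩ ⟨b, j⟩
    rw [mul_sig, sig_mul, of_apply, of_apply, ← actL_mul]
    simp [inv_mul_eq_iff_eq_mul]

theorem ind_fac (K : ObjL C.toLat) (l : C.L) (z : Fin n → ℂ) :
    (ind K).fac l z = of fun p q : C.G × K.ι =>
      if p.1 = q.1 then K.fac (C.actL p.1⁻¹ l) (C.act p.1⁻¹ z) p.2 q.2 else 0 := by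
  ext ⟨a, i⟩ ⟨b, j⟩
  simp only [ObjL.fac, diagonal_mul, of_apply, coe_actL, aut_act, mul_ite, mul_zero]

/-- The inclusion of the block of the neutral element. -/
def indInc (K : ObjL C.toLat) : Matrix (C.G × K.ι) K.ι ℂ :=
  of fun x j => if x = (1, j) then 1 else 0

theorem mul_indInc {K : ObjL C.toLat} {β : Type} (M : Matrix β (C.G × K.ι) ℂ) (x : β) (j : K.ι) :
    (M * indInc K) x j = M x (1, j) := by
  simp [indInc, Matrix.mul_apply]

theorem indIncT_mul {K : ObjL C.toLat} {β : Type} (M : Matrix (C.G × K.ι) β ℂ) (x : β) (j : K.ι) :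
    ((indInc K)ᵀ * M) j x = M (1, j) x := by
  simp [indInc, Matrix.mul_apply]

theorem indInc_mem (K : ObjL C.toLat) : (fun _ => indInc K) ∈ HomL K (ind K).toObjL :=
  ⟨fun _ _ => differentiable_const _, fun l z => by
    ext ⟨a, i⟩ j
    rw [mul_indInc, ind_fac]
    by_cases h : a = 1
    · subst h
      rw [of_apply, inv_one, act_one, actL_one]
      simp [indInc, Matrix.mul_apply]
    · simp [indInc, Matrix.mul_apply, h]⟩

theorem indIncT_mem (K : ObjL C.toLat) : (fun _ => (indInc K)ᵀ) ∈ HomL (ind K).toObjL K :=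
  ⟨fun _ _ => differentiable_const _, fun l z => by
    ext i ⟨a, j⟩
    rw [indIncT_mul, ind_fac]
    by_cases h : a = 1
    · subst h
      rw [of_apply, inv_one, act_one, actL_one]
      simp [indInc, Matrix.mul_apply]
    · simp [indInc, Matrix.mul_apply, h, Ne.symm h]⟩

/-- The equivariant extension of a lattice morphism out of `K`. -/
noncomputable def indLift {K : ObjL C.toLat} (E : Obj C) (f : (Fin n → ℂ) → Matrix E.ι K.ι ℂ)
    (z : Fin n → ℂ) : Matrix E.ι (C.G × K.ι) ℂ :=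
  of fun i x => (E.σ x.1 * f (C.act x.1⁻¹ z)) i x.2

theorem indLift_mem {K : ObjL C.toLat} {E : Obj C} {f : (Fin n → ℂ) → Matrix E.ι K.ι ℂ}
    (hf : f ∈ HomL K E.toObjL) : indLift E f ∈ Hom (ind K) E := by
  refine ⟨⟨fun i x => ?_, fun l z => ?_⟩, fun s z => ?_⟩
  · simp only [indLift, of_apply, Matrix.mul_apply]
    exact Differentiable.fun_sum fun a _ =>
      ((hf.1 a x.2).comp (C.differentiable_act x.1⁻¹)).const_mul _
  · ext i ⟨b, j⟩
    have e := hf.2 (C.actL b⁻¹ l) (C.act b⁻¹ z)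
    have e2 := E.σ_fac b (C.actL b⁻¹ l) (C.act b⁻¹ z)
    rw [← actL_mul, ← act_mul, mul_inv_cancel, actL_one, act_one] at e2
    rw [ind_fac, mul_blk _ fun g => K.fac (C.actL g⁻¹ l) (C.act g⁻¹ z)]
    change (E.σ b * f (C.act b⁻¹ (z + l)) * K.fac (C.actL b⁻¹ l) (C.act b⁻¹ z)) i j =
      (E.fac l z * (E.σ b * f (C.act b⁻¹ z))) i j
    rw [map_add, ← coe_actL, Matrix.mul_assoc, e, ← Matrix.mul_assoc, e2, Matrix.mul_assoc]
  · ext i ⟨b, j⟩
    rw [mul_sig]
    change (E.σ (s * b) * f (C.act (s * b)⁻¹ (C.act s z))) i j =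
      (E.σ s * (E.σ b * f (C.act b⁻¹ z))) i j
    rw [← act_mul, _root_.mul_inv_rev, inv_mul_cancel_right, E.σ_mul, Matrix.mul_assoc]

/-- Frobenius reciprocity: morphisms out of the induced object. -/
noncomputable def frob (K : ObjL C.toLat) (E : Obj C) : (ind K ⟶ E) ≃ₗ[ℂ] HomL K E.toObjL where
  toFun u := ⟨fun z => val u z * indInc K, HomL.mul_mem (indInc_mem K) u.2.1⟩
  map_add' u v := Subtype.ext (funext fun z => Matrix.add_mul (val u z) (val v z) _)
  map_smul' c u := Subtype.ext (funext fun z => Matrix.smul_mul c (val u z) _)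
  invFun f := ⟨indLift E f.1, indLift_mem f.2⟩
  left_inv u := hom_ext fun z => by
    ext i ⟨b, j⟩
    have e := congrFun (congrFun (val_act u b (C.act b⁻¹ z)) i) (1, j)
    rw [mul_sig, mul_one, ← act_mul, mul_inv_cancel, act_one] at e
    rw [e]
    change (E.σ b * (val u (C.act b⁻¹ z) * indInc K)) i j = _
    rw [← Matrix.mul_assoc, mul_indInc]
  right_inv f := Subtype.ext (funext fun z => by
    ext i j
    change (indLift E f.1 z * indInc K) i j = _
    rw [mul_indInc, indLift, of_apply, inv_one, act_one, E.σ_one, Matrix.one_mul])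

theorem frob_val (K : ObjL C.toLat) (E : Obj C) (u : ind K ⟶ E) (z : Fin n → ℂ) :
    (frob K E u).1 z = val u z * indInc K := rfl

theorem frob_apply (K : ObjL C.toLat) (E : Obj C) (u : ind K ⟶ E) (z : Fin n → ℂ) (i : E.ι)
    (k : K.ι) : (frob K E u).1 z i k = val u z i (1, k) := mul_indInc _ _ _

theorem frob_comp (K : ObjL C.toLat) {E F : Obj C} (u : ind K ⟶ E) (v : E ⟶ F) (z : Fin n → ℂ) :
    (frob K F (u ≫ v)).1 z = val v z * (frob K E u).1 z := Matrix.mul_assoc _ _ _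

theorem frob_symm_apply (K : ObjL C.toLat) (E : Obj C) (f : HomL K E.toObjL) (z : Fin n → ℂ)
    (i : E.ι) (g : C.G) (k : K.ι) :
    val ((frob K E).symm f) z i (g, k) = (E.σ g * f.1 (C.act g⁻¹ z)) i k := rfl

/-- The equivariant extension of a lattice morphism into `K`. -/
noncomputable def indCo {K : ObjL C.toLat} (E : Obj C) (f : (Fin n → ℂ) → Matrix K.ι E.ι ℂ)
    (z : Fin n → ℂ) : Matrix (C.G × K.ι) E.ι ℂ :=
  of fun x j => (f (C.act x.1⁻¹ z) * E.σ x.1⁻¹) x.2 j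

theorem indCo_mem {K : ObjL C.toLat} {E : Obj C} {f : (Fin n → ℂ) → Matrix K.ι E.ι ℂ}
    (hf : f ∈ HomL E.toObjL K) : indCo E f ∈ Hom E (ind K) := by
  refine ⟨⟨fun x j => ?_, fun l z => ?_⟩, fun s z => ?_⟩
  · simp only [indCo, of_apply, Matrix.mul_apply]
    exact Differentiable.fun_sum fun a _ =>
      ((hf.1 x.2 a).comp (C.differentiable_act x.1⁻¹)).mul_const _
  · ext ⟨a, i⟩ j
    have e := hf.2 (C.actL a⁻¹ l) (C.act a⁻¹ z)
    rw [ind_fac, blk_mul _ fun g => K.fac (C.actL g⁻¹ l) (C.act g⁻¹ z)]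
    change (f (C.act a⁻¹ (z + l)) * E.σ a⁻¹ * E.fac l z) i j =
      (K.fac (C.actL a⁻¹ l) (C.act a⁻¹ z) * (f (C.act a⁻¹ z) * E.σ a⁻¹)) i j
    rw [map_add, ← coe_actL, Matrix.mul_assoc, E.σ_fac, ← Matrix.mul_assoc, e, Matrix.mul_assoc]
  · ext ⟨a, i⟩ j
    rw [sig_mul]
    change (f (C.act a⁻¹ (C.act s z)) * E.σ a⁻¹ * E.σ s) i j =
      (f (C.act (s⁻¹ * a)⁻¹ z) * E.σ (s⁻¹ * a)⁻¹) i j
    rw [← act_mul, _root_.mul_inv_rev, inv_inv, E.σ_mul, Matrix.mul_assoc]

/-- Frobenius reciprocity: morphisms into the induced object. -/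
noncomputable def frob' (K : ObjL C.toLat) (E : Obj C) : (E ⟶ ind K) ≃ₗ[ℂ] HomL E.toObjL K where
  toFun u := ⟨fun z => (indInc K)ᵀ * val u z, HomL.mul_mem u.2.1 (indIncT_mem K)⟩
  map_add' u v := Subtype.ext (funext fun z => Matrix.mul_add _ (val u z) (val v z))
  map_smul' c u := Subtype.ext (funext fun z => Matrix.mul_smul _ c (val u z))
  invFun f := ⟨indCo E f.1, indCo_mem f.2⟩
  left_inv u := hom_ext fun z => by
    ext ⟨a, i⟩ j
    have e := congrFun (congrFun (val_act u a⁻¹ z) (1, i)) j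
    rw [sig_mul, mul_one, inv_inv] at e
    rw [← e]
    change ((indInc K)ᵀ * val u (C.act a⁻¹ z) * E.σ a⁻¹) i j = _
    rw [Matrix.mul_assoc, indIncT_mul]
  right_inv f := Subtype.ext (funext fun z => by
    ext i j
    change ((indInc K)ᵀ * indCo E f.1 z) i j = _
    rw [indIncT_mul, indCo, of_apply, inv_one, act_one, E.σ_one, Matrix.mul_one])

theorem frob'_apply (K : ObjL C.toLat) (E : Obj C) (u : E ⟶ ind K) (z : Fin n → ℂ) (k : K.ι)
    (i : E.ι) : (frob' K E u).1 z k i = val u z (1, k) i := indIncT_mul _ _ _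

theorem frob'_comp (K : ObjL C.toLat) {E F : Obj C} (u : E ⟶ F) (v : F ⟶ ind K) (z : Fin n → ℂ) :
    (frob' K E (u ≫ v)).1 z = (frob' K F v).1 z * val u z := (Matrix.mul_assoc _ _ _).symm

theorem frob'_symm_apply (K : ObjL C.toLat) (E : Obj C) (f : HomL E.toObjL K) (z : Fin n → ℂ)
    (g : C.G) (k : K.ι) (i : E.ι) :
    val ((frob' K E).symm f) z (g, k) i = (f.1 (C.act g⁻¹ z) * E.σ g⁻¹) k i := rfl

end Pool.Agent.Lib.MP_d3d358_ag.Th
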