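import Pool.Agent.Lib.MP_d3d358_ag.Th.Eta

/-! Characters of a lattice, common eigenvectors and the regular projective representation of
rational type. -/

set_option autoImplicit false

namespace Pool.Agent.Lib.MP_d3d358_ag.Th

open Matrix Complex

variable {n : ℕ} {Λ : Lat n}

/-- Commuting endomorphisms have a common eigenvector. -/
theorem exists_common_eigen' {W : Type*} [AddCommGroup W] [Module ℂ W] [FiniteDimensional ℂ W]
    [Nontrivial W] {J : Type*} (f : J → Module.End ℂ W) (h : ∀ i j, f i * f j = f j * f i) :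
    ∃ (w : W) (χ : J → ℂ), w ≠ 0 ∧ ∀ j, f j w = χ j • w := by
  obtain ⟨U, ⟨hU0, hU⟩, hmin⟩ := (wellFounded_lt (α := Submodule ℂ W)).has_min
    {U | U ≠ ⊥ ∧ ∀ j, ∀ x ∈ U, f j x ∈ U} ⟨⊤, top_ne_bot, fun _ _ _ => trivial⟩
  have key : ∀ j, ∃ c : ℂ, ∀ x ∈ U, f j x = c • x := fun j => by
    have : Nontrivial U := Submodule.nontrivial_iff_ne_bot.2 hU0
    obtain ⟨c, hc⟩ := Module.End.exists_eigenvalue ((f j).restrict (hU j))
    obtain ⟨x, hx⟩ := hc.exists_hasEigenvector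
    have hx1 : f j x = c • (x : W) := congrArg Subtype.val hx.apply_eq_smul
    have hle : U ⊓ (f j).eigenspace c ≤ U := inf_le_left
    have heq : U ⊓ (f j).eigenspace c = U := by
      by_contra hne
      refine hmin (U ⊓ (f j).eigenspace c) ⟨?_, fun i y hy => ⟨hU i y hy.1, ?_⟩⟩
        (lt_of_le_of_ne hle hne)
      · rw [Submodule.ne_bot_iff]
        exact ⟨x, ⟨x.2, Module.End.mem_eigenspace_iff.2 hx1⟩, fun e => hx.2 (Subtype.ext e)⟩
      · have h2 := Module.End.mem_eigenspace_iff.1 hy.2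
        refine Module.End.mem_eigenspace_iff.2 ?_
        rw [← Module.End.mul_apply, h j i, Module.End.mul_apply, h2, map_smul]
    exact ⟨c, fun y hy => Module.End.mem_eigenspace_iff.1 (heq.ge hy).2⟩
  choose χ hχ using key
  obtain ⟨w, hw, hw0⟩ := (Submodule.ne_bot_iff U).1 hU0
  exact ⟨w, χ, hw0, fun j => hχ j w hw⟩

theorem exists_common_eigen {W J : Type} [AddCommGroup W] [Module ℂ W] [FiniteDimensional ℂ W]
    [Nontrivial W] (R : J → W →ₗ[ℂ] W) (h : ∀ a b, R a ∘ₗ R b = R b ∘ₗ R a) :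
    ∃ f : W, f ≠ 0 ∧ ∀ a, ∃ c : ℂ, R a f = c • f := by
  obtain ⟨w, χ, h0, hw⟩ := exists_common_eigen' R h
  exact ⟨w, h0, fun a => ⟨χ a, hw a⟩⟩

/-- Commuting matrices have a common eigenvector. -/
theorem exists_common_eigen_mat {ι : Type} [Fintype ι] [DecidableEq ι] [Nonempty ι] {J : Type*}
    (M : J → Matrix ι ι ℂ) (h : ∀ i j, M i * M j = M j * M i) :
    ∃ (w : ι → ℂ) (χ : J → ℂ), w ≠ 0 ∧ ∀ j, M j *ᵥ w = χ j • w :=
  exists_common_eigen' (fun j => (M j).mulVecLin) fun i j => by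
    rw [Module.End.mul_eq_comp, Module.End.mul_eq_comp, ← mulVecLin_mul, ← mulVecLin_mul, h]

open scoped ComplexOrder in
/-- An eigenvalue of a unitary matrix has modulus one. -/
theorem norm_eigen {ι : Type} [Fintype ι] [DecidableEq ι] {M : Matrix ι ι ℂ} (h : Mᴴ * M = 1)
    {w : ι → ℂ} (hw : w ≠ 0) {c : ℂ} (e : M *ᵥ w = c • w) : ‖c‖ = 1 := by
  have h1 : star (M *ᵥ w) ⬝ᵥ (M *ᵥ w) = star w ⬝ᵥ w := by
    rw [star_mulVec, dotProduct_mulVec, vecMul_vecMul, h, vecMul_one]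
  have h0 : star w ⬝ᵥ w ≠ 0 := fun e => hw (dotProduct_star_self_eq_zero.1 e)
  rw [e, star_smul, smul_dotProduct, dotProduct_smul, smul_smul, smul_eq_mul] at h1
  have h2 := congrArg norm ((mul_eq_right₀ h0).1 h1)
  rw [norm_mul, norm_star, norm_one] at h2
  nlinarith [norm_nonneg c]

/-- Every real linear form is a pairing with a vector. -/
theorem exists_alt_eq (φ : (Fin n → ℂ) →ₗ[ℝ] ℝ) : ∃ v, ∀ w, alt v w = φ w := by
  refine ⟨fun j => -(φ (Pi.single j I) : ℂ) + φ (Pi.single j 1) * I, fun w => ?_⟩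
  have hw : w = ∑ j, ((w j).re • (Pi.single j 1 : Fin n → ℂ) + (w j).im • (Pi.single j I : Fin n → ℂ)) := by
    funext k
    simp [Finset.sum_apply, Pi.single_apply, Finset.sum_add_distrib]
  conv_rhs => rw [hw]
  simp only [map_sum, map_add, map_smul, alt, eta, Complex.im_sum, smul_eq_mul]
  refine Finset.sum_congr rfl fun j _ => ?_
  simp; ring

/-- Every unitary character of the lattice is the exponential of a pairing. -/
theorem exists_char_one (Λ : Lat n) (χ : Λ.L → ℂ) (h1 : ∀ l, ‖χ l‖ = 1)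
    (h2 : ∀ l l', χ (l + l') = χ l * χ l') :
    ∃ v, ∀ l : Λ.L, χ l = exp (2 * Real.pi * I * (alt v (l : Fin n → ℂ) : ℝ)) := by
  have hb : ∀ i, Λ.bas i ∈ Λ.L := fun i => Submodule.subset_span ⟨i, rfl⟩
  obtain ⟨v, hv⟩ := exists_alt_eq
    (Λ.bas.constr ℝ fun i => (χ ⟨Λ.bas i, hb i⟩).arg / (2 * Real.pi))
  have hne : ∀ l, χ l ≠ 0 := fun l e => by simpa [e] using h1 l
  have h0 : χ 0 = 1 := by
    have := h2 0 0
    rw [add_zero] at this
    exact (mul_eq_left₀ (hne 0)).1 this.symm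
  refine ⟨v, fun ⟨l, hl⟩ => ?_⟩
  have hl' : l ∈ AddSubgroup.closure (Set.range Λ.bas) := by
    rw [← Submodule.span_int_eq_addSubgroupClosure]; exact hl
  have hm : ∀ x ∈ AddSubgroup.closure (Set.range Λ.bas), x ∈ Λ.L := fun x hx => by
    rw [← Submodule.span_int_eq_addSubgroupClosure] at hx; exact hx
  suffices H : ∀ x (hx : x ∈ AddSubgroup.closure (Set.range Λ.bas)),
      χ ⟨x, hm x hx⟩ = exp (2 * Real.pi * I * (alt v x : ℝ)) from H l hl'
  intro x hx
  induction hx using AddSubgroup.closure_induction with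
  | mem x hx =>
    obtain ⟨i, rfl⟩ := hx
    rw [hv, Module.Basis.constr_basis]
    have := Complex.norm_mul_exp_arg_mul_I (χ ⟨Λ.bas i, hb i⟩)
    rw [h1, Complex.ofReal_one, one_mul] at this
    refine this.symm.trans ?_
    congr 1
    have : (Real.pi : ℂ) ≠ 0 := by exact_mod_cast Real.pi_ne_zero
    push_cast; field_simp
  | zero =>
    refine h0.trans ?_
    simp [alt]
  | add x y hx hy ix iy =>
    refine (h2 ⟨x, hm x hx⟩ ⟨y, hm y hy⟩).trans ?_
    rw [ix, iy, ← Complex.exp_add, alt_add_right]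
    congr 1; push_cast; ring
  | neg x hx ix =>
    have e := h2 ⟨-x, hm _ (neg_mem hx)⟩ ⟨x, hm x hx⟩
    have e0 : (⟨-x, hm _ (neg_mem hx)⟩ + ⟨x, hm x hx⟩ : Λ.L) = 0 := Subtype.ext (neg_add_cancel x)
    rw [e0, h0, ix] at e
    rw [eq_inv_of_mul_eq_one_left e.symm, ← Complex.exp_neg, alt, alt, eta_neg_right]
    congr 1; simp

/-- The same with a nonzero scale. -/
theorem exists_char (Λ : Lat n) (ψ : Λ.L → ℂ) (h1 : ∀ l, ‖ψ l‖ = 1)
    (h2 : ∀ l l', ψ (l + l') = ψ l * ψ l') {c : ℝ} (hc : c ≠ 0) :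
    ∃ v : Fin n → ℂ, ∀ l : Λ.L, ψ l = exp (2 * Real.pi * I * (c * alt v l : ℝ)) := by
  obtain ⟨v, hv⟩ := exists_char_one Λ ψ h1 h2
  exact ⟨c⁻¹ • v, fun l => by rw [hv, alt_rsmul_left, mul_inv_cancel_left₀ hc]⟩

instance Lat.finite_ModN (Λ : Lat n) (m : ℕ) [NeZero m] : Finite (ModN Λ.L m) :=
  have : Module.Free ℤ Λ.L := .of_basis (Λ.bas.restrictScalars ℤ)
  have : Module.Finite ℤ Λ.L := .of_basis (Λ.bas.restrictScalars ℤ)
  inferInstance

/-- The phase of the regular projective representation. -/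
noncomputable def regPh (Λ : Lat n) (t : ℝ) (m : ℕ) (l : Λ.L) (x : Multiplicative (ModN Λ.L m)) :
    ℂ := exp (Real.pi * I * (t * alt (l : Fin n → ℂ) (Quotient.out x.toAdd : Λ.L) : ℝ))

/-- The class of a lattice vector. -/
def regCl (Λ : Lat n) (m : ℕ) (l : Λ.L) : Multiplicative (ModN Λ.L m) :=
  Multiplicative.ofAdd (Submodule.Quotient.mk l)

theorem regCl_add (m : ℕ) (l l' : Λ.L) : regCl Λ m (l + l') = regCl Λ m l * regCl Λ m l' := rfl

theorem regCl_surj (m : ℕ) (x : Multiplicative (ModN Λ.L m)) : ∃ l, x = regCl Λ m l := by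
  obtain ⟨l, hl⟩ := Submodule.Quotient.mk_surjective _ x.toAdd
  exact ⟨l, by rw [regCl, hl]; rfl⟩

theorem regPh_cl {t : ℝ} {m : ℕ}
    (h : ∀ l l' : Λ.L, exp (Real.pi * I * (t * m * alt (l : Fin n → ℂ) l' : ℝ)) = 1)
    (l y : Λ.L) :
    regPh Λ t m l (regCl Λ m y) = exp (Real.pi * I * (t * alt (l : Fin n → ℂ) y : ℝ)) := by
  have e : (Submodule.Quotient.mk (Quotient.out (regCl Λ m y).toAdd : Λ.L) : ModN Λ.L m) =
      Submodule.Quotient.mk y := Quotient.out_eq _
  obtain ⟨u, hu⟩ := (Submodule.Quotient.eq _).1 e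
  have e2 : ((Quotient.out (regCl Λ m y).toAdd : Λ.L) : Fin n → ℂ) =
      y + (m : ℝ) • (u : Fin n → ℂ) := by
    rw [← sub_eq_iff_eq_add', ← Submodule.coe_sub, ← hu]
    simp [Nat.cast_smul_eq_nsmul]
  rw [regPh, e2, alt_add_right, alt_rsmul_right, ← mul_one (exp (_ * (t * alt _ (y : Fin n → ℂ) : ℝ))),
    ← h l u, ← Complex.exp_add]
  congr 1; push_cast; ring

open Classical in
/-- The regular projective representation of type `t` on functions on the lattice modulo `m`. -/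
@[reducible] noncomputable def regL (Λ : Lat n) (t : ℝ) (m : ℕ) [NeZero m]
    (h : ∀ l l' : Λ.L, exp (Real.pi * I * (t * m * alt (l : Fin n → ℂ) l' : ℝ)) = 1) : ObjL Λ where
  ι := Multiplicative (ModN Λ.L m)
  fin := Fintype.ofFinite _
  t _ := t
  ρ l := @HMul.hMul _ _ _ (@Matrix.instHMulOfFintypeOfMulOfAddCommMonoid _ _ _ _
    (Fintype.ofFinite _) _ _) (regM (regCl Λ m l)) (diagonal (regPh Λ t m l))
  ρ_unit l := by
    let : Fintype (Multiplicative (ModN Λ.L m)) := Fintype.ofFinite _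
    rw [conjTranspose_mul, Matrix.mul_assoc, ← Matrix.mul_assoc (regM _)ᴴ, regM_unit,
      Matrix.one_mul, diagonal_conjTranspose, diagonal_mul_diagonal, ← diagonal_one]
    congr 1; funext x
    rw [Pi.star_apply, regPh, Complex.star_def, ← Complex.exp_conj, ← Complex.exp_add]
    simp
  ρ_blk _ _ _ _ := rfl
  ρ_mul l l' := by
    let : Fintype (Multiplicative (ModN Λ.L m)) := Fintype.ofFinite _
    ext a b
    obtain ⟨y, rfl⟩ := regCl_surj m b
    rw [← Matrix.mul_assoc, mul_diagonal, diagonal_mul, mul_diagonal, Matrix.mul_apply,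
      Finset.sum_eq_single (regCl Λ m (l' + y))]
    · rw [mul_diagonal, regPh_cl h, regPh_cl h, regPh_cl h]
      simp only [regM, of_apply, regCl_add, mul_assoc, if_true, one_mul]
      split_ifs
      · simp only [one_mul, ← Complex.exp_add, Submodule.coe_add, alt_add_left, alt_add_right]
        congr 1; push_cast; ring
      · simp
    · intro x _ hx
      simp [regM, ← regCl_add, hx]
    · simp

/-- There is a nonzero object of every rational type. -/
theorem exists_reg (C : Cr n) (t : ℚ) : ∃ ξ : ObjL C.toLat, Nonempty ξ.ι ∧ ∀ i, ξ.t i = t := by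
  have : NeZero (t.den * C.k) := ⟨(Nat.mul_pos t.den_pos C.k_pos).ne'⟩
  refine ⟨regL C.toLat t (t.den * C.k) fun l l' => ?_, ⟨1⟩, fun _ => rfl⟩
  rw [← exp_even C t.num l l']
  congr 4
  have : (t : ℝ) * t.den = t.num := by exact_mod_cast t.mul_den_eq_num
  push_cast
  rw [← mul_assoc, this]

end Pool.Agent.Lib.MP_d3d358_ag.Th
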