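import Pool.Agent.Lib.MP_d3d358_ag.Th.Poin
import Pool.Agent.Lib.MP_d3d358_ag.Th.Ops

/-! The values of the sections of a positive object span the fibre. -/

set_option autoImplicit false

namespace Pool.Agent.Lib.MP_d3d358_ag.Th

open Matrix Complex Filter Kronecker

variable {n : ℕ} {Λ : Lat n}

namespace Sp

/-- Uniqueness of the coefficient of the trivial character in a summable series of characters. -/
theorem uniq {ι W : Type} [Add W] [Nonempty W] (χ : ι → W → ℂ)
    (hadd : ∀ i w v, χ i (w + v) = χ i w * χ i v) (hn : ∀ i w, ‖χ i w‖ ≤ 1) (i₀ : ι)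
    (h0 : ∀ w, χ i₀ w = 1) (h1 : ∀ i, i ≠ i₀ → ∃ v, χ i v = -1) (c : ι → ℂ)
    (hs : Summable fun i => ‖c i‖) (h : ∀ w, HasSum (fun i => c i * χ i w) 0) : c i₀ = 0 := by
  classical
  have key : ∀ s : Finset ι, ∃ c' : ι → ℂ, c' i₀ = c i₀ ∧ (∀ i ∈ s, i ≠ i₀ → c' i = 0) ∧
      (∀ i, ‖c' i‖ ≤ ‖c i‖) ∧ ∀ w, HasSum (fun i => c' i * χ i w) 0 := fun s => by
    induction s using Finset.induction_on with
    | empty => exact ⟨c, rfl, by simp, fun _ => le_rfl, h⟩
    | insert a s _ ih =>
      obtain ⟨c', e, z, b, hc⟩ := ih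
      by_cases ha : a = i₀
      · exact ⟨c', e, fun i hi hne => z i ((Finset.mem_insert.1 hi).resolve_left (ha ▸ hne)) hne,
          b, hc⟩
      obtain ⟨v, hv⟩ := h1 a ha
      refine ⟨fun i => c' i * ((1 + χ i v) / 2), by simp [h0, e], fun i hi hne => ?_,
        fun i => ?_, fun w => ?_⟩
      · rcases Finset.mem_insert.1 hi with rfl | hi
        · simp [hv]
        · simp [z i hi hne]
      · have := norm_add_le 1 (χ i v)
        rw [norm_mul, norm_div]
        refine (mul_le_of_le_one_right (norm_nonneg _) ?_).trans (b i)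
        rw [norm_one] at this
        rw [Complex.norm_ofNat]
        linarith [hn i v]
      · have := ((hc w).add (hc (w + v))).div_const 2
        rw [add_zero, zero_div] at this
        refine this.congr_fun fun i => ?_
        rw [hadd]; ring
  obtain ⟨w⟩ := ‹Nonempty W›
  refine norm_le_zero_iff.1 (ge_of_tendsto (tendsto_tsum_compl_atTop_zero fun i => ‖c i‖) ?_)
  filter_upwards [eventually_ge_atTop {i₀}] with s hi
  obtain ⟨c', e, z, b, hc⟩ := key s
  have a := (hc w).summable.sum_add_tsum_compl (s := s)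
  rw [(hc w).tsum_eq, Finset.sum_eq_single_of_mem i₀ (hi (Finset.mem_singleton_self _))
    (fun i hi hne => by rw [z i hi hne, zero_mul]), h0, mul_one, e] at a
  rw [eq_neg_of_add_eq_zero_left a, norm_neg]
  exact tsum_of_norm_bounded (hs.subtype _).hasSum fun i => by
    rw [norm_mul]
    exact (mul_le_of_le_one_right (norm_nonneg _) (hn _ _)).trans (b _)

theorem exists_neg_one {τ : ℝ} (hτ : τ ≠ 0) {l : Fin n → ℂ} (hl : l ≠ 0) :
    ∃ v, exp (2 * Real.pi * I * (τ * alt l v : ℝ)) = -1 := by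
  have hq := nsq_pos hl
  refine ⟨(2 * τ * nsq l)⁻¹ • ((-I) • l), ?_⟩
  have : alt l ((-I) • l) = nsq l := by rw [alt, eta_smul_right, eta_self]; simp
  rw [alt_rsmul_right, this, ← Complex.exp_pi_mul_I]
  congr 1
  have : τ * ((2 * τ * nsq l)⁻¹ * nsq l) = 1 / 2 := by field_simp
  rw [this]; push_cast; ring

/-- Uniqueness of the constant term of a Fourier series over the lattice. -/
theorem uniq_lat {τ : ℝ} (hτ : τ ≠ 0) (c : Λ.L → ℂ) (hs : Summable fun l => ‖c l‖)
    (h : ∀ w, HasSum (fun l : Λ.L =>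
      c l * exp (2 * Real.pi * I * (τ * alt (l : Fin n → ℂ) w : ℝ))) 0) : c 0 = 0 :=
  uniq (fun (l : Λ.L) w => exp (2 * Real.pi * I * (τ * alt (l : Fin n → ℂ) w : ℝ)))
    (fun l w v => by rw [alt_add_right, ← Complex.exp_add]; congr 1; push_cast; ring)
    (fun l w => by rw [Complex.norm_exp]; simp) 0 (fun w => by simp [alt])
    (fun l hl => exists_neg_one hτ fun e => hl (Subtype.ext e)) c hs h

/-- The coherent state at `w` in the coordinate `j`. -/
noncomputable def coh (R : ObjL Λ) (w : Fin n → ℂ) (j : R.ι) (z : Fin n → ℂ) : R.ι → ℂ :=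
  Pi.single j (exp (Real.pi * R.t j * (eta z w - nsq w)))

theorem coh_diff (R : ObjL Λ) (w : Fin n → ℂ) (j i : R.ι) :
    Differentiable ℂ fun z => coh R w j z i := by
  by_cases e : i = j
  · subst e
    simp only [coh, Pi.single_eq_same]
    exact (((differentiable_eta w).sub_const _).const_mul _).cexp
  · simp only [coh, Pi.single_eq_of_ne e]
    exact differentiable_const _

theorem coh_dec (R : ObjL Λ) (w : Fin n → ℂ) (j : R.ι) :
    Dec R (Real.exp (-(Real.pi * R.t j * nsq w / 2))) (Real.pi * R.t j / 2) w (coh R w j) :=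
  fun z i => by
  by_cases e : i = j
  · subst e
    simp only [coh, Pi.single_eq_same, Complex.norm_exp]
    rw [← Real.exp_add, ← Real.exp_add, nsq_sub]
    refine le_of_eq ?_
    congr 1
    simp; ring
  · simp only [coh, Pi.single_eq_of_ne e, norm_zero]
    positivity

theorem inv_coh (R : ObjL Λ) (l : Λ.L) (w : Fin n → ℂ) (j i : R.ι) :
    (R.inv l w *ᵥ coh R w j (w + l)) i = star (R.ρ l j i) *
      Real.exp (-(Real.pi * R.t j / 2 * nsq (l : Fin n → ℂ))) *
      exp (2 * Real.pi * I * (R.t j * alt (l : Fin n → ℂ) w : ℝ)) := by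
  have e := eta_sub_eta (l : Fin n → ℂ) w
  rw [ObjL.inv_mulVec_apply, Finset.sum_eq_single j
    (fun i _ e => by simp [coh, Pi.single_eq_of_ne e]) (by simp)]
  simp only [coh, Pi.single_eq_same, aut, eta_add_left, eta_self]
  push_cast
  rw [← Complex.exp_neg, mul_assoc (star _), mul_assoc (star _), ← Complex.exp_add,
    ← Complex.exp_add]
  congr 2
  linear_combination (Real.pi * R.t j) * e

/-- The bundle of homomorphisms. -/
@[reducible] noncomputable def hom (E F : ObjL Λ) : ObjL Λ where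
  ι := F.ι × E.ι
  t p := F.t p.1 - E.t p.2
  ρ l := F.ρ l ⊗ₖ (E.ρ l)ᴴᵀ
  ρ_unit l := by
    have e : (E.ρ l)ᴴᵀᴴ = (E.ρ l)ᵀ := by ext; simp
    rw [conjTranspose_kronecker, ← mul_kronecker_mul, F.ρ_unit, e, ← transpose_mul, E.ρ_unit,
      transpose_one, one_kronecker_one]
  ρ_blk l p q h := by
    rw [kroneckerMap_apply, mul_ne_zero_iff] at h
    rw [F.ρ_blk l _ _ h.1, E.ρ_blk l p.2 q.2 (by simpa using h.2)]
  ρ_mul l l' := by
    rw [← mul_kronecker_mul, ← transpose_mul, ← conjTranspose_mul, F.ρ_mul, E.ρ_mul]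
    ext p q
    simp only [kroneckerMap_apply, diagonal_mul, transpose_apply, conjTranspose_apply, star_mul',
      RCLike.star_def, ← Complex.exp_conj, map_mul, Complex.conj_ofReal, Complex.conj_I]
    have : exp (Real.pi * I * ((F.t p.1 - E.t p.2) * alt (l : Fin n → ℂ) l' : ℝ)) =
        exp (Real.pi * I * (F.t p.1 * alt (l : Fin n → ℂ) l' : ℝ)) *
          exp (Real.pi * -I * (E.t p.2 * alt (l : Fin n → ℂ) l' : ℝ)) := by
      rw [← Complex.exp_add]; congr 1; push_cast; ring
    rw [this]; ring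

theorem hom_fac (E F : ObjL Λ) (l : Λ.L) (z : Fin n → ℂ) (u : Matrix F.ι E.ι ℂ)
    (p : F.ι × E.ι) : ((hom E F).fac l z *ᵥ fun q => u q.1 q.2) p =
      (F.fac l z * u * E.inv l z) p.1 p.2 := by
  have h : aut (F.t p.1 - E.t p.2) l z = aut (F.t p.1) l z * (aut (E.t p.2) l z)⁻¹ := by
    rw [eq_mul_inv_iff_mul_eq₀ (aut_ne _ _ _), ← aut_add, sub_add_cancel]
  rw [ObjL.inv, ← Matrix.mul_assoc, mul_diagonal, Matrix.mul_apply]
  simp only [Matrix.mul_apply (M := F.fac l z)]
  simp only [ObjL.fac, mulVec, dotProduct, diagonal_mul, kroneckerMap_apply, h,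
    transpose_apply, Fintype.sum_prod_type, Finset.sum_mul]
  rw [Finset.sum_comm]
  refine Finset.sum_congr rfl fun b _ => Finset.sum_congr rfl fun a _ => ?_
  ring

theorem hom_mem (E F : ObjL Λ) {s : (Fin n → ℂ) → F.ι × E.ι → ℂ} (hs : s ∈ Sec (hom E F)) :
    (fun z => of fun i j => s z (i, j)) ∈ HomL E F :=
  ⟨fun i j => hs.1 (i, j), fun l z => by
    have : (of fun i j => s (z + l) (i, j)) =
        F.fac l z * (of fun i j => s z (i, j)) * E.inv l z := by
      ext i j
      rw [of_apply, hs.2]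
      exact hom_fac E F l z (of fun i j => s z (i, j)) (i, j)
    beta_reduce
    rw [this, Matrix.mul_assoc, E.inv_fac, Matrix.mul_one]⟩

end Sp

/-- A row vector killed by all values of all sections of a positive object is zero. -/
theorem span_Sec (R : ObjL Λ) (h : ∀ i, 0 < R.t i) (x : R.ι → ℂ)
    (hx : ∀ s ∈ Sec R, ∀ z, x ⬝ᵥ s z = 0) : x = 0 := by
  funext j
  have hδ : 0 < Real.pi * R.t j / 2 := by have := h j; positivity
  have := Sp.uniq_lat (h j).ne' (fun l : Λ.L => (∑ i, x i * star (R.ρ l j i)) *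
    Real.exp (-(Real.pi * R.t j / 2 * nsq (l : Fin n → ℂ)))) ?_ fun w => ?_
  · simpa [R.ρ_zero, Matrix.one_apply] using this
  · refine Summable.of_nonneg_of_le (fun _ => norm_nonneg _) (fun l => ?_)
      ((Λ.summable_gauss hδ).mul_left (∑ i, ‖x i‖))
    rw [norm_mul, Complex.norm_real, Real.norm_of_nonneg (Real.exp_pos _).le]
    refine mul_le_mul_of_nonneg_right ((norm_sum_le _ _).trans (Finset.sum_le_sum fun i _ => ?_))
      (Real.exp_pos _).le
    rw [norm_mul, norm_star]
    exact mul_le_of_le_one_right (norm_nonneg _) (R.norm_ρ_le l j i)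
  · have a := hasSum_sum (s := Finset.univ) fun i _ =>
      (Pi.hasSum.1 (Poin_summable hδ (Sp.coh_dec R w j) w).hasSum i).mul_left (x i)
    have b : ∑ i, x i * (∑' l : Λ.L, R.inv l w *ᵥ Sp.coh R w j (w + l)) i = 0 :=
      hx _ (Poin_mem hδ (Sp.coh_dec R w j) (Sp.coh_diff R w j)) w
    rw [b] at a
    refine a.congr_fun fun l => ?_
    simp only [Sp.inv_coh, Finset.sum_mul, mul_assoc]

/-- A matrix orthogonal to all values of all morphisms is zero. -/
theorem HomL_span' (K E : ObjL Λ) (h : ∀ i j, K.t j < E.t i) (x : Matrix E.ι K.ι ℂ)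
    (hx : ∀ f ∈ HomL K E, ∀ z, ∑ i, ∑ j, x i j * f z i j = 0) : x = 0 := by
  have := span_Sec (Sp.hom K E) (fun p => sub_pos.2 (h p.1 p.2)) (fun p => x p.1 p.2)
    fun s hs z => (Fintype.sum_prod_type _).trans (hx _ (Sp.hom_mem K E hs) z)
  exact Matrix.ext fun i j => congrFun this (i, j)

theorem HomL_span (K E : ObjL Λ) [Nonempty K.ι] (h : ∀ i j, K.t j < E.t i) (c : E.ι → ℂ)
    (hc : ∀ f ∈ HomL K E, ∀ z, c ᵥ* f z = 0) : c = 0 := by
  have := HomL_span' K E h (of fun i _ => c i) fun f hf z => by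
    rw [Finset.sum_comm]
    exact Finset.sum_eq_zero fun j _ => congrFun (hc f hf z) j
  funext i
  exact congrFun (congrFun this i) (Classical.arbitrary _)

end Pool.Agent.Lib.MP_d3d358_ag.Th
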