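import Pool.Agent.Lib.MP_d3d358_ag.Th.Dim

/-! The dimension of the space of morphisms between two theta bundles. -/

set_option autoImplicit false

namespace Pool.Agent.Lib.MP_d3d358_ag.Th

open Matrix Complex Kronecker

variable {n : ℕ} {Λ : Lat n}

/-- The bundle of homomorphisms. -/
@[reducible] noncomputable def homObjL (E F : ObjL Λ) : ObjL Λ where
  ι := F.ι × E.ι
  t p := F.t p.1 - E.t p.2
  ρ l := F.ρ l ⊗ₖ (E.ρ l)ᴴᵀ
  ρ_unit l := by
    have e : (E.ρ l)ᴴᵀᴴ = (E.ρ l)ᵀ := by ext; simp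
    rw [conjTranspose_kronecker, ← mul_kronecker_mul, F.ρ_unit, e, ← transpose_mul, E.ρ_unit,
      transpose_one, one_kronecker_one]
  ρ_blk l p q h := by
    rw [kroneckerMap_apply, mul_ne_zero_iff] at h
    rw [F.ρ_blk l _ _ h.1, E.ρ_blk l p.2 q.2 (by simpa using h.2)]
  ρ_mul l l' := by
    rw [← mul_kronecker_mul, ← transpose_mul, ← conjTranspose_mul, F.ρ_mul, E.ρ_mul]
    ext p q
    simp only [kroneckerMap_apply, diagonal_mul, transpose_apply, conjTranspose_apply, star_mul',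
      RCLike.star_def, ← Complex.exp_conj, map_mul, Complex.conj_ofReal, Complex.conj_I]
    have : exp (Real.pi * I * ((F.t p.1 - E.t p.2) * alt (l : Fin n → ℂ) l' : ℝ)) =
        exp (Real.pi * I * (F.t p.1 * alt (l : Fin n → ℂ) l' : ℝ)) *
          exp (Real.pi * -I * (E.t p.2 * alt (l : Fin n → ℂ) l' : ℝ)) := by
      rw [← Complex.exp_add]; congr 1; push_cast; ring
    rw [this]; ring

theorem homObjL_fac (E F : ObjL Λ) (l : Λ.L) (z : Fin n → ℂ) (u : Matrix F.ι E.ι ℂ)
    (p : F.ι × E.ι) : ((homObjL E F).fac l z *ᵥ fun q => u q.1 q.2) p =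
      (F.fac l z * u * E.inv l z) p.1 p.2 := by
  have h : aut (F.t p.1 - E.t p.2) l z = aut (F.t p.1) l z * (aut (E.t p.2) l z)⁻¹ := by
    rw [eq_mul_inv_iff_mul_eq₀ (aut_ne _ _ _), ← aut_add, sub_add_cancel]
  rw [ObjL.inv, ← Matrix.mul_assoc, mul_diagonal, Matrix.mul_apply]
  simp only [Matrix.mul_apply (M := F.fac l z)]
  simp only [ObjL.fac, mulVec, dotProduct, diagonal_mul, kroneckerMap_apply, h,
    transpose_apply, Fintype.sum_prod_type, Finset.sum_mul]
  rw [Finset.sum_comm]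
  refine Finset.sum_congr rfl fun b _ => Finset.sum_congr rfl fun a _ => ?_
  ring

/-- Morphisms are the sections of the bundle of homomorphisms. -/
noncomputable def homSec (E F : ObjL Λ) : HomL E F ≃ₗ[ℂ] Sec (homObjL E F) where
  toFun u := ⟨fun z p => u.1 z p.1 p.2, fun p => u.2.1 p.1 p.2, fun l z => by
    funext p
    rw [homObjL_fac, ← u.2.2, Matrix.mul_assoc, E.fac_inv, Matrix.mul_one]⟩
  invFun s := ⟨fun z => of fun i j => s.1 z (i, j), fun i j => s.2.1 (i, j), fun l z => by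
    have : (of fun i j => s.1 (z + l) (i, j)) =
        F.fac l z * (of fun i j => s.1 z (i, j)) * E.inv l z := by
      ext i j
      rw [of_apply, s.2.2]
      exact homObjL_fac E F l z (of fun i j => s.1 z (i, j)) (i, j)
    beta_reduce
    rw [this, Matrix.mul_assoc, E.inv_fac, Matrix.mul_one]⟩
  map_add' _ _ := rfl
  map_smul' _ _ := rfl
  left_inv _ := rfl
  right_inv _ := rfl

theorem finrank_HomL (E F : ObjL Λ) (h : ∀ i j, E.t j < F.t i) :
    (Module.finrank ℂ (HomL E F) : ℝ) = Λ.vol * ∑ i, ∑ j, (F.t i - E.t j) ^ n := by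
  rw [(homSec E F).finrank_eq, finrank_Sec (homObjL E F) fun p => sub_pos.2 (h p.1 p.2),
    Fintype.sum_prod_type]

theorem homSec_apply (E F : ObjL Λ) (u : HomL E F) (z : Fin n → ℂ) (p : F.ι × E.ι) :
    (homSec E F u).1 z p = u.1 z p.1 p.2 := rfl

/-- The dimension formula type by type when the source has the single type `s`. -/
theorem sum_basis_HomL (E F : ObjL Λ) {s : ℝ} (hE : ∀ j, E.t j = s) (h : ∀ i, s < F.t i)
    {κ : Type} [Fintype κ] (b : Module.Basis κ ℂ (HomL E F)) (τ : κ → ℝ)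
    (hb : ∀ c z i j, (b c).1 z i j ≠ 0 → F.t i = τ c) (g : ℝ → ℝ) :
    ∑ c, g (τ c) = Λ.vol * Fintype.card E.ι * ∑ i, g (F.t i) * (F.t i - s) ^ n := by
  have h0 := sum_basis_Sec (homObjL E F) (fun p => sub_pos.2 (by rw [hE]; exact h p.1))
    (b.map (homSec E F)) (fun c => τ c - s)
    (fun c z p e => by rw [← hb c z p.1 p.2 e, ← hE p.2]) fun x => g (x + s)
  simp only [sub_add_cancel, Fintype.sum_prod_type, hE, Finset.sum_const, Finset.card_univ,
    nsmul_eq_mul, ← Finset.mul_sum] at h0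
  rw [h0, mul_assoc]

end Pool.Agent.Lib.MP_d3d358_ag.Th
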