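import Pool.Agent.Lib.MP_d3d358_ag.Th.Split
import Pool.Agent.Lib.MP_d3d358_ag.Hom.Defs
import Pool.Agent.Lib.MP_cd184e_ag.T.Yon

/-! The local properties of the functor to the geometry, for all theta bundles. -/

set_option autoImplicit false

namespace Pool.Agent.Lib.MP_d3d358_ag.Th

open CategoryTheory Limits Abelian Matrix

variable {n : ℕ} {C : Cr n}

theorem split (y : (Fin n → ℂ) → ℂ) (hy : y ∈ Inv C 1) (E : Obj C) :
    ∃ (s : ℕ) (d : ℤ) (N : ℕ) (u : Fin N → (E ⟶ twObj d (F0 C)))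
      (v : Fin N → (twObj d (F0 C) ⟶ twObj s E)), ∑ k, u k ≫ v k = ypw y hy s E := by
  obtain ⟨c, hc⟩ := exists_split E E
  obtain ⟨N, s, hs⟩ := hc c le_rfl
  obtain ⟨p, -, hp⟩ := hs 0 s.toNat (c + s.toNat) rfl
  obtain ⟨q, hq⟩ := hp (by omega) (mul E 0 s.toNat (y ^ s.toNat) (Inv.pow_mem hy _) (zero_add _))
  refine ⟨s.toNat, _, N, fun k => (tw0 E).hom ≫ q k, p, ?_⟩
  rw [ypw, ← hq, Preadditive.comp_sum]
  simp only [Category.assoc]

section Y

variable (y : (Fin n → ℂ) → ℂ) (hy : y ∈ Inv C 1)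

theorem ypw_zero (E : Obj C) : ypw y hy 0 E = (tw0 E).hom := hom_ext fun z => by
  rw [val_ypw, pow_zero, one_smul]; rfl

theorem ypw_nat {E F : Obj C} (v : E ⟶ F) (s : ℕ) :
    v ≫ ypw y hy s F = ypw y hy s E ≫ (tw C s).map v := hom_ext fun z => by
  rw [val_comp, val_comp, val_ypw, val_ypw, val_tw]
  exact (Matrix.smul_mul _ _ _).trans ((congrArg _ ((Matrix.one_mul _).trans
    (Matrix.mul_one _).symm)).trans (Matrix.mul_smul _ _ _).symm)

theorem ypw_add (E : Obj C) (s t : ℕ) : ypw y hy (s + t) E = ypw y hy s E ≫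
    ypw y hy t (twObj s E) ≫ (twtw E s t (s + t : ℕ) (Nat.cast_add s t).symm).hom :=
  hom_ext fun z => by
    rw [val_comp, val_comp, val_ypw, val_ypw, val_ypw]
    change _ = (1 : Matrix E.ι E.ι ℂ) * (y z ^ t • (1 : Matrix E.ι E.ι ℂ)) *
      (y z ^ s • (1 : Matrix E.ι E.ι ℂ))
    simp [smul_smul, pow_add]

theorem ypw_succ (E : Obj C) (s : ℕ) : ypw y hy (s + 1) E = ypw y hy s E ≫
    natApp y hy (twObj s E) ≫ (twtw E s 1 (s + 1 : ℕ) (Nat.cast_add s 1).symm).hom :=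
  hom_ext fun z => by
    rw [val_comp, val_comp, val_ypw, val_ypw]
    change _ = (1 : Matrix E.ι E.ι ℂ) * (y z • (1 : Matrix E.ι E.ι ℂ)) *
      (y z ^ s • (1 : Matrix E.ι E.ι ℂ))
    simp [smul_smul, pow_add]

theorem ypw_tw (E : Obj C) (b : ℤ) (s : ℕ) : ypw y hy s (twObj b E) =
    mul E b (b + s) (y ^ s) (Inv.pow_mem hy s) rfl ≫ (twtw E b s (b + s) rfl).inv :=
  hom_ext fun z => by
    rw [val_comp, val_ypw, val_mul]
    exact (Matrix.one_mul (y z ^ s • (1 : Matrix E.ι E.ι ℂ))).symm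

end Y

variable {A : Type 1} [Category.{0} A] [Abelian A] [Linear ℂ A] [HasExt.{1} A]
  [HasDerivedCategory.{1} A] (B : BKR C A)

/-- The degree zero class of the image of a morphism. -/
noncomputable abbrev BKR.cl {E F : Obj C} (u : E ⟶ F) : Ext (B.α.obj E) (B.α.obj F) 0 :=
  Ext.mk₀ (B.α.map u)

theorem BKR.cl_comp {D E F : Obj C} (u : D ⟶ E) (v : E ⟶ F) :
    B.cl (u ≫ v) = (B.cl u).comp (B.cl v) (add_zero _) := by
  rw [Ext.mk₀_comp_mk₀, ← Functor.map_comp]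

theorem BKR.post_post {M : A} {D E F : Obj C} {m : ℕ} (x : Ext M (B.α.obj D) m) (u : D ⟶ E)
    (v : E ⟶ F) : (x.comp (B.cl u) (add_zero _)).comp (B.cl v) (add_zero _) =
      x.comp (B.cl (u ≫ v)) (add_zero _) := by
  rw [B.cl_comp, Ext.comp_assoc_of_third_deg_zero]

theorem BKR.pre_pre {M : A} {D E F : Obj C} {m : ℕ} (x : Ext (B.α.obj F) M m) (u : D ⟶ E)
    (v : E ⟶ F) : (B.cl u).comp ((B.cl v).comp x (zero_add _)) (zero_add _) =
      (B.cl (u ≫ v)).comp x (zero_add _) := by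
  rw [B.cl_comp, Ext.comp_assoc_of_second_deg_zero]

theorem BKR.move_one (i : Fin B.r) {F E : Obj C} {m : ℕ} (x : Ext (B.α.obj F) (B.α.obj E) m) :
    ∃ x' : Ext (B.α.obj (twObj 1 F)) (B.α.obj (twObj 1 E)) m,
      x.comp (B.cl (natApp (B.y i) (B.y_mem i) E)) (add_zero _) =
        (B.cl (natApp (B.y i) (B.y_mem i) F)).comp x' (zero_add _) := by
  let f : ∀ D : Obj C, B.α.obj (twObj 1 D) ≅ B.Tw.obj (B.α.obj D) := fun D => B.e.app D
  let μ : ∀ M : A, M ⟶ B.Tw.obj M := fun M => (B.μ i).app M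
  have h : ∀ D, B.α.map (natApp (B.y i) (B.y_mem i) D) ≫ (f D).hom = μ (B.α.obj D) :=
    fun D => B.μ_α i D
  have h1 : x.comp (Ext.mk₀ (μ (B.α.obj E))) (add_zero _) = (Ext.mk₀ (μ (B.α.obj F))).comp
      (x.mapExactFunctor B.Tw) (zero_add _) := MP_cd184e_ag.T.ext_nat_id B.Tw (B.μ i) x
  refine ⟨(Ext.mk₀ (f F).hom).comp ((x.mapExactFunctor B.Tw).comp (Ext.mk₀ (f E).inv)
    (add_zero _)) (zero_add _), ?_⟩
  rw [Ext.mk₀_comp_mk₀_assoc, h, ← Ext.comp_assoc_of_third_deg_zero, ← h1,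
    Ext.comp_assoc_of_third_deg_zero, Ext.mk₀_comp_mk₀, ← h, Category.assoc, Iso.hom_inv_id,
    Category.comp_id]

/-- Powers of a section move across a class. -/
theorem BKR.move (i : Fin B.r) {F E : Obj C} {m : ℕ} (x : Ext (B.α.obj F) (B.α.obj E) m) (s : ℕ) :
    ∃ x' : Ext (B.α.obj (twObj s F)) (B.α.obj (twObj s E)) m,
      x.comp (B.cl (ypw (B.y i) (B.y_mem i) s E)) (add_zero _) =
        (B.cl (ypw (B.y i) (B.y_mem i) s F)).comp x' (zero_add _) := by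
  induction s with
  | zero =>
    refine ⟨(B.cl (tw0 F).inv).comp (x.comp (B.cl (tw0 E).hom) (add_zero _)) (zero_add _), ?_⟩
    rw [B.pre_pre, ypw_zero, ypw_zero]
    erw [Iso.hom_inv_id]
    rw [BKR.cl, BKR.cl, CategoryTheory.Functor.map_id, Ext.mk₀_id_comp]
  | succ s ih =>
    obtain ⟨x', h'⟩ := ih
    obtain ⟨x'', h''⟩ := B.move_one i x'
    refine ⟨(B.cl (twtw F s 1 (s + 1 : ℕ) (Nat.cast_add s 1).symm).inv).comp (x''.comp
      (B.cl (twtw E s 1 (s + 1 : ℕ) (Nat.cast_add s 1).symm).hom) (add_zero _)) (zero_add _), ?_⟩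
    rw [B.pre_pre, ypw_succ, ypw_succ, Category.assoc, Category.assoc, Iso.hom_inv_id,
      Category.comp_id, ← B.post_post, ← B.post_post, h', ← B.pre_pre,
      Ext.comp_assoc_of_third_deg_zero, Ext.comp_assoc_of_third_deg_zero,
      ← Ext.comp_assoc_of_third_deg_zero x', h'', Ext.comp_assoc_of_third_deg_zero]

theorem BKR.cl_sum {ι : Type} [Fintype ι] {E F : Obj C} (u : ι → (E ⟶ F)) :
    B.cl (∑ k, u k) = ∑ k, B.cl (u k) := by
  rw [BKR.cl, Functor.map_sum, Ext.mk₀_sum]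

/-- A property of classes that holds locally between twists of the regular object holds locally
between all objects. -/
theorem BKR.loc_gen (i : Fin B.r) (m : ℕ)
    (S : ∀ F E : Obj C, AddSubgroup (Ext (B.α.obj F) (B.α.obj E) m))
    (hpost : ∀ {F E E' : Obj C} (v : E ⟶ E'), ∀ x ∈ S F E, x.comp (B.cl v) (add_zero _) ∈ S F E')
    (hpre : ∀ {F' F E : Obj C} (u : F' ⟶ F), ∀ x ∈ S F E, (B.cl u).comp x (zero_add _) ∈ S F' E)
    (h0 : ∀ (a b : ℤ) (x : Ext (B.α.obj (twObj a (F0 C))) (B.α.obj (twObj b (F0 C))) m), ∃ s : ℕ,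
      x.comp (B.cl (ypw (B.y i) (B.y_mem i) s _)) (add_zero _) ∈ S _ _)
    (F E : Obj C) (x : Ext (B.α.obj F) (B.α.obj E) m) :
    ∃ s : ℕ, x.comp (B.cl (ypw (B.y i) (B.y_mem i) s E)) (add_zero _) ∈ S F (twObj s E) := by
  let G : ∀ {F E : Obj C}, Ext (B.α.obj F) (B.α.obj E) m → ℕ → Prop := fun {F E} x s =>
    x.comp (B.cl (ypw (B.y i) (B.y_mem i) s E)) (add_zero _) ∈ S F (twObj s E)
  have mono : ∀ {F E : Obj C} (x : Ext (B.α.obj F) (B.α.obj E) m) (s t : ℕ), s ≤ t → G x s →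
      G x t := fun {F E} x s t hst h => by
    obtain ⟨t, rfl⟩ := Nat.exists_eq_add_of_le hst
    have := hpost (ypw (B.y i) (B.y_mem i) t (twObj s E) ≫
      (twtw E s t (s + t : ℕ) (Nat.cast_add s t).symm).hom) _ h
    rwa [B.post_post, ← ypw_add] at this
  have sum : ∀ {F E : Obj C} {N : ℕ} (x : Fin N → Ext (B.α.obj F) (B.α.obj E) m),
      (∀ k, ∃ s, G (x k) s) → ∃ s, G (∑ k, x k) s := fun {F E N} x h => by
    choose s hs using h
    refine ⟨Finset.univ.sup s, ?_⟩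
    change Ext.comp _ _ _ ∈ _
    rw [Ext.sum_comp]
    exact sum_mem fun k _ => mono _ _ _ (Finset.le_sup (Finset.mem_univ k)) (hs k)
  have post : ∀ {F E E' : Obj C} (x : Ext (B.α.obj F) (B.α.obj E) m) (v : E ⟶ E') (s : ℕ),
      G x s → G (x.comp (B.cl v) (add_zero _)) s := fun {F E E'} x v s h => by
    have := hpost ((tw C s).map v) _ h
    rw [B.post_post, ← ypw_nat, ← B.post_post] at this
    exact this
  have pre : ∀ {F' F E : Obj C} (x : Ext (B.α.obj F) (B.α.obj E) m) (u : F' ⟶ F) (s : ℕ),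
      G x s → G ((B.cl u).comp x (zero_add _)) s := fun {F' F E} x u s h => by
    have := hpre u _ h
    rw [← Ext.comp_assoc_of_third_deg_zero] at this
    exact this
  have back : ∀ {F E : Obj C} (x : Ext (B.α.obj F) (B.α.obj E) m) (s t : ℕ),
      G (x.comp (B.cl (ypw (B.y i) (B.y_mem i) s E)) (add_zero _)) t → G x (s + t) :=
    fun {F E} x s t h => by
      have := hpost (twtw E s t (s + t : ℕ) (Nat.cast_add s t).symm).hom _ h
      rwa [B.post_post, B.post_post, ← ypw_add] at this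
  have step : ∀ (a : ℤ) (E : Obj C) (x : Ext (B.α.obj (twObj a (F0 C))) (B.α.obj E) m),
      ∃ s, G x s := fun a E x => by
    obtain ⟨s, d, N, u, v, h⟩ := split (B.y i) (B.y_mem i) E
    obtain ⟨t, ht⟩ := sum (fun k => (x.comp (B.cl (u k)) (add_zero _)).comp (B.cl (v k))
      (add_zero _)) fun k => (h0 a d _).imp fun s hs => post _ _ s hs
    refine ⟨s + t, back x s t ?_⟩
    rw [← h, B.cl_sum, Ext.comp_sum]
    simpa only [B.post_post] using ht
  obtain ⟨s, d, N, u, v, h⟩ := split (B.y i) (B.y_mem i) F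
  obtain ⟨x', hx'⟩ := B.move i x s
  obtain ⟨t, ht⟩ := sum (fun k => (B.cl (u k)).comp ((B.cl (v k)).comp x' (zero_add _))
    (zero_add _)) fun k => (step d _ _).imp fun s hs => pre _ _ s hs
  refine ⟨s + t, back x s t ?_⟩
  rw [hx', ← h, B.cl_sum, Ext.sum_comp]
  simpa only [B.pre_pre] using ht

theorem BKR.loc_hom (i : Fin B.r) (F E : Obj C) (φ : B.α.obj F ⟶ B.α.obj E) :
    ∃ (s : ℕ) (w : F ⟶ twObj s E), B.α.map w = φ ≫ B.α.map (ypw (B.y i) (B.y_mem i) s E) := by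
  let S : ∀ F E : Obj C, AddSubgroup (Ext (B.α.obj F) (B.α.obj E) 0) := fun F E =>
    (Ext.addEquiv₀.symm.toAddMonoidHom.comp B.α.mapAddHom).range
  have hS : ∀ {F E : Obj C} (x : Ext (B.α.obj F) (B.α.obj E) 0), x ∈ S F E ↔ ∃ w, B.cl w = x :=
    fun x => Iff.rfl
  obtain ⟨s, hs⟩ := B.loc_gen i 0 S (fun v x hx => by
      obtain ⟨w, rfl⟩ := (hS x).1 hx
      exact (hS _).2 ⟨_, B.cl_comp w v⟩) (fun u x hx => by
      obtain ⟨w, rfl⟩ := (hS x).1 hx
      exact (hS _).2 ⟨_, B.cl_comp u w⟩) (fun a b x => by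
      obtain ⟨g, rfl⟩ := (Ext.mk₀_bijective _ _).2 x
      obtain ⟨w, rfl⟩ := B.B1 a b g
      exact ⟨0, (hS _).2 ⟨_, B.cl_comp w _⟩⟩) F E (Ext.mk₀ φ)
  obtain ⟨w, hw⟩ := (hS _).1 hs
  rw [Ext.mk₀_comp_mk₀] at hw
  exact ⟨s, w, (Ext.mk₀_bijective _ _).1 hw⟩

theorem BKR.loc_ext (i : Fin B.r) (F E : Obj C) (j : ℕ) (x : Ext (B.α.obj F) (B.α.obj E) (j + 1)) :
    ∃ s : ℕ, x.comp (Ext.mk₀ (B.α.map (ypw (B.y i) (B.y_mem i) s E))) (add_zero _) = 0 :=
  B.loc_gen i (j + 1) (fun _ _ => ⊥) (fun v x hx => by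
      rw [AddSubgroup.mem_bot] at hx ⊢
      rw [hx, Ext.zero_comp]) (fun u x hx => by
      rw [AddSubgroup.mem_bot] at hx ⊢
      rw [hx, Ext.comp_zero]) (fun a b x => by
      obtain ⟨s, hs⟩ := B.B2 a b i j x
      refine ⟨s, AddSubgroup.mem_bot.2 ?_⟩
      rw [ypw_tw, ← B.post_post, hs, Ext.zero_comp]) F E x

end Pool.Agent.Lib.MP_d3d358_ag.Th
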