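import Pool.Agent.Lib.MP_d3d358_ag.Th.LatSum

/-! Poincare series: convergence, automorphy, and surjectivity of the evaluation at a point. -/

set_option autoImplicit false

namespace Pool.Agent.Lib.MP_d3d358_ag.Th

open Matrix Complex MeasureTheory Filter

variable {n : ℕ} {Λ : Lat n}

/-- Gaussian decay around `w` relative to the types -/
def Dec (R : ObjL Λ) (M δ : ℝ) (w : Fin n → ℂ) (h : (Fin n → ℂ) → R.ι → ℂ) : Prop :=
  ∀ z i, ‖h z i‖ ≤ M * Real.exp (Real.pi * R.t i * nsq z / 2) * Real.exp (-(δ * nsq (z - w)))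

theorem Dec.nonneg {R : ObjL Λ} {M δ : ℝ} {w : Fin n → ℂ} {h : (Fin n → ℂ) → R.ι → ℂ}
    (hd : Dec R M δ w h) (i : R.ι) : 0 ≤ M := by
  have h1 := (norm_nonneg _).trans (hd 0 i)
  exact nonneg_of_mul_nonneg_left (nonneg_of_mul_nonneg_left h1 (Real.exp_pos _)) (Real.exp_pos _)

theorem ObjL.norm_ρ_le (R : ObjL Λ) (l : Λ.L) (i j : R.ι) : ‖R.ρ l i j‖ ≤ 1 :=
  entry_norm_bound_of_unitary (Matrix.mem_unitaryGroup_iff'.2 (R.ρ_unit l)) i j

theorem ObjL.inv_mulVec_apply (R : ObjL Λ) (l : Λ.L) (z : Fin n → ℂ) (x : R.ι → ℂ) (i : R.ι) :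
    (R.inv l z *ᵥ x) i = ∑ j, star (R.ρ l j i) * (aut (R.t j) l z)⁻¹ * x j := by
  simp only [ObjL.inv, mulVec, dotProduct, mul_diagonal, conjTranspose_apply]

theorem norm_inv_mulVec {R : ObjL Λ} {M δ : ℝ} {w : Fin n → ℂ} {h : (Fin n → ℂ) → R.ι → ℂ}
    (hd : Dec R M δ w h) (l : Λ.L) (z : Fin n → ℂ) (i : R.ι) :
    ‖(R.inv l z *ᵥ h (z + l)) i‖ ≤ Fintype.card R.ι * M * Real.exp (Real.pi * R.t i * nsq z / 2) *
      Real.exp (-(δ * nsq (z + (l : Fin n → ℂ) - w))) := by
  have hM := hd.nonneg i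
  rw [ObjL.inv_mulVec_apply]
  refine (norm_sum_le _ _).trans ((Finset.sum_le_card_nsmul _ _
    (M * Real.exp (Real.pi * R.t i * nsq z / 2) *
      Real.exp (-(δ * nsq (z + (l : Fin n → ℂ) - w)))) fun j _ => ?_).trans_eq ?_)
  · by_cases e : R.ρ l j i = 0
    · rw [e, star_zero, zero_mul, zero_mul, norm_zero]; positivity
    · have ht := R.ρ_blk l j i e
      have h1 := hd (z + l) j
      rw [norm_mul, norm_mul, norm_star, norm_inv, norm_aut, ← Real.exp_neg, ht]
      rw [ht] at h1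
      calc _ ≤ 1 * Real.exp (-(Real.pi * R.t i * (nsq (z + (l : Fin n → ℂ)) - nsq z) / 2)) *
            (M * Real.exp (Real.pi * R.t i * nsq (z + (l : Fin n → ℂ)) / 2) *
              Real.exp (-(δ * nsq (z + (l : Fin n → ℂ) - w)))) := by
            gcongr
            exact R.norm_ρ_le l j i
        _ = M * (Real.exp (-(Real.pi * R.t i * (nsq (z + (l : Fin n → ℂ)) - nsq z) / 2)) *
              Real.exp (Real.pi * R.t i * nsq (z + (l : Fin n → ℂ)) / 2)) *
              Real.exp (-(δ * nsq (z + (l : Fin n → ℂ) - w))) := by ring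
        _ = _ := by rw [← Real.exp_add]; congr 3; ring
  · rw [Finset.card_univ, nsmul_eq_mul]; ring

theorem exp_shift_le {δ : ℝ} (hδ : 0 < δ) (z w l : Fin n → ℂ) :
    Real.exp (-(δ * nsq (z + l - w))) ≤
      Real.exp (δ * nsq (w - z)) * Real.exp (-(δ / 2 * nsq l)) := by
  rw [← Real.exp_add]
  have h := nsq_add_le (z + l - w) (w - z)
  rw [show z + l - w + (w - z) = l by abel] at h
  exact Real.exp_le_exp.2 (by nlinarith)

theorem Poin_summable_apply {R : ObjL Λ} {M δ : ℝ} (hδ : 0 < δ) {w : Fin n → ℂ}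
    {h : (Fin n → ℂ) → R.ι → ℂ} (hd : Dec R M δ w h) (z : Fin n → ℂ) (i : R.ι) :
    Summable fun l : Λ.L => ‖(R.inv l z *ᵥ h (z + l)) i‖ := by
  have hM := hd.nonneg i
  refine Summable.of_nonneg_of_le (fun _ => norm_nonneg _) (fun l => ?_)
    ((Λ.summable_gauss (half_pos hδ)).mul_left (Fintype.card R.ι * M *
      Real.exp (Real.pi * R.t i * nsq z / 2) * Real.exp (δ * nsq (w - z))))
  refine (norm_inv_mulVec hd l z i).trans ?_
  rw [mul_assoc _ (Real.exp (δ * nsq (w - z)))]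
  exact mul_le_mul_of_nonneg_left (exp_shift_le hδ z w l) (by positivity)

theorem Poin_summable {R : ObjL Λ} {M δ : ℝ} (hδ : 0 < δ) {w : Fin n → ℂ}
    {h : (Fin n → ℂ) → R.ι → ℂ} (hd : Dec R M δ w h) (z : Fin n → ℂ) :
    Summable fun l : Λ.L => R.inv l z *ᵥ h (z + l) :=
  Pi.summable.2 fun i => (Poin_summable_apply hδ hd z i).of_norm

theorem Poin_apply {R : ObjL Λ} {M δ : ℝ} (hδ : 0 < δ) {w : Fin n → ℂ}
    {h : (Fin n → ℂ) → R.ι → ℂ} (hd : Dec R M δ w h) (z : Fin n → ℂ) (i : R.ι) :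
    Poin R h z i = ∑' l : Λ.L, (R.inv l z *ᵥ h (z + l)) i :=
  tsum_apply (Poin_summable hδ hd z)

/-- A locally normally convergent series of entire functions of several variables is entire. -/
theorem differentiable_tsum_of_ball {α E : Type*} [NormedAddCommGroup E] [NormedSpace ℂ E]
    {f : α → E → ℂ} (hf : ∀ a, Differentiable ℂ (f a))
    (hb : ∀ r : ℝ, ∃ u : α → ℝ, Summable u ∧ ∀ a, ∀ z ∈ Metric.ball (0 : E) r, ‖f a z‖ ≤ u a) :
    Differentiable ℂ fun z => ∑' a, f a z := by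
  intro x
  obtain ⟨u, hu, hub⟩ := hb (‖x‖ + 2)
  have hx : x ∈ Metric.ball (0 : E) (‖x‖ + 1) := by simp
  have hsub : ∀ y ∈ Metric.ball (0 : E) (‖x‖ + 1), Metric.ball y 1 ⊆ Metric.ball 0 (‖x‖ + 2) :=
    fun y hy => Metric.ball_subset (by rw [Metric.mem_ball] at hy; linarith)
  refine (hasFDerivAt_tsum_of_isPreconnected (hu.mul_left 2) Metric.isOpen_ball
    (convex_ball (0 : E) (‖x‖ + 1)).isPreconnected (fun a y _ => (hf a y).hasFDerivAt)
    (fun a y hy => ?_) hx ?_ hx).differentiableAt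
  · refine (Complex.norm_fderiv_le_div_of_mapsTo_ball (R₂ := 2 * u a) (hf a).differentiableOn
      (fun v hv => ?_) one_pos).trans_eq (div_one _)
    rw [Metric.mem_closedBall, dist_eq_norm]
    have h1 := hub a v (hsub y hy hv)
    have h2 := hub a y (hsub y hy (Metric.mem_ball_self one_pos))
    linarith [norm_sub_le (f a v) (f a y)]
  · exact Summable.of_norm_bounded hu fun a => hub a x (hsub x hx (Metric.mem_ball_self one_pos))

theorem aut_cocycle (t : ℝ) (l l' z : Fin n → ℂ) :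
    aut t l (z + l') * aut t l' z * exp (Real.pi * I * (t * alt l l' : ℝ)) = aut t (l + l') z := by
  rw [aut, aut, aut, ← Complex.exp_add, ← Complex.exp_add, eta_add_left, eta_add_right,
    nsq_add_complex]
  congr 1
  have h := eta_sub_eta l l'
  push_cast
  linear_combination (-(Real.pi : ℂ) * t / 2) * h

/-- The cocycle relation of the factor of automorphy. -/
theorem ObjL.fac_add (R : ObjL Λ) (l l' : Λ.L) (z : Fin n → ℂ) :
    R.fac (l + l') z = R.fac l (z + l') * R.fac l' z := by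
  rw [ObjL.fac, ObjL.fac, ObjL.fac, Matrix.mul_assoc, ← Matrix.mul_assoc (R.ρ l),
    ← diag_comm (R.ρ_blk l) (fun s => aut s l' z), Matrix.mul_assoc, R.ρ_mul, ← Matrix.mul_assoc,
    ← Matrix.mul_assoc, diagonal_mul_diagonal, diagonal_mul_diagonal]
  congr 2
  funext i
  rw [aut_cocycle, Submodule.coe_add]

theorem ObjL.inv_shift (R : ObjL Λ) (l l' : Λ.L) (z : Fin n → ℂ) :
    R.inv l (z + l') = R.fac l' z * R.inv (l + l') z := by
  rw [← Matrix.mul_one (R.inv l (z + l')), ← R.fac_inv (l + l') z, R.fac_add, Matrix.mul_assoc,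
    ← Matrix.mul_assoc (R.inv l _), R.inv_fac, Matrix.one_mul]

theorem ObjL.inv_zero (R : ObjL Λ) (z : Fin n → ℂ) : R.inv 0 z = 1 := by
  simp [ObjL.inv, R.ρ_zero, aut]

theorem Poin_mem {R : ObjL Λ} {M δ : ℝ} (hδ : 0 < δ) {w : Fin n → ℂ} {h : (Fin n → ℂ) → R.ι → ℂ}
    (hd : Dec R M δ w h) (hh : ∀ i, Differentiable ℂ fun z => h z i) : Poin R h ∈ Sec R := by
  refine ⟨fun i => ?_, fun l' z => ?_⟩
  · have hM := hd.nonneg i
    simp only [Poin_apply hδ hd]
    refine differentiable_tsum_of_ball (fun l => ?_) fun r => ?_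
    · simp only [ObjL.inv_mulVec_apply]
      exact Differentiable.fun_sum fun j _ => (((differentiable_aut _ _).inv
        fun _ => aut_ne _ _ _).const_mul _).mul ((hh j).comp (differentiable_id.add_const _))
    · obtain ⟨K, hK⟩ := (isCompact_closedBall (0 : Fin n → ℂ) r).exists_bound_of_continuousOn
        (f := fun z => Real.exp (Real.pi * R.t i * nsq z / 2) * Real.exp (δ * nsq (w - z)))
        (Continuous.continuousOn (by fun_prop))
      refine ⟨_, (Λ.summable_gauss (half_pos hδ)).mul_left (Fintype.card R.ι * M * K),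
        fun l z hz => (norm_inv_mulVec hd l z i).trans ?_⟩
      have h1 := (le_abs_self _).trans (hK z (Metric.ball_subset_closedBall hz))
      calc _ ≤ Fintype.card R.ι * M * Real.exp (Real.pi * R.t i * nsq z / 2) *
            (Real.exp (δ * nsq (w - z)) * Real.exp (-(δ / 2 * nsq (l : Fin n → ℂ)))) :=
            mul_le_mul_of_nonneg_left (exp_shift_le hδ z w l) (by positivity)
        _ = Fintype.card R.ι * M * (Real.exp (Real.pi * R.t i * nsq z / 2) *
            Real.exp (δ * nsq (w - z))) * Real.exp (-(δ / 2 * nsq (l : Fin n → ℂ))) := by ring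
        _ ≤ _ := by gcongr
  · have h1 := ((Poin_summable hδ hd z).hasSum.map (R.fac l' z).mulVecLin
      (LinearMap.continuous_of_finiteDimensional _))
    have h2 := ((Equiv.addRight l').hasSum_iff.2 h1).tsum_eq
    refine Eq.trans (tsum_congr fun l => ?_) h2
    simp only [Function.comp, Equiv.coe_addRight, mulVecLin_apply, mulVec_mulVec, ← R.inv_shift]
    rw [Submodule.coe_add, add_assoc, add_comm (l' : Fin n → ℂ)]

/-- A subspace that approximates every vector up to half of its norm is everything. -/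
theorem eq_top_of_approx {E : Type*} [NormedAddCommGroup E] [NormedSpace ℂ E]
    [FiniteDimensional ℂ E] (U : Submodule ℂ E) (h : ∀ x, ∃ u ∈ U, ‖x - u‖ ≤ ‖x‖ / 2) : U = ⊤ := by
  by_contra hne
  obtain ⟨x, hx, hr⟩ := riesz_lemma (F := U) U.closed_of_finiteDimensional
    (by by_contra! hc; exact hne (Submodule.eq_top_iff'.2 hc)) (r := 3 / 4) (by norm_num)
  obtain ⟨u, hu, hxu⟩ := h x
  have h0 : 0 < ‖x‖ := norm_pos_iff.2 fun e => hx (e ▸ U.zero_mem)
  linarith [hr u hu]

/-- The terms of the Poincare series outside the origin, at the centre of the decay. -/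
theorem norm_Poin_sub {R : ObjL Λ} {M δ : ℝ} (hδ : 0 < δ) {w : Fin n → ℂ}
    {h : (Fin n → ℂ) → R.ι → ℂ} (hd : Dec R M δ w h) (i : R.ι) :
    ‖Poin R h w i - h w i‖ ≤ Fintype.card R.ι * M * Real.exp (Real.pi * R.t i * nsq w / 2) *
      ∑' l : {l : Λ.L // l ≠ 0}, Real.exp (-(δ * nsq (l.1 : Fin n → ℂ))) := by
  have hs := (Poin_summable_apply hδ hd w i).of_norm
  have h1 := Summable.tsum_add_tsum_compl (s := ({0} : Set Λ.L)) (hs.subtype _) (hs.subtype _)
  rw [tsum_singleton (0 : Λ.L) fun l : Λ.L => (R.inv l w *ᵥ h (w + l)) i, R.inv_zero, one_mulVec,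
    ZeroMemClass.coe_zero, add_zero] at h1
  rw [Poin_apply hδ hd, ← h1, add_sub_cancel_left, ← tsum_mul_left]
  refine tsum_of_norm_bounded (((Λ.summable_gauss hδ).subtype _).mul_left _).hasSum fun l => ?_
  have h2 := norm_inv_mulVec hd l.1 w i
  rwa [add_sub_cancel_left] at h2

/-- T6a: evaluation is onto for large types, uniformly in the point -/
theorem ev_surj (Λ : Lat n) (N : ℕ) : ∃ d₀ : ℝ, ∀ R : ObjL Λ, Fintype.card R.ι ≤ N →
    (∀ i, d₀ ≤ R.t i) → ∀ (z : Fin n → ℂ) (x : R.ι → ℂ), ∃ s ∈ Sec R, s z = x := by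
  obtain ⟨δ, hδ1, hδ⟩ := ((Λ.tendsto_tail.eventually_lt_const
    (show (0 : ℝ) < 1 / (2 * (N + 1)) by positivity)).and (eventually_gt_atTop 0)).exists
  refine ⟨2 * δ / Real.pi, fun R hN ht z => ?_⟩
  set T := ∑' l : {l : Λ.L // l ≠ 0}, Real.exp (-(δ * nsq (l.1 : Fin n → ℂ))) with hT
  have hT0 : 0 ≤ T := tsum_nonneg fun _ => (Real.exp_pos _).le
  let c : R.ι → ℝ := fun i => Real.exp (Real.pi * R.t i * nsq z / 2)
  have hc : ∀ i, 0 < c i := fun i => Real.exp_pos _
  let φ : ((Fin n → ℂ) → R.ι → ℂ) →ₗ[ℂ] (R.ι → ℂ) :=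
    { toFun := fun s i => (c i : ℂ)⁻¹ * s z i
      map_add' := fun s s' => funext fun i => by simp [mul_add]
      map_smul' := fun a s => funext fun i => by simp [mul_left_comm] }
  have hU : (Sec R).map φ = ⊤ := by
    refine eq_top_of_approx _ fun x => ?_
    let h : (Fin n → ℂ) → R.ι → ℂ := fun y i =>
      exp (Real.pi * R.t i * (eta y z - nsq z / 2)) * x i
    have hd : Dec R ‖x‖ δ z h := fun y i => by
      have e : (Real.pi * R.t i * (eta y z - nsq z / 2) : ℂ).re =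
          Real.pi * R.t i * nsq y / 2 + -(Real.pi * R.t i / 2 * nsq (y - z)) := by
        rw [nsq_sub]; simp; ring
      have h1 : δ ≤ Real.pi * R.t i / 2 := by
        have := (div_le_iff₀ Real.pi_pos).1 (ht i)
        linarith
      rw [norm_mul, Complex.norm_exp, e, Real.exp_add, mul_comm, mul_assoc ‖x‖]
      have := nsq_nonneg (y - z)
      gcongr
      exact norm_le_pi_norm x i
    have hh : ∀ i, Differentiable ℂ fun y => h y i := fun i =>
      (((differentiable_eta z).sub_const _).const_mul _).cexp.mul_const _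
    refine ⟨_, ⟨_, Poin_mem hδ hd hh, rfl⟩, (pi_norm_le_iff_of_nonneg (by positivity)).2 fun i => ?_⟩
    have h1 := norm_Poin_sub hδ hd i
    have h2 : h z i = c i * x i := by
      simp only [h, c, eta_self]; congr 1; push_cast; congr 1; ring
    have hci : (c i : ℂ) ≠ 0 := Complex.ofReal_ne_zero.2 (hc i).ne'
    have h3 : (x - φ (Poin R h)) i = -(c i : ℂ)⁻¹ * (Poin R h z i - h z i) := by
      change x i - (c i : ℂ)⁻¹ * Poin R h z i = _
      rw [h2]; field_simp; ring
    rw [h3, norm_mul, norm_neg, norm_inv, Complex.norm_real, Real.norm_of_nonneg (hc i).le,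
      inv_mul_le_iff₀ (hc i)]
    refine h1.trans ?_
    have h4 : (Fintype.card R.ι : ℝ) * T ≤ 1 / 2 := by
      have h5 : (Fintype.card R.ι : ℝ) ≤ N + 1 := by exact_mod_cast hN.trans (Nat.le_succ N)
      calc _ ≤ ((N : ℝ) + 1) * (1 / (2 * (N + 1))) := by gcongr
        _ = 1 / 2 := by field_simp
    calc _ = (c i * ‖x‖) * (Fintype.card R.ι * T) := by simp only [c]; ring
      _ ≤ (c i * ‖x‖) * (1 / 2) := by have := hc i; gcongr
      _ = _ := by ring
  intro x
  obtain ⟨s, hs, e⟩ : (fun i => (c i : ℂ)⁻¹ * x i) ∈ (Sec R).map φ := hU ▸ Submodule.mem_top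
  exact ⟨s, hs, funext fun i => mul_left_cancel₀
    (inv_ne_zero (Complex.ofReal_ne_zero.2 (hc i).ne')) (congrFun e i)⟩

end Pool.Agent.Lib.MP_d3d358_ag.Th
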