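import Pool.Agent.Lib.MP_d3d358_ag.Hom.Sg
import Pool.Agent.Lib.MP_d3d358_ag.Th.Avg
import Pool.Agent.Lib.MP_d3d358_ag.Th.Poin

/-! Pull back along multiplication by a natural number, and the averaging retraction. -/

set_option autoImplicit false

namespace Pool.Agent.Lib.MP_d3d358_ag.Th

open CategoryTheory Limits Pretriangulated Abelian Matrix Complex

variable {n : ℕ} {Λ : Lat n} {C : Cr n}

theorem alt_nsmul (m : ℕ) (l l' : Fin n → ℂ) : alt (m • l) (m • l') = m ^ 2 * alt l l' := by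
  rw [← Nat.cast_smul_eq_nsmul ℝ, ← Nat.cast_smul_eq_nsmul ℝ, alt_rsmul_left, alt_rsmul_right]
  ring

theorem aut_nsmul (m : ℕ) (t : ℝ) (l z : Fin n → ℂ) :
    aut (m ^ 2 * t) l z = aut t (m • l) (m • z) := by
  rw [aut, aut, ← Nat.cast_smul_eq_nsmul ℝ, ← Nat.cast_smul_eq_nsmul ℝ, eta_rsmul_left,
    eta_rsmul_right, nsq_rsmul]
  congr 1; push_cast; ring

theorem Cr.actL_nsmul (C : Cr n) (g : C.G) (m : ℕ) (l : C.L) :
    C.actL g (m • l) = m • C.actL g l :=
  Subtype.ext (map_nsmul (C.act g) m (l : Fin n → ℂ))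

@[reducible] noncomputable def pullObj (m : ℕ) (E : Obj C) : Obj C where
  ι := E.ι
  t i := m ^ 2 * E.t i
  ρ l := E.ρ (m • l)
  ρ_unit _ := E.ρ_unit _
  ρ_blk l i j h := by rw [E.ρ_blk _ i j h]
  ρ_mul l l' := by
    rw [E.ρ_mul, smul_add]; congr 2; funext i
    rw [Submodule.coe_smul_of_tower, Submodule.coe_smul_of_tower, alt_nsmul]
    congr 3; ring
  σ := E.σ
  σ_unit := E.σ_unit
  σ_blk g i j h := by rw [E.σ_blk g i j h]
  σ_mul := E.σ_mul
  σ_ρ g l := by rw [E.σ_ρ, C.actL_nsmul]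

theorem fac_pull (m : ℕ) (E : Obj C) (l : C.L) (z : Fin n → ℂ) :
    (pullObj m E).fac l z = E.fac (m • l) (m • z) := by
  rw [ObjL.fac, ObjL.fac]; congr 2; funext i; exact aut_nsmul m _ _ _

theorem differentiable_nsmul (m : ℕ) : Differentiable ℂ fun z : Fin n → ℂ => m • z :=
  differentiable_id.const_smul m

@[reducible] noncomputable def pull (C : Cr n) (m : ℕ) : Obj C ⥤ Obj C where
  obj := pullObj m
  map {E F} u := ⟨fun z => val (E := E) (F := F) u (m • z),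
    ⟨fun i j => (val_diff u i j).comp (differentiable_nsmul m), fun l z => by
      beta_reduce
      rw [fac_pull, fac_pull, smul_add]; exact val_lat u (m • l) (m • z)⟩, fun g z => by
      beta_reduce
      rw [← map_nsmul]; exact val_act u g (m • z)⟩
  map_id _ := rfl
  map_comp _ _ := rfl

instance (m : ℕ) : (pull C m).Additive where
  map_add := rfl

@[simp] theorem val_pull (m : ℕ) {E F : Obj C} (u : E ⟶ F) (z : Fin n → ℂ) :
    val ((pull C m).map u) z = val u (m • z) := rfl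

/-- The translate of a matrix function by a lattice vector. -/
noncomputable def trL (F D : ObjL Λ) (h : (Fin n → ℂ) → Matrix D.ι F.ι ℂ) (c : Λ.L)
    (w : Fin n → ℂ) : Matrix D.ι F.ι ℂ := D.inv c w * h (w + c) * F.fac c w

theorem trL_shift (F D : ObjL Λ) (h : (Fin n → ℂ) → Matrix D.ι F.ι ℂ) (c l : Λ.L)
    (w : Fin n → ℂ) : trL F D h c (w + l) * F.fac l w = D.fac l w * trL F D h (c + l) w := by
  rw [trL, trL, D.inv_shift, F.fac_add, Submodule.coe_add, add_assoc, add_comm (l : Fin n → ℂ)]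
  simp only [Matrix.mul_assoc]

theorem trL_add (F D : ObjL Λ) {h : (Fin n → ℂ) → Matrix D.ι F.ι ℂ} {l : Λ.L}
    (hl : ∀ w, h (w + l) * F.fac l w = D.fac l w * h w) (c : Λ.L) (w : Fin n → ℂ) :
    trL F D h (l + c) w = trL F D h c w := by
  have e : D.inv (l + c) w * D.fac l (w + c) = D.inv c w := by
    rw [← Matrix.mul_one (_ * D.fac l _), ← D.fac_inv c w, ← Matrix.mul_assoc,
      Matrix.mul_assoc _ (D.fac l _), ← D.fac_add, D.inv_fac, Matrix.one_mul]
  rw [trL, trL, F.fac_add, Submodule.coe_add, add_comm (l : Fin n → ℂ), ← add_assoc,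
    ← Matrix.mul_assoc, Matrix.mul_assoc (D.inv _ _), hl, ← Matrix.mul_assoc, e]

theorem trL_self (F D : ObjL Λ) {h : (Fin n → ℂ) → Matrix D.ι F.ι ℂ} (hh : h ∈ HomL F D)
    (c : Λ.L) (w : Fin n → ℂ) : trL F D h c w = h w := by
  rw [trL, Matrix.mul_assoc, hh.2, ← Matrix.mul_assoc, D.inv_fac, Matrix.one_mul]

theorem mul_trL (F : ObjL Λ) {D D' : ObjL Λ} {v : (Fin n → ℂ) → Matrix D'.ι D.ι ℂ}
    (hv : v ∈ HomL D D') (h : (Fin n → ℂ) → Matrix D.ι F.ι ℂ) (c : Λ.L) (w : Fin n → ℂ) :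
    v w * trL F D h c w = trL F D' (fun z => v z * h z) c w := by
  have e : v w * D.inv c w = D'.inv c w * v (w + c) := by
    rw [← Matrix.mul_one (_ * v (w + c)), ← D.fac_inv c w, ← Matrix.mul_assoc,
      Matrix.mul_assoc _ (v _), hv.2, ← Matrix.mul_assoc, D'.inv_fac, Matrix.one_mul]
  simp only [trL, ← Matrix.mul_assoc, e]

theorem diff_mul {α β γ : Type} [Fintype β] {a : (Fin n → ℂ) → Matrix α β ℂ}
    {b : (Fin n → ℂ) → Matrix β γ ℂ} (ha : ∀ i j, Differentiable ℂ fun z => a z i j)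
    (hb : ∀ i j, Differentiable ℂ fun z => b z i j) (i : α) (j : γ) :
    Differentiable ℂ fun z => (a z * b z) i j := by
  simp only [Matrix.mul_apply]
  exact Differentiable.fun_sum fun k _ => (ha i k).mul (hb k j)

theorem ObjL.diff_fac (E : ObjL Λ) (l : Λ.L) (i j : E.ι) :
    Differentiable ℂ fun z => E.fac l z i j := by
  simp only [ObjL.fac, diagonal_mul]
  exact (differentiable_aut _ _).mul_const _

theorem ObjL.diff_inv (E : ObjL Λ) (l : Λ.L) (i j : E.ι) :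
    Differentiable ℂ fun z => E.inv l z i j := by
  simp only [ObjL.inv, mul_diagonal]
  exact ((differentiable_aut _ _).inv fun z => aut_ne _ _ z).const_mul _

/-- The average over the classes of a subgroup of finite index. -/
noncomputable def avL (H : AddSubgroup Λ.L) [Fintype (Λ.L ⧸ H)] (F D : ObjL Λ)
    (h : (Fin n → ℂ) → Matrix D.ι F.ι ℂ) (w : Fin n → ℂ) : Matrix D.ι F.ι ℂ :=
  (Fintype.card (Λ.L ⧸ H) : ℂ)⁻¹ • ∑ q : Λ.L ⧸ H, trL F D h q.out w

theorem avL_mem (H : AddSubgroup Λ.L) [Fintype (Λ.L ⧸ H)] {F D : ObjL Λ}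
    {h : (Fin n → ℂ) → Matrix D.ι F.ι ℂ} (hd : ∀ i j, Differentiable ℂ fun z => h z i j)
    (hl : ∀ l ∈ H, ∀ w, h (w + l) * F.fac l w = D.fac l w * h w) : avL H F D h ∈ HomL F D := by
  refine ⟨fun i j => ?_, fun l w => ?_⟩
  · simp only [avL, Matrix.smul_apply, Matrix.sum_apply]
    refine Differentiable.fun_const_smul (Differentiable.fun_sum fun q _ => ?_) _
    exact diff_mul (diff_mul (D.diff_inv _)
      fun a b => (hd a b).comp (differentiable_id.add_const _)) (F.diff_fac _) i j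
  · rw [avL, avL, Matrix.smul_mul, Matrix.mul_smul, Matrix.sum_mul, Matrix.mul_sum,
      ← Equiv.sum_comp (Equiv.addRight (l : Λ.L ⧸ H)) fun q => D.fac l w * trL F D h q.out w]
    congr 1
    refine Finset.sum_congr rfl fun q _ => ?_
    obtain ⟨a, ha⟩ := QuotientAddGroup.mk_out_eq_add H (q.out + l)
    rw [trL_shift, Equiv.coe_addRight]
    have e : q + (l : Λ.L ⧸ H) = ((q.out + l : Λ.L) : Λ.L ⧸ H) := by simp
    beta_reduce
    rw [e, ha, add_comm _ (a : Λ.L), trL_add F D (hl a a.2)]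

theorem avL_self (H : AddSubgroup Λ.L) [Fintype (Λ.L ⧸ H)] {F D : ObjL Λ}
    {h : (Fin n → ℂ) → Matrix D.ι F.ι ℂ} (hh : h ∈ HomL F D) : avL H F D h = h := by
  funext w
  have h0 : (Fintype.card (Λ.L ⧸ H) : ℂ) ≠ 0 := Nat.cast_ne_zero.2 Fintype.card_ne_zero
  simp only [avL, trL_self F D hh, Finset.sum_const, Finset.card_univ]
  rw [← Nat.cast_smul_eq_nsmul ℂ, smul_smul, inv_mul_cancel₀ h0, one_smul]

theorem mul_avL (H : AddSubgroup Λ.L) [Fintype (Λ.L ⧸ H)] (F : ObjL Λ) {D D' : ObjL Λ}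
    {v : (Fin n → ℂ) → Matrix D'.ι D.ι ℂ} (hv : v ∈ HomL D D')
    (h : (Fin n → ℂ) → Matrix D.ι F.ι ℂ) (w : Fin n → ℂ) :
    v w * avL H F D h w = avL H F D' (fun z => v z * h z) w := by
  simp only [avL, Matrix.mul_smul, Matrix.mul_sum, mul_trL F hv]

theorem Lat.finite_quot (Λ : Lat n) {m : ℕ} (hm : m ≠ 0) :
    Finite (Λ.L ⧸ (nsmulAddMonoidHom (α := Λ.L) m).range) := by
  have : Module.Finite ℤ Λ.L := ZLattice.module_finite ℝ Λ.L
  have : Module.Free ℤ Λ.L := ZLattice.module_free ℝ Λ.L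
  have : (nsmulAddMonoidHom (α := Λ.L) m).range.FiniteIndex :=
    ⟨by rw [AddSubgroup.index_range_nsmul]; exact pow_ne_zero _ hm⟩
  infer_instance

theorem nsmul_inv_smul {m : ℕ} (hm : m ≠ 0) (w : Fin n → ℂ) : m • ((m : ℂ)⁻¹ • w) = w := by
  rw [← Nat.cast_smul_eq_nsmul ℂ, smul_smul, mul_inv_cancel₀ (Nat.cast_ne_zero.2 hm), one_smul]

theorem avL_pull_mem {m : ℕ} (hm : m ≠ 0)
    [Fintype (C.L ⧸ (nsmulAddMonoidHom (α := C.L) m).range)] {F D : Obj C}
    {g : (Fin n → ℂ) → Matrix D.ι F.ι ℂ} (hg : g ∈ HomL (pullObj m F).toObjL (pullObj m D).toObjL) :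
    avL (nsmulAddMonoidHom (α := C.L) m).range F.toObjL D.toObjL (fun w => g ((m : ℂ)⁻¹ • w)) ∈
      HomL F.toObjL D.toObjL :=
  avL_mem _ (fun i j => (hg.1 i j).comp (differentiable_id.const_smul (m : ℂ)⁻¹)) (by
    rintro _ ⟨l, rfl⟩ w
    have e := hg.2 l ((m : ℂ)⁻¹ • w)
    rw [fac_pull, fac_pull, nsmul_inv_smul hm] at e
    rw [nsmulAddMonoidHom_apply, smul_add, Submodule.coe_smul_of_tower, smul_comm _ m,
      nsmul_inv_smul hm]
    exact e)

theorem exists_retr {m : ℕ} (hm : m ≠ 0) (F : Obj C) :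
    ∃ r : ∀ D : Obj C, (pullObj m F ⟶ pullObj m D) → (F ⟶ D),
      (∀ D (w : F ⟶ D), r D ((pull C m).map w) = w) ∧
      ∀ D D' (g : pullObj m F ⟶ pullObj m D) (v : D ⟶ D'),
        r D' (g ≫ (pull C m).map v) = r D g ≫ v := by
  have := C.toLat.finite_quot hm
  let _ : Fintype (C.L ⧸ (nsmulAddMonoidHom (α := C.L) m).range) := Fintype.ofFinite _
  refine ⟨fun D g => ⟨avg F D _, avg_mem (avL_pull_mem hm g.2.1)⟩, fun D w => Subtype.ext ?_,
    fun D D' g v => hom_ext fun z => ?_⟩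
  · have e : (fun z => w.1 (m • (m : ℂ)⁻¹ • z)) = w.1 :=
      funext fun z => congrArg w.1 (nsmul_inv_smul hm z)
    change avg F D (avL _ F.toObjL D.toObjL fun z => w.1 (m • (m : ℂ)⁻¹ • z)) = w.1
    rw [e, avL_self _ w.2.1, avg_self w.2.2]
  · change avg F D' (avL _ F.toObjL D'.toObjL fun x => v.1 (m • (m : ℂ)⁻¹ • x) *
      g.1 ((m : ℂ)⁻¹ • x)) z = v.1 z * avg F D (avL _ F.toObjL D.toObjL fun x =>
        g.1 ((m : ℂ)⁻¹ • x)) z
    simp only [mul_avg v.2.2, mul_avL _ F.toObjL v.2.1, nsmul_inv_smul hm]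

theorem PAc.pull (m : ℕ) {X : HK (Obj C)} (h : PAc X) : PAc ((KF (pull C m)).obj X) :=
  fun z => h (m • z)

theorem Va.of_pull {m : ℕ} (hm : m ≠ 0) {F : Obj C} {X : HK (Obj C)}
    (h : Va (pullObj m F) ((KF (pull C m)).obj X)) : Va F X := by
  obtain ⟨r, h1, h2⟩ := exists_retr hm F
  obtain ⟨X⟩ := X
  refine (va_iff F X).2 fun i j k hi hj g hg => ?_
  obtain ⟨f, hf⟩ := (va_iff (pullObj m F)
    (((pull C m).mapHomologicalComplex (ComplexShape.up ℤ)).obj X)).1 h i j k hi hj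
    ((pull C m).map g) (((pull C m).map_comp g (X.d j k)).symm.trans
      ((congrArg (pull C m).map hg).trans ((pull C m).map_zero _ _)))
  exact ⟨r _ f, (h2 _ _ f (X.d i j)).symm.trans ((congrArg (r _) hf).trans (h1 _ g))⟩

end Pool.Agent.Lib.MP_d3d358_ag.Th
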