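import Pool.Agent.Lib.MP_d3d358_ag.Th.Eta

/-! Tensor products and duals of theta bundles; moving a factor or a twist across a morphism. -/

set_option autoImplicit false

namespace Pool.Agent.Lib.MP_d3d358_ag.Th

open CategoryTheory Limits Matrix Complex
open scoped Kronecker

variable {n : ℕ} {Λ : Lat n} {C : Cr n}

namespace Tens

theorem aut_neg (t : ℝ) (l z : Fin n → ℂ) : aut (-t) l z = (aut t l z)⁻¹ :=
  eq_inv_of_mul_eq_one_left (by rw [← aut_add, neg_add_cancel, aut_zero])

theorem map_star {α β : Type} (M : Matrix α β ℂ) : M.map star = Mᴴᵀ := rfl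

theorem star_mul {α β γ : Type} [Fintype β] (M : Matrix α β ℂ) (N : Matrix β γ ℂ) :
    (M * N).map star = M.map star * N.map star := by
  rw [map_star, conjTranspose_mul, transpose_mul, map_star, map_star]

theorem star_unit {α : Type} [Fintype α] [DecidableEq α] {M : Matrix α α ℂ} (h : Mᴴ * M = 1) :
    (M.map star)ᴴ * M.map star = 1 := by
  have : (M.map star)ᴴ = Mᵀ := by ext i j; simp
  rw [this, map_star, ← transpose_mul, h, transpose_one]

theorem kron_unit {α β : Type} [Fintype α] [DecidableEq α] [Fintype β] [DecidableEq β]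
    {M : Matrix α α ℂ} {N : Matrix β β ℂ} (h : Mᴴ * M = 1) (h' : Nᴴ * N = 1) :
    (M ⊗ₖ N)ᴴ * M ⊗ₖ N = 1 := by
  rw [conjTranspose_kronecker, ← mul_kronecker_mul, h, h', one_kronecker_one]

/-- Moving an index from the rows to the columns. -/
def cur {α β γ : Type} (M : Matrix (γ × α) β ℂ) : Matrix γ (β × α) ℂ :=
  of fun c p => M (c, p.2) p.1

/-- Moving an index from the columns to the rows. -/
def uncur {α β γ : Type} (M : Matrix γ (β × α) ℂ) : Matrix (γ × α) β ℂ :=
  of fun p b => M p.1 (b, p.2)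

theorem cur_mul {α β β' γ γ' : Type} [Fintype α] [Fintype β] [Fintype γ] (A : Matrix γ' γ ℂ)
    (B : Matrix α α ℂ) (M : Matrix (γ × α) β ℂ) (D : Matrix β β' ℂ) :
    cur (A ⊗ₖ B * M * D) = A * cur M * D ⊗ₖ Bᵀ := by
  ext c ⟨b, a⟩
  simp only [cur, of_apply, Matrix.mul_apply, kroneckerMap_apply, transpose_apply,
    Fintype.sum_prod_type, Finset.sum_mul]
  refine Finset.sum_congr rfl fun _ _ => ?_
  rw [Finset.sum_comm]
  exact Finset.sum_congr rfl fun _ _ => Finset.sum_congr rfl fun _ _ => by ring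

theorem cur_inj {α β γ : Type} {M N : Matrix (γ × α) β ℂ} (h : cur M = cur N) : M = N := by
  ext ⟨c, a⟩ b; exact congrFun (congrFun h c) (b, a)

theorem cur_iff {α β γ : Type} [Fintype α] [Fintype β] [Fintype γ] [DecidableEq α] [DecidableEq β]
    [DecidableEq γ] {M N : Matrix (γ × α) β ℂ} {A : Matrix γ γ ℂ} {B B' : Matrix α α ℂ}
    {D : Matrix β β ℂ} (h : B' * B = 1) :
    M * D = A ⊗ₖ B * N ↔ cur M * D ⊗ₖ B'ᵀ = A * cur N := by
  have h' : B * B' = 1 := mul_eq_one_comm.1 h
  have e1 := cur_mul (1 : Matrix γ γ ℂ) B' M D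
  have e2 := cur_mul A 1 N (1 : Matrix β β ℂ)
  simp only [Matrix.one_mul, Matrix.mul_one, transpose_one, one_kronecker_one] at e1 e2
  rw [← e1, ← e2]
  constructor
  · intro e
    rw [Matrix.mul_assoc, e, ← Matrix.mul_assoc, ← mul_kronecker_mul, h, Matrix.one_mul]
  · intro e
    have := congrArg (fun X => (1 : Matrix γ γ ℂ) ⊗ₖ B * X) (cur_inj e)
    simpa only [← Matrix.mul_assoc, ← mul_kronecker_mul, Matrix.one_mul, Matrix.mul_one, h',
      one_kronecker_one] using this

end Tens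

open Tens

/-- The tensor product for the lattice. -/
@[reducible] noncomputable def ObjL.tens (E R : ObjL Λ) : ObjL Λ where
  ι := E.ι × R.ι
  t p := E.t p.1 + R.t p.2
  ρ l := E.ρ l ⊗ₖ R.ρ l
  ρ_unit l := kron_unit (E.ρ_unit l) (R.ρ_unit l)
  ρ_blk l i j h := by
    rw [E.ρ_blk l i.1 j.1 (left_ne_zero_of_mul h), R.ρ_blk l i.2 j.2 (right_ne_zero_of_mul h)]
  ρ_mul l l' := by
    rw [← mul_kronecker_mul, E.ρ_mul, R.ρ_mul, mul_kronecker_mul, diagonal_kronecker_diagonal]
    congr 2
    funext p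
    rw [← Complex.exp_add]; congr 1; push_cast; ring

theorem ObjL.fac_tens (E R : ObjL Λ) (l : Λ.L) (z : Fin n → ℂ) :
    (E.tens R).fac l z = E.fac l z ⊗ₖ R.fac l z := by
  rw [ObjL.fac, ObjL.fac, ObjL.fac, mul_kronecker_mul, diagonal_kronecker_diagonal]
  simp only [aut_add]

/-- The dual for the lattice. -/
@[reducible] noncomputable def ObjL.dual (R : ObjL Λ) : ObjL Λ where
  ι := R.ι
  t i := -R.t i
  ρ l := (R.ρ l).map star
  ρ_unit l := star_unit (R.ρ_unit l)
  ρ_blk l i j h := by rw [R.ρ_blk l i j fun e => h (by simp [e])]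
  ρ_mul l l' := by
    rw [← Tens.star_mul, R.ρ_mul, Tens.star_mul, diagonal_map (star_zero ℂ)]
    congr 2
    funext i
    rw [RCLike.star_def, ← Complex.exp_conj]
    congr 1
    simp

theorem ObjL.fac_dual (R : ObjL Λ) (l : Λ.L) (z : Fin n → ℂ) :
    R.dual.fac l z = (R.inv l z)ᵀ := by
  rw [ObjL.fac, ObjL.inv, transpose_mul, diagonal_transpose]
  simp only [aut_neg, Tens.map_star]

/-- The tensor product. -/
@[reducible] noncomputable def Obj.tens (E R : Obj C) : Obj C where
  toObjL := E.toObjL.tens R.toObjL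
  σ g := E.σ g ⊗ₖ R.σ g
  σ_unit g := kron_unit (E.σ_unit g) (R.σ_unit g)
  σ_blk g i j h := by
    change E.t i.1 + R.t i.2 = E.t j.1 + R.t j.2
    rw [E.σ_blk g i.1 j.1 (left_ne_zero_of_mul h), R.σ_blk g i.2 j.2 (right_ne_zero_of_mul h)]
  σ_mul g h := by rw [E.σ_mul, R.σ_mul, mul_kronecker_mul]
  σ_ρ g l := by
    change _ * (E.ρ l ⊗ₖ R.ρ l) = (E.ρ _ ⊗ₖ R.ρ _) * _
    rw [← mul_kronecker_mul, ← mul_kronecker_mul, E.σ_ρ, R.σ_ρ]

/-- The dual. -/
@[reducible] noncomputable def Obj.dual (R : Obj C) : Obj C where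
  toObjL := R.toObjL.dual
  σ g := (R.σ g).map star
  σ_unit g := star_unit (R.σ_unit g)
  σ_blk g i j h := by
    change -R.t i = -R.t j
    rw [R.σ_blk g i j fun e => h (by simp [e])]
  σ_mul g h := by rw [R.σ_mul, Tens.star_mul]
  σ_ρ g l := by
    change _ * (R.ρ l).map star = (R.ρ _).map star * _
    rw [← Tens.star_mul, R.σ_ρ, Tens.star_mul]

theorem tens_mem {E E' F F' : Obj C} (u : E ⟶ E') (v : F ⟶ F') :
    (fun z => val u z ⊗ₖ val v z) ∈ Hom (E.tens F) (E'.tens F') :=
  ⟨⟨fun i j => (val_diff u i.1 j.1).mul (val_diff v i.2 j.2), fun l z => by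
      rw [ObjL.fac_tens, ObjL.fac_tens, ← mul_kronecker_mul, ← mul_kronecker_mul, val_lat,
        val_lat]⟩,
    fun g z => by
      change _ * (E.σ g ⊗ₖ F.σ g) = (E'.σ g ⊗ₖ F'.σ g) * _
      rw [← mul_kronecker_mul, ← mul_kronecker_mul, val_act, val_act]⟩

/-- The tensor product of two morphisms. -/
noncomputable def tensHom {E E' F F' : Obj C} (u : E ⟶ E') (v : F ⟶ F') :
    E.tens F ⟶ E'.tens F' := ⟨fun z => val u z ⊗ₖ val v z, tens_mem u v⟩

@[simp] theorem val_tensHom {E E' F F' : Obj C} (u : E ⟶ E') (v : F ⟶ F') (z : Fin n → ℂ) :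
    val (tensHom u v) z = val u z ⊗ₖ val v z := rfl

/-- The tensor product with a fixed object on the right. -/
@[reducible] noncomputable def tensR (R : Obj C) : Obj C ⥤ Obj C where
  obj E := E.tens R
  map u := ⟨fun z => val u z ⊗ₖ (1 : Matrix R.ι R.ι ℂ), tens_mem u (𝟙 R)⟩
  map_id _ := hom_ext fun _ => one_kronecker_one
  map_comp u v := hom_ext fun z =>
    (congrArg (fun X => (val v z * val u z) ⊗ₖ X) (Matrix.mul_one (1 : Matrix R.ι R.ι ℂ)).symm).trans
      (mul_kronecker_mul _ _ _ _)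

theorem val_tensR (R : Obj C) {E F : Obj C} (u : E ⟶ F) (z : Fin n → ℂ) :
    val ((tensR R).map u) z = val u z ⊗ₖ (1 : Matrix R.ι R.ι ℂ) := rfl

instance (R : Obj C) : (tensR R).Additive where
  map_add {_ _ u v} := hom_ext fun z => add_kronecker (val u z) (val v z) (1 : Matrix R.ι R.ι ℂ)

instance (R : Obj C) : (tensR R).Linear ℂ where
  map_smul u c := hom_ext fun z => smul_kronecker c (val u z) (1 : Matrix R.ι R.ι ℂ)

/-- Moving a tensor factor across a morphism. -/
noncomputable def curry (F R D : Obj C) : (F ⟶ D.tens R) ≃ₗ[ℂ] (F.tens R.dual ⟶ D) where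
  toFun u := ⟨fun z => cur (val u z), ⟨fun i j => val_diff u (i, j.2) j.1, fun l z => by
    rw [ObjL.fac_tens, ObjL.fac_dual, ← cur_iff (R.inv_fac l z), ← ObjL.fac_tens]
    exact val_lat u l z⟩, fun g z => (cur_iff (R.σ_unit g)).1 (val_act u g z)⟩
  invFun v := ⟨fun z => uncur (val v z), ⟨fun i j => val_diff v i.1 (j, i.2), fun l z => by
    rw [ObjL.fac_tens, cur_iff (R.inv_fac l z), ← ObjL.fac_dual, ← ObjL.fac_tens]
    exact val_lat v l z⟩, fun g z => (cur_iff (R.σ_unit g)).2 (val_act v g z)⟩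
  map_add' _ _ := rfl
  map_smul' _ _ := rfl
  left_inv _ := rfl
  right_inv _ := rfl

theorem val_curry {F R D : Obj C} (u : F ⟶ D.tens R) (z : Fin n → ℂ) :
    val (curry F R D u) z = cur (val u z) := rfl

theorem curry_comp (F R : Obj C) {D D' : Obj C} (g : F ⟶ D.tens R) (v : D ⟶ D') :
    curry F R D' (g ≫ (tensR R).map v) = curry F R D g ≫ v := hom_ext fun z => by
  have := cur_mul (val v z) 1 (val g z) (1 : Matrix F.ι F.ι ℂ)
  simp only [Matrix.mul_one, transpose_one, one_kronecker_one] at this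
  exact this

theorem comp_curry (R D : Obj C) {F F' : Obj C} (w : F' ⟶ F) (g : F ⟶ D.tens R) :
    curry F' R D (w ≫ g) = (tensR R.dual).map w ≫ curry F R D g := hom_ext fun z => by
  have := cur_mul (1 : Matrix D.ι D.ι ℂ) 1 (val g z) (val w z)
  simp only [Matrix.one_mul, transpose_one, one_kronecker_one] at this
  exact this

/-- The adjunction between the tensor products with the dual of an object and with the object. -/
noncomputable def tensAdj (R : Obj C) : tensR R.dual ⊣ tensR R :=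
  Adjunction.mkOfHomEquiv
    { homEquiv := fun F D => (curry F R D).symm.toEquiv
      homEquiv_naturality_left_symm := fun w g => comp_curry R _ w g
      homEquiv_naturality_right := fun u v => by
        apply (curry _ R _).injective
        change _ = curry _ R _ ((curry _ R _).symm u ≫ (tensR R).map v)
        rw [curry_comp, LinearEquiv.apply_symm_apply]
        exact (curry _ R _).apply_symm_apply _ }

theorem fac_oneTens (R : Obj C) (l : C.L) (z : Fin n → ℂ) :
    ((one C).tens R).fac l z = of fun i j : Unit × R.ι => R.fac l z i.2 j.2 := by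
  rw [ObjL.fac_tens]
  ext i j
  simp [ObjL.fac, aut_zero]

/-- The trivial object is a unit for the tensor product. -/
noncomputable def oneTens (R : Obj C) : (one C).tens R ≅ R where
  hom := ⟨fun _ => of fun i j => if i = j.2 then 1 else 0, ⟨fun _ _ => differentiable_const _,
    fun l z => by
      rw [fac_oneTens]
      ext i j
      simp [Matrix.mul_apply, Fintype.sum_prod_type]⟩, fun g z => by
      ext i j
      simp [Matrix.mul_apply, Fintype.sum_prod_type]⟩
  inv := ⟨fun _ => of fun i j => if i.2 = j then 1 else 0, ⟨fun _ _ => differentiable_const _,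
    fun l z => by
      rw [fac_oneTens]
      ext i j
      simp [Matrix.mul_apply, Fintype.sum_prod_type]⟩, fun g z => by
      ext i j
      simp [Matrix.mul_apply, Fintype.sum_prod_type]⟩
  hom_inv_id := hom_ext fun _ => by
    ext ⟨_, i⟩ ⟨_, j⟩
    rw [val_comp, val_id]
    simp [val, Matrix.mul_apply, Matrix.one_apply]
  inv_hom_id := hom_ext fun _ => by
    ext i j
    rw [val_comp, val_id]
    simp only [val, Matrix.mul_apply, Matrix.one_apply, Fintype.sum_prod_type, Fintype.sum_unique]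
    simp

theorem fac_tw_tens (a : ℤ) (E R : Obj C) (l : C.L) (z : Fin n → ℂ) :
    ((twObj a E).tens R).fac l z = (twObj a (E.tens R)).fac l z := by
  rw [ObjL.fac_tens, fac_tw, fac_tw, ObjL.fac_tens, smul_kronecker]

/-- The twist commutes with the tensor product, on an object. -/
noncomputable def tensTwApp (R : Obj C) (a : ℤ) (E : Obj C) :
    (twObj a E).tens R ≅ twObj a (E.tens R) where
  hom := ⟨fun _ => 1, ⟨fun _ _ => differentiable_const _, fun l z => by
    rw [fac_tw_tens]; simp⟩, fun _ _ => by simp⟩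
  inv := ⟨fun _ => 1, ⟨fun _ _ => differentiable_const _, fun l z => by
    rw [fac_tw_tens]; simp⟩, fun _ _ => by simp⟩
  hom_inv_id := hom_ext fun _ => Matrix.mul_one _
  inv_hom_id := hom_ext fun _ => Matrix.mul_one _

/-- The twist commutes with the tensor product. -/
noncomputable def tensTw (R : Obj C) (a : ℤ) : tw C a ⋙ tensR R ≅ tensR R ⋙ tw C a :=
  NatIso.ofComponents (tensTwApp R a) fun u => hom_ext fun z =>
    (Matrix.one_mul (val u z ⊗ₖ (1 : Matrix R.ι R.ι ℂ))).trans (Matrix.mul_one _).symm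

theorem val_tensTw_hom (R : Obj C) (a : ℤ) (E : Obj C) (z : Fin n → ℂ) :
    val ((tensTw R a).hom.app E) z = (1 : Matrix (E.ι × R.ι) (E.ι × R.ι) ℂ) := rfl

theorem val_tensTw_inv (R : Obj C) (a : ℤ) (E : Obj C) (z : Fin n → ℂ) :
    val ((tensTw R a).inv.app E) z = (1 : Matrix (E.ι × R.ι) (E.ι × R.ι) ℂ) := rfl

theorem tens_nat (R : Obj C) (y : (Fin n → ℂ) → ℂ) (hy : y ∈ Inv C 1) (E : Obj C) :
    (tensR R).map ((nat y hy).app E) ≫ (tensTw R 1).hom.app E = (nat y hy).app (E.tens R) :=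
  hom_ext fun z => by
    change (1 : Matrix (E.ι × R.ι) (E.ι × R.ι) ℂ) *
      ((y z • (1 : Matrix E.ι E.ι ℂ)) ⊗ₖ (1 : Matrix R.ι R.ι ℂ)) =
      y z • (1 : Matrix (E.ι × R.ι) (E.ι × R.ι) ℂ)
    rw [Matrix.one_mul, smul_kronecker, one_kronecker_one]

theorem aut_tw_mul {a b : ℤ} (h : a + b = 0) (l z : Fin n → ℂ) :
    aut (b * C.k) l z * aut (a * C.k) l z = 1 := by
  rw [← aut_add, ← add_mul, ← Int.cast_add, add_comm, h]; simp [aut_zero]

/-- moving a twist across a morphism (same matrix function) -/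
noncomputable def twAdj (a b : ℤ) (h : a + b = 0) (F D : Obj C) :
    (F ⟶ twObj a D) ≃ₗ[ℂ] (twObj b F ⟶ D) where
  toFun g := ⟨g.1, ⟨g.2.1.1, fun l z => by
    have e := g.2.1.2 l z
    rw [fac_tw] at e
    rw [fac_tw, Matrix.mul_smul, e, Matrix.smul_mul, smul_smul, aut_tw_mul h, one_smul]⟩, g.2.2⟩
  invFun g := ⟨g.1, ⟨g.2.1.1, fun l z => by
    have e := g.2.1.2 l z
    rw [fac_tw, Matrix.mul_smul] at e
    rw [fac_tw, Matrix.smul_mul, ← e, smul_smul, mul_comm, aut_tw_mul h, one_smul]⟩, g.2.2⟩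
  map_add' _ _ := rfl
  map_smul' _ _ := rfl
  left_inv _ := rfl
  right_inv _ := rfl

theorem val_twAdj (a b : ℤ) (h : a + b = 0) (F D : Obj C) (g : F ⟶ twObj a D) (z : Fin n → ℂ) :
    val (twAdj a b h F D g) z = val g z := rfl

theorem val_twAdj_symm (a b : ℤ) (h : a + b = 0) (F D : Obj C) (g : twObj b F ⟶ D)
    (z : Fin n → ℂ) : val ((twAdj a b h F D).symm g) z = val g z := rfl

end Pool.Agent.Lib.MP_d3d358_ag.Th
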