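import Mathlib

/-! Theta bundles: unitary projective representations of a lattice (with a finite group of
isometries) and entire matrix functions with automorphy between them. -/

set_option autoImplicit false

namespace Pool.Agent.Lib.MP_d3d358_ag.Th

open Matrix Complex CategoryTheory Limits

variable {n : ℕ}

/-- The standard hermitian form, linear in the first variable. -/
noncomputable def eta (z w : Fin n → ℂ) : ℂ := ∑ i, z i * (starRingEnd ℂ) (w i)

/-- The squared euclidean norm. -/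
noncomputable def nsq (z : Fin n → ℂ) : ℝ := ∑ i, ‖z i‖ ^ 2

/-- The alternating form. -/
noncomputable def alt (z w : Fin n → ℂ) : ℝ := (eta z w).im

/-- A lattice with a basis. -/
structure Lat (n : ℕ) where
  bas : Module.Basis (Fin (2 * n)) ℝ (Fin n → ℂ)

/-- The lattice as a subgroup. -/
def Lat.L (Λ : Lat n) : Submodule ℤ (Fin n → ℂ) := Submodule.span ℤ (Set.range Λ.bas)

/-- A lattice with a finite group of linear isometries, on which `k * alt` is even. -/
structure Cr (n : ℕ) extends Lat n where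
  G : Type
  [grp : Group G]
  [fin : Fintype G]
  [dec : DecidableEq G]
  act : G →* ((Fin n → ℂ) ≃ₗ[ℂ] (Fin n → ℂ))
  eta_act : ∀ g z w, eta (act g z) (act g w) = eta z w
  act_mem : ∀ g, ∀ l ∈ toLat.L, act g l ∈ toLat.L
  k : ℕ
  k_pos : 0 < k
  k_even : ∀ l ∈ toLat.L, ∀ l' ∈ toLat.L, ∃ m : ℤ, k * alt l l' = 2 * m

attribute [instance] Cr.grp Cr.fin Cr.dec

/-- The action on the lattice. -/
def Cr.actL (C : Cr n) (g : C.G) (l : C.L) : C.L := ⟨C.act g l, C.act_mem g l l.2⟩

/-- A theta bundle for the lattice: the coordinate `i` has type `t i`. -/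
structure ObjL (Λ : Lat n) where
  ι : Type
  [fin : Fintype ι]
  [dec : DecidableEq ι]
  t : ι → ℝ
  ρ : Λ.L → Matrix ι ι ℂ
  ρ_unit : ∀ l, (ρ l)ᴴ * ρ l = 1
  ρ_blk : ∀ l i j, ρ l i j ≠ 0 → t i = t j
  ρ_mul : ∀ l l', ρ l * ρ l' =
    diagonal (fun i => exp (Real.pi * I * (t i * alt (l : Fin n → ℂ) l' : ℝ))) * ρ (l + l')

attribute [instance] ObjL.fin ObjL.dec

/-- The scalar factor of automorphy of type `t`. -/
noncomputable def aut (t : ℝ) (l z : Fin n → ℂ) : ℂ := exp (Real.pi * t * (eta z l + nsq l / 2))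

/-- The factor of automorphy. -/
noncomputable def ObjL.fac {Λ : Lat n} (E : ObjL Λ) (l : Λ.L) (z : Fin n → ℂ) : Matrix E.ι E.ι ℂ :=
  diagonal (fun i => aut (E.t i) l z) * E.ρ l

/-- Morphisms of theta bundles for the lattice. -/
def HomL {Λ : Lat n} (E F : ObjL Λ) : Submodule ℂ ((Fin n → ℂ) → Matrix F.ι E.ι ℂ) where
  carrier := {u | (∀ i j, Differentiable ℂ fun z => u z i j) ∧
    ∀ (l : Λ.L) z, u (z + l) * E.fac l z = F.fac l z * u z}
  zero_mem' := ⟨fun _ _ => differentiable_const _, fun _ _ => by simp⟩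
  add_mem' := fun {u v} hu hv => ⟨fun i j => (hu.1 i j).add (hv.1 i j), fun l z => by
    simp only [Pi.add_apply, Matrix.add_mul, Matrix.mul_add, hu.2, hv.2]⟩
  smul_mem' := fun c u hu => ⟨fun i j => (hu.1 i j).const_smul c, fun l z => by
    simp only [Pi.smul_apply, Matrix.smul_mul, Matrix.mul_smul, hu.2]⟩

theorem HomL.one_mem {Λ : Lat n} (E : ObjL Λ) : (fun _ => 1) ∈ HomL E E :=
  ⟨fun _ _ => differentiable_const _, fun _ _ => by simp⟩

theorem HomL.mul_mem {Λ : Lat n} {D E F : ObjL Λ} {u : (Fin n → ℂ) → Matrix E.ι D.ι ℂ}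
    {v : (Fin n → ℂ) → Matrix F.ι E.ι ℂ} (hu : u ∈ HomL D E) (hv : v ∈ HomL E F) :
    (fun z => v z * u z) ∈ HomL D F :=
  ⟨fun i j => by
    simp only [Matrix.mul_apply]
    exact Differentiable.fun_sum fun a _ => (hv.1 i a).mul (hu.1 a j), fun l z => by
    rw [Matrix.mul_assoc, hu.2, ← Matrix.mul_assoc, hv.2, Matrix.mul_assoc]⟩

/-- An equivariant theta bundle. -/
structure Obj (C : Cr n) extends ObjL C.toLat where
  σ : C.G → Matrix ι ι ℂ
  σ_unit : ∀ g, (σ g)ᴴ * σ g = 1
  σ_blk : ∀ g i j, σ g i j ≠ 0 → t i = t j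
  σ_mul : ∀ g h, σ (g * h) = σ g * σ h
  σ_ρ : ∀ g l, σ g * ρ l = ρ (C.actL g l) * σ g

variable {C : Cr n}

/-- Equivariant morphisms. -/
def Hom (E F : Obj C) : Submodule ℂ ((Fin n → ℂ) → Matrix F.ι E.ι ℂ) where
  carrier := {u | u ∈ HomL E.toObjL F.toObjL ∧ ∀ g z, u (C.act g z) * E.σ g = F.σ g * u z}
  zero_mem' := ⟨zero_mem _, fun _ _ => by simp⟩
  add_mem' := fun {u v} hu hv => ⟨add_mem hu.1 hv.1, fun g z => by
    simp only [Pi.add_apply, Matrix.add_mul, Matrix.mul_add, hu.2, hv.2]⟩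
  smul_mem' := fun c u hu => ⟨Submodule.smul_mem _ c hu.1, fun g z => by
    simp only [Pi.smul_apply, Matrix.smul_mul, Matrix.mul_smul, hu.2]⟩

noncomputable instance category : Category (Obj C) where
  Hom E F := Hom E F
  id E := ⟨fun _ => 1, HomL.one_mem _, fun _ _ => by simp⟩
  comp u v := ⟨fun z => v.1 z * u.1 z, HomL.mul_mem u.2.1 v.2.1, fun g z => by
    rw [Matrix.mul_assoc, u.2.2, ← Matrix.mul_assoc, v.2.2, Matrix.mul_assoc]⟩
  id_comp u := Subtype.ext (funext fun z => Matrix.mul_one _)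
  comp_id u := Subtype.ext (funext fun z => Matrix.one_mul _)
  assoc u v w := Subtype.ext (funext fun z => (Matrix.mul_assoc _ _ _).symm)

variable {D E F : Obj C}

/-- The value of a morphism at a point. -/
abbrev val (u : E ⟶ F) (z : Fin n → ℂ) : Matrix F.ι E.ι ℂ := u.1 z

@[ext] theorem hom_ext {u v : E ⟶ F} (h : ∀ z, val u z = val v z) : u = v :=
  Subtype.ext (funext h)

@[simp] theorem val_id (z : Fin n → ℂ) : val (𝟙 E) z = 1 := rfl

@[simp] theorem val_comp (u : D ⟶ E) (v : E ⟶ F) (z : Fin n → ℂ) :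
    val (u ≫ v) z = val v z * val u z := rfl

noncomputable instance preadditive : Preadditive (Obj C) where
  homGroup E F := inferInstanceAs (AddCommGroup (Hom E F))
  add_comp _ _ _ _ _ _ := hom_ext fun _ => Matrix.mul_add _ _ _
  comp_add _ _ _ _ _ _ := hom_ext fun _ => Matrix.add_mul _ _ _

noncomputable instance linear : Linear ℂ (Obj C) where
  homModule E F := inferInstanceAs (Module ℂ (Hom E F))
  smul_comp _ _ _ r f g := hom_ext fun z => Matrix.mul_smul (val g z) r (val f z)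
  comp_smul _ _ _ f r g := hom_ext fun z => Matrix.smul_mul r (val g z) (val f z)

@[simp] theorem val_zero (z : Fin n → ℂ) : val (0 : E ⟶ F) z = 0 := rfl

@[simp] theorem val_add (u v : E ⟶ F) (z : Fin n → ℂ) : val (u + v) z = val u z + val v z := rfl

@[simp] theorem val_neg (u : E ⟶ F) (z : Fin n → ℂ) : val (-u) z = -val u z := rfl

@[simp] theorem val_sub (u v : E ⟶ F) (z : Fin n → ℂ) : val (u - v) z = val u z - val v z := rfl

@[simp] theorem val_smul (c : ℂ) (u : E ⟶ F) (z : Fin n → ℂ) : val (c • u) z = c • val u z := rfl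

theorem val_diff (u : E ⟶ F) (i : F.ι) (j : E.ι) : Differentiable ℂ fun z => val u z i j :=
  u.2.1.1 i j

theorem val_lat (u : E ⟶ F) (l : C.L) (z : Fin n → ℂ) :
    val u (z + l) * E.fac l z = F.fac l z * val u z := u.2.1.2 l z

theorem val_act (u : E ⟶ F) (g : C.G) (z : Fin n → ℂ) :
    val u (C.act g z) * E.σ g = F.σ g * val u z := u.2.2 g z

end Pool.Agent.Lib.MP_d3d358_ag.Th
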