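import Pool.Agent.Lib.MP_d3d358_ag.Th.Mean
import Pool.Agent.Lib.MP_d3d358_ag.Th.Poin
import Pool.Agent.Lib.MP_d3d358_ag.Th.Fin
import Pool.Agent.Lib.MP_d3d358_ag.Th.Per

/-! The scalar product of sections and the reproducing kernel (first half of the dimension formula). -/

set_option autoImplicit false

namespace Pool.Agent.Lib.MP_d3d358_ag.Th.Dim

open Matrix Complex MeasureTheory Filter

variable {n : ℕ} {Λ : Lat n}

/-- An orthonormal basis for a positive definite hermitian form. -/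
theorem exists_onb {W : Type} [AddCommGroup W] [Module ℂ W] [FiniteDimensional ℂ W]
    (c : InnerProductSpace.Core ℂ W) : ∃ b : Module.Basis (Fin (Module.finrank ℂ W)) ℂ W,
      ∀ x a, b.repr x a = c.inner (b a) x := by
  let : NormedAddCommGroup W := c.toNormedAddCommGroup
  let : InnerProductSpace ℂ W := InnerProductSpace.ofCore c.toCore
  exact ⟨(stdOrthonormalBasis ℂ W).toBasis, fun x a =>
    (stdOrthonormalBasis ℂ W).repr_apply_apply x a⟩

/-- Unfolding. -/
theorem unfold (Λ : Lat n) {G : (Fin n → ℂ) → ℂ} (hG : Integrable G) :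
    ∫ z in Λ.dom, ∑' l : Λ.L, G (z + l) = ∫ z, G z := by
  have : Countable Λ.L.toAddSubgroup := Λ.countable
  have h1 := Λ.isAddFundamentalDomain.integral_eq_tsum'' G hG
  have h2 := Λ.isAddFundamentalDomain.lintegral_eq_tsum'' fun z => ‖G z‖ₑ
  have e : ∀ (l : Λ.L.toAddSubgroup) (z : Fin n → ℂ), l +ᵥ z = z + l := fun l z => add_comm _ _
  simp only [e] at h1 h2
  rw [h1]
  refine integral_tsum (fun l => (hG.comp_add_right (l : Fin n → ℂ)).1.restrict) ?_
  exact (h2.symm.trans_lt hG.2).ne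

/-- A continuous periodic function is bounded. -/
theorem bdd_of_per (Λ : Lat n) {ψ : (Fin n → ℂ) → ℝ} (hc : Continuous ψ)
    (h : ∀ l ∈ Λ.L, ∀ z, ψ (z + l) = ψ z) : ∃ M, ∀ z, ψ z ≤ M := by
  obtain ⟨R, hR⟩ := Λ.exists_near
  obtain ⟨M, hM⟩ := (isCompact_closedBall (0 : Fin n → ℂ) (√R)).bddAbove_image hc.continuousOn
  refine ⟨M, fun z => ?_⟩
  obtain ⟨l, hl⟩ := hR z
  rw [← sub_add_cancel z l, h l l.2]
  refine hM ⟨_, ?_, rfl⟩
  rw [mem_closedBall_zero_iff]
  exact Real.le_sqrt_of_sq_le ((norm_sq_le_nsq _).trans hl)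

/-- The weight of type `t`. -/
noncomputable def wt (t : ℝ) (z : Fin n → ℂ) : ℝ := Real.exp (-(Real.pi * t * nsq z))

theorem wt_pos (t : ℝ) (z : Fin n → ℂ) : 0 < wt t z := Real.exp_pos _

@[fun_prop] theorem continuous_wt (t : ℝ) : Continuous (wt t : (Fin n → ℂ) → ℝ) := by
  unfold wt; fun_prop

theorem wt_aut (t : ℝ) (l z : Fin n → ℂ) :
    ((starRingEnd ℂ) (aut t l z))⁻¹ * wt t z = aut t l z * wt t (z + l) := by
  have h0 : (starRingEnd ℂ) (aut t l z) ≠ 0 := by simpa using aut_ne t l z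
  rw [inv_mul_eq_iff_eq_mul₀ h0, ← mul_assoc, Complex.conj_mul', norm_aut, wt, wt]
  norm_cast
  rw [← Real.exp_nat_mul, ← Real.exp_add]
  congr 1; push_cast; ring

/-- The pointwise scalar product. -/
noncomputable def pr (R : ObjL Λ) (z : Fin n → ℂ) (a b : R.ι → ℂ) : ℂ :=
  ∑ i, (starRingEnd ℂ) (a i) * b i * wt (R.t i) z

theorem pr_inv (R : ObjL Λ) (l : Λ.L) (z : Fin n → ℂ) (a b : R.ι → ℂ) :
    pr R z (R.inv l z *ᵥ a) b = pr R (z + l) a (R.fac l z *ᵥ b) := by
  simp only [pr, ObjL.inv, ObjL.fac, mulVec, dotProduct, mul_diagonal, diagonal_mul, map_sum,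
    Finset.sum_mul, Finset.mul_sum, conjTranspose_apply]
  rw [Finset.sum_comm]
  refine Finset.sum_congr rfl fun j _ => Finset.sum_congr rfl fun i _ => ?_
  by_cases e : R.ρ l j i = 0
  · simp [e]
  · have h := wt_aut (R.t j) l z
    rw [← R.ρ_blk l j i e]
    simp only [map_mul, map_inv₀, RCLike.star_def, Complex.conj_conj]
    linear_combination (R.ρ l j i * (starRingEnd ℂ) (a j) * b i) * h

theorem pr_per {R : ObjL Λ} {f g : (Fin n → ℂ) → R.ι → ℂ} (hf : f ∈ Sec R) (hg : g ∈ Sec R)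
    (l : Fin n → ℂ) (hl : l ∈ Λ.L) (z : Fin n → ℂ) :
    pr R (z + l) (f (z + l)) (g (z + l)) = pr R z (f z) (g z) := by
  have h := pr_inv R ⟨l, hl⟩ z (f (z + l)) (g z)
  rw [← hg.2 ⟨l, hl⟩ z] at h
  rw [← h, hf.2 ⟨l, hl⟩ z, mulVec_mulVec, R.inv_fac, one_mulVec]

theorem pr_self (R : ObjL Λ) (z : Fin n → ℂ) (a : R.ι → ℂ) :
    pr R z a a = (∑ i, ‖a i‖ ^ 2 * wt (R.t i) z : ℝ) := by
  simp only [pr, Complex.conj_mul']
  push_cast; rfl

theorem continuous_pr {R : ObjL Λ} {f g : (Fin n → ℂ) → R.ι → ℂ} (hf : f ∈ Sec R)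
    (hg : g ∈ Sec R) : Continuous fun z => pr R z (f z) (g z) := by
  refine continuous_finsetSum _ fun i _ => ?_
  have h1 := (hf.1 i).continuous
  have h2 := (hg.1 i).continuous
  fun_prop

theorem continuous_nr {R : ObjL Λ} {f : (Fin n → ℂ) → R.ι → ℂ} (hf : f ∈ Sec R) :
    Continuous fun z => ∑ i, ‖f z i‖ ^ 2 * wt (R.t i) z := by
  refine continuous_finsetSum _ fun i _ => ?_
  have h1 := (hf.1 i).continuous
  fun_prop

theorem nr_per {R : ObjL Λ} {f : (Fin n → ℂ) → R.ι → ℂ} (hf : f ∈ Sec R) (l : Fin n → ℂ)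
    (hl : l ∈ Λ.L) (z : Fin n → ℂ) :
    ∑ i, ‖f (z + l) i‖ ^ 2 * wt (R.t i) (z + l) = ∑ i, ‖f z i‖ ^ 2 * wt (R.t i) z := by
  have h := pr_per hf hf l hl z
  rwa [pr_self, pr_self, Complex.ofReal_inj] at h

theorem nr_nonneg (R : ObjL Λ) (z : Fin n → ℂ) (a : R.ι → ℂ) (i : R.ι) :
    0 ≤ ‖a i‖ ^ 2 * wt (R.t i) z := mul_nonneg (sq_nonneg _) (wt_pos _ _).le

theorem Sec_bd {R : ObjL Λ} {f : (Fin n → ℂ) → R.ι → ℂ} (hf : f ∈ Sec R) :
    ∃ M, ∀ i, Bd (R.t i) M fun z => f z i := by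
  obtain ⟨M, hM⟩ := bdd_of_per Λ (continuous_nr hf) (nr_per hf)
  refine ⟨√M, fun i z => ?_⟩
  have h : ‖f z i‖ ^ 2 * wt (R.t i) z ≤ M :=
    (Finset.single_le_sum (fun j _ => nr_nonneg R z (f z) j) (Finset.mem_univ i)).trans (hM z)
  have h0 : 0 ≤ M := (nr_nonneg R z (f z) i).trans h
  refine abs_le_of_sq_le_sq' ?_ (by positivity) |>.2
  rw [mul_pow, Real.sq_sqrt h0, ← Real.exp_nat_mul]
  rw [wt, Real.exp_neg, ← div_eq_mul_inv, div_le_iff₀ (Real.exp_pos _)] at h
  convert h using 3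
  push_cast; ring

/-- The scalar product of sections. -/
@[reducible] noncomputable def core (R : ObjL Λ) : InnerProductSpace.Core ℂ (Sec R) where
  inner f g := ∫ z in Λ.dom, pr R z (f.1 z) (g.1 z)
  conj_inner_symm f g := by
    rw [← integral_conj]
    simp only [pr, map_sum, map_mul, Complex.conj_conj, Complex.conj_ofReal, mul_comm]
  re_inner_nonneg f := by
    simp only [pr_self, integral_complex_ofReal, RCLike.re_to_complex, Complex.ofReal_re]
    exact integral_nonneg fun z => Finset.sum_nonneg fun i _ => nr_nonneg R z _ i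
  add_left f g h := by
    rw [← integral_add (Λ.integrableOn (continuous_pr f.2 h.2))
      (Λ.integrableOn (continuous_pr g.2 h.2))]
    simp only [pr, Submodule.coe_add, Pi.add_apply, map_add, add_mul, Finset.sum_add_distrib]
  smul_left f g r := by
    rw [← integral_const_mul]
    simp only [pr, Submodule.coe_smul, Pi.smul_apply, smul_eq_mul, map_mul, Finset.mul_sum,
      mul_assoc]
  definite f hf := by
    simp only [pr_self, integral_complex_ofReal, Complex.ofReal_eq_zero] at hf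
    have h := Λ.eq_zero_of_integral (continuous_nr f.2)
      (fun z => Finset.sum_nonneg fun i _ => nr_nonneg R z _ i) (nr_per f.2) hf
    ext z i
    have h1 := (Finset.sum_eq_zero_iff_of_nonneg fun j _ => nr_nonneg R z (f.1 z) j).1 (h z) i
      (Finset.mem_univ i)
    simpa [(wt_pos _ _).ne'] using h1

theorem core_inner (R : ObjL Λ) (f g : Sec R) :
    (core R).inner f g = ∫ z in Λ.dom, pr R z (f.1 z) (g.1 z) := rfl

/-- The coherent state at `w` in the coordinate `j`. -/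
noncomputable def coh (R : ObjL Λ) (w : Fin n → ℂ) (j : R.ι) (z : Fin n → ℂ) : R.ι → ℂ :=
  Pi.single j ((R.t j : ℂ) ^ n * exp (Real.pi * R.t j * eta z w))

theorem coh_diff (R : ObjL Λ) (w : Fin n → ℂ) (j i : R.ι) :
    Differentiable ℂ fun z => coh R w j z i := by
  by_cases e : i = j
  · subst e
    simp only [coh, Pi.single_eq_same]
    exact ((differentiable_eta w).const_mul _).cexp.const_mul _
  · simp only [coh, Pi.single_eq_of_ne e]
    exact differentiable_const _

theorem coh_dec (R : ObjL Λ) (w : Fin n → ℂ) (j : R.ι) (h : 0 < R.t j) :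
    Dec R (R.t j ^ n * Real.exp (Real.pi * R.t j * nsq w / 2)) (Real.pi * R.t j / 2) w
      (coh R w j) := fun z i => by
  by_cases e : i = j
  · subst e
    simp only [coh, Pi.single_eq_same, norm_mul, norm_pow, Complex.norm_real, Complex.norm_exp,
      Real.norm_of_nonneg h.le]
    rw [mul_assoc (_ ^ n * _), mul_assoc (_ ^ n), ← Real.exp_add, ← Real.exp_add, nsq_sub]
    refine le_of_eq ?_
    congr 2
    simp; ring
  · simp only [coh, Pi.single_eq_of_ne e, norm_zero]
    positivity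

theorem hasSum_pr (R : ObjL Λ) (z : Fin n → ℂ) {ι : Type} {v : ι → R.ι → ℂ} (hv : Summable v)
    (b : R.ι → ℂ) : HasSum (fun l => pr R z (v l) b) (pr R z (∑' l, v l) b) :=
  hasSum_sum fun i _ => ((Pi.hasSum.1 hv.hasSum i).star.mul_right _).mul_right _

/-- The Poincare series of the coherent state reproduces the value at `w`. -/
theorem reproduce (R : ObjL Λ) (w : Fin n → ℂ) (j : R.ι) (h : 0 < R.t j)
    {s : (Fin n → ℂ) → R.ι → ℂ} (hs : s ∈ Sec R) :
    ∫ z in Λ.dom, pr R z (Poin R (coh R w j) z) (s z) = s w j := by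
  obtain ⟨M, hM⟩ := Sec_bd hs
  have e : ∀ z, pr R z (coh R w j z) (s z) =
      (R.t j : ℂ) ^ n * (exp (Real.pi * R.t j * (eta w z - nsq z)) * s z j) := fun z => by
    rw [pr, Finset.sum_eq_single j (fun i _ e => by simp [coh, Pi.single_eq_of_ne e]) (by simp)]
    simp only [coh, Pi.single_eq_same, map_mul, map_pow, Complex.conj_ofReal, ← Complex.exp_conj,
      conj_eta, wt]
    push_cast
    rw [mul_sub, sub_eq_add_neg, Complex.exp_add]; ring
  have hi : Integrable fun z => pr R z (coh R w j z) (s z) := by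
    simp only [e]
    exact (Pr_integrable h (hs.1 j).continuous (hM j) w).const_mul _
  have e2 : ∀ z, pr R z (Poin R (coh R w j) z) (s z) =
      ∑' l : Λ.L, pr R (z + l) (coh R w j (z + l)) (s (z + l)) := fun z => by
    have := hasSum_pr R z (Poin_summable (by have := Real.pi_pos; positivity)
      (coh_dec R w j h) z) (s z)
    rw [Poin, ← this.tsum_eq]
    simp only [pr_inv, hs.2]
  simp only [e2]
  rw [unfold Λ hi]
  simp only [e]
  rw [integral_const_mul]
  exact congrFun (Pr_self h (hs.1 j) (hM j)) w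

end Pool.Agent.Lib.MP_d3d358_ag.Th.Dim
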