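import Pool.Agent.Lib.MP_d3d358_ag.Th.Ops

/-! Basic facts on the hermitian form, and the definitions used by the analysis files. -/

set_option autoImplicit false

namespace Pool.Agent.Lib.MP_d3d358_ag.Th

open Matrix Complex MeasureTheory

variable {n : ℕ}

theorem nsq_nonneg (z : Fin n → ℂ) : 0 ≤ nsq z := Finset.sum_nonneg fun _ _ => sq_nonneg _

theorem eta_self (z : Fin n → ℂ) : eta z z = nsq z := by
  simp [eta, nsq, Complex.mul_conj, Complex.normSq_eq_norm_sq]

theorem eta_add_left (z z' w : Fin n → ℂ) : eta (z + z') w = eta z w + eta z' w := by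
  simp [eta, add_mul, Finset.sum_add_distrib]

theorem eta_add_right (z w w' : Fin n → ℂ) : eta z (w + w') = eta z w + eta z w' := by
  simp [eta, mul_add, Finset.sum_add_distrib]

theorem eta_smul_left (c : ℂ) (z w : Fin n → ℂ) : eta (c • z) w = c * eta z w := by
  simp [eta, Finset.mul_sum, mul_assoc]

theorem eta_smul_right (c : ℂ) (z w : Fin n → ℂ) :
    eta z (c • w) = (starRingEnd ℂ) c * eta z w := by
  simp [eta, Finset.mul_sum, mul_left_comm]

theorem eta_rsmul_left (c : ℝ) (z w : Fin n → ℂ) : eta (c • z) w = c * eta z w := by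
  simp [eta, Finset.mul_sum, mul_assoc]

theorem eta_rsmul_right (c : ℝ) (z w : Fin n → ℂ) : eta z (c • w) = c * eta z w := by
  simp [eta, Finset.mul_sum, mul_left_comm]

theorem eta_neg_left (z w : Fin n → ℂ) : eta (-z) w = -eta z w := by simp [eta]

theorem eta_neg_right (z w : Fin n → ℂ) : eta z (-w) = -eta z w := by simp [eta]

theorem eta_sub_left (z z' w : Fin n → ℂ) : eta (z - z') w = eta z w - eta z' w := by
  simp [eta, sub_mul]

theorem eta_sub_right (z w w' : Fin n → ℂ) : eta z (w - w') = eta z w - eta z w' := by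
  simp [eta, mul_sub]

@[simp] theorem eta_zero_left (w : Fin n → ℂ) : eta 0 w = 0 := by simp [eta]

@[simp] theorem eta_zero_right (w : Fin n → ℂ) : eta w 0 = 0 := by simp [eta]

@[simp] theorem nsq_zero : nsq (0 : Fin n → ℂ) = 0 := by simp [nsq]

theorem conj_eta (z w : Fin n → ℂ) : (starRingEnd ℂ) (eta z w) = eta w z := by
  simp [eta, mul_comm]

theorem re_eta_comm (z w : Fin n → ℂ) : (eta z w).re = (eta w z).re := by
  rw [← conj_eta z w, Complex.conj_re]

theorem alt_swap (z w : Fin n → ℂ) : alt z w = -alt w z := by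
  rw [alt, alt, ← conj_eta z w, Complex.conj_im, neg_neg]

theorem alt_self (z : Fin n → ℂ) : alt z z = 0 := by rw [alt, eta_self, Complex.ofReal_im]

theorem alt_add_left (z z' w : Fin n → ℂ) : alt (z + z') w = alt z w + alt z' w := by
  rw [alt, eta_add_left, Complex.add_im, alt, alt]

theorem alt_add_right (z w w' : Fin n → ℂ) : alt z (w + w') = alt z w + alt z w' := by
  rw [alt, eta_add_right, Complex.add_im, alt, alt]

theorem alt_rsmul_left (c : ℝ) (z w : Fin n → ℂ) : alt (c • z) w = c * alt z w := by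
  rw [alt, eta_rsmul_left, Complex.im_ofReal_mul, alt]

theorem alt_rsmul_right (c : ℝ) (z w : Fin n → ℂ) : alt z (c • w) = c * alt z w := by
  rw [alt, eta_rsmul_right, Complex.im_ofReal_mul, alt]

theorem eta_sub_eta (z w : Fin n → ℂ) : eta z w - eta w z = 2 * I * alt z w := by
  rw [← conj_eta z w, Complex.sub_conj, alt]; push_cast; ring

theorem nsq_add (z w : Fin n → ℂ) : nsq (z + w) = nsq z + nsq w + 2 * (eta z w).re := by
  have h := congrArg Complex.re (eta_self (z + w))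
  rw [eta_add_left, eta_add_right, eta_add_right, eta_self, eta_self] at h
  simp only [Complex.add_re, Complex.ofReal_re] at h
  linarith [re_eta_comm z w]

theorem nsq_add_complex (z w : Fin n → ℂ) :
    (nsq (z + w) : ℂ) = nsq z + nsq w + eta z w + eta w z := by
  rw [← eta_self, eta_add_left, eta_add_right, eta_add_right, eta_self, eta_self]; ring

theorem nsq_neg (z : Fin n → ℂ) : nsq (-z) = nsq z := by simp [nsq]

theorem nsq_sub (z w : Fin n → ℂ) : nsq (z - w) = nsq z + nsq w - 2 * (eta z w).re := by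
  rw [sub_eq_add_neg, nsq_add, nsq_neg, eta_neg_right, Complex.neg_re]; ring

theorem nsq_sub_comm (z w : Fin n → ℂ) : nsq (z - w) = nsq (w - z) := by
  rw [← nsq_neg, neg_sub]

theorem nsq_rsmul (c : ℝ) (z : Fin n → ℂ) : nsq (c • z) = c ^ 2 * nsq z := by
  simp [nsq, Finset.mul_sum, mul_pow]

theorem nsq_add_le (z w : Fin n → ℂ) : nsq (z + w) ≤ 2 * nsq z + 2 * nsq w := by
  have := nsq_nonneg (z - w)
  rw [nsq_sub] at this
  rw [nsq_add]; linarith

theorem norm_sq_le_nsq (z : Fin n → ℂ) : ‖z‖ ^ 2 ≤ nsq z := by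
  rw [← Real.le_sqrt (norm_nonneg _) (nsq_nonneg z), pi_norm_le_iff_of_nonneg (Real.sqrt_nonneg _)]
  intro i
  exact Real.le_sqrt_of_sq_le (Finset.single_le_sum (f := fun i => ‖z i‖ ^ 2)
    (fun _ _ => sq_nonneg _) (Finset.mem_univ i))

theorem nsq_le_norm_sq (z : Fin n → ℂ) : nsq z ≤ n * ‖z‖ ^ 2 := by
  refine (Finset.sum_le_card_nsmul _ _ (‖z‖ ^ 2) fun i _ => ?_).trans (by simp)
  exact pow_le_pow_left₀ (norm_nonneg _) (norm_le_pi_norm z i) 2

@[fun_prop] theorem continuous_nsq : Continuous (nsq : (Fin n → ℂ) → ℝ) := by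
  unfold nsq; fun_prop

theorem continuous_eta : Continuous fun p : (Fin n → ℂ) × (Fin n → ℂ) => eta p.1 p.2 := by
  unfold eta; fun_prop

theorem differentiable_eta (w : Fin n → ℂ) : Differentiable ℂ fun z => eta z w := by
  unfold eta; fun_prop

theorem differentiable_aut (t : ℝ) (l : Fin n → ℂ) : Differentiable ℂ fun z => aut t l z :=
  (((differentiable_eta l).add_const _).const_mul _).cexp

theorem norm_aut (t : ℝ) (l z : Fin n → ℂ) :
    ‖aut t l z‖ = Real.exp (Real.pi * t * (nsq (z + l) - nsq z) / 2) := by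
  rw [aut, Complex.norm_exp, nsq_add]
  congr 1
  simp; ring

theorem nsq_act (C : Cr n) (g : C.G) (z : Fin n → ℂ) : nsq (C.act g z) = nsq z := by
  have := C.eta_act g z z
  rwa [eta_self, eta_self, Complex.ofReal_inj] at this

theorem alt_act (C : Cr n) (g : C.G) (z w : Fin n → ℂ) : alt (C.act g z) (C.act g w) = alt z w := by
  rw [alt, C.eta_act, alt]

theorem aut_act (C : Cr n) (t : ℝ) (g : C.G) (l z : Fin n → ℂ) :
    aut t (C.act g l) (C.act g z) = aut t l z := by
  rw [aut, C.eta_act, nsq_act, aut]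

variable {Λ : Lat n}

theorem ObjL.ρ_unit' (E : ObjL Λ) (l : Λ.L) : E.ρ l * (E.ρ l)ᴴ = 1 :=
  mul_eq_one_comm.1 (E.ρ_unit l)

theorem ObjL.ρ_zero (E : ObjL Λ) : E.ρ 0 = 1 := by
  have h := E.ρ_mul 0 0
  simp only [ZeroMemClass.coe_zero, alt_self, mul_zero, ofReal_zero, Complex.exp_zero,
    diagonal_one, add_zero, Matrix.one_mul] at h
  rw [← E.ρ_unit 0, ← h, ← Matrix.mul_assoc, h, E.ρ_unit, Matrix.one_mul]

/-- A matrix that respects the types commutes with the diagonal matrices of functions of the type. -/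
theorem diag_comm {ι : Type} [Fintype ι] [DecidableEq ι] {t : ι → ℝ} {M : Matrix ι ι ℂ}
    (h : ∀ i j, M i j ≠ 0 → t i = t j) (f : ℝ → ℂ) :
    diagonal (fun i => f (t i)) * M = M * diagonal fun i => f (t i) := by
  ext i j
  rw [diagonal_mul, mul_diagonal]
  by_cases e : M i j = 0
  · simp [e]
  · rw [h i j e, mul_comm]

theorem Obj.σ_unit' {C : Cr n} (E : Obj C) (g : C.G) : E.σ g * (E.σ g)ᴴ = 1 :=
  mul_eq_one_comm.1 (E.σ_unit g)

theorem Obj.σ_one {C : Cr n} (E : Obj C) : E.σ 1 = 1 := by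
  have h := E.σ_mul 1 1
  rw [mul_one] at h
  rw [← E.σ_unit 1]
  nth_rewrite 3 [h]
  rw [← Matrix.mul_assoc, E.σ_unit, Matrix.one_mul]

/-- The inverse of the factor of automorphy. -/
noncomputable def ObjL.inv (E : ObjL Λ) (l : Λ.L) (z : Fin n → ℂ) : Matrix E.ι E.ι ℂ :=
  (E.ρ l)ᴴ * diagonal fun i => (aut (E.t i) l z)⁻¹

theorem ObjL.inv_fac (E : ObjL Λ) (l : Λ.L) (z : Fin n → ℂ) : E.inv l z * E.fac l z = 1 := by
  rw [ObjL.inv, ObjL.fac, Matrix.mul_assoc, ← Matrix.mul_assoc (diagonal _), diagonal_mul_diagonal]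
  simp [aut_ne, E.ρ_unit]

theorem ObjL.fac_inv (E : ObjL Λ) (l : Λ.L) (z : Fin n → ℂ) : E.fac l z * E.inv l z = 1 :=
  mul_eq_one_comm.1 (E.inv_fac l z)

/-- Growth of type `d` with constant `M`. -/
def Bd (d M : ℝ) (a : (Fin n → ℂ) → ℂ) : Prop :=
  ∀ z, ‖a z‖ ≤ M * Real.exp (Real.pi * d * nsq z / 2)

/-- The Bargmann projection of type `d`. -/
noncomputable def Pr (d : ℝ) (a : (Fin n → ℂ) → ℂ) (z : Fin n → ℂ) : ℂ :=
  (d : ℂ) ^ n * ∫ w, exp (Real.pi * d * (eta z w - nsq w)) * a w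

/-- Uniform continuity of a function of type `-c` for the Heisenberg translations. -/
def UC (c : ℝ) (φ : (Fin n → ℂ) → ℂ) : Prop :=
  ∀ ε > 0, ∃ r > 0, ∀ z w, nsq (w - z) ≤ r →
    ‖φ w - φ z * exp (Real.pi * c * eta (z - w) z)‖ ≤ ε * Real.exp (Real.pi * (-c) * nsq w / 2)

/-- Continuous matrix functions with automorphy. -/
def HomC (E F : ObjL Λ) : Submodule ℂ ((Fin n → ℂ) → Matrix F.ι E.ι ℂ) where
  carrier := {u | (∀ i j, Continuous fun z => u z i j) ∧
    ∀ (l : Λ.L) z, u (z + l) * E.fac l z = F.fac l z * u z}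
  zero_mem' := ⟨fun _ _ => continuous_const, fun _ _ => by simp⟩
  add_mem' := fun {u v} hu hv => ⟨fun i j => (hu.1 i j).add (hv.1 i j), fun l z => by
    simp only [Pi.add_apply, Matrix.add_mul, Matrix.mul_add, hu.2, hv.2]⟩
  smul_mem' := fun c u hu => ⟨fun i j => (hu.1 i j).const_smul c, fun l z => by
    simp only [Pi.smul_apply, Matrix.smul_mul, Matrix.mul_smul, hu.2]⟩

theorem HomL_le_HomC (E F : ObjL Λ) : HomL E F ≤ HomC E F :=
  fun _ hu => ⟨fun i j => (hu.1 i j).continuous, hu.2⟩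

theorem HomC.mul_mem {D E F : ObjL Λ} {u : (Fin n → ℂ) → Matrix E.ι D.ι ℂ}
    {v : (Fin n → ℂ) → Matrix F.ι E.ι ℂ} (hu : u ∈ HomC D E) (hv : v ∈ HomC E F) :
    (fun z => v z * u z) ∈ HomC D F :=
  ⟨fun i j => by
    simp only [Matrix.mul_apply]
    exact continuous_finsetSum _ fun a _ => (hv.1 i a).mul (hu.1 a j), fun l z => by
    rw [Matrix.mul_assoc, hu.2, ← Matrix.mul_assoc, hv.2, Matrix.mul_assoc]⟩

/-- The entrywise Bargmann projection. -/
noncomputable def PrM (E F : ObjL Λ) (a : (Fin n → ℂ) → Matrix F.ι E.ι ℂ) (z : Fin n → ℂ) :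
    Matrix F.ι E.ι ℂ := of fun i j => Pr (F.t i - E.t j) (fun w => a w i j) z

/-- Holomorphic sections. -/
def Sec (R : ObjL Λ) : Submodule ℂ ((Fin n → ℂ) → R.ι → ℂ) where
  carrier := {s | (∀ i, Differentiable ℂ fun z => s z i) ∧
    ∀ (l : Λ.L) z, s (z + l) = R.fac l z *ᵥ s z}
  zero_mem' := ⟨fun _ => differentiable_const _, fun _ _ => by simp⟩
  add_mem' := fun {u v} hu hv => ⟨fun i => (hu.1 i).add (hv.1 i), fun l z => by
    simp only [Pi.add_apply, mulVec_add, hu.2, hv.2]⟩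
  smul_mem' := fun c u hu => ⟨fun i => (hu.1 i).const_smul c, fun l z => by
    simp only [Pi.smul_apply, mulVec_smul, hu.2]⟩

/-- The Poincare series. -/
noncomputable def Poin (R : ObjL Λ) (h : (Fin n → ℂ) → R.ι → ℂ) (z : Fin n → ℂ) : R.ι → ℂ :=
  ∑' l : Λ.L, R.inv l z *ᵥ h (z + l)

/-- The fundamental parallelepiped. -/
def Lat.dom (Λ : Lat n) : Set (Fin n → ℂ) := ZSpan.fundamentalDomain Λ.bas

/-- The covolume. -/
noncomputable def Lat.vol (Λ : Lat n) : ℝ := volume.real Λ.dom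

/-- The scalar product of two matrix functions with automorphy. -/
noncomputable def ip (E F : ObjL Λ) (f g : (Fin n → ℂ) → Matrix F.ι E.ι ℂ) : ℂ :=
  ∫ z in Λ.dom, ∑ i, ∑ j, (starRingEnd ℂ) (f z i j) * g z i j *
    Real.exp (-(Real.pi * (F.t i - E.t j) * nsq z))

/-- The line of type `t`. -/
@[reducible] noncomputable def lineL (Λ : Lat n) (t : ℝ)
    (h : ∀ l l' : Λ.L, exp (Real.pi * I * (t * alt (l : Fin n → ℂ) l' : ℝ)) = 1) : ObjL Λ where
  ι := Unit
  t _ := t
  ρ _ := 1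
  ρ_unit _ := by simp
  ρ_blk _ _ _ _ := rfl
  ρ_mul l l' := by rw [h]; simp

end Pool.Agent.Lib.MP_d3d358_ag.Th
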