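import Mathlib

/-! Gaussian mean value property and the Bargmann projector on a hermitian space. -/

open MeasureTheory Real

namespace Pool.Agent.Lib.MP_d3d358_ag.Gauss

variable {V : Type*} [NormedAddCommGroup V] [InnerProductSpace ℝ V] [FiniteDimensional ℝ V]
  [MeasurableSpace V] [BorelSpace V] [NormedSpace ℂ V] [IsScalarTower ℝ ℂ V]
  {E : Type*} [NormedAddCommGroup E] [NormedSpace ℂ E] [CompleteSpace E]

/-- rotation by a unit complex number -/
noncomputable def rot (c : ℂ) (hc : ‖c‖ = 1) : V ≃ₗᵢ[ℝ] V :=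
  LinearIsometry.toLinearIsometryEquiv
    { toFun := fun w => c • w
      map_add' := smul_add c
      map_smul' := fun r w => by
        simp only [RingHom.id_apply]
        rw [← one_smul ℂ w, ← smul_assoc r, smul_smul, smul_smul, ← smul_assoc r]
        simp [mul_comm]
      norm_map' := fun w => by simp [norm_smul, hc] } rfl

omit [MeasurableSpace V] [BorelSpace V] in
lemma rot_apply (c : ℂ) (hc : ‖c‖ = 1) (w : V) : rot c hc w = c • w := rfl

/-- mean value property against a radial weight -/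
theorem radial_mean {g : ℝ → ℝ} (hg : Continuous g) {h : V → E} (hh : Differentiable ℂ h)
    (hi : Integrable fun w : V => g ‖w‖ • h w) :
    ∫ w : V, g ‖w‖ • h w = (∫ w : V, g ‖w‖) • h 0 := by
  set f : ℝ → V → E := fun θ w => g ‖w‖ • h (circleMap 0 1 θ • w) with hf
  have n1 : ∀ θ, ‖circleMap 0 1 θ‖ = 1 := fun θ => by simp
  have e : ∀ θ, f θ = (fun w : V => g ‖w‖ • h w) ∘ rot (circleMap 0 1 θ) (n1 θ) := fun θ => by
    ext w
    simp only [hf, Function.comp, rot_apply, norm_smul, n1, one_mul]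
  have mp := fun θ => (rot (V := V) (circleMap 0 1 θ) (n1 θ)).measurePreserving
  have me := fun θ => (rot (V := V) (circleMap 0 1 θ) (n1 θ)).toHomeomorph.measurableEmbedding
  have c : Continuous (Function.uncurry f) :=
    (hg.comp continuous_snd.norm).smul (hh.continuous.comp
      (((continuous_circleMap 0 1).comp continuous_fst).smul continuous_snd))
  have i : Integrable (Function.uncurry f) ((volume.restrict (Set.Ioc 0 (2 * π))).prod volume) := by
    refine (integrable_prod_iff c.aestronglyMeasurable).2 ⟨ae_of_all _ fun θ => ?_, ?_⟩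
    · show Integrable (f θ)
      rw [e]
      exact ((mp θ).integrable_comp_emb (me θ)).2 hi
    · have : (fun θ => ∫ w, ‖Function.uncurry f (θ, w)‖) = fun _ => ∫ w : V, ‖g ‖w‖ • h w‖ := by
        ext θ
        show ∫ w, ‖f θ w‖ = _
        rw [e]
        exact (mp θ).integral_comp (me θ) fun w => ‖g ‖w‖ • h w‖
      rw [this]
      exact integrable_const _
  have s := integral_integral_swap i
  have l : ∀ θ, ∫ w, f θ w = ∫ w : V, g ‖w‖ • h w := fun θ => by
    rw [e]
    exact (mp θ).integral_comp (me θ) fun w : V => g ‖w‖ • h w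
  have r : ∀ w : V, ∫ θ in Set.Ioc 0 (2 * π), f θ w = (2 * π) • (g ‖w‖ • h 0) := fun w => by
    have a := (hh.comp (differentiable_id.smul_const w)).diffContOnCl.circleAverage
      (c := (0 : ℂ)) (R := 1)
    rw [circleAverage_def, intervalIntegral.integral_of_le (by positivity),
      inv_smul_eq_iff₀ (by positivity)] at a
    simp only [hf, integral_smul]
    simp only [Function.comp, id, zero_smul] at a
    rw [a, smul_comm]
  simp only [l, r, integral_smul, integral_smul_const, integral_const, measureReal_restrict_apply_univ,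
    Real.volume_real_Ioc, sub_zero] at s
  rw [max_eq_left (by positivity)] at s
  exact smul_right_injective E (by positivity) s

omit [NormedSpace ℂ V] [IsScalarTower ℝ ℂ V] in
lemma gauss_int {n : ℕ} (hn : Module.finrank ℝ V = 2 * n) {d : ℝ} (hd : 0 < d) :
    d ^ n * ∫ w : V, rexp (-(π * d) * ‖w‖ ^ 2) = 1 := by
  rw [GaussianFourier.integral_rexp_neg_mul_sq_norm (by positivity), hn]
  push_cast
  rw [mul_div_cancel_left₀ _ two_ne_zero, rpow_natCast, ← mul_pow]
  rw [show d * (π / (π * d)) = 1 by field_simp, one_pow]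

/-- T1 -/
theorem gauss_mean {n : ℕ} (hn : Module.finrank ℝ V = 2 * n) {d : ℝ} (hd : 0 < d) {h : V → E}
    (hh : Differentiable ℂ h) (hi : Integrable fun w : V => rexp (-(π * d) * ‖w‖ ^ 2) • h w) :
    d ^ n • ∫ w : V, rexp (-(π * d) * ‖w‖ ^ 2) • h w = h 0 := by
  rw [radial_mean (g := fun r => rexp (-(π * d) * r ^ 2)) (by fun_prop) hh hi, smul_smul,
    gauss_int hn hd, one_smul]

omit [NormedSpace ℂ V] [IsScalarTower ℝ ℂ V] in
lemma integrable_gauss {b : ℝ} (hb : 0 < b) : Integrable fun w : V => rexp (-b * ‖w‖ ^ 2) := by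
  refine (GaussianFourier.integrable_cexp_neg_mul_sq_norm_add (b := (b : ℂ)) hb 0 (0 : V)).norm.congr
    (ae_of_all _ fun w => ?_)
  simp only [zero_mul, add_zero, Complex.norm_exp]
  norm_cast

omit [NormedSpace ℂ V] [IsScalarTower ℝ ℂ V] in
lemma integrable_gauss_lin {b : ℝ} (hb : 0 < b) (c : ℝ) :
    Integrable fun w : V => rexp (-b * ‖w‖ ^ 2 + c * ‖w‖) := by
  refine ((integrable_gauss (V := V) (half_pos hb)).const_mul (rexp (c ^ 2 / (2 * b)))).mono'
    (Continuous.aestronglyMeasurable (by fun_prop)) (ae_of_all _ fun w => ?_)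
  rw [Real.norm_of_nonneg (exp_pos _).le, ← Real.exp_add, Real.exp_le_exp, ← sub_nonneg,
    show c ^ 2 / (2 * b) + -(b / 2) * ‖w‖ ^ 2 - (-b * ‖w‖ ^ 2 + c * ‖w‖) =
      (b * ‖w‖ - c) ^ 2 / (2 * b) by field_simp; ring]
  positivity

end Pool.Agent.Lib.MP_d3d358_ag.Gauss

namespace Pool.Agent.Lib.MP_d3d358_ag.Gauss

open scoped InnerProductSpace

/-- a unitary map as a real isometry -/
noncomputable def realIso {V : Type*} [NormedAddCommGroup V] [NormedSpace ℝ V] [NormedSpace ℂ V]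
    [IsScalarTower ℝ ℂ V] (g : V ≃ₗᵢ[ℂ] V) : V ≃ₗᵢ[ℝ] V :=
  { g.toLinearEquiv.restrictScalars ℝ with norm_map' := g.norm_map }

variable {V : Type*} [NormedAddCommGroup V] [InnerProductSpace ℂ V]
  {E : Type*} [NormedAddCommGroup E] [NormedSpace ℂ E] [CompleteSpace E]
  {E' : Type*} [NormedAddCommGroup E'] [NormedSpace ℂ E'] [CompleteSpace E']

/-- the Bargmann kernel -/
noncomputable def ker (d : ℝ) (z w : V) : ℂ :=
  Complex.exp ((π * d : ℝ) * (⟪w, z⟫_ℂ - (‖w‖ ^ 2 : ℝ)))

/-- Heisenberg translation -/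
noncomputable def tr (d : ℝ) (v : V) (a : V → E) (z : V) : E :=
  Complex.exp ((π * d : ℝ) * (⟪v, z⟫_ℂ - (‖v‖ ^ 2 / 2 : ℝ))) • a (z - v)

/-- growth bound -/
def Bd (d C : ℝ) (a : V → E) : Prop := ∀ w, ‖a w‖ ≤ C * rexp (π * d * ‖w‖ ^ 2 / 2)

lemma norm_ker (d : ℝ) (z w : V) : ‖ker d z w‖ * rexp (π * d * ‖w‖ ^ 2 / 2) =
    rexp (π * d * ‖z‖ ^ 2 / 2) * rexp (-(π * (d / 2)) * ‖w - z‖ ^ 2) := by
  rw [ker, Complex.norm_exp, Complex.re_ofReal_mul, Complex.sub_re, Complex.ofReal_re,
    ← Real.exp_add, ← Real.exp_add, @norm_sub_sq ℂ]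
  congr 1
  simp only [RCLike.re_to_complex]
  ring

lemma continuous_ker (d : ℝ) (z : V) : Continuous (ker d z) := by unfold ker; fun_prop

omit [CompleteSpace E] [NormedSpace ℂ E] [InnerProductSpace ℂ V] in
lemma Bd.nonneg {d C : ℝ} {a : V → E} (h : Bd d C a) : 0 ≤ C :=
  nonneg_of_mul_nonneg_left ((norm_nonneg _).trans (h 0)) (exp_pos _)

omit [CompleteSpace E] in
lemma Bd.ker_le {d C : ℝ} {a : V → E} (h : Bd d C a) (z w : V) : ‖ker d z w • a w‖ ≤
    C * rexp (π * d * ‖z‖ ^ 2 / 2) * rexp (-(π * (d / 2)) * ‖w - z‖ ^ 2) := by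
  rw [norm_smul, mul_assoc, ← norm_ker, mul_left_comm]
  exact mul_le_mul_of_nonneg_left (h w) (norm_nonneg _)

lemma ker_add (d : ℝ) (z u : V) : ker d z (u + z) =
    rexp (-(π * d) * ‖u‖ ^ 2) * Complex.exp (-(π * d : ℝ) * ⟪z, u⟫_ℂ) := by
  have e : ((‖u + z‖ ^ 2 : ℝ) : ℂ) = ⟪u + z, u + z⟫_ℂ := by
    rw [inner_self_eq_norm_sq_to_K]; simp
  have e' : ((‖u‖ ^ 2 : ℝ) : ℂ) = ⟪u, u⟫_ℂ := by rw [inner_self_eq_norm_sq_to_K]; simp
  rw [ker, e, Complex.ofReal_exp, ← Complex.exp_add, Complex.ofReal_mul (-(π * d)), e',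
    inner_add_right, inner_add_left u z u, Complex.ofReal_neg]
  congr 1
  ring

lemma ker_tr (d : ℝ) (v z u : V) : ker d z (u + v) *
    Complex.exp ((π * d : ℝ) * (⟪v, u + v⟫_ℂ - (‖v‖ ^ 2 / 2 : ℝ))) =
    Complex.exp ((π * d : ℝ) * (⟪v, z⟫_ℂ - (‖v‖ ^ 2 / 2 : ℝ))) * ker d (z - v) u := by
  have e : ∀ x : V, ((‖x‖ ^ 2 : ℝ) : ℂ) = ⟪x, x⟫_ℂ := fun x => by
    rw [inner_self_eq_norm_sq_to_K]; simp
  rw [ker, ker, e, e, ← Complex.exp_add, ← Complex.exp_add]
  simp only [inner_add_right, inner_add_left, inner_sub_right]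
  congr 1
  ring

variable [InnerProductSpace ℝ V] [FiniteDimensional ℝ V] [MeasurableSpace V] [BorelSpace V]

/-- the Bargmann projector -/
noncomputable def Pr (n : ℕ) (d : ℝ) (a : V → E) (z : V) : E := d ^ n • ∫ w, ker d z w • a w

omit [CompleteSpace E] in
lemma Bd.integrable {d C : ℝ} (hd : 0 < d) {a : V → E} (h : Bd d C a) (ha : Continuous a) (z : V) :
    Integrable fun w => ker d z w • a w :=
  (((integrable_gauss (V := V) (b := π * (d / 2)) (by positivity)).comp_sub_right z).const_mul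
    _).mono' ((continuous_ker d z).smul ha).aestronglyMeasurable (ae_of_all _ (h.ker_le z))

omit [CompleteSpace E] in
/-- T2, norm bound -/
theorem Bd.Pr {n : ℕ} (hn : Module.finrank ℝ V = 2 * n) {d C : ℝ} (hd : 0 < d) {a : V → E}
    (h : Bd d C a) : Bd d (2 ^ n * C) (Pr n d a) := fun z => by
  have i := ((integrable_gauss (V := V) (b := π * (d / 2)) (by positivity)).comp_sub_right
    z).const_mul (C * rexp (π * d * ‖z‖ ^ 2 / 2))
  have b := norm_integral_le_of_norm_le i (ae_of_all _ (h.ker_le z))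
  rw [integral_const_mul, integral_sub_right_eq_self
    (fun w : V => rexp (-(π * (d / 2)) * ‖w‖ ^ 2))] at b
  have g := gauss_int hn (half_pos hd)
  rw [Gauss.Pr, norm_smul, Real.norm_of_nonneg (by positivity)]
  refine (mul_le_mul_of_nonneg_left b (by positivity)).trans (le_of_eq ?_)
  rw [show d ^ n = 2 ^ n * (d / 2) ^ n by rw [← mul_pow]; congr 1; ring]
  linear_combination (2 ^ n * C * rexp (π * d * ‖z‖ ^ 2 / 2)) * g

omit [CompleteSpace E] in
/-- T2, the projection is entire -/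
theorem Bd.differentiable {n : ℕ} {d C : ℝ} (hd : 0 < d) {a : V → E} (h : Bd d C a)
    (ha : Continuous a) : Differentiable ℂ (Gauss.Pr n d a) := fun z₀ => by
  have C0 := h.nonneg
  have key := hasFDerivAt_integral_of_dominated_of_fderiv_le (𝕜 := ℂ) (μ := volume)
    (F := fun z w => ker d z w • a w)
    (F' := fun z w => ((ker d z w * (π * d : ℝ)) • innerSL ℂ w).smulRight (a w))
    (bound := fun w => π * d * C * rexp (-(π * d / 2) * ‖w‖ ^ 2 + (π * d * (‖z₀‖ + 1) + 1) * ‖w‖))
    (Metric.ball_mem_nhds z₀ one_pos)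
    (.of_forall fun z => ((continuous_ker d z).smul ha).aestronglyMeasurable)
    (h.integrable hd ha z₀) (Continuous.aestronglyMeasurable ?_) (ae_of_all _ fun w z hz => ?_)
    ((integrable_gauss_lin (by positivity) _).const_mul _) (ae_of_all _ fun w z _ => ?_)
  · exact key.differentiableAt.const_smul (d ^ n)
  · exact ((ContinuousLinearMap.smulRightL ℂ V E).continuous₂).comp
      ((((continuous_ker d z₀).mul continuous_const).smul (innerSL ℂ).continuous).prodMk ha)
  · have z1 : ‖z‖ ≤ ‖z₀‖ + 1 := norm_le_norm_add_const_of_dist_le (Metric.mem_ball.1 hz).le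
    have k : ‖ker d z w‖ ≤ rexp (π * d * (‖w‖ * (‖z₀‖ + 1) - ‖w‖ ^ 2)) := by
      rw [ker, Complex.norm_exp, Complex.re_ofReal_mul, Complex.sub_re, Complex.ofReal_re]
      have := (Complex.re_le_norm _).trans (norm_inner_le_norm (𝕜 := ℂ) w z)
      have := mul_le_mul_of_nonneg_left z1 (norm_nonneg w)
      gcongr
      linarith
    have w1 : ‖w‖ ≤ rexp ‖w‖ := by linarith [Real.add_one_le_exp ‖w‖]
    rw [ContinuousLinearMap.norm_smulRight_apply, norm_smul, innerSL_apply_norm, norm_mul,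
      Complex.norm_real, Real.norm_of_nonneg (by positivity)]
    calc _ ≤ rexp (π * d * (‖w‖ * (‖z₀‖ + 1) - ‖w‖ ^ 2)) * (π * d) * rexp ‖w‖ *
          (C * rexp (π * d * ‖w‖ ^ 2 / 2)) := by gcongr; exact h w
      _ = π * d * C * (rexp (π * d * (‖w‖ * (‖z₀‖ + 1) - ‖w‖ ^ 2)) * rexp ‖w‖ *
          rexp (π * d * ‖w‖ ^ 2 / 2)) := by ring
      _ = _ := by
        rw [← Real.exp_add, ← Real.exp_add]
        congr 2
        ring
  · have := ((((innerSL ℂ w).hasFDerivAt (x := z)).sub_const ((‖w‖ ^ 2 : ℝ) : ℂ)).const_mul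
      ((π * d : ℝ) : ℂ)).cexp.smul_const (a w)
    rw [smul_smul] at this
    exact this

omit [CompleteSpace E] in
/-- T2, commutation with Heisenberg translations -/
theorem Pr_tr (n : ℕ) (d : ℝ) (v : V) (a : V → E) : Pr n d (tr d v a) = tr d v (Pr n d a) := by
  ext z
  rw [Pr, ← integral_add_right_eq_self _ v, tr, Pr, smul_comm _ (d ^ n)]
  congr 1
  rw [← integral_smul]
  simp only [tr, smul_smul, ker_tr, add_sub_cancel_right]

/-- T2, commutation with linear maps on the values -/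
theorem Bd.Pr_map (n : ℕ) {d C : ℝ} (hd : 0 < d) {a : V → E} (h : Bd d C a) (ha : Continuous a)
    (L : E →L[ℂ] E') (z : V) : Gauss.Pr n d (fun w => L (a w)) z = L (Gauss.Pr n d a z) := by
  rw [Gauss.Pr, Gauss.Pr, L.map_smul_of_tower, ← L.integral_comp_comm (h.integrable hd ha z)]
  simp only [map_smul]

variable [IsScalarTower ℝ ℂ V]

/-- T2, entire functions are reproduced -/
theorem Bd.Pr_self {n : ℕ} (hn : Module.finrank ℝ V = 2 * n) {d C : ℝ} (hd : 0 < d) {a : V → E}
    (h : Bd d C a) (ha : Differentiable ℂ a) : Gauss.Pr n d a = a := by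
  ext z
  have e : ∀ u, ker d z (u + z) • a (u + z) = rexp (-(π * d) * ‖u‖ ^ 2) •
      (Complex.exp (-(π * d : ℝ) * ⟪z, u⟫_ℂ) • a (u + z)) := fun u => by
    rw [ker_add, mul_smul, Complex.coe_smul]
  have i := (h.integrable hd ha.continuous z).comp_add_right z
  simp only [e] at i
  have := gauss_mean hn hd (h := fun u => Complex.exp (-(π * d : ℝ) * ⟪z, u⟫_ℂ) • a (u + z))
    (((innerSL ℂ z).differentiable.const_mul _).cexp.smul
      (ha.comp (differentiable_id.add_const z))) i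
  rw [Gauss.Pr, ← integral_add_right_eq_self _ z]
  simpa only [e, inner_zero_right, mul_zero, Complex.exp_zero, one_smul, zero_add] using this

omit [CompleteSpace E] in
/-- T2, commutation with unitary maps -/
theorem Pr_comp (n : ℕ) (d : ℝ) (g : V ≃ₗᵢ[ℂ] V) (a : V → E) (z : V) :
    Pr n d (fun w => a (g w)) z = Pr n d a (g z) := by
  rw [Pr, Pr, ← (realIso g).measurePreserving.integral_comp
    (realIso g).toHomeomorph.measurableEmbedding fun w => ker d (g z) w • a w]
  congr 2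
  ext w
  show _ = ker d (g z) (g w) • a (g w)
  rw [ker, ker, g.inner_map_map, g.norm_map]

end Pool.Agent.Lib.MP_d3d358_ag.Gauss
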