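import Pool.Agent.Lib.MP_d3d358_ag.Th.SecGen
import Pool.Agent.Lib.MP_d3d358_ag.Th.Fin
import Pool.Agent.Lib.MP_d3d358_ag.Th.Avg

/-! Invariant sections of the twists of a theta bundle. -/

set_option autoImplicit false

namespace Pool.Agent.Lib.MP_d3d358_ag.Th

open Matrix Complex CategoryTheory Limits

variable {n : ℕ} {C : Cr n}

/-- Invariant sections of `E(m)`. -/
def ISec (E : Obj C) (m : ℤ) : Submodule ℂ ((Fin n → ℂ) → E.ι → ℂ) where
  carrier := {s | s ∈ Sec (twObj m E).toObjL ∧ ∀ g z, s (C.act g z) = E.σ g *ᵥ s z}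
  zero_mem' := ⟨zero_mem _, fun _ _ => by simp⟩
  add_mem' := fun {u v} hu hv => ⟨add_mem hu.1 hv.1, fun g z => by
    simp only [Pi.add_apply, mulVec_add, hu.2, hv.2]⟩
  smul_mem' := fun c u hu => ⟨Submodule.smul_mem _ c hu.1, fun g z => by
    simp only [Pi.smul_apply, mulVec_smul, hu.2]⟩

theorem ISec.diff {E : Obj C} {m : ℤ} {s : (Fin n → ℂ) → E.ι → ℂ} (hs : s ∈ ISec E m) (i : E.ι) :
    Differentiable ℂ fun z => s z i := hs.1.1 i

instance finiteDimensional_ISec (E : Obj C) (m : ℤ) : FiniteDimensional ℂ (ISec E m) :=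
  haveI := finiteDimensional_Sec (twObj m E).toObjL
  Submodule.finiteDimensional_of_le (S₂ := Sec (twObj m E).toObjL) fun _ h => h.1

theorem ISec_tw (E : Obj C) {a m b : ℤ} (h : a + m = b) : ISec (twObj a E) m = ISec E b := by
  ext s
  refine and_congr ?_ Iff.rfl
  rw [mem_Sec_tw, mem_Sec_tw]
  refine and_congr Iff.rfl (forall₂_congr fun l z => ?_)
  rw [fac_tw, smul_mulVec, smul_smul, ← aut_add, ← h, Int.cast_add, add_mul, add_comm (a * C.k : ℝ)]

theorem ISec.smul {E : Obj C} {a d b : ℤ} (h : a + d = b) {y : (Fin n → ℂ) → ℂ} (hy : y ∈ Inv C d)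
    {s : (Fin n → ℂ) → E.ι → ℂ} (hs : s ∈ ISec E a) : (fun z => y z • s z) ∈ ISec E b :=
  ⟨Sec.theta_smul h hy.1 hs.1, fun g z => by beta_reduce; rw [hy.2, hs.2, mulVec_smul]⟩

theorem ISec.map {E F : Obj C} (u : E ⟶ F) {a : ℤ} {s : (Fin n → ℂ) → E.ι → ℂ}
    (hs : s ∈ ISec E a) : (fun z => val u z *ᵥ s z) ∈ ISec F a :=
  ⟨Sec.map u hs.1, fun g z => by
    beta_reduce; rw [hs.2, mulVec_mulVec, val_act, mulVec_mulVec]⟩

/-- The sum over the group of a section is invariant. -/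
theorem ISec.sum {E : Obj C} {a : ℤ} {s : (Fin n → ℂ) → E.ι → ℂ} (hs : s ∈ Sec (twObj a E).toObjL) :
    (fun z => ∑ g, E.σ g *ᵥ s (C.act g⁻¹ z)) ∈ ISec E a := by
  refine ⟨?_, fun h z => ?_⟩
  · have e : (fun z => ∑ g, E.σ g *ᵥ s (C.act g⁻¹ z)) =
        ∑ g, fun z => E.σ g *ᵥ s (C.act g⁻¹ z) := funext fun z => by rw [Finset.sum_apply]
    rw [e]
    exact Submodule.sum_mem _ fun g _ => Sec.act hs g
  · beta_reduce
    rw [mulVec_sum, ← Equiv.sum_comp (Equiv.mulLeft h)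
      fun g => E.σ g *ᵥ s (C.act g⁻¹ (C.act h z))]
    refine Finset.sum_congr rfl fun g _ => ?_
    rw [Equiv.coe_mulLeft, E.σ_mul, mulVec_mulVec, _root_.mul_inv_rev, map_mul,
      LinearEquiv.mul_apply, Split.inv_act]

/-- In large degree the invariant sections are generated by those of the previous degree. -/
theorem ISec_gen {ι : Type} [Fintype ι] (y : ι → (Fin n → ℂ) → ℂ) (hy : ∀ i, y i ∈ Inv C 1)
    (h0 : ∀ z, ∃ i, y i z ≠ 0) (E : Obj C) : ∃ c : ℤ, ∀ a, c ≤ a →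
      ∀ s ∈ ISec E (a + 1), ∃ t : ι → (Fin n → ℂ) → E.ι → ℂ,
        (∀ i, t i ∈ ISec E a) ∧ ∀ z, s z = ∑ i, y i z • t i z := by
  obtain ⟨c, hc⟩ := Sec_gen y hy h0 E
  refine ⟨c, fun a ha s hs => ?_⟩
  obtain ⟨t, ht, e⟩ := hc a ha s hs.1
  have h0 : (Fintype.card C.G : ℂ) ≠ 0 := Nat.cast_ne_zero.2 Fintype.card_ne_zero
  refine ⟨fun i => (Fintype.card C.G : ℂ)⁻¹ • fun z => ∑ g, E.σ g *ᵥ t i (C.act g⁻¹ z),
    fun i => Submodule.smul_mem _ _ (ISec.sum (ht i)), fun z => ?_⟩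
  have e1 : ∀ g, s z = ∑ i, y i z • E.σ g *ᵥ t i (C.act g⁻¹ z) := fun g => by
    rw [← Split.act_inv C g z, hs.2, e, mulVec_sum, Split.act_inv]
    exact Finset.sum_congr rfl fun i _ => by rw [mulVec_smul, (hy i).2]
  simp only [Pi.smul_apply, smul_comm _ (Fintype.card C.G : ℂ)⁻¹, Finset.smul_sum]
  rw [Finset.sum_comm]
  simp only [← Finset.smul_sum, ← e1, Finset.sum_const, Finset.card_univ]
  rw [← Nat.cast_smul_eq_nsmul ℂ, smul_smul, inv_mul_cancel₀ h0, one_smul]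

/-- The invariant section of the regular object given by a theta function. -/
theorem ISec_F0 {a : ℤ} {s : (Fin n → ℂ) → C.G → ℂ} : s ∈ ISec (F0 C) a ↔
    ∃ f ∈ Theta C.toLat (a * C.k), s = fun z g => f (C.act g⁻¹ z) := by
  have hr : ∀ (g : C.G) (x : C.G → ℂ), (F0 C).σ g *ᵥ x = fun h => x (g⁻¹ * h) := fun g x => by
    funext h
    simp [regM, mulVec, dotProduct, ← inv_mul_eq_iff_eq_mul]
  have hf : ∀ (l : C.L) z (x : C.G → ℂ), (twObj a (F0 C)).fac l z *ᵥ x = aut (a * C.k) l z • x :=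
    fun l z x => by rw [fac_F0, smul_mulVec, one_mulVec]
  constructor
  · intro hs
    refine ⟨fun z => s z (1 : C.G), ⟨hs.1.1 (1 : C.G), fun l hl z => ?_⟩,
      funext fun z => funext fun g => ?_⟩
    · exact congrFun ((hs.1.2 ⟨l, hl⟩ z).trans (hf _ _ _)) (1 : C.G)
    · have := congrFun ((hs.2 g⁻¹ z).trans (hr _ _)) (1 : C.G)
      rw [inv_inv, mul_one] at this
      exact this.symm
  · rintro ⟨f, h, rfl⟩
    refine ⟨⟨fun g => h.1.comp (C.differentiable_act g⁻¹), fun l z => ?_⟩, fun g z => ?_⟩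
    · rw [hf]; funext g
      beta_reduce
      rw [map_add, h.2 _ (C.act_mem _ _ l.2), aut_act]; rfl
    · rw [hr]; funext h
      beta_reduce
      rw [_root_.mul_inv_rev, inv_inv, map_mul, LinearEquiv.mul_apply]

end Pool.Agent.Lib.MP_d3d358_ag.Th
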