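import Pool.Agent.Lib.MP_d3d358_ag.Th.Eta

/-! Gaussian integrals, the mean value property and the reproducing formula. -/

set_option autoImplicit false

namespace Pool.Agent.Lib.MP_d3d358_ag.Th

open Matrix Complex MeasureTheory Filter

variable {n : ℕ}

theorem gauss_one {d : ℝ} (hd : 0 < d) :
    Integrable (fun x : ℂ => Real.exp (-(Real.pi * d) * ‖x‖ ^ 2)) ∧
      ∫ x : ℂ, Real.exp (-(Real.pi * d) * ‖x‖ ^ 2) = d⁻¹ := by
  have hb : 0 < Real.pi * d := by positivity
  constructor
  · have := GaussianFourier.integrable_cexp_neg_mul_sq_norm_add (V := ℂ)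
      (b := (Real.pi * d : ℝ)) (by simpa using hb) 0 0
    refine this.norm.congr (Filter.Eventually.of_forall fun x => ?_)
    simp [Complex.norm_exp, ← Complex.ofReal_pow]
  · rw [GaussianFourier.integral_rexp_neg_mul_sq_norm hb]
    simp
    field_simp

theorem gauss_prod (d : ℝ) : (fun x : Fin n → ℂ => Real.exp (-(Real.pi * d * nsq x))) =
    fun x => ∏ i, Real.exp (-(Real.pi * d) * ‖x i‖ ^ 2) := by
  funext x; rw [← Real.exp_sum, ← Finset.mul_sum, nsq, neg_mul]

theorem integrable_gauss {d : ℝ} (hd : 0 < d) :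
    Integrable fun w : Fin n → ℂ => Real.exp (-(Real.pi * d * nsq w)) := by
  rw [gauss_prod]
  exact Integrable.fintype_prod (f := fun _ (x : ℂ) => Real.exp (-(Real.pi * d) * ‖x‖ ^ 2))
    fun _ => (gauss_one hd).1

theorem integral_gauss {d : ℝ} (hd : 0 < d) :
    ∫ w : Fin n → ℂ, Real.exp (-(Real.pi * d * nsq w)) = (d ^ n)⁻¹ := by
  rw [gauss_prod,
    integral_fintype_prod_volume_eq_pow (fun x : ℂ => Real.exp (-(Real.pi * d) * ‖x‖ ^ 2)),
    (gauss_one hd).2]
  simp

theorem nsq_smul (c : ℂ) (z : Fin n → ℂ) : nsq (c • z) = ‖c‖ ^ 2 * nsq z := by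
  simp [nsq, Finset.mul_sum, mul_pow]

/-- Rotation by a unit complex number. -/
noncomputable def rot (n : ℕ) (c : ℂ) (hc : ‖c‖ = 1) : (Fin n → ℂ) ≃ₗᵢ[ℂ] (Fin n → ℂ) :=
  { LinearEquiv.smulOfNeZero ℂ (Fin n → ℂ) c (by rintro rfl; simp at hc) with
    norm_map' := fun x => by simp [norm_smul, hc] }

theorem mp_of_isometry (e : (Fin n → ℂ) ≃ₗᵢ[ℂ] (Fin n → ℂ)) : MeasurePreserving e := by
  set μ : Measure (Fin n → ℂ) := volume
  have : (μ.map e).IsAddHaarMeasure := e.toContinuousLinearEquiv.isAddHaarMeasure_map μ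
  have h := Measure.isAddLeftInvariant_eq_smul (μ.map e) μ
  have hb : (μ.map e) (Metric.ball 0 1) = μ (Metric.ball 0 1) := by
    rw [Measure.map_apply e.continuous.measurable Metric.isOpen_ball.measurableSet]
    congr 1
    ext x
    simp
  have h0 : μ (Metric.ball (0 : Fin n → ℂ) 1) ≠ 0 := (Metric.measure_ball_pos μ 0 one_pos).ne'
  have h1 : μ (Metric.ball (0 : Fin n → ℂ) 1) ≠ ⊤ := measure_ball_lt_top.ne
  have hc : Measure.addHaarScalarFactor (μ.map e) μ = 1 := by
    rw [h, Measure.smul_apply, ENNReal.smul_def, smul_eq_mul] at hb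
    have := (ENNReal.mul_eq_right h0 h1).1 hb
    exact_mod_cast this
  refine ⟨e.continuous.measurable, ?_⟩
  rw [h, hc, one_smul]

theorem mean_value {d : ℝ} (hd : 0 < d) {h : (Fin n → ℂ) → ℂ} (hh : Differentiable ℂ h)
    (hi : Integrable fun w => h w * Real.exp (-(Real.pi * d * nsq w))) :
    (d : ℂ) ^ n * ∫ w, h w * Real.exp (-(Real.pi * d * nsq w)) = h 0 := by
  have hn : ∀ θ : ℝ, ‖circleMap 0 1 θ‖ = 1 := fun θ => by simp
  have hmp : ∀ θ : ℝ, MeasurePreserving (fun w : Fin n → ℂ => circleMap 0 1 θ • w) := fun θ =>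
    mp_of_isometry (rot n _ (hn θ))
  set φ : (Fin n → ℂ) → ℂ := fun w => (Real.exp (-(Real.pi * d * nsq w)) : ℂ) with hφ
  have hφc : Continuous φ := by simp only [hφ]; fun_prop
  have hφr : ∀ θ w, φ (circleMap 0 1 θ • w) = φ w := fun θ w => by
    simp only [hφ, nsq_smul, hn, one_pow, one_mul]
  set F : ℝ → (Fin n → ℂ) → ℂ := fun θ w => h (circleMap 0 1 θ • w) * φ w with hF
  have hFc : Continuous (Function.uncurry F) := by
    have := hh.continuous
    have := continuous_circleMap 0 1
    simp only [hF]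
    fun_prop
  have hcomp : ∀ θ, F θ = (fun w => h w * φ w) ∘ (fun w => circleMap 0 1 θ • w) := fun θ => by
    ext w
    simp only [hF, Function.comp, hφr]
  have hemb : ∀ θ : ℝ, MeasurableEmbedding (fun w : Fin n → ℂ => circleMap 0 1 θ • w) := fun θ =>
    (rot n _ (hn θ)).toHomeomorph.measurableEmbedding
  have hint : ∀ θ, ∫ w, F θ w = ∫ w, h w * φ w := fun θ => by
    rw [hcomp θ]
    exact (hmp θ).integral_comp (hemb θ) (fun w => h w * φ w)
  have hFi : Integrable (Function.uncurry F)
      ((volume.restrict (Set.uIoc 0 (2 * Real.pi))).prod volume) := by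
    rw [integrable_prod_iff hFc.aestronglyMeasurable]
    refine ⟨Filter.Eventually.of_forall fun θ => ?_, ?_⟩
    · change Integrable (F θ) volume
      rw [hcomp θ]
      exact ((hmp θ).integrable_comp_emb (hemb θ)).2 hi
    · have : (fun θ => ∫ w, ‖Function.uncurry F (θ, w)‖) = fun _ => ∫ w, ‖h w * φ w‖ := by
        ext θ
        have := (hmp θ).integral_comp (hemb θ) (fun w => ‖h w * φ w‖)
        simpa only [hF, hφr, Function.uncurry_apply_pair] using this
      rw [this]
      exact integrableOn_const (by simp [Set.uIoc])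
  have hsw := intervalIntegral_integral_swap hFi
  have hin : ∀ w, ∫ θ in (0 : ℝ)..(2 * Real.pi), F θ w = (2 * Real.pi) • (h 0 * φ w) := fun w => by
    have hd : Differentiable ℂ (fun c : ℂ => h (c • w)) := hh.comp (differentiable_id.smul_const w)
    have := (hd.diffContOnCl (s := Metric.ball 0 |(1 : ℝ)|)).circleAverage
    rw [Real.circleAverage_def, zero_smul] at this
    simp only [hF]
    rw [intervalIntegral.integral_mul_const, ← this, smul_mul_assoc, smul_smul,
      mul_inv_cancel₀ (by positivity), one_smul]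
  simp only [hint, hin, intervalIntegral.integral_const, sub_zero] at hsw
  rw [integral_smul, integral_const_mul] at hsw
  have e := smul_right_injective ℂ (by positivity : (2 * Real.pi) ≠ 0) hsw
  have g : ∫ w, φ w = ((d ^ n)⁻¹ : ℝ) := by
    rw [← integral_gauss hd]; exact integral_ofReal
  have hd' : (d : ℂ) ^ n ≠ 0 := pow_ne_zero _ (by exact_mod_cast hd.ne')
  rw [e, g]; push_cast; field_simp

theorem ker_shift (d : ℝ) (z x : Fin n → ℂ) :
    exp (Real.pi * d * (eta z (z + x) - nsq (z + x))) =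
      exp (-(Real.pi * d * eta x z)) * Real.exp (-(Real.pi * d * nsq x)) := by
  rw [nsq_add_complex, eta_add_right, eta_self, Complex.ofReal_exp, ← Complex.exp_add]
  congr 1; push_cast; ring

/-- The projection, centred at the point. -/
theorem Pr_centred (d : ℝ) (a : (Fin n → ℂ) → ℂ) (z : Fin n → ℂ) :
    Pr d a z = (d : ℂ) ^ n * ∫ x, (exp (-(Real.pi * d * eta x z)) * a (z + x)) *
      Real.exp (-(Real.pi * d * nsq x)) := by
  rw [Pr, ← integral_add_left_eq_self _ z]
  simp only [ker_shift]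
  congr 2; funext x; ring

/-- reproducing formula; only integrability is asked -/
theorem Pr_self' {d : ℝ} (hd : 0 < d) {h : (Fin n → ℂ) → ℂ} (hh : Differentiable ℂ h)
    (z : Fin n → ℂ) (hi : Integrable fun w => exp (Real.pi * d * (eta z w - nsq w)) * h w) :
    Pr d h z = h z := by
  have h1 : Differentiable ℂ fun x => exp (-(Real.pi * d * eta x z)) * h (z + x) :=
    (((differentiable_eta z).const_mul _).neg.cexp).mul (hh.comp (differentiable_id.const_add z))
  have h2 := hi.comp_add_left z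
  rw [Pr_centred, mean_value hd h1]
  · simp
  · refine h2.congr (Eventually.of_forall fun x => ?_)
    simp only [ker_shift]; ring

theorem norm_ker (d : ℝ) (z w : Fin n → ℂ) :
    ‖exp (Real.pi * d * (eta z w - nsq w))‖ * Real.exp (Real.pi * d * nsq w / 2) =
      Real.exp (Real.pi * d * nsq z / 2) * Real.exp (-(Real.pi * (d / 2) * nsq (w - z))) := by
  rw [Complex.norm_exp, ← Real.exp_add, ← Real.exp_add, nsq_sub, re_eta_comm w z]
  congr 1
  simp; ring

theorem norm_ker_mul_le {d M : ℝ} {a : (Fin n → ℂ) → ℂ} (hb : Bd d M a) (z w : Fin n → ℂ) :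
    ‖exp (Real.pi * d * (eta z w - nsq w)) * a w‖ ≤
      M * Real.exp (Real.pi * d * nsq z / 2) * Real.exp (-(Real.pi * (d / 2) * nsq (w - z))) := by
  rw [norm_mul, mul_assoc M, ← norm_ker, mul_left_comm]
  exact mul_le_mul_of_nonneg_left (hb w) (norm_nonneg _)

theorem continuous_ker (d : ℝ) (z : Fin n → ℂ) :
    Continuous fun w => exp (Real.pi * d * (eta z w - nsq w)) := by
  have : Continuous fun w => eta z w := continuous_eta.comp (Continuous.prodMk_right z)
  fun_prop

theorem Pr_integrable {d M : ℝ} (hd : 0 < d) {a : (Fin n → ℂ) → ℂ} (ha : Continuous a)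
    (hb : Bd d M a) (z : Fin n → ℂ) :
    Integrable fun w => exp (Real.pi * d * (eta z w - nsq w)) * a w :=
  (((integrable_gauss (half_pos hd)).comp_sub_right z).const_mul _).mono'
    ((continuous_ker d z).mul ha).aestronglyMeasurable
    (Eventually.of_forall (norm_ker_mul_le hb z))

theorem Pr_self {d M : ℝ} (hd : 0 < d) {a : (Fin n → ℂ) → ℂ} (ha : Differentiable ℂ a)
    (hb : Bd d M a) : Pr d a = a :=
  funext fun z => Pr_self' hd ha z (Pr_integrable hd ha.continuous hb z)

theorem Pr_bd {d M : ℝ} (hd : 0 < d) {a : (Fin n → ℂ) → ℂ} (ha : Continuous a) (hb : Bd d M a) :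
    Bd d (2 ^ n * M) (Pr d a) := fun z => by
  have _ := ha
  have h1 := norm_integral_le_of_norm_le
    (((integrable_gauss (half_pos hd)).comp_sub_right z).const_mul _)
    (Eventually.of_forall (norm_ker_mul_le hb z))
  rw [integral_const_mul, integral_sub_right_eq_self
    (fun w : Fin n → ℂ => Real.exp (-(Real.pi * (d / 2) * nsq w))) z,
    integral_gauss (half_pos hd)] at h1
  rw [Pr, norm_mul, norm_pow, Complex.norm_real, Real.norm_of_nonneg hd.le]
  refine (mul_le_mul_of_nonneg_left h1 (by positivity)).trans (le_of_eq ?_)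
  rw [div_pow]; field_simp

theorem Pr_shift (d : ℝ) (a : (Fin n → ℂ) → ℂ) (l z : Fin n → ℂ) :
    Pr d a (z + l) = aut d l z * Pr d (fun w => (aut d l w)⁻¹ * a (w + l)) z := by
  rw [Pr, Pr, ← integral_add_right_eq_self _ l, mul_left_comm, ← integral_const_mul (aut d l z)]
  congr 2; funext w
  rw [← mul_assoc, ← mul_assoc, aut, aut, ← Complex.exp_neg, ← Complex.exp_add, ← Complex.exp_add,
    nsq_add_complex, eta_add_left, eta_add_right, eta_add_right, eta_self]
  congr 2; ring

end Pool.Agent.Lib.MP_d3d358_ag.Th
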