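import Pool.Agent.Lib.MP_d3d358_ag.Th.HDefs

/-! The Fourier-Mukai functor, part A: the operators on the space `HomL K E`. -/

set_option autoImplicit false

namespace Pool.Agent.Lib.MP_d3d358_ag.Th

open Matrix Complex CategoryTheory

variable {n : ℕ}

section Rows

variable {ι β γ : Type}

/-- The matrix whose row `i` is the row `i` of `Φ (t i)`. -/
def rows (t : ι → ℝ) (Φ : ℝ → Matrix ι β ℂ) : Matrix ι β ℂ := of fun i j => Φ (t i) i j

@[simp] theorem rows_apply (t : ι → ℝ) (Φ : ℝ → Matrix ι β ℂ) (i : ι) (j : β) :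
    rows t Φ i j = Φ (t i) i j := rfl

theorem rows_const (t : ι → ℝ) (X : Matrix ι β ℂ) : rows t (fun _ => X) = X := rfl

theorem rows_mul [Fintype β] (t : ι → ℝ) (Φ : ℝ → Matrix ι β ℂ) (M : Matrix β γ ℂ) :
    rows t Φ * M = rows t fun τ => Φ τ * M := rfl

theorem blk_mul_rows [Fintype ι] {t : ι → ℝ} {M : Matrix ι ι ℂ}
    (h : ∀ i j, M i j ≠ 0 → t i = t j) (Φ : ℝ → Matrix ι β ℂ) :
    M * rows t Φ = rows t fun τ => M * Φ τ := by
  ext i j
  simp only [Matrix.mul_apply, rows_apply]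
  refine Finset.sum_congr rfl fun a _ => ?_
  by_cases e : M i a = 0
  · simp [e]
  · rw [h i a e]

theorem rows_congr {t : ι → ℝ} {Φ Ψ : ℝ → Matrix ι β ℂ} (h : ∀ i j, Φ (t i) i j = Ψ (t i) i j) :
    rows t Φ = rows t Ψ := Matrix.ext h

end Rows

variable {C C' : Cr n} (κ : Ker C C')

namespace Ker

/-- The space of sections. -/
abbrev W (E : ObjL C.toLat) : Submodule ℂ ((Fin n → ℂ) → Matrix E.ι κ.K.ι ℂ) :=
  HomL κ.K.toObjL E

/-- All types are greater than `-p`. -/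
def Pos (E : ObjL C.toLat) : Prop := ∀ i, -(κ.p : ℝ) < E.t i

/-- The slope `b / (p + τ)`. -/
noncomputable def s (τ : ℝ) : ℝ := κ.b / (κ.p + τ)

/-- The type of the transform. -/
noncomputable def hat (τ : ℝ) : ℝ := κ.q - κ.b * κ.s τ

theorem mul_s {τ : ℝ} (h : -(κ.p : ℝ) < τ) : (κ.p + τ) * κ.s τ = κ.b :=
  mul_div_cancel₀ _ (by linarith)

theorem mul_s' {τ : ℝ} (h : -(κ.p : ℝ) < τ) : ((κ.p : ℝ) + τ : ℂ) * (κ.s τ : ℝ) = (κ.b : ℝ) := by
  exact_mod_cast κ.mul_s h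

/-- Automorphy up to a scalar function on the lattice. -/
def Aut (E : ObjL C.toLat) (ψ : C.L → ℂ) (f : (Fin n → ℂ) → Matrix E.ι κ.K.ι ℂ) : Prop :=
  ∀ (l : C.L) z, f (z + l) * κ.K.ρ l =
    rows E.t fun τ => (ψ l * aut (κ.p + τ) l z) • (E.ρ l * f z)

theorem K_fac (l : C.L) (z : Fin n → ℂ) : κ.K.fac l z = aut (-κ.p) l z • κ.K.ρ l := by
  ext i j
  rw [ObjL.fac, diagonal_mul, κ.K_t]
  rfl

variable {κ}

theorem mem_W {E : ObjL C.toLat} {f : (Fin n → ℂ) → Matrix E.ι κ.K.ι ℂ} :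
    f ∈ κ.W E ↔ (∀ i j, Differentiable ℂ fun z => f z i j) ∧ κ.Aut E (fun _ => 1) f := by
  refine and_congr_right fun _ => forall_congr' fun l => forall_congr' fun z => ?_
  rw [K_fac, Matrix.mul_smul, ObjL.fac, Matrix.mul_assoc, ← Matrix.ext_iff, ← Matrix.ext_iff]
  refine forall_congr' fun i => forall_congr' fun j => ?_
  have h1 : aut (κ.p + E.t i) l z * aut (-κ.p) l z = aut (E.t i) l z := by
    rw [← aut_add]; congr 1; ring
  rw [diagonal_mul, rows_apply, Matrix.smul_apply, Matrix.smul_apply, smul_eq_mul, smul_eq_mul, one_mul, ← h1]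
  have h2 := aut_ne (-κ.p) l z
  constructor
  · intro h
    apply mul_left_cancel₀ h2
    rw [h]; ring
  · intro h
    rw [h]; ring

theorem Aut.mul {E F : ObjL C.toLat} {ψ : C.L → ℂ} {f : (Fin n → ℂ) → Matrix E.ι κ.K.ι ℂ}
    (hf : κ.Aut E ψ f) {u : (Fin n → ℂ) → Matrix F.ι E.ι ℂ} (hu : u ∈ HomL E F) :
    κ.Aut F ψ fun z => u z * f z := by
  intro l z
  have h1 : (rows E.t fun τ => (ψ l * aut (κ.p + τ) l z) • (E.ρ l * f z)) =
      (ψ l * aut κ.p l z) • (E.fac l z * f z) := by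
    ext i j
    rw [ObjL.fac, Matrix.mul_assoc, rows_apply, Matrix.smul_apply, Matrix.smul_apply, diagonal_mul, aut_add]
    simp only [smul_eq_mul]; ring
  rw [Matrix.mul_assoc, hf l z, h1, Matrix.mul_smul, ← Matrix.mul_assoc, hu.2]
  ext i j
  rw [ObjL.fac, Matrix.mul_assoc, Matrix.mul_assoc, rows_apply, Matrix.smul_apply, Matrix.smul_apply,
    diagonal_mul, aut_add]
  simp only [smul_eq_mul]; ring

variable (κ) in
/-- Translation of the row of type `τ` by `s τ • y`. -/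
noncomputable def J (E : ObjL C.toLat) (y : Fin n → ℂ) (f : (Fin n → ℂ) → Matrix E.ι κ.K.ι ℂ)
    (x : Fin n → ℂ) : Matrix E.ι κ.K.ι ℂ := rows E.t fun τ => f (x + κ.s τ • y)

theorem J_J (E : ObjL C.toLat) (y y' : Fin n → ℂ) (f : (Fin n → ℂ) → Matrix E.ι κ.K.ι ℂ) :
    κ.J E y (κ.J E y' f) = κ.J E (y + y') f := by
  funext x; ext i j
  simp only [J, rows_apply, smul_add, add_assoc]

theorem J_zero (E : ObjL C.toLat) (f : (Fin n → ℂ) → Matrix E.ι κ.K.ι ℂ) : κ.J E 0 f = f := by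
  funext x; ext i j
  simp only [J, rows_apply, smul_zero, add_zero]

theorem Aut.J {E : ObjL C.toLat} (hE : κ.Pos E) {ψ : C.L → ℂ}
    {f : (Fin n → ℂ) → Matrix E.ι κ.K.ι ℂ} (hf : κ.Aut E ψ f) (y : Fin n → ℂ) :
    κ.Aut E (fun l => ψ l * exp (Real.pi * κ.b * eta y l)) (κ.J E y f) := by
  intro l z
  rw [Ker.J, Ker.J, rows_mul, blk_mul_rows (E.ρ_blk l)]
  refine rows_congr fun i j => ?_
  rw [add_right_comm, hf l, rows_apply, Matrix.smul_apply, Matrix.smul_apply, rows_apply]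
  congr 1
  rw [mul_assoc, aut, aut, ← Complex.exp_add, eta_add_left, eta_rsmul_left]
  congr 2
  have := κ.mul_s' (hE i)
  push_cast at this ⊢
  linear_combination (Real.pi * eta y l) * this

theorem J_diff {E : ObjL C.toLat} {f : (Fin n → ℂ) → Matrix E.ι κ.K.ι ℂ}
    (hf : ∀ i j, Differentiable ℂ fun z => f z i j) (y : Fin n → ℂ) (i : E.ι) (j : κ.K.ι) :
    Differentiable ℂ fun x => κ.J E y f x i j :=
  (hf i j).comp (differentiable_id.add_const _)

variable (κ) in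
/-- The value of the transform of `u` at `y`, on functions. -/
noncomputable def PhiF (E F : ObjL C.toLat) (u : (Fin n → ℂ) → Matrix F.ι E.ι ℂ) (y : Fin n → ℂ)
    (f : (Fin n → ℂ) → Matrix E.ι κ.K.ι ℂ) : (Fin n → ℂ) → Matrix F.ι κ.K.ι ℂ :=
  κ.J F (-y) fun z => u z * κ.J E y f z

theorem PhiF_apply (E F : ObjL C.toLat) (u : (Fin n → ℂ) → Matrix F.ι E.ι ℂ) (y : Fin n → ℂ)
    (f : (Fin n → ℂ) → Matrix E.ι κ.K.ι ℂ) (x : Fin n → ℂ) (j : F.ι) (a : κ.K.ι) :
    κ.PhiF E F u y f x j a = ∑ i, u (x - κ.s (F.t j) • y) j i *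
      f (x - κ.s (F.t j) • y + κ.s (E.t i) • y) i a := by
  simp only [PhiF, J, rows_apply, Matrix.mul_apply, smul_neg, sub_eq_add_neg]

theorem PhiF_mem {E F : ObjL C.toLat} (hE : κ.Pos E) (hF : κ.Pos F)
    {u : (Fin n → ℂ) → Matrix F.ι E.ι ℂ} (hu : u ∈ HomL E F)
    (y : Fin n → ℂ) {f : (Fin n → ℂ) → Matrix E.ι κ.K.ι ℂ} (hf : f ∈ κ.W E) :
    κ.PhiF E F u y f ∈ κ.W F := by
  rw [mem_W] at hf ⊢
  refine ⟨J_diff (fun i j => ?_) _, ?_⟩
  · simp only [Matrix.mul_apply]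
    exact Differentiable.fun_sum fun a _ => (hu.1 i a).mul (J_diff hf.1 y a j)
  · have h := ((hf.2.J hE y).mul hu).J hF (-y)
    have e : (fun l : C.L => 1 * exp (Real.pi * κ.b * eta y l) *
        exp (Real.pi * κ.b * eta (-y) l)) = fun _ => 1 := by
      funext l
      rw [one_mul, ← Complex.exp_add, eta_neg_left]
      simp
    rw [e] at h
    exact h

/-- The value of the transform of `u` at `y`. -/
noncomputable def PhiL {E F : ObjL C.toLat} (hE : κ.Pos E) (hF : κ.Pos F) (u : HomL E F)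
    (y : Fin n → ℂ) : κ.W E →ₗ[ℂ] κ.W F where
  toFun f := ⟨κ.PhiF E F u y f, PhiF_mem hE hF u.2 y f.2⟩
  map_add' f g := Subtype.ext (by
    funext x; ext j a
    simp only [PhiF_apply, Submodule.coe_add, Pi.add_apply, Matrix.add_apply, mul_add,
      Finset.sum_add_distrib])
  map_smul' c f := Subtype.ext (by
    funext x; ext j a
    simp only [PhiF_apply, Submodule.coe_smul, Pi.smul_apply, Matrix.smul_apply, smul_eq_mul,
      RingHom.id_apply, Finset.mul_sum, mul_left_comm])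

theorem PhiL_coe {E F : ObjL C.toLat} (hE : κ.Pos E) (hF : κ.Pos F) (u : HomL E F)
    (y : Fin n → ℂ) (f : κ.W E) : (PhiL hE hF u y f).1 = κ.PhiF E F u y f := rfl

theorem PhiF_one (E : ObjL C.toLat) (y : Fin n → ℂ) (f : (Fin n → ℂ) → Matrix E.ι κ.K.ι ℂ) :
    κ.PhiF E E (fun _ => 1) y f = f := by
  rw [PhiF]
  simp only [Matrix.one_mul]
  rw [J_J, neg_add_cancel, J_zero]

theorem PhiF_mul (D E F : ObjL C.toLat) (u : (Fin n → ℂ) → Matrix E.ι D.ι ℂ)
    (v : (Fin n → ℂ) → Matrix F.ι E.ι ℂ) (y : Fin n → ℂ) (f : (Fin n → ℂ) → Matrix D.ι κ.K.ι ℂ) :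
    κ.PhiF D F (fun z => v z * u z) y f = κ.PhiF E F v y (κ.PhiF D E u y f) := by
  rw [PhiF, PhiF, PhiF, J_J, add_neg_cancel, J_zero]
  simp only [Matrix.mul_assoc]

theorem PhiL_add {E F : ObjL C.toLat} (hE : κ.Pos E) (hF : κ.Pos F) (u v : HomL E F)
    (y : Fin n → ℂ) : PhiL hE hF (u + v) y = PhiL hE hF u y + PhiL hE hF v y := by
  refine LinearMap.ext fun f => Subtype.ext ?_
  funext x; ext j a
  simp only [PhiL_coe, LinearMap.add_apply, Submodule.coe_add, Pi.add_apply, Matrix.add_apply,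
    PhiF_apply, add_mul, Finset.sum_add_distrib]

theorem PhiL_smul {E F : ObjL C.toLat} (hE : κ.Pos E) (hF : κ.Pos F) (c : ℂ) (u : HomL E F)
    (y : Fin n → ℂ) : PhiL hE hF (c • u) y = c • PhiL hE hF u y := by
  refine LinearMap.ext fun f => Subtype.ext ?_
  funext x; ext j a
  simp only [PhiL_coe, LinearMap.smul_apply, Submodule.coe_smul, Pi.smul_apply, Matrix.smul_apply,
    PhiF_apply, smul_eq_mul, Finset.mul_sum, mul_assoc]

theorem Dg_mem (E : ObjL C.toLat) (φ : ℝ → ℂ) {f : (Fin n → ℂ) → Matrix E.ι κ.K.ι ℂ}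
    (hf : f ∈ κ.W E) : (fun z => rows E.t fun τ => φ τ • f z) ∈ κ.W E := by
  rw [mem_W] at hf ⊢
  refine ⟨fun i j => (hf.1 i j).const_smul (φ (E.t i)), fun l z => ?_⟩
  rw [rows_mul, blk_mul_rows (E.ρ_blk l)]
  refine rows_congr fun i j => ?_
  rw [Matrix.smul_mul, hf.2 l]
  simp only [rows_apply, Matrix.smul_apply, Matrix.mul_smul, smul_eq_mul, mul_left_comm]

variable (κ) in
/-- Multiplication of the row of type `τ` by `φ τ`. -/
noncomputable def Dg (E : ObjL C.toLat) (φ : ℝ → ℂ) : κ.W E →ₗ[ℂ] κ.W E where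
  toFun f := ⟨fun z => rows E.t fun τ => φ τ • f.1 z, Dg_mem E φ f.2⟩
  map_add' f g := Subtype.ext (by
    funext x; ext j a
    simp only [rows_apply, Submodule.coe_add, Pi.add_apply, Matrix.add_apply, smul_add])
  map_smul' c f := Subtype.ext (by
    funext x; ext j a
    simp only [rows_apply, Submodule.coe_smul, Pi.smul_apply, Matrix.smul_apply,
      RingHom.id_apply, smul_eq_mul, mul_left_comm])

theorem Dg_apply (E : ObjL C.toLat) (φ : ℝ → ℂ) (f : κ.W E) (z : Fin n → ℂ) (i : E.ι)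
    (j : κ.K.ι) : (κ.Dg E φ f).1 z i j = φ (E.t i) * f.1 z i j := rfl

variable (κ) in
/-- The scalar factor of the Heisenberg translation. -/
noncomputable def chi (τ : ℝ) (m z : Fin n → ℂ) : ℂ :=
  exp (Real.pi * κ.b * (eta z m - κ.s τ * nsq m / 2))

variable (κ) in
/-- The action of the second lattice, on functions. -/
noncomputable def TmF (E : ObjL C.toLat) (m : C'.L) (f : (Fin n → ℂ) → Matrix E.ι κ.K.ι ℂ)
    (z : Fin n → ℂ) : Matrix E.ι κ.K.ι ℂ :=
  rows E.t fun τ => κ.chi τ m z • (f (z - κ.s τ • (m : Fin n → ℂ)) * (κ.ρ1 m)ᴴ)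

theorem ρ1_unit' (m : C'.L) : κ.ρ1 m * (κ.ρ1 m)ᴴ = 1 := mul_eq_one_comm.1 (κ.ρ1_unit m)

theorem comm' (m : C'.L) (l : C.L) : (κ.ρ1 m)ᴴ * κ.K.ρ l =
    exp (-(2 * Real.pi * I * (κ.b * alt (l : Fin n → ℂ) m : ℝ))) • (κ.K.ρ l * (κ.ρ1 m)ᴴ) := by
  have h : κ.K.ρ l * (κ.ρ1 m)ᴴ = exp (2 * Real.pi * I * (κ.b * alt (l : Fin n → ℂ) m : ℝ)) •
      ((κ.ρ1 m)ᴴ * κ.K.ρ l) := by
    calc κ.K.ρ l * (κ.ρ1 m)ᴴ = (κ.ρ1 m)ᴴ * (κ.ρ1 m * κ.K.ρ l) * (κ.ρ1 m)ᴴ := by
          rw [← Matrix.mul_assoc, κ.ρ1_unit, Matrix.one_mul]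
      _ = _ := by
          rw [κ.comm, Matrix.mul_smul, Matrix.smul_mul, Matrix.mul_assoc, Matrix.mul_assoc,
            ρ1_unit', Matrix.mul_one]
  rw [h, smul_smul, ← Complex.exp_add, neg_add_cancel, Complex.exp_zero, one_smul]

theorem TmF_mem {E : ObjL C.toLat} (hE : κ.Pos E) (m : C'.L)
    {f : (Fin n → ℂ) → Matrix E.ι κ.K.ι ℂ} (hf : f ∈ κ.W E) : κ.TmF E m f ∈ κ.W E := by
  rw [mem_W] at hf ⊢
  refine ⟨fun i j => ?_, fun l z => ?_⟩
  · simp only [TmF, rows_apply, Matrix.smul_apply, smul_eq_mul, Matrix.mul_apply, chi]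
    refine Differentiable.mul (Differentiable.cexp ?_) (Differentiable.fun_sum fun a _ =>
      ((hf.1 i a).comp (differentiable_id.sub_const _)).mul_const _)
    exact ((differentiable_eta _).sub_const _).const_mul _
  · rw [TmF, TmF, rows_mul, blk_mul_rows (E.ρ_blk l)]
    refine rows_congr fun i j => ?_
    rw [Matrix.smul_mul, Matrix.mul_assoc, comm', Matrix.mul_smul, ← Matrix.mul_assoc,
      add_sub_right_comm, hf.2 l, rows_mul]
    simp only [rows_apply, Matrix.smul_apply, smul_eq_mul, Matrix.smul_mul, Matrix.mul_smul,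
      Matrix.mul_assoc, ← mul_assoc, one_mul]
    congr 1
    simp only [chi, aut, ← Complex.exp_add, eta_add_left, eta_sub_left, eta_rsmul_left]
    congr 1
    have h1 := κ.mul_s' (hE i)
    have h2 := eta_sub_eta (l : Fin n → ℂ) m
    push_cast at h1 h2 ⊢
    linear_combination (-Real.pi * eta (m : Fin n → ℂ) l) * h1 + (Real.pi * κ.b) * h2

/-- The action of the second lattice. -/
noncomputable def Tm {E : ObjL C.toLat} (hE : κ.Pos E) (m : C'.L) : κ.W E →ₗ[ℂ] κ.W E where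
  toFun f := ⟨κ.TmF E m f, TmF_mem hE m f.2⟩
  map_add' f g := Subtype.ext (by
    funext x; ext j a
    simp only [TmF, rows_apply, Submodule.coe_add, Pi.add_apply, Matrix.add_apply, Matrix.add_mul,
      smul_add])
  map_smul' c f := Subtype.ext (by
    funext x; ext j a
    simp only [TmF, rows_apply, Submodule.coe_smul, Pi.smul_apply, Matrix.smul_apply, Matrix.smul_mul,
      RingHom.id_apply, smul_eq_mul, mul_left_comm])

theorem Tm_coe {E : ObjL C.toLat} (hE : κ.Pos E) (m : C'.L) (f : κ.W E) :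
    (Tm hE m f).1 = κ.TmF E m f := rfl

variable (κ) in
/-- The action of the finite group, on functions. -/
noncomputable def SgF (E : Obj C) (g : C.G) (f : (Fin n → ℂ) → Matrix E.ι κ.K.ι ℂ)
    (z : Fin n → ℂ) : Matrix E.ι κ.K.ι ℂ := E.σ g * (f ((C.act g).symm z) * (κ.K.σ g)ᴴ)

theorem SgF_mem {E : Obj C} (g : C.G) {f : (Fin n → ℂ) → Matrix E.ι κ.K.ι ℂ} (hf : f ∈ κ.W E.toObjL) :
    κ.SgF E g f ∈ κ.W E.toObjL := by
  rw [mem_W] at hf ⊢
  refine ⟨fun i j => ?_, fun l z => ?_⟩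
  · simp only [SgF, Matrix.mul_apply]
    exact Differentiable.fun_sum fun a _ => (Differentiable.fun_sum fun c _ =>
      ((hf.1 a c).comp (C.act g).symm.toContinuousLinearEquiv.differentiable).mul_const
        _).const_mul _
  · obtain ⟨z, rfl⟩ := (C.act g).surjective z
    obtain ⟨l, rfl⟩ : ∃ l', l = C.actL g l' := ⟨C.actL g⁻¹ l, Subtype.ext (by
      change _ = (C.act g * C.act g⁻¹) l
      rw [← map_mul, mul_inv_cancel, map_one]; rfl)⟩
    have h1 : (κ.K.σ g)ᴴ * κ.K.ρ (C.actL g l) = κ.K.ρ l * (κ.K.σ g)ᴴ := by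
      rw [← Matrix.mul_one (_ * κ.K.ρ (C.actL g l)), ← κ.K.σ_unit' g, ← Matrix.mul_assoc,
        Matrix.mul_assoc _ _ (κ.K.σ g), ← κ.K.σ_ρ, ← Matrix.mul_assoc, κ.K.σ_unit,
        Matrix.one_mul]
    have h2 : C.act g z + (C.actL g l : Fin n → ℂ) = C.act g (z + l) := (map_add _ _ _).symm
    rw [SgF, SgF, h2, LinearEquiv.symm_apply_apply, LinearEquiv.symm_apply_apply,
      Matrix.mul_assoc, Matrix.mul_assoc, h1, ← Matrix.mul_assoc (f _), hf.2 l, rows_mul,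
      blk_mul_rows (E.σ_blk g)]
    refine rows_congr fun i j => ?_
    rw [Matrix.smul_mul, Matrix.mul_smul, Matrix.mul_assoc, ← Matrix.mul_assoc (E.σ g), E.σ_ρ,
      Matrix.mul_assoc, ← aut_act C _ g]
    rfl

variable (κ) in
/-- The action of the finite group. -/
noncomputable def Sg (E : Obj C) (g : C.G) : κ.W E.toObjL →ₗ[ℂ] κ.W E.toObjL where
  toFun f := ⟨κ.SgF E g f, SgF_mem g f.2⟩
  map_add' f f' := Subtype.ext (by
    funext x
    simp only [SgF, Submodule.coe_add, Pi.add_apply, Matrix.add_mul, Matrix.mul_add])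
  map_smul' c f := Subtype.ext (by
    funext x
    simp only [SgF, Submodule.coe_smul, Pi.smul_apply, Matrix.smul_mul, Matrix.mul_smul,
      RingHom.id_apply])

theorem Sg_coe (E : Obj C) (g : C.G) (f : κ.W E.toObjL) :
    (κ.Sg E g f).1 = κ.SgF E g f := rfl

end Ker

end Pool.Agent.Lib.MP_d3d358_ag.Th
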