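import Pool.Agent.Lib.MP_d3d358_ag.Th.PhiA

/-! The Fourier-Mukai functor, part B: the relations between the operators. -/

set_option autoImplicit false

namespace Pool.Agent.Lib.MP_d3d358_ag.Th

open Matrix Complex CategoryTheory

variable {n : ℕ} {C C' : Cr n} {κ : Ker C C'}

namespace Ker

theorem ρ1_adj_mul (m m' : C'.L) : (κ.ρ1 m')ᴴ * (κ.ρ1 m)ᴴ =
    exp (Real.pi * I * (κ.q * alt (m : Fin n → ℂ) m' : ℝ)) • (κ.ρ1 (m + m'))ᴴ := by
  rw [← conjTranspose_mul, κ.ρ1_mul, conjTranspose_smul]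
  congr 1
  change (starRingEnd ℂ) _ = _
  rw [← Complex.exp_conj, map_mul, map_mul, conj_ofReal, conj_ofReal, conj_I]
  congr 1
  push_cast; ring

theorem Tm_Tm {E : ObjL C.toLat} (hE : κ.Pos E) (m m' : C'.L) : Tm hE m ∘ₗ Tm hE m' =
    κ.Dg E (fun τ => exp (Real.pi * I * (κ.hat τ * alt (m : Fin n → ℂ) m' : ℝ))) ∘ₗ
      Tm hE (m + m') := by
  refine LinearMap.ext fun f => Subtype.ext ?_
  funext z; ext i j
  rw [LinearMap.comp_apply, LinearMap.comp_apply, Dg_apply, Tm_coe, Tm_coe, Tm_coe, TmF, TmF,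
    rows_apply, rows_apply, TmF, rows_mul, Matrix.smul_apply, rows_apply, Matrix.smul_mul,
    Matrix.mul_assoc, ρ1_adj_mul, Matrix.mul_smul, Submodule.coe_add, smul_add, sub_sub]
  simp only [Matrix.smul_apply, smul_eq_mul, ← mul_assoc]
  congr 1
  simp only [chi, hat, ← Complex.exp_add, eta_add_right, eta_sub_left, eta_rsmul_left,
    nsq_add_complex]
  congr 1
  have h2 := eta_sub_eta (m : Fin n → ℂ) m'
  push_cast at h2 ⊢
  linear_combination (-Real.pi * κ.b * κ.s (E.t i) / 2) * h2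

theorem PhiF_mulR (E F : ObjL C.toLat) (u : (Fin n → ℂ) → Matrix F.ι E.ι ℂ) (y : Fin n → ℂ)
    (f : (Fin n → ℂ) → Matrix E.ι κ.K.ι ℂ) (R : Matrix κ.K.ι κ.K.ι ℂ) (x : Fin n → ℂ) :
    κ.PhiF E F u y f x * R = κ.PhiF E F u y (fun z => f z * R) x := by
  simp only [PhiF, J, rows_mul, Matrix.mul_assoc]

theorem PhiL_Tm {E F : ObjL C.toLat} (hE : κ.Pos E) (hF : κ.Pos F) (u : HomL E F)
    (m : C'.L) (y : Fin n → ℂ) :
    PhiL hE hF u (y + m) ∘ₗ (κ.Dg E (fun τ => aut (κ.hat τ) m y) ∘ₗ Tm hE m) =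
      (κ.Dg F (fun τ => aut (κ.hat τ) m y) ∘ₗ Tm hF m) ∘ₗ PhiL hE hF u y := by
  refine LinearMap.ext fun f => Subtype.ext ?_
  funext x; ext j a
  simp only [LinearMap.comp_apply]
  rw [Dg_apply, Tm_coe, PhiL_coe, PhiL_coe, TmF, rows_apply, PhiF_mulR, Matrix.smul_apply,
    PhiF_apply, PhiF_apply, smul_eq_mul, Finset.mul_sum, Finset.mul_sum]
  refine Finset.sum_congr rfl fun i _ => ?_
  rw [Dg_apply, Tm_coe, TmF, rows_apply, Matrix.smul_apply, smul_eq_mul]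
  have e1 : x - κ.s (F.t j) • (y + m) = x - κ.s (F.t j) • (m : Fin n → ℂ) - κ.s (F.t j) • y := by
    rw [smul_add]; abel
  have e2 : x - κ.s (F.t j) • (y + m) + κ.s (E.t i) • (y + m) - κ.s (E.t i) • (m : Fin n → ℂ) =
      x - κ.s (F.t j) • (m : Fin n → ℂ) - κ.s (F.t j) • y + κ.s (E.t i) • y := by
    rw [smul_add, smul_add]; abel
  have e3 : aut (κ.hat (E.t i)) m y *
      κ.chi (E.t i) m (x - κ.s (F.t j) • (y + m) + κ.s (E.t i) • (y + m)) =
      aut (κ.hat (F.t j)) m y * κ.chi (F.t j) m x := by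
    simp only [chi, aut, hat, ← Complex.exp_add, eta_add_left, eta_sub_left, eta_rsmul_left,
      eta_self]
    congr 1
    push_cast; ring
  rw [e2, ← mul_assoc (aut _ _ _), e3, e1]
  ring

theorem act_rsmul (g : C.G) (c : ℝ) (z : Fin n → ℂ) : C.act g (c • z) = c • C.act g z :=
  (C.act g).toLinearMap.map_smul_of_tower c z

theorem act_symm_mul (g h : C.G) (z : Fin n → ℂ) :
    (C.act (g * h)).symm z = (C.act h).symm ((C.act g).symm z) := by
  rw [map_mul]; rfl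

theorem Sg_mul (E : Obj C) (g h : C.G) : κ.Sg E (g * h) = κ.Sg E g ∘ₗ κ.Sg E h := by
  refine LinearMap.ext fun f => Subtype.ext ?_
  funext z
  rw [LinearMap.comp_apply, Sg_coe, Sg_coe, Sg_coe, SgF, SgF, SgF, act_symm_mul, E.σ_mul,
    κ.K.σ_mul, conjTranspose_mul]
  simp only [Matrix.mul_assoc]

theorem Sg_Tm {E : Obj C} (hE : κ.Pos E.toObjL) (g : C'.G) (m : C'.L) :
    κ.Sg E (κ.e g) ∘ₗ Tm hE m = Tm hE (C'.actL g m) ∘ₗ κ.Sg E (κ.e g) := by
  refine LinearMap.ext fun f => Subtype.ext ?_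
  funext z
  obtain ⟨z, rfl⟩ := (C.act (κ.e g)).surjective z
  have h1 : ((C'.actL g m : C'.L) : Fin n → ℂ) = C.act (κ.e g) m := (κ.act_e g m).symm
  rw [LinearMap.comp_apply, LinearMap.comp_apply, Sg_coe, Tm_coe, Tm_coe, Sg_coe, SgF, TmF, TmF,
    LinearEquiv.symm_apply_apply, rows_mul, blk_mul_rows (E.σ_blk _)]
  refine rows_congr fun i j => ?_
  have h2 : C.act (κ.e g) z - κ.s (E.t i) • C.act (κ.e g) m =
      C.act (κ.e g) (z - κ.s (E.t i) • (m : Fin n → ℂ)) := by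
    rw [map_sub, act_rsmul]
  rw [h1, h2, SgF, LinearEquiv.symm_apply_apply, chi, chi, C.eta_act, nsq_act, Matrix.smul_mul,
    Matrix.mul_smul]
  simp only [Matrix.mul_assoc]
  rw [← conjTranspose_mul, ← conjTranspose_mul, κ.σ_ρ1]

theorem PhiL_Sg {E F : Obj C} (hE : κ.Pos E.toObjL) (hF : κ.Pos F.toObjL)
    (u : HomL E.toObjL F.toObjL) (g : C.G)
    (hu : ∀ z, u.1 (C.act g z) * E.σ g = F.σ g * u.1 z) (y : Fin n → ℂ) :
    PhiL hE hF u (C.act g y) ∘ₗ κ.Sg E g = κ.Sg F g ∘ₗ PhiL hE hF u y := by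
  refine LinearMap.ext fun f => Subtype.ext ?_
  funext z
  obtain ⟨z, rfl⟩ := (C.act g).surjective z
  rw [LinearMap.comp_apply, LinearMap.comp_apply, Sg_coe, PhiL_coe, PhiL_coe, Sg_coe, SgF,
    LinearEquiv.symm_apply_apply, PhiF_mulR, PhiF, PhiF, J, J, blk_mul_rows (F.σ_blk _)]
  refine rows_congr fun j a => ?_
  have h2 : ∀ (c : ℝ) (x w : Fin n → ℂ), C.act g x + c • C.act g w = C.act g (x + c • w) :=
    fun c x w => by rw [map_add, act_rsmul]
  rw [← map_neg, h2, ← Matrix.mul_assoc, ← hu, Matrix.mul_assoc, J, J, blk_mul_rows (E.σ_blk _)]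
  simp only [h2, SgF, LinearEquiv.symm_apply_apply]

/-- All rows of type different from `τ` vanish. -/
def Pure (E : ObjL C.toLat) (τ : ℝ) (f : κ.W E) : Prop := ∀ z i j, E.t i ≠ τ → f.1 z i j = 0

theorem Pure.Tm {E : ObjL C.toLat} (hE : κ.Pos E) {τ : ℝ} {f : κ.W E} (hf : Pure E τ f)
    (m : C'.L) : Pure E τ (Tm hE m f) := fun z i j h => by
  simp only [Tm_coe, TmF, rows_apply, Matrix.smul_apply, Matrix.mul_apply, hf _ i _ h, zero_mul,
    Finset.sum_const_zero, smul_zero]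

theorem Pure.Sg {E : Obj C} {τ : ℝ} {f : κ.W E.toObjL} (hf : Pure E.toObjL τ f) (g : C.G) :
    Pure E.toObjL τ (κ.Sg E g f) := fun z i j h => by
  rw [Sg_coe, SgF, Matrix.mul_apply]
  refine Finset.sum_eq_zero fun a _ => ?_
  by_cases e : E.σ g i a = 0
  · rw [e, zero_mul]
  · have : E.t a ≠ τ := E.σ_blk g i a e ▸ h
    simp only [Matrix.mul_apply, hf _ a _ this, zero_mul, Finset.sum_const_zero, mul_zero]

theorem Pure.Dg {E : ObjL C.toLat} {τ : ℝ} {f : κ.W E} (hf : Pure E τ f) (φ : ℝ → ℂ) :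
    κ.Dg E φ f = φ τ • f := by
  refine Subtype.ext ?_
  funext z; ext i j
  rw [Dg_apply, Submodule.coe_smul, Pi.smul_apply, Matrix.smul_apply, smul_eq_mul]
  by_cases h : E.t i = τ
  · rw [h]
  · rw [hf z i j h, mul_zero, mul_zero]

end Ker

end Pool.Agent.Lib.MP_d3d358_ag.Th
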