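import Pool.Agent.Lib.MP_d3d358_ag.Th.Defs
import Pool.Agent.Lib.MP_d3d358_ag.Th.Gauss

/-! The Gaussian mean value property and the Bargmann projector in coordinates. -/

set_option autoImplicit false

namespace Pool.Agent.Lib.MP_d3d358_ag.Th.Co

open MeasureTheory Real WithLp
open scoped InnerProductSpace

variable {n : ℕ} {E : Type*} [NormedAddCommGroup E] [NormedSpace ℂ E]
  {E' : Type*} [NormedAddCommGroup E'] [NormedSpace ℂ E']

theorem eta_eq (z w : Fin n → ℂ) : eta z w = ⟪toLp 2 w, toLp 2 z⟫_ℂ := by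
  simp [eta, PiLp.inner_apply]

theorem nsq_eq (z : Fin n → ℂ) : nsq z = ‖toLp 2 z‖ ^ 2 := by
  simp [nsq, EuclideanSpace.norm_sq_eq]

theorem finrank_eu : Module.finrank ℝ (EuclideanSpace ℂ (Fin n)) = 2 * n := by
  rw [← Module.finrank_mul_finrank ℝ ℂ, Complex.finrank_real_complex, finrank_euclideanSpace_fin]

/-- The coordinate isomorphism with the euclidean space. -/
noncomputable abbrev eu (n : ℕ) : (Fin n → ℂ) ≃L[ℂ] EuclideanSpace ℂ (Fin n) :=
  (EuclideanSpace.equiv (Fin n) ℂ).symm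

theorem me_toLp : MeasurableEmbedding (toLp 2 : (Fin n → ℂ) → EuclideanSpace ℂ (Fin n)) :=
  (eu n).toHomeomorph.measurableEmbedding

theorem gauss_int {d : ℝ} (hd : 0 < d) :
    d ^ n * ∫ w : Fin n → ℂ, rexp (-(π * d) * nsq w) = 1 := by
  have := Gauss.gauss_int (V := ℂ) (n := 1) (by simp) hd
  simp only [nsq, Finset.mul_sum, Real.exp_sum]
  rw [integral_fintype_prod_volume_eq_pow (fun z : ℂ => rexp (-(π * d) * ‖z‖ ^ 2)),
    Fintype.card_fin, ← mul_pow, (pow_one d ▸ this :), one_pow]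

theorem mp_toLp : MeasurePreserving (toLp 2 : (Fin n → ℂ) → EuclideanSpace ℂ (Fin n)) := by
  have : (volume.map (toLp 2 : (Fin n → ℂ) → EuclideanSpace ℂ (Fin n))).IsAddHaarMeasure :=
    (eu n).isAddHaarMeasure_map volume
  have h := Measure.isAddLeftInvariant_eq_smul
    (volume.map (toLp 2 : (Fin n → ℂ) → EuclideanSpace ℂ (Fin n))) volume
  have a := Gauss.gauss_int (finrank_eu (n := n)) one_pos
  have b := gauss_int (n := n) one_pos
  simp only [nsq_eq] at b
  rw [← me_toLp.integral_map (fun w => rexp (-(π * 1) * ‖w‖ ^ 2)), h, integral_smul_nnreal_measure,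
    one_pow, one_mul] at b
  rw [one_pow, one_mul] at a
  rw [a, NNReal.smul_def, smul_eq_mul, mul_one, NNReal.coe_eq_one] at b
  exact ⟨me_toLp.measurable, by rw [h, b, one_smul]⟩

theorem integrable_gauss {b : ℝ} (hb : 0 < b) :
    Integrable fun w : Fin n → ℂ => rexp (-b * nsq w) := by
  simp only [nsq_eq]
  exact (mp_toLp.integrable_comp_emb me_toLp).2 (Gauss.integrable_gauss hb)

theorem integrable_gauss_lin {b : ℝ} (hb : 0 < b) (c : ℝ) :
    Integrable fun w : Fin n → ℂ => rexp (-b * nsq w + c * √(nsq w)) := by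
  simp only [nsq_eq, sqrt_sq (norm_nonneg _)]
  exact (mp_toLp.integrable_comp_emb me_toLp).2 (Gauss.integrable_gauss_lin hb c)

/-- T1: the Gaussian mean value property. -/
theorem gauss_mean [CompleteSpace E] {d : ℝ} (hd : 0 < d) {h : (Fin n → ℂ) → E}
    (hh : Differentiable ℂ h) (hi : Integrable fun w => rexp (-(π * d) * nsq w) • h w) :
    d ^ n • ∫ w, rexp (-(π * d) * nsq w) • h w = h 0 := by
  simp only [nsq_eq] at hi ⊢
  have := Gauss.gauss_mean finrank_eu hd (h := fun x => h (ofLp x))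
    (hh.comp (eu n).symm.differentiable) ((mp_toLp.integrable_comp_emb me_toLp).1 hi)
  rwa [← mp_toLp.integral_comp me_toLp] at this

/-- A linear map keeping `eta`, on the euclidean space. -/
noncomputable def euIso (g : (Fin n → ℂ) ≃ₗ[ℂ] (Fin n → ℂ))
    (hg : ∀ z w, eta (g z) (g w) = eta z w) :
    EuclideanSpace ℂ (Fin n) ≃ₗᵢ[ℂ] EuclideanSpace ℂ (Fin n) :=
  LinearEquiv.isometryOfInner ((eu n).symm.toLinearEquiv.trans (g.trans (eu n).toLinearEquiv))
    fun _ _ => (eta_eq _ _).symm.trans ((hg _ _).trans (eta_eq _ _))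

theorem nsq_iso (g : (Fin n → ℂ) ≃ₗ[ℂ] (Fin n → ℂ)) (hg : ∀ z w, eta (g z) (g w) = eta z w)
    (z : Fin n → ℂ) : nsq (g z) = nsq z := by
  rw [nsq_eq, nsq_eq, ← (euIso g hg).norm_map (toLp 2 z)]
  rfl

theorem mp_iso (g : (Fin n → ℂ) ≃ₗ[ℂ] (Fin n → ℂ)) (hg : ∀ z w, eta (g z) (g w) = eta z w) :
    MeasurePreserving g :=
  ((mp_toLp.symm (eu n).toHomeomorph.toMeasurableEquiv).comp
    (Gauss.realIso (euIso g hg)).measurePreserving).comp mp_toLp

/-- The Bargmann kernel. -/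
noncomputable def bker (d : ℝ) (z w : Fin n → ℂ) : ℂ := Complex.exp (π * d * (eta z w - nsq w))

/-- The Bargmann projector. -/
noncomputable def Pr (d : ℝ) (a : (Fin n → ℂ) → E) (z : Fin n → ℂ) : E :=
  d ^ n • ∫ w, bker d z w • a w

/-- The growth bound of type `d` with constant `C`. -/
def Bd (d C : ℝ) (a : (Fin n → ℂ) → E) : Prop := ∀ w, ‖a w‖ ≤ C * rexp (π * d * nsq w / 2)

theorem bker_eq (d : ℝ) (z w : Fin n → ℂ) : bker d z w = Gauss.ker d (toLp 2 z) (toLp 2 w) := by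
  rw [bker, Gauss.ker, eta_eq, nsq_eq, Complex.ofReal_mul]

theorem Pr_eq (d : ℝ) (a : (Fin n → ℂ) → E) (z : Fin n → ℂ) :
    Pr d a z = Gauss.Pr n d (fun x => a (ofLp x)) (toLp 2 z) := by
  rw [Pr, Gauss.Pr, ← mp_toLp.integral_comp me_toLp]
  simp only [bker_eq]

omit [NormedSpace ℂ E] in
theorem Bd.eu {d C : ℝ} {a : (Fin n → ℂ) → E} (h : Bd d C a) :
    Gauss.Bd d C fun x : EuclideanSpace ℂ (Fin n) => a (ofLp x) := fun x => by
  simpa only [nsq_eq] using h (ofLp x)

omit [NormedSpace ℂ E] in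
theorem Bd.nonneg {d C : ℝ} {a : (Fin n → ℂ) → E} (h : Bd d C a) : 0 ≤ C := h.eu.nonneg

theorem norm_bker (d : ℝ) (z w : Fin n → ℂ) : ‖bker d z w‖ * rexp (π * d * nsq w / 2) =
    rexp (π * d * nsq z / 2) * rexp (-(π * (d / 2)) * nsq (w - z)) := by
  simpa only [bker_eq, nsq_eq, toLp_sub] using Gauss.norm_ker d (toLp 2 z) (toLp 2 w)

theorem continuous_bker (d : ℝ) (z : Fin n → ℂ) : Continuous (bker d z) := by
  rw [funext (bker_eq d z)]
  exact (Gauss.continuous_ker d _).comp (eu n).continuous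

theorem Bd.integrable {d C : ℝ} (hd : 0 < d) {a : (Fin n → ℂ) → E} (h : Bd d C a)
    (ha : Continuous a) (z : Fin n → ℂ) : Integrable fun w => bker d z w • a w := by
  simp only [bker_eq]
  exact (mp_toLp.integrable_comp_emb me_toLp).2
    (h.eu.integrable hd (ha.comp (Co.eu n).symm.continuous) (toLp 2 z))

/-- T2: the norm bound. -/
theorem Bd.Pr {d C : ℝ} (hd : 0 < d) {a : (Fin n → ℂ) → E} (h : Bd d C a) :
    Bd d (2 ^ n * C) (Pr d a) := fun z => by
  rw [Pr_eq, nsq_eq]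
  exact h.eu.Pr finrank_eu hd _

/-- T2: the projection is entire. -/
theorem Bd.differentiable {d C : ℝ} (hd : 0 < d) {a : (Fin n → ℂ) → E} (h : Bd d C a)
    (ha : Continuous a) : Differentiable ℂ (Co.Pr d a) := by
  rw [funext (Pr_eq d a)]
  exact (h.eu.differentiable hd (ha.comp (Co.eu n).symm.continuous)).comp (Co.eu n).differentiable

/-- T2: entire functions are reproduced. -/
theorem Bd.Pr_self [CompleteSpace E] {d C : ℝ} (hd : 0 < d) {a : (Fin n → ℂ) → E} (h : Bd d C a)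
    (ha : Differentiable ℂ a) : Co.Pr d a = a := funext fun z => by
  rw [Pr_eq, h.eu.Pr_self finrank_eu hd (ha.comp (Co.eu n).symm.differentiable)]

/-- T2: linear maps on the values. -/
theorem Bd.Pr_map [CompleteSpace E] [CompleteSpace E'] {d C : ℝ} (hd : 0 < d)
    {a : (Fin n → ℂ) → E} (h : Bd d C a) (ha : Continuous a) (L : E →L[ℂ] E') (z : Fin n → ℂ) :
    Co.Pr d (fun w => L (a w)) z = L (Co.Pr d a z) := by
  rw [Pr_eq, Pr_eq]
  exact h.eu.Pr_map n hd (ha.comp (Co.eu n).symm.continuous) L _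

/-- T2: isometries of the source. -/
theorem Pr_iso (d : ℝ) (g : (Fin n → ℂ) ≃ₗ[ℂ] (Fin n → ℂ)) (hg : ∀ z w, eta (g z) (g w) = eta z w)
    (a : (Fin n → ℂ) → E) (z : Fin n → ℂ) : Pr d (fun w => a (g w)) z = Pr d a (g z) := by
  rw [Pr_eq, Pr_eq]
  exact Gauss.Pr_comp n d (euIso g hg) (fun x => a (ofLp x)) _

/-- T2: translations. If `a (w + l) = aut d l w • b w` then the same holds after projection. -/
theorem Pr_aut (d : ℝ) (l : Fin n → ℂ) {a b : (Fin n → ℂ) → E}
    (h : ∀ w, a (w + l) = aut d l w • b w) (z : Fin n → ℂ) :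
    Pr d a (z + l) = aut d l z • Pr d b z := by
  have key : ∀ (f : EuclideanSpace ℂ (Fin n) → E) (w : Fin n → ℂ),
      Gauss.tr d (toLp 2 l) f (toLp 2 (w + l)) = aut d l w • f (toLp 2 w) := fun f w => by
    rw [Gauss.tr, toLp_add, add_sub_cancel_right, aut, eta_eq, nsq_eq, inner_add_right,
      inner_self_eq_norm_sq_to_K]
    congr 2
    push_cast
    simp only [Complex.coe_algebraMap]
    ring
  have e : (fun x : EuclideanSpace ℂ (Fin n) => a (ofLp x)) =
      Gauss.tr d (toLp 2 l) fun x => b (ofLp x) := funext fun x => by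
    have := key (fun x => b (ofLp x)) (ofLp x - l)
    rw [← h, sub_add_cancel] at this
    exact this.symm
  rw [Pr_eq, e, Gauss.Pr_tr, key, Pr_eq]

end Pool.Agent.Lib.MP_d3d358_ag.Th.Co
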