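import Pool.Agent.Lib.MP_d3d358_ag.Th.Mean
import Pool.Agent.Lib.MP_d3d358_ag.Th.LatSum
import Pool.Agent.Lib.MP_d3d358_ag.Th.Proj

/-! The entrywise Bargmann projection sends continuous matrix functions with automorphy to
entire ones. -/

set_option autoImplicit false

namespace Pool.Agent.Lib.MP_d3d358_ag.Th

open Matrix Complex MeasureTheory Filter

variable {n : ℕ} {Λ : Lat n}

theorem Pr_eq_Co (d : ℝ) (a : (Fin n → ℂ) → ℂ) : Pr d a = Co.Pr d a := by
  funext z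
  simp only [Pr, Co.Pr, Co.bker, smul_eq_mul, Complex.real_smul, Complex.ofReal_pow]

theorem Pr_diff {d M : ℝ} (hd : 0 < d) {a : (Fin n → ℂ) → ℂ} (ha : Continuous a) (hb : Bd d M a) :
    Differentiable ℂ (Pr d a) := by
  rw [Pr_eq_Co]
  exact Co.Bd.differentiable hd hb ha

theorem Pr_act (C : Cr n) (d : ℝ) (g : C.G) (a : (Fin n → ℂ) → ℂ) (z : Fin n → ℂ) :
    Pr d (fun w => a (C.act g w)) z = Pr d a (C.act g z) := by
  rw [Pr_eq_Co, Pr_eq_Co]
  exact Co.Pr_iso d (C.act g) (C.eta_act g) a z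

theorem Pr_const_mul (d : ℝ) (c : ℂ) (a : (Fin n → ℂ) → ℂ) (z : Fin n → ℂ) :
    Pr d (fun w => c * a w) z = c * Pr d a z := by
  simp only [Pr, mul_left_comm _ c, integral_const_mul]

theorem Pr_zero (d : ℝ) (z : Fin n → ℂ) : Pr d (fun _ => 0) z = 0 := by simp [Pr]

theorem Pr_sum {α : Type} (s : Finset α) (d : ℝ) (a : α → (Fin n → ℂ) → ℂ) (z : Fin n → ℂ)
    (h : ∀ x ∈ s, Integrable fun w => exp (Real.pi * d * (eta z w - nsq w)) * a x w) :
    Pr d (fun w => ∑ x ∈ s, a x w) z = ∑ x ∈ s, Pr d (a x) z := by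
  simp only [Pr, Finset.mul_sum]
  rw [integral_finsetSum _ h, Finset.mul_sum]

theorem Pr_add {d : ℝ} {a b : (Fin n → ℂ) → ℂ} {z : Fin n → ℂ}
    (ha : Integrable fun w => exp (Real.pi * d * (eta z w - nsq w)) * a w)
    (hb : Integrable fun w => exp (Real.pi * d * (eta z w - nsq w)) * b w) :
    Pr d (fun w => a w + b w) z = Pr d a z + Pr d b z := by
  simp only [Pr, mul_add]
  rw [integral_add ha hb, mul_add]

theorem aut_sub (s t : ℝ) (l z : Fin n → ℂ) : aut (s - t) l z = aut s l z * (aut t l z)⁻¹ := by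
  rw [eq_mul_inv_iff_mul_eq₀ (aut_ne t l z), ← aut_add, sub_add_cancel]

/-- The automorphy condition, entry by entry. -/
theorem lat_iff {E F : ObjL Λ} (X Y : Matrix F.ι E.ι ℂ) (l : Λ.L) (z : Fin n → ℂ) :
    X * E.fac l z = F.fac l z * Y ↔
      ∀ i j, X i j = aut (F.t i - E.t j) l z * (F.ρ l * Y * (E.ρ l)ᴴ) i j := by
  have e : X * E.fac l z = F.fac l z * Y ↔ X = F.fac l z * Y * E.inv l z :=
    ⟨fun h => by rw [← h, Matrix.mul_assoc, E.fac_inv, Matrix.mul_one],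
      fun h => by rw [h, Matrix.mul_assoc, E.inv_fac, Matrix.mul_one]⟩
  rw [e, ← Matrix.ext_iff]
  refine forall₂_congr fun i j => ?_
  rw [ObjL.fac, ObjL.inv, ← Matrix.mul_assoc, mul_diagonal, Matrix.mul_assoc (diagonal _),
    Matrix.mul_assoc (diagonal _), diagonal_mul, aut_sub, mul_right_comm]

theorem conj_apply {α β γ δ : Type} [Fintype β] [Fintype γ] (U : Matrix α β ℂ) (Y : Matrix β γ ℂ)
    (W : Matrix δ γ ℂ) (i : α) (j : δ) :
    (U * Y * Wᴴ) i j = ∑ x : β × γ, (U i x.1 * star (W j x.2)) * Y x.1 x.2 := by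
  simp only [Matrix.mul_apply, conjTranspose_apply, Finset.sum_mul, Fintype.sum_prod_type_right]
  exact Finset.sum_congr rfl fun _ _ => Finset.sum_congr rfl fun _ _ => by ring

theorem norm_entry_le_one {ι : Type} [Fintype ι] [DecidableEq ι] {U : Matrix ι ι ℂ}
    (h : Uᴴ * U = 1) (i j : ι) : ‖U i j‖ ≤ 1 :=
  entry_norm_bound_of_unitary (mem_unitaryGroup_iff'.2 h) i j

theorem HomC.entry {E F : ObjL Λ} {a : (Fin n → ℂ) → Matrix F.ι E.ι ℂ} (ha : a ∈ HomC E F)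
    (l : Λ.L) (z : Fin n → ℂ) (i : F.ι) (j : E.ι) : a (z + l) i j = aut (F.t i - E.t j) l z *
      ∑ x : F.ι × E.ι, (F.ρ l i x.1 * star (E.ρ l j x.2)) * a z x.1 x.2 := by
  rw [(lat_iff _ _ l z).1 (ha.2 l z) i j, conj_apply]

theorem type_eq_of_ne {E F : ObjL Λ} (l : Λ.L) {i p : F.ι} {j q : E.ι}
    (h : F.ρ l i p * star (E.ρ l j q) ≠ 0) : F.t i - E.t j = F.t p - E.t q := by
  rw [F.ρ_blk l i p (left_ne_zero_of_mul h),
    E.ρ_blk l j q (star_ne_zero.1 (right_ne_zero_of_mul h))]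

/-- The normalised entries at a translated point are bounded by those at the point. -/
theorem HomC.norm_shift_le {E F : ObjL Λ} {a : (Fin n → ℂ) → Matrix F.ι E.ι ℂ} (ha : a ∈ HomC E F)
    (l : Λ.L) (z : Fin n → ℂ) (i : F.ι) (j : E.ι) :
    ‖a (z + l) i j‖ ≤ (∑ x : F.ι × E.ι, ‖a z x.1 x.2‖ *
      Real.exp (-(Real.pi * (F.t x.1 - E.t x.2) * nsq z / 2))) *
        Real.exp (Real.pi * (F.t i - E.t j) * nsq (z + (l : Fin n → ℂ)) / 2) := by
  rw [HomC.entry ha, norm_mul, norm_aut, Finset.sum_mul]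
  refine (mul_le_mul_of_nonneg_left (norm_sum_le _ _) (Real.exp_pos _).le).trans ?_
  rw [Finset.mul_sum]
  refine Finset.sum_le_sum fun x _ => ?_
  by_cases h : F.ρ l i x.1 * star (E.ρ l j x.2) = 0
  · rw [h, zero_mul, norm_zero, mul_zero]; positivity
  · have h1 : ‖F.ρ l i x.1 * star (E.ρ l j x.2)‖ ≤ 1 := by
      rw [norm_mul, norm_star]
      exact mul_le_one₀ (norm_entry_le_one (F.ρ_unit l) _ _) (norm_nonneg _)
        (norm_entry_le_one (E.ρ_unit l) _ _)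
    rw [← type_eq_of_ne l h, mul_assoc ‖a z x.1 x.2‖, ← Real.exp_add, norm_mul, mul_comm]
    refine mul_le_mul (mul_le_of_le_one_left (norm_nonneg _) h1) (le_of_eq ?_) (Real.exp_pos _).le
      (norm_nonneg _)
    congr 1; ring

theorem isCompact_nsq_le (R : ℝ) : IsCompact {z : Fin n → ℂ | nsq z ≤ R} :=
  (isCompact_closedBall (0 : Fin n → ℂ) (Real.sqrt R)).of_isClosed_subset
    (isClosed_le continuous_nsq continuous_const) fun z hz => by
      rw [mem_closedBall_zero_iff]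
      exact Real.le_sqrt_of_sq_le ((norm_sq_le_nsq z).trans hz)

theorem HomC_bd {E F : ObjL Λ} {a : (Fin n → ℂ) → Matrix F.ι E.ι ℂ} (ha : a ∈ HomC E F) :
    ∃ M, 0 ≤ M ∧ ∀ i j, Bd (F.t i - E.t j) M fun z => a z i j := by
  obtain ⟨R, hR⟩ := Λ.exists_near
  have hc : Continuous fun z => ∑ x : F.ι × E.ι, ‖a z x.1 x.2‖ *
      Real.exp (-(Real.pi * (F.t x.1 - E.t x.2) * nsq z / 2)) :=
    continuous_finsetSum _ fun x _ => (ha.1 x.1 x.2).norm.mul (by fun_prop)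
  obtain ⟨M, hM⟩ := (isCompact_nsq_le (n := n) R).bddAbove_image hc.continuousOn
  refine ⟨max M 0, le_max_right _ _, fun i j z => ?_⟩
  obtain ⟨l, hl⟩ := hR z
  have h := HomC.norm_shift_le ha l (z - l) i j
  rw [sub_add_cancel] at h
  exact h.trans (mul_le_mul_of_nonneg_right
    ((hM (Set.mem_image_of_mem _ hl)).trans (le_max_left _ _)) (Real.exp_pos _).le)

theorem HomC.integrable {E F : ObjL Λ} (h : ∀ i j, E.t j < F.t i)
    {a : (Fin n → ℂ) → Matrix F.ι E.ι ℂ} (ha : a ∈ HomC E F) (i : F.ι) (j : E.ι) (z : Fin n → ℂ) :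
    Integrable fun w => exp (Real.pi * (F.t i - E.t j : ℝ) * (eta z w - nsq w)) * a w i j := by
  obtain ⟨M, -, hM⟩ := HomC_bd ha
  exact Pr_integrable (sub_pos.2 (h i j)) (ha.1 i j) (hM i j) z

/-- The projection of a combination of entries whose coefficients respect the types. -/
theorem Pr_comb {E F : ObjL Λ} (h : ∀ i j, E.t j < F.t i) {a : (Fin n → ℂ) → Matrix F.ι E.ι ℂ}
    (ha : a ∈ HomC E F) (d : ℝ) (c : F.ι × E.ι → ℂ) (hc : ∀ x, c x ≠ 0 → d = F.t x.1 - E.t x.2)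
    (z : Fin n → ℂ) :
    Pr d (fun w => ∑ x, c x * a w x.1 x.2) z = ∑ x, c x * PrM E F a z x.1 x.2 := by
  rw [Pr_sum]
  · refine Finset.sum_congr rfl fun x _ => ?_
    by_cases e : c x = 0
    · simp [e, Pr_zero]
    · rw [Pr_const_mul, hc x e]; rfl
  · intro x _
    by_cases e : c x = 0
    · simp [e]
    · simp only [mul_left_comm _ (c x)]
      rw [hc x e]
      exact (HomC.integrable h ha x.1 x.2 z).const_mul _

theorem PrM_mem {E F : ObjL Λ} (h : ∀ i j, E.t j < F.t i) {a : (Fin n → ℂ) → Matrix F.ι E.ι ℂ}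
    (ha : a ∈ HomC E F) : PrM E F a ∈ HomL E F := by
  obtain ⟨M, -, hM⟩ := HomC_bd ha
  refine ⟨fun i j => Pr_diff (sub_pos.2 (h i j)) (ha.1 i j) (hM i j), fun l z => ?_⟩
  rw [lat_iff]
  intro i j
  rw [conj_apply, ← Pr_comb h ha (F.t i - E.t j) _ (fun x hx => type_eq_of_ne l hx), PrM, of_apply,
    Pr_shift]
  congr 2
  funext w
  rw [HomC.entry ha, inv_mul_cancel_left₀ (aut_ne _ _ _)]

theorem PrM_add {E F : ObjL Λ} (h : ∀ i j, E.t j < F.t i) {a b : (Fin n → ℂ) → Matrix F.ι E.ι ℂ}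
    (ha : a ∈ HomC E F) (hb : b ∈ HomC E F) : PrM E F (a + b) = PrM E F a + PrM E F b := by
  funext z
  ext i j
  exact Pr_add (HomC.integrable h ha i j z) (HomC.integrable h hb i j z)

theorem PrM_smul (E F : ObjL Λ) (c : ℂ) (a : (Fin n → ℂ) → Matrix F.ι E.ι ℂ) :
    PrM E F (c • a) = c • PrM E F a := by
  funext z
  ext i j
  exact Pr_const_mul _ c _ z

/-- The projection fixes the entire functions. -/
theorem PrM_self {E F : ObjL Λ} (h : ∀ i j, E.t j < F.t i) {a : (Fin n → ℂ) → Matrix F.ι E.ι ℂ}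
    (ha : a ∈ HomL E F) : PrM E F a = a := by
  obtain ⟨M, -, hM⟩ := HomC_bd (HomL_le_HomC E F ha)
  funext z
  ext i j
  exact congrFun (Pr_self (sub_pos.2 (h i j)) (ha.1 i j) (hM i j)) z

/-- The projection commutes with the finite group. -/
theorem PrM_act {C : Cr n} {E F : Obj C} (h : ∀ i j, E.t j < F.t i)
    {a : (Fin n → ℂ) → Matrix F.ι E.ι ℂ} (ha : a ∈ HomC E.toObjL F.toObjL) (g : C.G)
    (hg : ∀ z, a (C.act g z) * E.σ g = F.σ g * a z) (z : Fin n → ℂ) :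
    PrM E.toObjL F.toObjL a (C.act g z) * E.σ g = F.σ g * PrM E.toObjL F.toObjL a z := by
  have e : ∀ X Y : Matrix F.ι E.ι ℂ, X * E.σ g = F.σ g * Y ↔ X = F.σ g * Y * (E.σ g)ᴴ := fun X Y =>
    ⟨fun h => by rw [← h, Matrix.mul_assoc, E.σ_unit', Matrix.mul_one],
      fun h => by rw [h, Matrix.mul_assoc, E.σ_unit, Matrix.mul_one]⟩
  rw [e]
  ext i j
  rw [conj_apply, ← Pr_comb h ha (F.t i - E.t j) _ (fun x hx => by
    rw [F.σ_blk g i x.1 (left_ne_zero_of_mul hx),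
      E.σ_blk g j x.2 (star_ne_zero.1 (right_ne_zero_of_mul hx))]), PrM, of_apply, ← Pr_act]
  congr 1
  funext w
  rw [(e _ _).1 (hg w), conj_apply]

end Pool.Agent.Lib.MP_d3d358_ag.Th
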