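import Pool.Agent.Lib.MP_d3d358_ag.Th.Split

/-! Finite generation of the module of sections of all twists of a theta bundle. -/

set_option autoImplicit false

namespace Pool.Agent.Lib.MP_d3d358_ag.Th

open Matrix Complex CategoryTheory Limits

variable {n : ℕ} {C : Cr n}

theorem mem_Sec_tw {E : Obj C} {a : ℤ} {s : (Fin n → ℂ) → E.ι → ℂ} :
    s ∈ Sec (twObj a E).toObjL ↔ (∀ i, Differentiable ℂ fun z => s z i) ∧
      ∀ (l : C.L) z, s (z + l) = aut (a * C.k) l z • (E.fac l z *ᵥ s z) :=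
  and_congr Iff.rfl (forall₂_congr fun l z => by rw [fac_tw, smul_mulVec])

/-- A theta function times a section. -/
theorem Sec.theta_smul {E : Obj C} {a d b : ℤ} (h : a + d = b) {y : (Fin n → ℂ) → ℂ}
    (hy : y ∈ Theta C.toLat (d * C.k)) {s : (Fin n → ℂ) → E.ι → ℂ}
    (hs : s ∈ Sec (twObj a E).toObjL) : (fun z => y z • s z) ∈ Sec (twObj b E).toObjL := by
  rw [mem_Sec_tw] at hs ⊢
  refine ⟨fun i => hy.1.mul (hs.1 i), fun l z => ?_⟩
  rw [hs.2, hy.2 l l.2, mulVec_smul, smul_smul, smul_smul, ← h, Int.cast_add, add_mul, aut_add]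
  congr 1; ring

/-- A morphism applied to a section. -/
theorem Sec.map {E F : Obj C} (u : E ⟶ F) {a : ℤ} {s : (Fin n → ℂ) → E.ι → ℂ}
    (hs : s ∈ Sec (twObj a E).toObjL) : (fun z => val u z *ᵥ s z) ∈ Sec (twObj a F).toObjL := by
  rw [mem_Sec_tw] at hs ⊢
  refine ⟨fun i => ?_, fun l z => ?_⟩
  · simp only [mulVec, dotProduct]
    exact Differentiable.fun_sum fun j _ => (val_diff u i j).mul (hs.1 j)
  · rw [hs.2, mulVec_smul, mulVec_mulVec, val_lat, mulVec_mulVec]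

/-- The finite group acts on the sections. -/
theorem Sec.act {E : Obj C} {a : ℤ} {s : (Fin n → ℂ) → E.ι → ℂ} (hs : s ∈ Sec (twObj a E).toObjL)
    (g : C.G) : (fun z => E.σ g *ᵥ s (C.act g⁻¹ z)) ∈ Sec (twObj a E).toObjL := by
  rw [mem_Sec_tw]
  let u := ofSec E (-a) s (by rwa [neg_neg])
  refine ⟨fun i => val_diff u i g, fun l z => funext fun i => ?_⟩
  have e := congrFun (congrFun (val_lat u l z) i) g
  rw [fac_F0, Matrix.mul_smul, Matrix.mul_one] at e
  have e' : aut ((-a : ℤ) * C.k) l z * (E.σ g *ᵥ s (C.act g⁻¹ (z + l))) i =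
    (E.fac l z *ᵥ (E.σ g *ᵥ s (C.act g⁻¹ z))) i := e
  rw [Pi.smul_apply, ← e', smul_eq_mul, ← mul_assoc, ← aut_add, Int.cast_neg, neg_mul,
    add_neg_cancel, aut_zero, one_mul]

/-- A column of a morphism `F0(a) ⟶ E(b)` is a section of `E(b - a)`. -/
theorem col_mem_Sec {E : Obj C} {a b c : ℤ} (h : a + c = b) (u : twObj a (F0 C) ⟶ twObj b E)
    (g : C.G) : (fun z i => val u z i g) ∈ Sec (twObj c E).toObjL := by
  rw [mem_Sec_tw]
  refine ⟨fun i => val_diff u i g, fun l z => funext fun i => ?_⟩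
  have e := congrFun (congrFun (val_lat u l z) i) g
  have hb : (b : ℝ) = a + c := by exact_mod_cast h.symm
  rw [fac_F0, fac_tw, Matrix.mul_smul, Matrix.mul_one, Matrix.smul_mul, hb, add_mul, aut_add] at e
  have e' : aut (a * C.k) l z * val u (z + l) i g = aut (a * C.k) l z * aut (c * C.k) l z *
    (E.fac l z *ᵥ fun i => val u z i g) i := e
  rw [mul_assoc] at e'
  exact mul_left_cancel₀ (aut_ne _ _ _) e'

/-- In large degree the sections are generated by the sections of the previous degree. -/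
theorem Sec_gen {ι : Type} [Fintype ι] (y : ι → (Fin n → ℂ) → ℂ) (hy : ∀ i, y i ∈ Inv C 1)
    (h0 : ∀ z, ∃ i, y i z ≠ 0) (E : Obj C) : ∃ c : ℤ, ∀ a, c ≤ a →
      ∀ s ∈ Sec (twObj (a + 1) E).toObjL, ∃ t : ι → (Fin n → ℂ) → E.ι → ℂ,
        (∀ i, t i ∈ Sec (twObj a E).toObjL) ∧ ∀ z, s z = ∑ i, y i z • t i z := by
  classical
  let p : ∀ _ : ι, twObj (-1) E ⟶ twObj 0 E := fun i => mul E (-1) 0 (y i) (hy i) (by omega)
  have hp : JSurj p := fun z x => by
    obtain ⟨i, hi⟩ := h0 z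
    refine ⟨Pi.single i ((y i z)⁻¹ • x), ?_⟩
    rw [Finset.sum_eq_single i (fun j _ hj => by rw [Pi.single_eq_of_ne hj, mulVec_zero])
      (by simp), Pi.single_eq_same, val_mul, smul_mulVec, one_mulVec, smul_smul,
      mul_inv_cancel₀ hi, one_smul]
  obtain ⟨b, hb⟩ := hp.lift
  obtain ⟨c, hc⟩ := exists_int_le (F0 C) b
  refine ⟨-c, fun a ha s hs => ?_⟩
  obtain ⟨q, hq⟩ := hb _ (hc (-(a + 1)) (by omega))
    (ofSec E (-(a + 1)) s (by rwa [neg_neg]) ≫ (tw0 E).hom)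
  refine ⟨fun i z j => val (q i) z j (1 : C.G), fun i => col_mem_Sec (by omega) (q i) 1,
    fun z => funext fun j => ?_⟩
  have e := congrFun (congrFun (congrArg (fun f => val f z) hq) j) (1 : C.G)
  have e1 : val (ofSec E (-(a + 1)) s (by rwa [neg_neg]) ≫ (tw0 E).hom) z j (1 : C.G) = s z j :=
    (congrFun (congrFun (Matrix.one_mul _) j) _).trans (val_ofSec_one E _ s _ z j)
  rw [← e1, ← e, val_sum, Matrix.sum_apply, Finset.sum_apply]
  refine Finset.sum_congr rfl fun i _ => ?_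
  rw [val_comp, val_mul, Matrix.smul_mul, Matrix.one_mul]
  rfl

end Pool.Agent.Lib.MP_d3d358_ag.Th
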