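import Mathlib

/-! Abstract vanishing lemma: a triangulated functor is bijective on morphisms as soon as it is so
after inverting a map whose cocones are already good. -/

set_option autoImplicit false
set_option linter.unusedSectionVars false

namespace Pool.Agent.Lib.MP_d3d358_ag.Van

open CategoryTheory Limits Pretriangulated ZeroObject

variable {K D : Type*} [Category K] [Category D] [Preadditive K] [Preadditive D]

section
variable (A : K ⥤ D)

/-- `A` is onto on morphisms `F ⟶ X`. -/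
def Sur (F X : K) : Prop := ∀ e : A.obj F ⟶ A.obj X, ∃ x : F ⟶ X, A.map x = e

/-- `A` is injective on morphisms `F ⟶ X`. -/
def Inj (F X : K) : Prop := ∀ x : F ⟶ X, A.map x = 0 → x = 0

/-- Onto in the colimit along the chain `X`. -/
def LocS (F : K) (X : ℕ ⥤ K) : Prop :=
  ∀ (j : ℕ) (e : A.obj F ⟶ A.obj (X.obj j)), ∃ (i : ℕ) (h : j ≤ i) (x : F ⟶ X.obj i),
    A.map x = e ≫ A.map (X.map (homOfLE h))

/-- Injective in the colimit along the chain `X`. -/
def LocI (F : K) (X : ℕ ⥤ K) : Prop :=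
  ∀ (j : ℕ) (x : F ⟶ X.obj j), A.map x = 0 → ∃ (i : ℕ) (h : j ≤ i), x ≫ X.map (homOfLE h) = 0

variable {A}

theorem bijective_iff [A.Additive] (F X : K) :
    Function.Bijective (A.map : (F ⟶ X) → (A.obj F ⟶ A.obj X)) ↔ Sur A F X ∧ Inj A F X := by
  refine ⟨fun h => ⟨h.2, fun x hx => h.1 (hx.trans (A.map_zero _ _).symm)⟩,
    fun h => ⟨fun x y hxy => sub_eq_zero.1 (h.2 _ ?_), h.1⟩⟩
  rw [A.map_sub, hxy, sub_self]

theorem Sur.of_retract {F F' X X' : K} (r : Retract F' F) (s : Retract X' X) (h : Sur A F X) :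
    Sur A F' X' := fun e => by
  obtain ⟨x, hx⟩ := h (A.map r.r ≫ e ≫ A.map s.i)
  refine ⟨r.i ≫ x ≫ s.r, ?_⟩
  rw [A.map_comp, A.map_comp, hx]
  simp only [Category.assoc, ← A.map_comp, ← A.map_comp_assoc, r.retract, s.retract, A.map_id,
    Category.comp_id, Category.id_comp]

theorem Inj.of_retract [A.Additive] {F F' X X' : K} (r : Retract F' F) (s : Retract X' X)
    (h : Inj A F X) : Inj A F' X' := fun x hx => by
  have h1 : r.r ≫ x ≫ s.i = 0 := h _ (by rw [A.map_comp, A.map_comp, hx]; simp)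
  have h2 : x = r.i ≫ (r.r ≫ x ≫ s.i) ≫ s.r := by simp
  rw [h2, h1]; simp

theorem Sur.of_iso {F F' X X' : K} (r : F' ≅ F) (s : X' ≅ X) (h : Sur A F X) : Sur A F' X' :=
  h.of_retract r.retract s.retract

theorem Inj.of_iso [A.Additive] {F F' X X' : K} (r : F' ≅ F) (s : X' ≅ X) (h : Inj A F X) :
    Inj A F' X' := h.of_retract r.retract s.retract

omit [Preadditive K] in
theorem chain_comp (X : ℕ ⥤ K) {i j k : ℕ} (h : i ≤ j) (h' : j ≤ k) :
    X.map (homOfLE h) ≫ X.map (homOfLE h') = X.map (homOfLE (h.trans h')) := by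
  rw [← X.map_comp]; rfl

theorem LocS.of_retract {F : K} {X X' : ℕ ⥤ K} (s : Retract X' X) (h : LocS A F X) :
    LocS A F X' := fun j e => by
  obtain ⟨i, hi, x, hx⟩ := h j (e ≫ A.map (s.i.app j))
  refine ⟨i, hi, x ≫ s.r.app i, ?_⟩
  rw [A.map_comp, hx, Category.assoc, Category.assoc, ← A.map_comp, ← A.map_comp,
    s.r.naturality, ← NatTrans.comp_app_assoc, s.retract]
  simp

theorem LocI.of_retract [A.Additive] {F : K} {X X' : ℕ ⥤ K} (s : Retract X' X)
    (h : LocI A F X) : LocI A F X' := fun j x hx => by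
  obtain ⟨i, hi, h1⟩ := h j (x ≫ s.i.app j) (by rw [A.map_comp, hx, zero_comp])
  refine ⟨i, hi, ?_⟩
  have h2 := h1 =≫ s.r.app i
  rwa [Category.assoc, Category.assoc, s.r.naturality, ← NatTrans.comp_app_assoc, s.retract,
    NatTrans.id_app, Category.id_comp, zero_comp] at h2

/-- Exactness of a pair of maps of chains, tested on `F` before and after `A`. -/
structure Ex (A : K ⥤ D) (F : K) {X Y Z : ℕ ⥤ K} (f : X ⟶ Y) (g : Y ⟶ Z) : Prop where
  zero : ∀ j, f.app j ≫ g.app j = 0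
  src : ∀ (j : ℕ) (x : F ⟶ Y.obj j), x ≫ g.app j = 0 → ∃ w, x = w ≫ f.app j
  tgt : ∀ (j : ℕ) (e : A.obj F ⟶ A.obj (Y.obj j)), e ≫ A.map (g.app j) = 0 →
    ∃ w, e = w ≫ A.map (f.app j)

theorem LocS.four [A.Additive] {F : K} {X Y Z W : ℕ ⥤ K} {f : X ⟶ Y} {g : Y ⟶ Z} {k : Z ⟶ W}
    (e1 : Ex A F f g) (e2 : Ex A F g k) (hX : LocS A F X) (hZ : LocS A F Z) (hW : LocI A F W) :
    LocS A F Y := fun j e => by
  obtain ⟨a, ha, z, hz⟩ := hZ j (e ≫ A.map (g.app j))
  obtain ⟨b, hb, h1⟩ := hW a (z ≫ k.app a) (by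
    rw [A.map_comp, hz, Category.assoc, Category.assoc, ← A.map_comp, ← A.map_comp,
      k.naturality, reassoc_of% e2.zero j]; simp)
  rw [Category.assoc, ← k.naturality, ← Category.assoc] at h1
  obtain ⟨y, hy⟩ := e2.src b _ h1
  obtain ⟨w, hw⟩ := e1.tgt b (e ≫ A.map (Y.map (homOfLE (ha.trans hb))) - A.map y) (by
    rw [Preadditive.sub_comp, ← A.map_comp, ← hy, A.map_comp, hz, Category.assoc, Category.assoc,
      Category.assoc, ← A.map_comp, ← A.map_comp, ← A.map_comp, chain_comp, g.naturality, sub_self])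
  obtain ⟨c, hc, x, hx⟩ := hX b w
  refine ⟨c, (ha.trans hb).trans hc, x ≫ f.app c + y ≫ Y.map (homOfLE hc), ?_⟩
  rw [A.map_add, A.map_comp, hx, Category.assoc, ← A.map_comp, f.naturality, A.map_comp,
    ← Category.assoc, ← hw, A.map_comp, ← Preadditive.add_comp, sub_add_cancel, Category.assoc,
    ← A.map_comp, chain_comp]

theorem LocI.four [A.Additive] {F : K} {W X Y Z : ℕ ⥤ K} {k : W ⟶ X} {f : X ⟶ Y} {g : Y ⟶ Z}
    (e1 : Ex A F k f) (e2 : Ex A F f g) (hW : LocS A F W) (hX : LocI A F X) (hZ : LocI A F Z) :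
    LocI A F Y := fun j y hy => by
  obtain ⟨a, ha, h1⟩ := hZ j (y ≫ g.app j) (by rw [A.map_comp, hy, zero_comp])
  rw [Category.assoc, ← g.naturality, ← Category.assoc] at h1
  obtain ⟨x, hx⟩ := e2.src a _ h1
  obtain ⟨e, he⟩ := e1.tgt a (A.map x) (by rw [← A.map_comp, ← hx, A.map_comp, hy, zero_comp])
  obtain ⟨b, hb, w, hw⟩ := hW a e
  obtain ⟨c, hc, h2⟩ := hX b (x ≫ X.map (homOfLE hb) - w ≫ k.app b) (by
    rw [A.map_sub, A.map_comp, A.map_comp, he, hw, Category.assoc, Category.assoc, ← A.map_comp,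
      ← A.map_comp, k.naturality, sub_self])
  refine ⟨c, (ha.trans hb).trans hc, ?_⟩
  have h3 := h2 =≫ f.app c
  rw [Category.assoc, f.naturality, Preadditive.sub_comp, Category.assoc, Category.assoc,
    reassoc_of% e1.zero b, f.naturality_assoc, ← Category.assoc, ← hx, Category.assoc,
    chain_comp, chain_comp] at h3
  simpa using h3

end

section
variable [HasZeroObject K] [HasShift K ℤ] [∀ n : ℤ, (shiftFunctor K n).Additive]
  [Pretriangulated K] [HasZeroObject D] [HasShift D ℤ] [∀ n : ℤ, (shiftFunctor D n).Additive]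
  [Pretriangulated D] {A : K ⥤ D} [A.CommShift ℤ] [A.IsTriangulated]

theorem Sur.of_shift {F X : K} (n : ℤ) (h : Sur A (F⟦n⟧) (X⟦n⟧)) : Sur A F X := fun e => by
  obtain ⟨x, hx⟩ := h ((A.commShiftIso n).hom.app F ≫ e⟦n⟧' ≫ (A.commShiftIso n).inv.app X)
  obtain ⟨x, rfl⟩ := (shiftFunctor K n).map_surjective x
  refine ⟨x, (shiftFunctor D n).map_injective ?_⟩
  have h1 := (A.commShiftIso n).hom.naturality x
  dsimp at h1
  rw [hx] at h1
  simpa using h1.symm

theorem Inj.of_shift {F X : K} (n : ℤ) (h : Inj A (F⟦n⟧) (X⟦n⟧)) : Inj A F X := fun x hx => by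
  refine (shiftFunctor K n).map_injective ((h _ ?_).trans (Functor.map_zero _ _ _).symm)
  have h1 := (A.commShiftIso n).hom.naturality x
  dsimp at h1
  rw [hx, Functor.map_zero, comp_zero] at h1
  exact (cancel_mono ((A.commShiftIso n).hom.app X)).1 (h1.trans zero_comp.symm)

theorem Sur.shift {F X : K} (a b : ℤ) (hab : a + b = 0) (h : Sur A (F⟦b⟧) X) : Sur A F (X⟦a⟧) :=
  Sur.of_shift b (h.of_iso (Iso.refl _) ((shiftFunctorCompIsoId K a b hab).app X))

theorem Inj.shift {F X : K} (a b : ℤ) (hab : a + b = 0) (h : Inj A (F⟦b⟧) X) : Inj A F (X⟦a⟧) :=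
  Inj.of_shift b (h.of_iso (Iso.refl _) ((shiftFunctorCompIsoId K a b hab).app X))

theorem LocS.of_shift {F : K} {X : ℕ ⥤ K} (n : ℤ) (h : LocS A (F⟦n⟧) (X ⋙ shiftFunctor K n)) :
    LocS A F X := fun j e => by
  obtain ⟨i, hi, x, hx⟩ := h j
    ((A.commShiftIso n).hom.app F ≫ e⟦n⟧' ≫ (A.commShiftIso n).inv.app (X.obj j))
  obtain ⟨x, rfl⟩ := (shiftFunctor K n).map_surjective (X := F) (Y := X.obj i) x
  refine ⟨i, hi, x, (shiftFunctor D n).map_injective ?_⟩
  have h1 := (A.commShiftIso n).hom.naturality x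
  dsimp at h1 hx
  rw [hx] at h1
  simpa using h1.symm

theorem LocI.of_shift {F : K} {X : ℕ ⥤ K} (n : ℤ) (h : LocI A (F⟦n⟧) (X ⋙ shiftFunctor K n)) :
    LocI A F X := fun j x hx => by
  obtain ⟨i, hi, h0⟩ := h j (x⟦n⟧') (by
    have h1 := (A.commShiftIso n).hom.naturality x
    dsimp at h1
    rw [hx, Functor.map_zero, comp_zero] at h1
    exact (cancel_mono ((A.commShiftIso n).hom.app (X.obj j))).1 (h1.trans zero_comp.symm))
  exact ⟨i, hi, (shiftFunctor K n).map_injective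
    ((Functor.map_comp _ _ _).trans (h0.trans (Functor.map_zero _ _ _).symm))⟩

/-- Two opposite shifts of a chain. -/
noncomputable def chainShift (X : ℕ ⥤ K) (a b : ℤ) (hab : a + b = 0) :
    (X ⋙ shiftFunctor K a) ⋙ shiftFunctor K b ≅ X :=
  Functor.associator _ _ _ ≪≫ Functor.isoWhiskerLeft X (shiftFunctorCompIsoId K a b hab) ≪≫
    X.rightUnitor

theorem LocS.shift {F : K} {X : ℕ ⥤ K} (a b : ℤ) (hab : a + b = 0) (h : LocS A (F⟦b⟧) X) :
    LocS A F (X ⋙ shiftFunctor K a) :=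
  LocS.of_shift b (h.of_retract (chainShift X a b hab).retract)

theorem LocI.shift {F : K} {X : ℕ ⥤ K} (a b : ℤ) (hab : a + b = 0) (h : LocI A (F⟦b⟧) X) :
    LocI A F (X ⋙ shiftFunctor K a) :=
  LocI.of_shift b (h.of_retract (chainShift X a b hab).retract)

theorem tgt_exact {F : K} (T : Triangle K) (hT : T ∈ distTriang K) (e : A.obj F ⟶ A.obj T.obj₂)
    (he : e ≫ A.map T.mor₂ = 0) : ∃ w, e = w ≫ A.map T.mor₁ :=
  Triangle.coyoneda_exact₂ _ (A.map_distinguished T hT) e he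

theorem sur_down {F W X Y : K} {f : W ⟶ X} {u : X ⟶ Y} {h : Y ⟶ W⟦(1 : ℤ)⟧}
    (hT : Triangle.mk f u h ∈ distTriang K) (h1 : Sur A F W)
    (h2 : Inj A F (W⟦(1 : ℤ)⟧)) (e : A.obj F ⟶ A.obj X) (x : F ⟶ Y)
    (hx : A.map x = e ≫ A.map u) : ∃ y, A.map y = e := by
  have h0 : u ≫ h = 0 := comp_distTriang_mor_zero₂₃ _ hT
  obtain ⟨y, rfl⟩ : ∃ y : F ⟶ X, x = y ≫ u := Triangle.coyoneda_exact₃ _ hT x (h2 (x ≫ h) (by
    rw [A.map_comp, hx, Category.assoc, ← A.map_comp, h0]; simp))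
  obtain ⟨w, hw⟩ : ∃ w : A.obj F ⟶ A.obj W, e - A.map y = w ≫ A.map f :=
    tgt_exact _ hT (e - A.map y) (show (e - A.map y) ≫ A.map u = 0 by
      rw [Preadditive.sub_comp, ← hx, A.map_comp, sub_self])
  obtain ⟨w, rfl⟩ := h1 w
  exact ⟨w ≫ f + y, by rw [A.map_add, A.map_comp, ← hw, sub_add_cancel]⟩

theorem inj_down {F W X Y : K} {f : W ⟶ X} {u : X ⟶ Y} {h : Y ⟶ W⟦(1 : ℤ)⟧}
    (hT : Triangle.mk f u h ∈ distTriang K) (h1 : Inj A F W)
    (h2 : Sur A F (Y⟦(-1 : ℤ)⟧)) (x : F ⟶ X) (hx : A.map x = 0) (hy : x ≫ u = 0) : x = 0 := by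
  obtain ⟨b, rfl⟩ : ∃ b : F ⟶ W, x = b ≫ f := Triangle.coyoneda_exact₂ _ hT x hy
  obtain ⟨g, hg, hg'⟩ : ∃ g : Y⟦(-1 : ℤ)⟧ ⟶ W, g ≫ f = 0 ∧
      ∀ e : A.obj F ⟶ A.obj W, e ≫ A.map f = 0 → ∃ w, e = w ≫ A.map g :=
    ⟨(Triangle.mk f u h).invRotate.mor₁, comp_distTriang_mor_zero₁₂ _ (inv_rot_of_distTriang _ hT),
      tgt_exact _ (inv_rot_of_distTriang _ hT)⟩
  obtain ⟨e, he⟩ := hg' (A.map b) (by rw [← hx, A.map_comp])
  obtain ⟨e, rfl⟩ := h2 e
  have h3 : b - e ≫ g = 0 := h1 _ (by rw [A.map_sub, A.map_comp, he, sub_self])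
  rw [sub_eq_zero.1 h3, Category.assoc, hg, comp_zero]

/-- `A` is bijective on morphisms from the objects of `P` to `X`. -/
def Good (A : K ⥤ D) (P : ObjectProperty K) (X : K) : Prop := ∀ F, P F → Sur A F X ∧ Inj A F X

/-- `A` is bijective, in the colimit along `X`, on morphisms from the objects of `P`. -/
def Loc (A : K ⥤ D) (P : ObjectProperty K) (X : ℕ ⥤ K) : Prop :=
  ∀ F, P F → LocS A F X ∧ LocI A F X

theorem Good.of_retract {P : ObjectProperty K} {X X' : K} (s : Retract X' X) (h : Good A P X) :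
    Good A P X' := fun F hF =>
  ⟨(h F hF).1.of_retract (Retract.refl F) s, (h F hF).2.of_retract (Retract.refl F) s⟩

theorem Good.shift {P : ObjectProperty K} (hP : ∀ F, P F → ∀ n : ℤ, P (F⟦n⟧)) {X : K}
    (h : Good A P X) (n : ℤ) : Good A P (X⟦n⟧) := fun F hF =>
  ⟨(h _ (hP F hF (-n))).1.shift n _ (add_neg_cancel n),
    (h _ (hP F hF (-n))).2.shift n _ (add_neg_cancel n)⟩

/-- The descending step of the vanishing lemma. -/
theorem step {P : ObjectProperty K} (hP : ∀ F, P F → ∀ n : ℤ, P (F⟦n⟧)) (X : ℕ ⥤ K)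
    (hX : Loc A P X)
    (hW : ∀ j : ℕ, ∃ (W : K) (f : W ⟶ X.obj j) (h : X.obj (j + 1) ⟶ W⟦(1 : ℤ)⟧),
      Triangle.mk f (X.map (homOfLE (Nat.le_succ j))) h ∈ distTriang K ∧ Good A P W) (j : ℕ) :
    Good A P (X.obj j) := by
  have hS : ∀ F, P F → ∀ j, Sur A F (X.obj j) := fun F hF j e => by
    obtain ⟨i, hi, hx⟩ := (hX F hF).1 j e
    induction i, hi using Nat.le_induction with
    | base => simpa using hx
    | succ i hi ih =>
      obtain ⟨x, hx⟩ := hx
      obtain ⟨W, f, h, hT, hW⟩ := hW i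
      refine ih (sur_down hT (hW F hF).1 (hW.shift hP 1 F hF).2 _ x ?_)
      rw [hx, Category.assoc, ← A.map_comp, chain_comp]
  refine fun F hF => ⟨hS F hF j, fun x hx => ?_⟩
  obtain ⟨i, hi, h0⟩ := (hX F hF).2 j x hx
  induction i, hi using Nat.le_induction with
  | base => simpa using h0
  | succ i hi ih =>
    obtain ⟨W, f, h, hT, hW⟩ := hW i
    refine ih (inj_down hT (hW F hF).2
      ((hS _ (hP F hF 1) (i + 1)).shift (-1) 1 (by simp)) _ (by rw [A.map_comp, hx, zero_comp]) ?_)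
    rw [Category.assoc, chain_comp, h0]

section Tri
variable {K' : Type*} [Category K'] [Preadditive K'] [HasZeroObject K'] [HasShift K' ℤ]
  [∀ n : ℤ, (shiftFunctor K' n).Additive] [Pretriangulated K'] (τ : ℕ ⥤ K' ⥤ K)
  [∀ j, (τ.obj j).CommShift ℤ] [∀ j, (τ.obj j).IsTriangulated]

theorem ex_of_dist (A : K ⥤ D) [A.CommShift ℤ] [A.IsTriangulated] (F : K) (T : Triangle K')
    (hT : T ∈ distTriang K') : Ex A F (τ.flip.map T.mor₁) (τ.flip.map T.mor₂) where
  zero j := comp_distTriang_mor_zero₁₂ _ ((τ.obj j).map_distinguished T hT)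
  src j := Triangle.coyoneda_exact₂ _ ((τ.obj j).map_distinguished T hT)
  tgt j := tgt_exact _ ((τ.obj j).map_distinguished T hT)

/-- The objects all of whose shifts are good in the colimit along the chain of functors `τ`. -/
def LocAll (A : K ⥤ D) (P : ObjectProperty K) : ObjectProperty K' :=
  fun X => ∀ n : ℤ, Loc A P (τ.flip.obj (X⟦n⟧))

variable {τ} {P : ObjectProperty K}

theorem Loc.of_retract {X X' : ℕ ⥤ K} (s : Retract X' X) (h : Loc A P X) : Loc A P X' :=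
  fun F hF => ⟨(h F hF).1.of_retract s, (h F hF).2.of_retract s⟩

theorem LocAll.loc {X : K'} (h : LocAll τ A P X) : Loc A P (τ.flip.obj X) :=
  (h 0).of_retract ((((shiftFunctorZero K' ℤ).app X).symm.retract).map τ.flip)

instance : (LocAll τ A P).IsStableUnderRetracts where
  of_retract r h n := (h n).of_retract ((r.map (shiftFunctor K' n)).map τ.flip)

instance : (LocAll τ A P).IsStableUnderShift ℤ where
  isStableUnderShiftBy a := ⟨fun X h n =>
    (h (a + n)).of_retract ((((shiftFunctorAdd K' a n).app X).symm.retract).map τ.flip)⟩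

theorem LocAll.ext_loc (T : Triangle K') (hT : T ∈ distTriang K') (h1 : LocAll τ A P T.obj₁)
    (h3 : LocAll τ A P T.obj₃) : Loc A P (τ.flip.obj T.obj₂) := fun F hF =>
  ⟨LocS.four (ex_of_dist τ A F T hT) (ex_of_dist τ A F _ (rot_of_distTriang T hT))
      (h1.loc F hF).1 (h3.loc F hF).1 (h1 1 F hF).2,
    LocI.four (ex_of_dist τ A F _ (inv_rot_of_distTriang T hT)) (ex_of_dist τ A F T hT)
      (h3 (-1) F hF).1 (h1.loc F hF).2 (h3.loc F hF).2⟩

instance : (LocAll τ A P).IsTriangulated where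
  exists_zero := ⟨0, isZero_zero _, fun n F _ => by
    have hz : ∀ j, IsZero ((τ.flip.obj ((0 : K')⟦n⟧)).obj j) := fun j =>
      (τ.obj j).map_isZero ((shiftFunctor K' n).map_isZero (isZero_zero _))
    exact ⟨fun j e => ⟨j, le_rfl, 0, (A.map_isZero (hz j)).eq_of_tgt _ _⟩,
      fun j x _ => ⟨j, le_rfl, (hz j).eq_of_tgt _ _⟩⟩⟩
  ext₂' T hT h1 h3 := ObjectProperty.le_isoClosure _ _ fun n =>
    LocAll.ext_loc _ (Triangle.shift_distinguished T hT n)
      ((LocAll τ A P).le_shift n _ h1) ((LocAll τ A P).le_shift n _ h3)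

end Tri

end

end Pool.Agent.Lib.MP_d3d358_ag.Van
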