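import Pool.Agent.Lib.MP_d3d358_ag.Th.HDefs
import Pool.Agent.Lib.MP_d3d358_ag.Th.VanA

/-! The vanishing lemma for towers of cocones. -/

set_option autoImplicit false
set_option linter.unusedSectionVars false

namespace Pool.Agent.Lib.MP_d3d358_ag.Th

open CategoryTheory Limits Pretriangulated

universe v u v' u'

section Cat

variable {K : Type u} [Category.{v} K] {D : Type u'} [Category.{v'} D]

theorem ypow_eq {Z : ℕ → K} (y : ∀ j, Z j ⟶ Z (j + 1)) (j s : ℕ) :
    ypow y j s = (Functor.ofSequence y).map (homOfLE (Nat.le_add_right j s)) := by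
  induction s with
  | zero => exact ((Functor.ofSequence y).map_id j).symm
  | succ s ih =>
    rw [ypow, ih, ← Functor.ofSequence_map_homOfLE_succ y (j + s)]
    exact Van.chain_comp (Functor.ofSequence y) _ _

theorem loc_iff [Preadditive K] [Preadditive D] (A : K ⥤ D) (F : K) (X : ℕ ⥤ K)
    (y : ∀ j, X.obj j ⟶ X.obj (j + 1)) (hy : ∀ j, X.map (homOfLE (Nat.le_succ j)) = y j) :
    Loc A F y ↔ Van.LocS A F X ∧ Van.LocI A F X := by
  have h : ∀ j s, ypow y j s = X.map (homOfLE (Nat.le_add_right j s)) := fun j s => by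
    induction s with
    | zero => exact (X.map_id j).symm
    | succ s ih => rw [ypow, ih, ← hy]; exact Van.chain_comp X _ _
  refine ⟨fun H => ⟨fun j e => ?_, fun j x hx => ?_⟩, fun H j => ⟨fun e => ?_, fun x hx => ?_⟩⟩
  · obtain ⟨s, x, hx⟩ := (H j).1 e
    exact ⟨j + s, Nat.le_add_right j s, x, by rw [hx, h]⟩
  · obtain ⟨s, hs⟩ := (H j).2 x hx
    exact ⟨j + s, Nat.le_add_right j s, by rw [← h, hs]⟩
  · obtain ⟨i, hi, x, hx⟩ := H.1 j e
    obtain ⟨s, rfl⟩ := Nat.exists_eq_add_of_le hi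
    exact ⟨s, x, by rw [hx, h]⟩
  · obtain ⟨i, hi, h0⟩ := H.2 j x hx
    obtain ⟨s, rfl⟩ := Nat.exists_eq_add_of_le hi
    exact ⟨s, by rw [h, h0]⟩

/-- The step map between two powers of an endofunctor. -/
def pwStep {T : K ⥤ K} (y : 𝟭 K ⟶ T) (j : ℕ) : pw T j ⟶ pw T (j + 1) where
  app X := y.app ((pw T j).obj X)
  naturality _ _ f := y.naturality ((pw T j).map f)

/-- The chain of the powers of an endofunctor. -/
def pwChain {T : K ⥤ K} (y : 𝟭 K ⟶ T) : ℕ ⥤ K ⥤ K := Functor.ofSequence (pwStep y)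

theorem pwChain_succ {T : K ⥤ K} (y : 𝟭 K ⟶ T) (X : K) (j : ℕ) :
    ((pwChain y).flip.obj X).map (homOfLE (Nat.le_succ j)) = y.app ((pw T j).obj X) :=
  congrArg (fun t => NatTrans.app t X) (Functor.ofSequence_map_homOfLE_succ (pwStep y) j)

/-- The functor commutes with its powers. -/
def pwSwap (T : K ⥤ K) : ∀ j : ℕ, T ⋙ pw T j ≅ pw T (j + 1)
  | 0 => T.rightUnitor ≪≫ T.leftUnitor.symm
  | j + 1 => Functor.isoWhiskerRight (pwSwap T j) T

theorem pw_map_comp_swap {T : K ⥤ K} (y : 𝟭 K ⟶ T) (hy : ∀ X, T.map (y.app X) = y.app (T.obj X))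
    (X : K) (j : ℕ) :
    (pw T j).map (show X ⟶ T.obj X from y.app X) ≫ (pwSwap T j).hom.app X =
      y.app ((pw T j).obj X) := by
  induction j with
  | zero => exact (congrArg (y.app X ≫ ·) (Category.id_comp _)).trans (Category.comp_id _)
  | succ j ih =>
    exact (T.map_comp _ _).symm.trans ((congrArg T.map ih).trans (hy _))

/-- Multiplication by `y` along the powers of `T`. -/
abbrev pwSeq {T : K ⥤ K} (y : 𝟭 K ⟶ T) (X : K) (j : ℕ) : (pw T j).obj X ⟶ (pw T (j + 1)).obj X :=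
  y.app ((pw T j).obj X)

theorem loc_pw_iff [Preadditive K] [Preadditive D] (A : K ⥤ D) (F : K) {T : K ⥤ K} (y : 𝟭 K ⟶ T)
    (X : K) : Loc A F (pwSeq y X) ↔
      Van.LocS A F ((pwChain y).flip.obj X) ∧ Van.LocI A F ((pwChain y).flip.obj X) :=
  loc_iff A F ((pwChain y).flip.obj X) (pwSeq y X) (pwChain_succ y X)

theorem bij_iff [Preadditive K] [Preadditive D] (A : K ⥤ D) [A.Additive] (F X : K) :
    Bij A F X ↔ Van.Sur A F X ∧ Van.Inj A F X := Van.bijective_iff F X

noncomputable instance pwCommShift [HasShift K ℤ] (T : K ⥤ K) [T.CommShift ℤ] :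
    ∀ j : ℕ, (pw T j).CommShift ℤ
  | 0 => inferInstanceAs ((𝟭 K).CommShift ℤ)
  | j + 1 => letI := pwCommShift T j; inferInstanceAs ((pw T j ⋙ T).CommShift ℤ)

end Cat

section Tri

variable {K : Type u} [Category.{v} K] {D : Type u'} [Category.{v'} D]
  [Preadditive K] [HasZeroObject K] [HasShift K ℤ] [∀ n : ℤ, (shiftFunctor K n).Additive]
  [Pretriangulated K] [Preadditive D] [HasZeroObject D] [HasShift D ℤ]
  [∀ n : ℤ, (shiftFunctor D n).Additive] [Pretriangulated D]
  {T : K ⥤ K} [T.CommShift ℤ] [T.IsTriangulated]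

instance pwIsTriangulated (T : K ⥤ K) [T.CommShift ℤ] [T.IsTriangulated] (j : ℕ) :
    (pw T j).IsTriangulated := by
  induction j with
  | zero => exact inferInstanceAs (𝟭 K).IsTriangulated
  | succ j ih => exact inferInstanceAs (pw T j ⋙ T).IsTriangulated

noncomputable instance (y : 𝟭 K ⟶ T) (j : ℕ) : ((pwChain y).obj j).CommShift ℤ :=
  pwCommShift T j

instance (y : 𝟭 K ⟶ T) (j : ℕ) : ((pwChain y).obj j).IsTriangulated := pwIsTriangulated T j

theorem Tower.nonempty {r : ℕ} (y : Fin r → (𝟭 K ⟶ T)) (X : K) : Nonempty (Tower y X) := by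
  have h : ∀ (i : ℕ) (Z : K), ∃ W : K, ∀ hi : i < r, ∃ (a : W ⟶ Z) (d : T.obj Z ⟶ W⟦(1 : ℤ)⟧),
      Triangle.mk a (show Z ⟶ T.obj Z from (y ⟨i, hi⟩).app Z) d ∈ distTriang K := fun i Z => by
    by_cases hi : i < r
    · obtain ⟨W, a, d, hT⟩ :=
        distinguished_cocone_triangle₁ (show Z ⟶ T.obj Z from (y ⟨i, hi⟩).app Z)
      exact ⟨W, fun _ => ⟨a, d, hT⟩⟩
    · exact ⟨Z, fun h => (hi h).elim⟩
  choose W a d hT using h
  exact ⟨⟨fun i => Nat.rec X W i, Iso.refl _, fun i => a i _ i.2, fun i => d i _ i.2,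
    fun i => hT i _ i.2⟩⟩

/-- The twisted triangles of a cocone. -/
theorem pw_dist (y : 𝟭 K ⟶ T) (hy : ∀ X, T.map (y.app X) = y.app (T.obj X)) {W X : K}
    {a : W ⟶ X} {d : T.obj X ⟶ W⟦(1 : ℤ)⟧}
    (h : Triangle.mk a (show X ⟶ T.obj X from y.app X) d ∈ distTriang K) (j : ℕ) :
    ∃ d' : (pw T (j + 1)).obj X ⟶ ((pw T j).obj W)⟦(1 : ℤ)⟧,
      Triangle.mk ((pw T j).map a) (pwSeq y X j) d' ∈ distTriang K := by
  refine ⟨(pwSwap T j).inv.app X ≫ (pw T j).map d ≫ ((pw T j).commShiftIso 1).hom.app W,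
    isomorphic_distinguished _ ((pw T j).map_distinguished _ h) _ (Iso.symm ?_)⟩
  refine Triangle.isoMk _ _ (Iso.refl _) (Iso.refl _) ((pwSwap T j).app X)
    ((Category.comp_id _).trans (Category.id_comp _).symm)
    ((pw_map_comp_swap y hy X j).trans (Category.id_comp _).symm) ?_
  refine Eq.trans ?_ (Iso.hom_inv_id_app_assoc (pwSwap T j) X _).symm
  exact (congrArg (_ ≫ ·) ((shiftFunctor K (1 : ℤ)).map_id _)).trans (Category.comp_id _)

variable (A : K ⥤ D) [A.CommShift ℤ] [A.IsTriangulated]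

/-- The vanishing lemma. -/
theorem Tower.van {r : ℕ} {y : Fin r → (𝟭 K ⟶ T)}
    (hy : ∀ i X, T.map ((y i).app X) = (y i).app (T.obj X)) {X : K} (τ : Tower y X)
    {P : ObjectProperty K} (hP : ∀ F, P F → ∀ n : ℤ, P (F⟦n⟧))
    (hloc : ∀ (i : Fin r) (F : K), P F → Loc A F (pwSeq (y i) (τ.Z i)))
    (htop : ∀ (j : ℕ) (F : K), P F → Bij A F ((pw T j).obj (τ.Z r))) (j : ℕ) (F : K) (hF : P F) :
    Bij A F ((pw T j).obj X) := by
  have h : ∀ i, i ≤ r → ∀ j, Van.Good A P ((pw T j).obj (τ.Z i)) := fun i hi => by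
    induction hi using Nat.decreasingInduction with
    | self => exact fun j F hF => (bij_iff A _ _).1 (htop j F hF)
    | of_succ i hi ih =>
      refine Van.step hP ((pwChain (y ⟨i, hi⟩)).flip.obj (τ.Z i))
        (fun F hF => (loc_pw_iff A F _ _).1 (hloc ⟨i, hi⟩ F hF)) fun j => ?_
      obtain ⟨d, hd⟩ := pw_dist (y ⟨i, hi⟩) (hy _) (τ.dist ⟨i, hi⟩) j
      exact ⟨_, (pw T j).map (τ.a ⟨i, hi⟩), d, (pwChain_succ (y ⟨i, hi⟩) (τ.Z i) j).symm ▸ hd, ih j⟩
  exact (bij_iff A _ _).2 ((h 0 (Nat.zero_le r) j).of_retract ((pw T j).mapIso τ.e.symm).retract F hF)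

/-- All shifts of the object are good after inverting `y`. -/
def LocP (P : ObjectProperty K) (y : 𝟭 K ⟶ T) : ObjectProperty K :=
  fun X => ∀ (n : ℤ) (F : K), P F → Loc A F (pwSeq y (X⟦n⟧))

theorem locP_eq (P : ObjectProperty K) (y : 𝟭 K ⟶ T) :
    LocP A P y = Van.LocAll (pwChain y) A P := by
  ext X
  exact forall_congr' fun n => forall_congr' fun F => imp_congr_right fun _ => loc_pw_iff A F y _

instance (P : ObjectProperty K) (y : 𝟭 K ⟶ T) : (LocP A P y).IsTriangulated := by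
  rw [locP_eq]; infer_instance

instance (P : ObjectProperty K) (y : 𝟭 K ⟶ T) : (LocP A P y).IsStableUnderRetracts := by
  rw [locP_eq]; infer_instance

theorem LocP.loc {P : ObjectProperty K} {y : 𝟭 K ⟶ T} {X : K} (h : LocP A P y X) (F : K)
    (hF : P F) : Loc A F (pwSeq y X) := by
  rw [locP_eq] at h
  exact (loc_pw_iff A F y X).2 (h.loc F hF)

/-- The chain of a shifted object is the shifted chain. -/
noncomputable def pwChainShift (y : 𝟭 K ⟶ T) [NatTrans.CommShift y ℤ] (X : K) (n : ℤ) :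
    (pwChain y).flip.obj (X⟦n⟧) ≅ (pwChain y).flip.obj X ⋙ shiftFunctor K n :=
  NatIso.ofComponents (fun j => ((pw T j).commShiftIso n).app X) fun {i j} f =>
    (NatTrans.ofSequence (F := (pwChain y).flip.obj (X⟦n⟧))
      (G := (pwChain y).flip.obj X ⋙ shiftFunctor K n)
      (fun j => ((pw T j).commShiftIso n).hom.app X) fun j => by
        have h1 := NatTrans.shift_app_comm y n ((pw T j).obj X)
        rw [Functor.commShiftIso_id_hom_app] at h1
        have h2 := y.naturality (((pw T j).commShiftIso n).hom.app X)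
        have h3 := Functor.commShiftIso_comp_hom_app (pw T j) T n X
        rw [Functor.comp_map, pwChain_succ, pwChain_succ]
        refine (congrArg (_ ≫ ·) h3).trans ((Category.assoc _ _ _).symm.trans ?_)
        refine (congrArg (· ≫ _) h2.symm).trans ((Category.assoc _ _ _).trans ?_)
        exact congrArg (_ ≫ ·) (h1.symm.trans (Category.id_comp _))).naturality f

theorem LocP.of_loc {P : ObjectProperty K} (hP : ∀ F, P F → ∀ n : ℤ, P (F⟦n⟧)) {y : 𝟭 K ⟶ T}
    [NatTrans.CommShift y ℤ] {X : K} (h : ∀ F, P F → Loc A F (pwSeq y X)) : LocP A P y X :=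
  fun n F hF => by
    have h1 := (loc_pw_iff A _ y X).1 (h _ (hP F hF (-n)))
    exact (loc_pw_iff A F y _).2
      ⟨(h1.1.shift n _ (add_neg_cancel n)).of_retract (pwChainShift y X n).retract,
        (h1.2.shift n _ (add_neg_cancel n)).of_retract (pwChainShift y X n).retract⟩

end Tri

section Shift

variable {P : Type u} [Category.{v} P] [Preadditive P] {T : P ⥤ P} [T.Additive] (y : 𝟭 P ⟶ T)

/-- The natural map on complexes. -/
def natC (X : CochainComplex P ℤ) : X ⟶ (T.mapHomologicalComplex (ComplexShape.up ℤ)).obj X where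
  f i := y.app (X.X i)
  comm' i j _ := (y.naturality (X.d i j)).symm

theorem natK_app (X : CochainComplex P ℤ) :
    (natK y).app ((HomotopyCategory.quotient P (ComplexShape.up ℤ)).obj X) =
      (HomotopyCategory.quotient P (ComplexShape.up ℤ)).map (natC y X) := rfl

instance natK_commShift : NatTrans.CommShift (natK y) ℤ where
  shift_comm a := by
    ext ⟨X⟩
    set Q := HomotopyCategory.quotient P (ComplexShape.up ℤ)
    have h1 : (KF T).map ((Q.commShiftIso a).hom.app X) ≫ ((KF T).commShiftIso a).hom.app (Q.obj X) =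
        Q.map (((T.mapHomologicalComplex (ComplexShape.up ℤ)).commShiftIso a).hom.app X) ≫
          (Q.commShiftIso a).hom.app ((T.mapHomologicalComplex (ComplexShape.up ℤ)).obj X) := by
      have h := NatTrans.shift_app_comm (T.mapHomotopyCategoryFactors (ComplexShape.up ℤ)).hom a X
      simp only [Functor.commShiftIso_comp_hom_app] at h
      refine Eq.trans ?_ (h.trans (Category.id_comp _))
      exact ((congrArg (_ ≫ ·) ((shiftFunctor (HK P) a).map_id _)).trans (Category.comp_id _)).symm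
    have h2 : (Q.commShiftIso a).hom.app X ≫ (natK y).app ((Q.obj X)⟦a⟧) =
        Q.map (natC y (X⟦a⟧)) ≫ (KF T).map ((Q.commShiftIso a).hom.app X) :=
      (natK y).naturality ((Q.commShiftIso a).hom.app X)
    have h3 : natC y (X⟦a⟧) ≫
        ((T.mapHomologicalComplex (ComplexShape.up ℤ)).commShiftIso a).hom.app X =
        (natC y X)⟦a⟧' := by
      ext i
      exact Category.comp_id _
    have h4 : (Q.map (natC y X))⟦a⟧' =
        (natK y).app ((Q.obj X)⟦a⟧) ≫ ((KF T).commShiftIso a).hom.app (Q.obj X) := by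
      refine (cancel_epi ((Q.commShiftIso a).hom.app X)).1 (Eq.symm ?_)
      refine (Category.assoc _ _ _).symm.trans ((congrArg (· ≫ _) h2).trans ?_)
      refine (Category.assoc _ _ _).trans ((congrArg (_ ≫ ·) h1).trans ?_)
      refine (Category.assoc _ _ _).symm.trans ((congrArg (· ≫ _) (Q.map_comp _ _).symm).trans ?_)
      exact (congrArg (Q.map · ≫ _) h3).trans ((Q.commShiftIso a).hom.naturality (natC y X))
    rw [NatTrans.comp_app, NatTrans.comp_app, Functor.commShiftIso_id_hom_app]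
    exact (Category.id_comp _).trans h4

theorem natK_comm (hy : ∀ X, T.map (y.app X) = y.app (T.obj X)) (X : HK P) :
    (KF T).map ((natK y).app X) = (natK y).app ((KF T).obj X) := by
  obtain ⟨X⟩ := X
  have h : (T.mapHomologicalComplex (ComplexShape.up ℤ)).map (natC y X) =
      natC y ((T.mapHomologicalComplex (ComplexShape.up ℤ)).obj X) := by
    ext i
    exact hy _
  exact congrArg (HomotopyCategory.quotient P (ComplexShape.up ℤ)).map h

end Shift

end Pool.Agent.Lib.MP_d3d358_ag.Th
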